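import Mathlib
import Pool.Agent.Lib.MP_72f1d0_gt.Defs3

/-! Bands around vertical circles, phase functions and angles. -/

open scoped ContDiff Topology
open Set Filter

namespace Pool.Agent.Lib.MP_72f1d0_gt

namespace Band

lemma fract_per : Per fun q : Q => Int.fract q.1 := fun q m => by
  simp only [Prod.fst_add, lat_fst, Int.fract_add_intCast]

lemma isClosed_band {a b : ℝ} (ha : 0 ≤ a) (hb : b < 1) :
    IsClosed {q : Q | a ≤ Int.fract q.1 ∧ Int.fract q.1 ≤ b} := by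
  have h1 : IsClosed ((fun x : ℝ => (x : AddCircle (1 : ℝ))) '' Icc a b) :=
    (isCompact_Icc.image (AddCircle.continuous_mk' 1)).isClosed
  have h2 := h1.preimage ((AddCircle.continuous_mk' (1 : ℝ)).comp (continuous_fst (X := ℝ) (Y := ℝ)))
  convert h2 using 1
  ext q
  constructor
  · intro h
    exact ⟨Int.fract q.1, h, AddCircle.coe_fract q.1⟩
  · rintro ⟨y, hy, e⟩
    have e' : ((y : ℝ) : AddCircle (1 : ℝ)) = (Int.fract q.1 : ℝ) := by
      rw [AddCircle.coe_fract]; exact e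
    have := (AddCircle.coe_eq_coe_iff_of_mem_Ico (p := (1 : ℝ)) (a := 0)
      ⟨ha.trans hy.1, by linarith [hy.2]⟩
      ⟨Int.fract_nonneg _, by simpa using Int.fract_lt_one q.1⟩).1 e'
    show a ≤ _ ∧ _ ≤ b
    rw [← this]
    exact hy

lemma isOpen_band {a b : ℝ} (ha : 0 ≤ a) :
    IsOpen {q : Q | a < Int.fract q.1 ∧ Int.fract q.1 < b} := by
  rw [isOpen_iff_mem_nhds]
  intro q hq
  have h1 : q.1 ≠ ⌊q.1⌋ := fun h => by
    have : Int.fract q.1 = 0 := by rw [Int.fract, ← h, sub_self]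
    linarith [hq.1]
  have h2 : ContinuousAt (fun q : Q => Int.fract q.1) q :=
    (continuousAt_fract h1).comp continuous_fst.continuousAt
  exact h2.preimage_mem_nhds (Ioo_mem_nhds hq.1 hq.2)

lemma per_int {Y : Type*} {g : ℝ → Y} (h : ∀ t, g (t + 1) = g t) (t : ℝ) (n : ℤ) :
    g (t + n) = g t := by
  have := (show Function.Periodic g 1 from h).int_mul n t
  rwa [mul_one] at this

lemma per_snd {Y : Type*} {Λ : Q → Y} (h : ∀ q, Λ (q + (0, 1)) = Λ q) (s t : ℝ) (n : ℤ) :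
    Λ (s, t + n) = Λ (s, t) :=
  per_int (g := fun t => Λ (s, t)) (fun t => by simpa using h (s, t)) t n

/-- A phase function with prescribed direction of the gradient along a circle. -/
lemma phase {ϑ : ℝ → ℝ} (sϑ : ContDiff ℝ ∞ ϑ) (pϑ : ∀ t, ϑ (t + 1) = ϑ t) (s₀ : ℝ) :
    ∃ (φ : Q → ℝ) (k : ℝ), 0 < k ∧ ContDiff ℝ ∞ φ ∧
      (∀ m, ∃ n : ℤ, ∀ q, φ (q + lat m) = φ q + n) ∧
      ∀ t, fderiv ℝ φ (s₀, t) (1, 0) = k * Real.cos (ϑ t) ∧
        fderiv ℝ φ (s₀, t) (0, 1) = k * Real.sin (ϑ t) := by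
  have cs : Continuous fun t => Real.sin (ϑ t) := Real.continuous_sin.comp sϑ.continuous
  have ps : Function.Periodic (fun t => Real.sin (ϑ t)) 1 := fun t => by simp only [pϑ]
  set R : ℝ → ℝ := fun t => ∫ x in (0 : ℝ)..t, Real.sin (ϑ x) with hR
  have dR : ∀ t, HasDerivAt R (Real.sin (ϑ t)) t := fun t =>
    (cs.integral_hasStrictDerivAt 0 t).hasDerivAt
  have sR : ContDiff ℝ ∞ R := by
    rw [contDiff_infty_iff_deriv]
    refine ⟨fun t => (dR t).differentiableAt, ?_⟩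
    rw [show deriv R = fun t => Real.sin (ϑ t) from funext fun t => (dR t).deriv]
    exact Real.contDiff_sin.comp sϑ
  have pR : ∀ t (n : ℤ), R (t + n) = R t + n * R 1 := fun t n => by
    have h1 := (ps.zsmul n).intervalIntegral_add_eq_add 0 t fun a b => cs.intervalIntegrable a b
    have h2 := ps.intervalIntegral_add_zsmul_eq n 0 fun a b => cs.intervalIntegrable a b
    rw [h2] at h1
    simpa [hR] using h1
  obtain ⟨k, hk, n, hn⟩ : ∃ k : ℝ, 0 < k ∧ ∃ n : ℤ, k * R 1 = n := by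
    rcases lt_trichotomy (R 1) 0 with h | h | h
    · exact ⟨-(R 1)⁻¹, by simpa using h, -1, by rw [neg_mul, inv_mul_cancel₀ h.ne]; simp⟩
    · exact ⟨1, one_pos, 0, by simp [h]⟩
    · exact ⟨(R 1)⁻¹, inv_pos.2 h, 1, by rw [inv_mul_cancel₀ h.ne']; simp⟩
  have hpi : (2 * Real.pi) ≠ 0 := by positivity
  have sφ : ContDiff ℝ ∞ fun q : Q => k * (Real.cos (ϑ q.2) *
      (Real.sin (2 * Real.pi * (q.1 - s₀)) / (2 * Real.pi)) + R q.2) := by
    have h1 : ContDiff ℝ ∞ fun q : Q => ϑ q.2 := sϑ.comp contDiff_snd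
    have h2 : ContDiff ℝ ∞ fun q : Q => R q.2 := sR.comp contDiff_snd
    fun_prop
  refine ⟨_, k, hk, sφ, fun m => ⟨m.2 * n, fun q => ?_⟩, fun t => ⟨?_, ?_⟩⟩
  · have e : 2 * Real.pi * (q.1 + m.1 - s₀) = 2 * Real.pi * (q.1 - s₀) + m.1 * (2 * Real.pi) := by
      ring
    simp only [Prod.fst_add, Prod.snd_add, lat_fst, lat_snd, per_int pϑ, pR, e,
      Real.sin_add_int_mul_two_pi]
    push_cast
    rw [← hn]; ring
  · have h1 : HasDerivAt (fun s : ℝ => 2 * Real.pi * (s₀ + s - s₀)) (2 * Real.pi) 0 := by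
      simpa using ((hasDerivAt_id (0 : ℝ)).const_mul (2 * Real.pi))
    have h2 := (((h1.sin.div_const (2 * Real.pi)).const_mul (Real.cos (ϑ t))).add_const
      (R t)).const_mul k
    have h3 := ((sφ.differentiable (by simp) (s₀, t)).hasFDerivAt.comp_hasDerivAt_of_eq (0 : ℝ)
      (f := fun s : ℝ => ((s₀ + s, t) : Q))
      (((hasDerivAt_id (0 : ℝ)).const_add s₀).prodMk (hasDerivAt_const _ t)) (by simp)).unique h2
    rw [h3]
    simp [hpi]
  · have h2 : HasDerivAt (fun s : ℝ => k * (Real.cos (ϑ s) *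
        (Real.sin (2 * Real.pi * (s₀ - s₀)) / (2 * Real.pi)) + R s)) (k * Real.sin (ϑ t)) t := by
      simpa using (dR t).const_mul k
    exact ((sφ.differentiable (by simp) (s₀, t)).hasFDerivAt.comp_hasDerivAt_of_eq t
      (f := fun s : ℝ => ((s₀, s) : Q))
      ((hasDerivAt_const _ s₀).prodMk (hasDerivAt_id t)) rfl).unique h2

/-- The component of `a` in the direction of the angle `ϑ`. -/
noncomputable def hp (a : ℂ) (ϑ : ℝ) : ℝ := a.re * Real.cos ϑ + a.im * Real.sin ϑ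

lemma hp_exp (L : ℂ) (ϑ : ℝ) : hp (Complex.exp L) ϑ = Real.exp L.re * Real.cos (L.im - ϑ) := by
  rw [hp, Complex.exp_re, Complex.exp_im, Real.cos_sub]; ring

lemma hp_pos {L : ℂ} {ϑ : ℝ} (h : |L.im - ϑ| < Real.pi / 2) : 0 < hp (Complex.exp L) ϑ := by
  rw [hp_exp]
  exact mul_pos (Real.exp_pos _) (Real.cos_pos_of_mem_Ioo (abs_lt.1 h))

lemma of_hp_pos {L : ℂ} {ϑ : ℝ} (h : |L.im - ϑ| < 3 * Real.pi / 2)
    (h' : 0 < hp (Complex.exp L) ϑ) : |L.im - ϑ| < Real.pi / 2 := by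
  rw [hp_exp] at h'
  have h1 : 0 < Real.cos |L.im - ϑ| := by
    rw [Real.cos_abs]; exact (mul_pos_iff_of_pos_left (Real.exp_pos _)).1 h'
  by_contra h2
  have := Real.cos_nonpos_of_pi_div_two_le_of_le (not_lt.1 h2) (by linarith)
  linarith

lemma slit {a a' : ℂ} {x y : ℝ} (h : 0 < x * a.re + y * a.im) (h' : 0 < x * a'.re + y * a'.im) :
    a' / a ∈ Complex.slitPlane := by
  have ha : a ≠ 0 := by
    rintro rfl
    simp at h
  by_contra hc
  rw [Complex.mem_slitPlane_iff, not_or, not_lt, not_not] at hc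
  have e : a' = a' / a * a := by field_simp
  rw [e, Complex.mul_re, Complex.mul_im, hc.2] at h'
  nlinarith [mul_nonneg (neg_nonneg.2 hc.1) h.le]

@[fun_prop] lemma continuous_aa : Continuous aa := by
  have : aa = fun A => ((al A.2 : ℝ) : ℂ) + ((-al A.1 : ℝ) : ℂ) * Complex.I := by
    funext A; exact Complex.mk_eq_add_mul_I _ _
  rw [this]
  fun_prop

lemma aa_ne {A : G × G} (h : dl A ≠ 0) : aa A ≠ 0 := fun h0 => by
  have h1 : A.2.2.re = 0 := congrArg Complex.re h0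
  have h2 : -A.1.2.re = 0 := congrArg Complex.im h0
  exact h (by simp [dl, h1, neg_eq_zero.1 h2])

end Band

end Pool.Agent.Lib.MP_72f1d0_gt
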