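import Mathlib
import Pool.Agent.Lib.MP_72f1d0_gt.Defs3

/-! Elementary properties of the symmetries. -/

open scoped ContDiff Topology
open Set Filter

namespace Pool.Agent.Lib.MP_72f1d0_gt

namespace SymB

lemma EE_apply (w x : ℝ) (v : G) :
    EE w x v = (⟨x * v.1.re, w * v.1.im⟩, ⟨w * v.2.re, w * x * v.2.im⟩) := by
  refine Prod.ext (Complex.ext ?_ ?_) (Complex.ext ?_ ?_) <;> simp [EE]

lemma LL_apply (k x w : ℝ) (v : G) :
    LL k x w v = (⟨k * v.1.re, v.1.im⟩, ⟨x * v.2.re, w * v.2.im⟩) := by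
  refine Prod.ext (Complex.ext ?_ ?_) (Complex.ext ?_ ?_) <;> simp [LL]

lemma EE_EE {w x : ℝ} (hw : w = 1 ∨ w = -1) (hx : x = 1 ∨ x = -1) (v : G) :
    EE w x (EE w x v) = v := by
  rw [EE_apply, EE_apply]
  rcases hw with rfl | rfl <;> rcases hx with rfl | rfl <;>
    refine Prod.ext (Complex.ext ?_ ?_) (Complex.ext ?_ ?_) <;> simp

lemma EE_comm (w x w' x' : ℝ) (v : G) : EE w x (EE w' x' v) = EE w' x' (EE w x v) := by
  simp only [EE_apply]
  refine Prod.ext (Complex.ext ?_ ?_) (Complex.ext ?_ ?_) <;> simp <;> ring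

lemma rho_add (k w x : ℝ) (A B : G × G) : rho k w x (A + B) = rho k w x A + rho k w x B := by
  simp [rho]

lemma rho_sub (k w x : ℝ) (A B : G × G) : rho k w x (A - B) = rho k w x A - rho k w x B := by
  simp [rho, smul_sub]

lemma rho_zero (k w x : ℝ) : rho k w x 0 = 0 := by simp [rho]

lemma rho_comm (k w x k' w' x' : ℝ) (A : G × G) :
    rho k w x (rho k' w' x' A) = rho k' w' x' (rho k w x A) := by
  simp only [rho, map_smul, EE_comm w x w' x', smul_comm k k']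

lemma rho_rho {k w x : ℝ} (hk : k = 1 ∨ k = -1) (hw : w = 1 ∨ w = -1) (hx : x = 1 ∨ x = -1)
    (A : G × G) : rho k w x (rho k w x A) = A := by
  simp only [rho, map_smul, EE_EE hw hx, smul_smul]
  rcases hk with rfl | rfl <;> simp

@[fun_prop] lemma continuous_rho (k w x : ℝ) : Continuous (rho k w x) := by
  unfold rho; fun_prop

lemma dl_rho (k w x : ℝ) (A : G × G) : dl (rho k w x A) = k * x * w ^ 2 * dl A := by
  simp only [dl, rho, EE_apply, Prod.smul_snd, Complex.smul_re, Complex.smul_im, smul_eq_mul]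
  ring

lemma inj_rho {k w x : ℝ} (hk : k = 1 ∨ k = -1) (hw : w = 1 ∨ w = -1) (hx : x = 1 ∨ x = -1)
    {A : G × G} (h : Inj A) : Inj (rho k w x A) := by
  intro a b hab
  have h1 := congrArg (EE w x) hab
  simp only [rho, map_add, map_smul, EE_EE hw hx, map_zero, smul_smul] at h1
  obtain ⟨h2, h3⟩ := h _ _ h1
  refine ⟨?_, h3⟩
  rcases hk with rfl | rfl <;> simpa using h2

/-- The linear part of `aff`. -/
noncomputable def linA (k : ℝ) : Q →L[ℝ] Q :=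
  (k • ContinuousLinearMap.fst ℝ ℝ ℝ).prod (ContinuousLinearMap.snd ℝ ℝ ℝ)

lemma linA_apply (k : ℝ) (q : Q) : linA k q = (k * q.1, q.2) := by simp [linA]

lemma aff_eq (k : ℝ) (v q : Q) : aff k v q = linA k q + v := by
  rw [linA_apply]; rfl

lemma hasFDerivAt_aff (k : ℝ) (v q : Q) : HasFDerivAt (aff k v) (linA k) q := by
  have : aff k v = fun q => linA k q + v := funext (aff_eq k v)
  rw [this]
  exact (linA k).hasFDerivAt.add_const v

lemma aff_smooth (k : ℝ) (v : Q) : ContDiff ℝ ∞ (aff k v) := by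
  have : aff k v = fun q => linA k q + v := funext (aff_eq k v)
  rw [this]
  exact (linA k).contDiff.add contDiff_const

lemma aff_lat {k : ℝ} (hk : k = 1 ∨ k = -1) (v : Q) (m : ℤ × ℤ) :
    ∃ m', ∀ q, aff k v (q + lat m) = aff k v q + lat m' := by
  rcases hk with rfl | rfl
  · exact ⟨m, fun q => by ext <;> simp [aff] <;> ring⟩
  · exact ⟨(-m.1, m.2), fun q => by ext <;> simp [aff] <;> ring⟩

/-- Naturality of the differential in frame coordinates. -/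
lemma dd_nat {c : Ctx} {k w x : ℝ} (hk : k = 1 ∨ k = -1) {v : Q} {L : G →L[ℝ] G} {b : G}
    (compat : ∀ p a, c.e (L p + b) (EE w x a) = L (c.e p a)) {g g' : Q → G} {q : Q}
    (hg : DifferentiableAt ℝ g (aff k v q)) (hg' : DifferentiableAt ℝ g' q)
    (h : ∀ᶠ y in 𝓝 q, g (aff k v y) = L (g' y) + b) :
    dd c g (aff k v q) = rho k w x (dd c g' q) := by
  have hom : ∀ p u, c.om (L p + b) (L u) = EE w x (c.om p u) := fun p u => by
    have := compat p (c.om p u)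
    rw [c.e_om] at this
    rw [← this, c.om_e]
  have h1 : HasFDerivAt (fun y => g (aff k v y)) ((fderiv ℝ g (aff k v q)).comp (linA k)) q :=
    hg.hasFDerivAt.comp q (hasFDerivAt_aff k v q)
  have h2 : HasFDerivAt (fun y => L (g' y) + b) (L.comp (fderiv ℝ g' q)) q :=
    (L.hasFDerivAt.comp q hg'.hasFDerivAt).add_const b
  have h3 := h1.unique (h2.congr_of_eventuallyEq h)
  have h4 : ∀ u, fderiv ℝ g (aff k v q) (linA k u) = L (fderiv ℝ g' q u) := fun u =>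
    congrArg (fun T : Q →L[ℝ] G => T u) h3
  have h5 := h4 (1, 0)
  have h6 := h4 (0, 1)
  rw [linA_apply] at h5 h6
  have e1 : ((1, 0) : Q) = k • ((k * 1, 0) : Q) := by
    rcases hk with rfl | rfl <;> simp
  simp only [mul_zero] at h6
  unfold dd rho
  rw [h.self_of_nhds]
  refine Prod.ext ?_ ?_
  · show c.om _ (fderiv ℝ g (aff k v q) (1, 0)) = k • EE w x (c.om _ (fderiv ℝ g' q (1, 0)))
    rw [← hom, ← h5, ← map_smul, ← map_smul, ← e1]
  · show c.om _ (fderiv ℝ g (aff k v q) (0, 1)) = EE w x (c.om _ (fderiv ℝ g' q (0, 1)))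
    rw [← hom, ← h6]

end SymB

namespace Sym

open SymB

variable {c : Ctx} (σ : Sym c)

lemma x_eq : σ.x = σ.k := by
  have := σ.kx
  rcases σ.hk with h | h <;> rw [h] at this ⊢ <;> linarith

lemma hx : σ.x = 1 ∨ σ.x = -1 := σ.x_eq ▸ σ.hk

lemma a_smooth : ContDiff ℝ ∞ σ.a := aff_smooth _ _

@[fun_prop] lemma a_cont : Continuous σ.a := σ.a_smooth.continuous

lemma a_lat (m : ℤ × ℤ) : ∃ m', ∀ q, σ.a (q + lat m) = σ.a q + lat m' := aff_lat σ.hk _ m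

lemma a_a : ∃ m, ∀ q, σ.a (σ.a q) = q + lat m := σ.sq

lemma a_inj : Function.Injective σ.a := fun q q' h => by
  obtain ⟨m, hm⟩ := σ.a_a
  have := hm q
  rw [h, hm] at this
  exact (add_right_cancel this).symm

lemma per_a {Y : Type*} {g : Q → Y} (h : Per g) : Per fun q => g (σ.a q) := fun q m => by
  obtain ⟨m', hm'⟩ := σ.a_lat m
  simp only [hm', h _ m']

lemma per_aa {Y : Type*} {g : Q → Y} (h : Per g) (q : Q) : g (σ.a (σ.a q)) = g q := by
  obtain ⟨m, hm⟩ := σ.a_a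
  rw [hm, h]

lemma perSet_a {K : Set Q} (h : PerSet K) : PerSet (σ.a ⁻¹' K) := fun q m hq => by
  obtain ⟨m', hm'⟩ := σ.a_lat m
  show σ.a (q + lat m) ∈ K
  rw [hm']
  exact h _ _ hq

lemma mem_aa {K : Set Q} (h : PerSet K) (q : Q) : σ.a (σ.a q) ∈ K ↔ q ∈ K := by
  obtain ⟨m, hm⟩ := σ.a_a
  rw [hm, h.iff]

lemma ρ_ρ (A : G × G) : σ.ρ (σ.ρ A) = A := rho_rho σ.hk σ.hw σ.hx A
lemma ρ_add (A B : G × G) : σ.ρ (A + B) = σ.ρ A + σ.ρ B := rho_add _ _ _ A B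
lemma ρ_sub (A B : G × G) : σ.ρ (A - B) = σ.ρ A - σ.ρ B := rho_sub _ _ _ A B
lemma ρ_zero : σ.ρ 0 = 0 := rho_zero _ _ _
lemma ρ_comm (τ : Sym c) (A : G × G) : σ.ρ (τ.ρ A) = τ.ρ (σ.ρ A) := rho_comm _ _ _ _ _ _ A
@[fun_prop] lemma ρ_cont : Continuous σ.ρ := continuous_rho _ _ _
lemma ρ_inj {A : G × G} (h : Inj A) : Inj (σ.ρ A) := inj_rho σ.hk σ.hw σ.hx h

lemma dl_ρ (A : G × G) : dl (σ.ρ A) = dl A := by
  have h : σ.w ^ 2 = 1 := by rcases σ.hw with h | h <;> rw [h] <;> norm_num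
  rw [ρ, dl_rho, σ.kx, h]; ring

lemma dd_nat {g g' : Q → G} {q : Q} (hg : DifferentiableAt ℝ g (σ.a q))
    (hg' : DifferentiableAt ℝ g' q) (h : ∀ᶠ y in 𝓝 q, g (σ.a y) = σ.B (g' y)) :
    dd c g (σ.a q) = σ.ρ (dd c g' q) := SymB.dd_nat σ.hk σ.compat hg hg' h

lemma dd_equi {f : Q → G} (hf : ContDiff ℝ ∞ f) (h : ∀ q, f (σ.a q) = σ.B (f q)) (q : Q) :
    dd c f (σ.a q) = σ.ρ (dd c f q) :=
  σ.dd_nat (hf.differentiable (by simp) _) (hf.differentiable (by simp) _) (Eventually.of_forall h)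

end Sym

section

variable {c : Ctx} {𝒮 : Set (Sym c)}

lemma Orb.refl (q : Q) : Orb 𝒮 q q := fun _ _ _ h => h

lemma Orb.trans {q q' q'' : Q} (h : Orb 𝒮 q q') (h' : Orb 𝒮 q' q'') : Orb 𝒮 q q'' :=
  fun P a b hP => h' P a b (h P a b hP)

lemma Orb.lat (q : Q) (m : ℤ × ℤ) : Orb 𝒮 q (q + lat m) := fun _ _ b h => b q m h

lemma Orb.lat' (q : Q) (m : ℤ × ℤ) : Orb 𝒮 (q + Pool.Agent.Lib.MP_72f1d0_gt.lat m) q := by
  have := Orb.lat (𝒮 := 𝒮) (q + Pool.Agent.Lib.MP_72f1d0_gt.lat m) (-m)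
  rwa [lat_neg, add_neg_cancel_right] at this

lemma Orb.a {σ : Sym c} (hσ : σ ∈ 𝒮) (q : Q) : Orb 𝒮 q (σ.a q) := fun _ a _ h => a σ hσ q h

lemma Orb.a' {σ : Sym c} (hσ : σ ∈ 𝒮) (q : Q) : Orb 𝒮 (σ.a q) q := by
  obtain ⟨m, hm⟩ := σ.a_a
  have := Orb.a hσ (σ.a q)
  rw [hm] at this
  exact this.trans (Orb.lat' q m)

lemma Orb.symm {q q' : Q} (h : Orb 𝒮 q q') : Orb 𝒮 q' q :=
  h (fun y => Orb 𝒮 y q) (fun _ hσ y hy => (Orb.a' hσ y).trans hy)
    (fun y m hy => (Orb.lat' y m).trans hy) (Orb.refl q)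

/-- Invariant functions are constant on orbits. -/
lemma Orb.eq {Y : Type*} {g : Q → Y} (hp : Per g) (hg : ∀ σ ∈ 𝒮, ∀ y, g (σ.a y) = g y) {q q' : Q}
    (h : Orb 𝒮 q q') : g q' = g q :=
  h (fun y => g y = g q) (fun σ hσ y hy => (hg σ hσ y).trans hy) (fun y m hy => (hp y m).trans hy)
    rfl

end

end Pool.Agent.Lib.MP_72f1d0_gt
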