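import Mathlib
import Pool.Agent.Lib.MP_72f1d0_gt.Eq.Band
import Pool.Agent.Lib.MP_72f1d0_gt.Eq.SymBasic

/-! The fundamental strips of the torus and of the Klein bottle. -/

open scoped ContDiff Topology
open Set Filter

namespace Pool.Agent.Lib.MP_72f1d0_gt

namespace Strip

open Band

/-- Staircase extension of a monotone profile. -/
lemma stair {p : ℝ → ℝ} {a e : ℝ} (sp : ContDiff ℝ ∞ p) (ha : 0 < a) (dp : ∀ y, 0 ≤ deriv p y)
    (p0 : ∀ y, y ≤ a → p y = 0) (p1 : ∀ y, 1 - a ≤ y → p y = 1 - e) :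
    ∃ P : ℝ → ℝ, ContDiff ℝ ∞ P ∧ (∀ y, 0 ≤ deriv P y) ∧
      ∀ (u : ℝ) (n : ℤ), 0 ≤ u → u ≤ 1 → P (u + n) = p u + n * (1 - e) := by
  set P : ℝ → ℝ := fun y => p (Int.fract y) + ⌊y⌋ * (1 - e) with hP
  have loc : ∀ y₀ : ℝ, P =ᶠ[𝓝 y₀] fun y => p (y - ⌊y₀⌋) + ⌊y₀⌋ * (1 - e) := fun y₀ => by
    have m0 : 0 < min a 1 := lt_min ha one_pos
    filter_upwards [Ioo_mem_nhds (show ⌊y₀⌋ - min a 1 < y₀ by linarith [Int.floor_le y₀])
      (Int.lt_floor_add_one y₀)] with y hy
    have m1 := min_le_left a 1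
    have m2 := min_le_right a 1
    rcases le_or_gt (⌊y₀⌋ : ℝ) y with h | h
    · have e1 : ⌊y⌋ = ⌊y₀⌋ := Int.floor_eq_iff.2 ⟨h, hy.2⟩
      simp only [hP, Int.fract, e1]
    · have e1 : ⌊y⌋ = ⌊y₀⌋ - 1 := Int.floor_eq_iff.2
        ⟨by push_cast; linarith [hy.1], by push_cast; linarith⟩
      simp only [hP, Int.fract, e1]
      rw [p1 _ (by push_cast; linarith [hy.1]), p0 _ (by linarith)]
      push_cast; ring
  have sl : ∀ y₀ : ℝ, ContDiff ℝ ∞ fun y => p (y - ⌊y₀⌋) + ⌊y₀⌋ * (1 - e) := fun y₀ => by fun_prop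
  refine ⟨P, contDiff_iff_contDiffAt.2 fun y => (sl y).contDiffAt.congr_of_eventuallyEq (loc y),
    fun y => ?_, fun u n u0 u1 => ?_⟩
  · rw [(loc y).deriv_eq, deriv_add_const, deriv_comp_sub_const]
    exact dp _
  · rcases u1.eq_or_lt with rfl | h
    · have e1 : (1 : ℝ) + n = ((n + 1 : ℤ) : ℝ) := by push_cast; ring
      simp only [hP, e1, Int.fract_intCast, Int.floor_intCast]
      rw [p0 _ ha.le, p1 _ (by linarith)]
      push_cast; ring
    · have e1 : ⌊u⌋ = 0 := Int.floor_eq_iff.2 ⟨by simpa using u0, by simpa using h⟩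
      simp only [hP, Int.fract_add_intCast, Int.floor_add_intCast, e1, zero_add,
        Int.fract_eq_self.2 ⟨u0, h⟩]

/-- The stretching map with half period. -/
lemma psi2 {p : ℝ → ℝ} {a e : ℝ} (sp : ContDiff ℝ ∞ p) (ha : 0 < a) (he : 0 < e)
    (dp : ∀ y, 0 ≤ deriv p y) (p0 : ∀ y, y ≤ a → p y = 0) (p1 : ∀ y, 1 - a ≤ y → p y = 1 - e) :
    ∃ ψ : ℝ → ℝ, ContDiff ℝ ∞ ψ ∧ (∀ s, 0 < deriv ψ s) ∧ (∀ s, ψ (s + 1 / 2) = ψ s + 1 / 2) ∧
      (∀ s, 0 ≤ s → 2 * s ≤ 1 → 2 * ψ s = e * (2 * s) + p (2 * s)) ∧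
      ((∀ z, p (1 - z) = 1 - e - p z) → ∀ s, ψ (-s) = -ψ s) := by
  obtain ⟨P, sP, dP, hP⟩ := stair sp ha dp p0 p1
  have dec : ∀ y : ℝ, y = Int.fract y + ⌊y⌋ := fun y => (Int.fract_add_floor y).symm
  have f0 := fun y : ℝ => Int.fract_nonneg y
  have f1 := fun y : ℝ => (Int.fract_lt_one y).le
  refine ⟨fun s => e * s + P (2 * s) / 2, by fun_prop, fun s => ?_, fun s => ?_, fun s a b => ?_,
    fun h s => ?_⟩
  · have h1 : HasDerivAt (fun s : ℝ => P (2 * s)) (deriv P (2 * s) * 2) s :=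
      (sP.differentiable (by simp) _).hasDerivAt.comp s
        (by simpa using (hasDerivAt_id s).const_mul 2)
    have h2 := ((hasDerivAt_id s).const_mul e).add (h1.div_const 2)
    have h3 : deriv (fun s => e * s + P (2 * s) / 2) s = _ := h2.deriv
    rw [h3]
    linarith [dP (2 * s)]
  · have e1 : 2 * (s + 1 / 2) = Int.fract (2 * s) + ((⌊2 * s⌋ + 1 : ℤ) : ℝ) := by
      push_cast; linarith [dec (2 * s)]
    have e2 := hP _ ⌊2 * s⌋ (f0 (2 * s)) (f1 _)
    rw [← dec] at e2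
    simp only [e1, hP _ _ (f0 _) (f1 _), e2]
    push_cast; ring
  · have := hP (2 * s) 0 (by linarith) b
    simp only [Int.cast_zero, add_zero, zero_mul] at this
    simp only [this]; ring
  · have e1 : 2 * -s = (1 - Int.fract (2 * s)) + ((-⌊2 * s⌋ - 1 : ℤ) : ℝ) := by
      push_cast; linarith [dec (2 * s)]
    have e2 := hP _ ⌊2 * s⌋ (f0 (2 * s)) (f1 _)
    rw [← dec] at e2
    simp only [e1, hP _ _ (sub_nonneg.2 (f1 _)) (sub_le_self _ (f0 _)), e2, h]
    push_cast; ring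

lemma per_one {ψ : ℝ → ℝ} (h : ∀ s, ψ (s + 1 / 2) = ψ s + 1 / 2) (s : ℝ) : ψ (s + 1) = ψ s + 1 := by
  rw [show s + 1 = s + 1 / 2 + 1 / 2 by ring, h, h]; ring

lemma fract_eq {x y : ℝ} (n : ℤ) (h0 : 0 ≤ y) (h1 : y < 1) (h : x = y + n) : Int.fract x = y :=
  Int.fract_eq_iff.2 ⟨h0, h1, n, by rw [h]; ring⟩

lemma int_zero {n : ℤ} (h0 : (-1 : ℝ) < n) (h1 : (n : ℝ) < 1) : n = 0 := by
  have a : -1 < n := by exact_mod_cast h0
  have b : n < 1 := by exact_mod_cast h1
  omega

variable {c : Ctx} {S T : Sym c}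

lemma S_a (hk : S.k = 1) (hv : S.v = (1 / 2, 0)) (q : Q) : S.a q = (q.1 + 1 / 2, q.2) := by
  simp [Sym.a, aff, hk, hv]

lemma T_a (hk : T.k = -1) (hv : T.v = (0, 1 / 2)) (q : Q) : T.a q = (-q.1, q.2 + 1 / 2) := by
  simp [Sym.a, aff, hk, hv]

lemma orb_fract {𝒮 : Set (Sym c)} (q : Q) : Orb 𝒮 (Int.fract q.1, q.2) q := by
  have := Orb.lat (𝒮 := 𝒮) (Int.fract q.1, q.2) (⌊q.1⌋, 0)
  rwa [show ((Int.fract q.1, q.2) : Q) + lat (⌊q.1⌋, 0) = q by ext <;> simp] at this

lemma band_per (a b : ℝ) : PerSet {q : Q | a ≤ Int.fract q.1 ∧ Int.fract q.1 ≤ b} :=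
  fract_per.perSet fun y => a ≤ y ∧ y ≤ b

theorem torus (hS : SymStmt) (hk : S.k = 1) (hv : S.v = (1 / 2, 0)) : StripData {S} 2 := by
  have dec : ∀ y : ℝ, y = Int.fract y + ⌊y⌋ := fun y => (Int.fract_add_floor y).symm
  have mS : S ∈ ({S} : Set (Sym c)) := rfl
  refine ⟨fun a b ha hb => ?_, fun a b q' q ha hb h1 h2 ho h3 h4 => ?_, fun q => ?_,
    fun p a e sp ha he dp p0 p1 => ?_⟩
  · push_cast at hb
    refine (hS c _ (isClosed_band ha.le (by linarith)) (band_per a b) S fun q hq hq' => ?_).1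
    have := fract_eq (x := q.1 + 1 / 2) (y := Int.fract q.1 + 1 / 2) ⌊q.1⌋ (by linarith [hq.1])
      (by linarith [hq.2]) (by linarith [dec q.1])
    have h := hq'.2
    rw [S_a hk hv, this] at h
    linarith [hq.1]
  · push_cast at hb h4
    obtain ⟨n, hn⟩ := ho (fun y => ∃ n : ℤ, y.1 = Int.fract q'.1 + n / 2)
      (by
        rintro σ rfl y ⟨n, hn⟩
        exact ⟨n + 1, by rw [S_a hk hv, hn]; push_cast; ring⟩)
      (by
        rintro y m ⟨n, hn⟩
        exact ⟨n + 2 * m.1, by rw [Prod.fst_add, hn]; simp; ring⟩)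
      ⟨2 * ⌊q'.1⌋, by push_cast; linarith [dec q'.1]⟩
    have : n = 0 := int_zero (by linarith) (by linarith)
    rw [this] at hn
    simp only [Int.cast_zero, zero_div, add_zero] at hn
    exact ⟨hn ▸ h1, hn ▸ h2⟩
  · have f0 := Int.fract_nonneg q.1
    have f1 := Int.fract_lt_one q.1
    rcases le_total (Int.fract q.1) (1 / 2) with h | h
    · exact ⟨(Int.fract q.1, q.2), f0, by push_cast; linarith, orb_fract q⟩
    · refine ⟨(Int.fract q.1 - 1 / 2, q.2), by linarith, by push_cast; linarith, ?_⟩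
      have := Orb.a mS (Int.fract q.1 - 1 / 2, q.2)
      rw [S_a hk hv] at this
      simp only [sub_add_cancel] at this
      exact this.trans (orb_fract q)
  · obtain ⟨ψ, a1, a2, a3, a4, -⟩ := psi2 sp ha he dp p0 p1
    refine ⟨ψ, a1, a2, per_one a3, ?_, by simpa using a4⟩
    rintro σ rfl s
    simp only [hk, hv, one_mul, a3]

theorem klein (hS : SymStmt) (hk : S.k = 1) (hv : S.v = (1 / 2, 0)) (hk' : T.k = -1)
    (hv' : T.v = (0, 1 / 2)) (hL : ∀ p, T.L (S.L p) = S.L (T.L p)) : StripData {S, T} 4 := by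
  have dec : ∀ y : ℝ, y = Int.fract y + ⌊y⌋ := fun y => (Int.fract_add_floor y).symm
  have mS : S ∈ ({S, T} : Set (Sym c)) := Or.inl rfl
  have mT : T ∈ ({S, T} : Set (Sym c)) := Or.inr rfl
  refine ⟨fun a b ha hb => ?_, fun a b q' q ha hb h1 h2 ho h3 h4 => ?_, fun q => ?_,
    fun p a e sp ha he dp p0 p1 => ?_⟩
  · push_cast at hb
    refine (hS c _ (isClosed_band ha.le (by linarith)) (band_per a b) S fun q hq hq' => ?_).2
      T hk hv hv' hL fun q hq => ⟨fun hq' => ?_, fun hq' => ?_⟩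
    · have := fract_eq (x := q.1 + 1 / 2) (y := Int.fract q.1 + 1 / 2) ⌊q.1⌋ (by linarith [hq.1])
        (by linarith [hq.2]) (by linarith [dec q.1])
      have h := hq'.2
      rw [S_a hk hv, this] at h
      linarith [hq.1]
    · have := fract_eq (x := -q.1) (y := 1 - Int.fract q.1) (-⌊q.1⌋ - 1) (by linarith [hq.2])
        (by linarith [hq.1]) (by push_cast; linarith [dec q.1])
      have h := hq'.2
      rw [T_a hk' hv', this] at h
      linarith [hq.2]
    · have := fract_eq (x := -q.1 + 1 / 2) (y := 1 / 2 - Int.fract q.1) (-⌊q.1⌋)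
        (by linarith [hq.2]) (by linarith [hq.1]) (by push_cast; linarith [dec q.1])
      have h := hq'.2
      rw [S_a hk hv, T_a hk' hv', this] at h
      linarith [hq.2]
  · push_cast at hb h4
    obtain ⟨n, hn⟩ := ho
      (fun y => ∃ n : ℤ, y.1 = Int.fract q'.1 + n / 2 ∨ y.1 = -Int.fract q'.1 + n / 2)
      (by
        rintro σ (rfl | rfl) y ⟨n, hn⟩
        · refine ⟨n + 1, ?_⟩
          rw [S_a hk hv]
          push_cast
          exact hn.imp (fun h => by linarith) fun h => by linarith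
        · refine ⟨-n, ?_⟩
          rw [T_a hk' hv']
          push_cast
          exact hn.symm.imp (fun h => by linarith) fun h => by linarith)
      (by
        rintro y m ⟨n, hn⟩
        refine ⟨n + 2 * m.1, ?_⟩
        rw [Prod.fst_add, lat_fst]
        push_cast
        exact hn.imp (fun h => by linarith) fun h => by linarith)
      ⟨2 * ⌊q'.1⌋, Or.inl (by push_cast; linarith [dec q'.1])⟩
    have : n = 0 := by
      rcases hn with hn | hn <;> exact int_zero (by linarith) (by linarith)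
    rw [this] at hn
    simp only [Int.cast_zero, zero_div, add_zero] at hn
    rcases hn with hn | hn
    · exact ⟨hn ▸ h1, hn ▸ h2⟩
    · linarith
  · have f0 := Int.fract_nonneg q.1
    have f1 := Int.fract_lt_one q.1
    have oS : ∀ s t : ℝ, Orb {S, T} (s - 1 / 2, t) (s, t) := fun s t => by
      have := Orb.a mS (s - 1 / 2, t)
      rwa [S_a hk hv, sub_add_cancel] at this
    have oT : ∀ s t : ℝ, Orb {S, T} (-s, t - 1 / 2) (s, t) := fun s t => by
      have := Orb.a mT (-s, t - 1 / 2)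
      rwa [T_a hk' hv', sub_add_cancel, neg_neg] at this
    rcases le_total (Int.fract q.1) (1 / 2) with h | h
    · rcases le_total (Int.fract q.1) (1 / 4) with h' | h'
      · exact ⟨(Int.fract q.1, q.2), f0, by push_cast; linarith, orb_fract q⟩
      · exact ⟨_, by simp only; linarith, by push_cast; linarith,
          (oT _ _).trans ((oS _ _).trans (orb_fract q))⟩
    · rcases le_total (Int.fract q.1) (3 / 4) with h' | h'
      · exact ⟨_, by simp only; linarith, by push_cast; linarith, (oS _ _).trans (orb_fract q)⟩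
      · exact ⟨_, by simp only; linarith, by push_cast; linarith,
          (oT _ _).trans ((oS _ _).trans ((oS _ _).trans (orb_fract q)))⟩
  · have dp2 : ∀ z, 0 ≤ deriv (fun z => (p (2 * z) + (1 - e) - p (2 - 2 * z)) / 2) z := fun z => by
      have h1 : HasDerivAt (fun z : ℝ => p (2 * z)) (deriv p (2 * z) * 2) z :=
        (sp.differentiable (by simp) _).hasDerivAt.comp z
          (by simpa using (hasDerivAt_id z).const_mul 2)
      have h2 : HasDerivAt (fun z : ℝ => p (2 - 2 * z)) (deriv p (2 - 2 * z) * -2) z :=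
        (sp.differentiable (by simp) _).hasDerivAt.comp z
          (by simpa using ((hasDerivAt_id z).const_mul 2).const_sub 2)
      have h3 : deriv (fun z => (p (2 * z) + (1 - e) - p (2 - 2 * z)) / 2) z = _ :=
        (((h1.add_const (1 - e)).sub h2).div_const 2).deriv
      rw [h3]
      linarith [dp (2 * z), dp (2 - 2 * z)]
    obtain ⟨ψ, a1, a2, a3, a4, a5⟩ := psi2 (e := e) (a := a / 2)
      (p := fun z => (p (2 * z) + (1 - e) - p (2 - 2 * z)) / 2) (by fun_prop) (half_pos ha) he dp2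
      (fun y hy => by rw [p0 _ (by linarith), p1 _ (by linarith)]; ring)
      (fun y hy => by rw [p1 _ (by linarith), p0 _ (by linarith)]; ring)
    have a6 := a5 fun z => by
      rw [show 2 * (1 - z) = 2 - 2 * z by ring, show 2 - (2 - 2 * z) = 2 * z by ring]; ring
    refine ⟨ψ, a1, a2, per_one a3, ?_, fun s s0 s1 => ?_⟩
    · rintro σ (rfl | rfl) s
      · simp only [hk, hv, one_mul, a3]
      · simp only [hk', hv', neg_mul, one_mul, add_zero, a6]
    · push_cast at s1 ⊢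
      have := a4 s s0 (by linarith)
      rw [p1 (2 - 2 * (2 * s)) (by linarith), show 2 * (2 * s) = 4 * s by ring] at this
      linarith

end Strip

end Pool.Agent.Lib.MP_72f1d0_gt
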