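import Mathlib
import Pool.Agent.Lib.MP_72f1d0_gt.Eq.Strip

/-! The equivariant theorems for the torus and for the Klein bottle. -/

open scoped ContDiff Topology
open Set Filter

namespace Pool.Agent.Lib.MP_72f1d0_gt

namespace Cores

open Band Strip

variable {c : Ctx} {𝒮 : Set (Sym c)}

lemma good_eq {x : St c 𝒮} {q : Q} (h : Good x q) {s : ℝ} (h0 : 0 ≤ s) (h1 : s ≤ 1) :
    x.γ (s, q) = x.γ (1, q) := (h s h0 h1).trans (h 1 zero_le_one le_rfl).symm

lemma good_tr {x : St c 𝒮} {q : Q} (h : Good x q) : Tr x q := fun s h0 h1 => by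
  rw [good_eq h h0 h1]; exact x.g1 q

lemma cl0 {s : ℝ} (h : s ≤ 0) : cl s = 0 := max_eq_left ((min_le_left _ _).trans h)
lemma cl1 {s : ℝ} (h : 1 ≤ s) : cl s = 1 := by rw [cl, min_eq_right h]; simp

/-- Transversality of the formal path near arcs. -/
lemma ostep (hG : GlobalStmt) (hO : OStmt) (x : St c 𝒮) {K : Set Q} (hK : SymOK 𝒮 K) {r : ℕ}
    (hr : 1 ≤ r) {d w : Q → ℝ} (sd : ContDiff ℝ ∞ d) (pd : Per d) (sw : ContDiff ℝ ∞ w)
    (pw : Per w) (h1 : ∀ q, q ∉ K → d q ≤ 0 ∨ w q ≤ -1)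
    (h2 : ∀ q, 0 ≤ d q → d q ≤ 9 → 0 < w q → Good x q) :
    ∃ (y : St c 𝒮) (δ : ℝ), 0 < δ ∧ Reach x y ∧
      (∀ q ∈ K, |ss r q.1| ≤ δ → 0 < cc r q.1 → 0 ≤ d q → 5 ≤ w q → Tr y q) ∧
      ∀ q, (∃ q' ∈ K, Orb 𝒮 q' q) ∨ (Good x q → Good y q) := by
  have cd := sd.continuous
  have cw := sw.continuous
  have ub : ∀ q, 0 ≤ cl (w q) * cl (d q) ∧ cl (w q) * cl (d q) ≤ 1 := fun q =>
    ⟨mul_nonneg (cl_nonneg _) (cl_nonneg _),
      mul_le_one₀ (cl_le_one _) (cl_nonneg _) (cl_le_one _)⟩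
  obtain ⟨E, γ, e1, e2, ε, hε, e3⟩ := hG.setup c 𝒮 x K hK (fun q => cl (w q) * cl (d q))
    (by fun_prop) (pw.comp₂ pd fun a b => cl a * cl b) ub fun q hq => by
      rcases h1 q hq with h | h
      · rw [cl0 h, mul_zero]
      · rw [cl0 (by linarith : w q ≤ 0), zero_mul]
  have eE : ∀ q, E q = x.γ (cl (w q) * cl (d q), q) := fun q => by simpa using e1 1 q
  have h3 : ∀ q, 0 ≤ d q → 1 ≤ w q → cl (w q) * cl (d q) = 1 ∨ Good x q := fun q a b => by
    rcases le_total 1 (d q) with h | h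
    · exact Or.inl (by rw [cl1 h, cl1 b, mul_one])
    · exact Or.inr (h2 q a (by linarith) (by linarith))
  have h4 : ∀ q s, 0 ≤ d q → 1 ≤ w q → cl (w q) * cl (d q) ≤ s → s ≤ 1 → 0 < dl (x.γ (s, q)) :=
    fun q s a b s0 s1 => by
      rcases h3 q a b with h | h
      · rw [le_antisymm s1 (h ▸ s0)]; exact x.g1 q
      · exact good_tr h s ((ub q).1.trans s0) s1
  obtain ⟨δ, hδ, hL⟩ := hO c (x.rel hK) x.f (x.embR hK) E γ r d w hr sd pd sw pw h1
    (fun q hq t => by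
      rw [e1, eE]
      by_cases hz : cl (w q) * cl (d q) = 0
      · rw [hz, zero_mul]
      · have a1 : 0 < w q := not_le.1 fun h => hz (by rw [cl0 h, zero_mul])
        have a2 : 0 < d q := not_le.1 fun h => hz (by rw [cl0 h, mul_zero])
        have a3 := h2 q a2.le (hq.resolve_right (not_le.2 a1)) a1
        rw [good_eq a3 (ub q).1 (ub q).2, good_eq a3 (mul_nonneg (ub q).1 t.2.1)
          (mul_le_one₀ (ub q).2 t.2.1 t.2.2)])
    (by
      obtain ⟨X, W, a1, a2, a3, a4, a5, a6⟩ := e2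
      exact ⟨X, W, a1, a2, a3, a4, a5, fun q hq => a6 q (h3 q hq.1 hq.2)⟩)
    (fun q a b => by rw [eE]; exact h4 q _ a b le_rfl (ub q).2) ε hε
  obtain ⟨y, y1, y2, y3⟩ := e3 _ hL
  refine ⟨y, δ, hδ, y1, fun q hq a1 a2 a3 a4 s s0 s1 => ?_, y3⟩
  rcases y2 q hq s s0 s1 with h | ⟨s', b1, b2, b3⟩
  · exact h.1 a1 a2 a3 a4
  · rw [b3]; exact h4 q s' a3 (by linarith) b1 b2

/-- Truncation of the formal path in a collar of the circles. -/
lemma collar (hG : GlobalStmt) (y : St c 𝒮) {r : ℕ} {δ : ℝ} (hδ : 0 < δ)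
    (hcc : ∀ σ ∈ 𝒮, ∀ q, cc r (σ.a q).1 = cc r q.1) {v : Q → ℝ} (cv : Continuous v) (pv : Per v)
    (bv : ∀ q, 0 ≤ v q ∧ v q ≤ 1) (iv : ∀ σ ∈ 𝒮, ∀ q, v (σ.a q) = v q)
    (h : ∀ q : Q, |ss r q.1| ≤ δ → 1 / 2 ≤ cc r q.1 → v q ≠ 0 → Tr y q) :
    ∃ (z : St c 𝒮) (κ : ℝ), 0 < κ ∧ κ ≤ 1 / 4 ∧ Reach y z ∧
      ∀ q : Q, 1 - κ ≤ cc r q.1 → v q = 1 → Good z q := by
  obtain ⟨κ, k0, k1, k2⟩ : ∃ κ : ℝ, 0 < κ ∧ κ ≤ 1 / 4 ∧ κ ≤ δ ^ 2 / 4 :=
    ⟨min (1 / 4) (δ ^ 2 / 4), by positivity, min_le_left _ _, min_le_right _ _⟩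
  have ccc := (cc_smooth r).continuous
  obtain ⟨z, z1, z2⟩ := hG.trunc c 𝒮 y (fun q => cl ((cc r q.1 - 1) / κ + 2) * v q) (by fun_prop)
    ((cc_per r).comp₂ pv fun a b => cl ((a - 1) / κ + 2) * b)
    (fun q => ⟨mul_nonneg (cl_nonneg _) (bv q).1,
      mul_le_one₀ (cl_le_one _) (bv q).1 (bv q).2⟩)
    (fun σ hσ q => by simp only [hcc σ hσ, iv σ hσ]) fun q hq => by
      have a1 : 0 < (cc r q.1 - 1) / κ + 2 := not_le.1 fun h' => hq (by rw [cl0 h', zero_mul])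
      have a2 : -2 < (cc r q.1 - 1) / κ := by linarith
      rw [lt_div_iff₀ k0] at a2
      refine h q (abs_le_of_sq_le_sq' ?_ hδ.le |> abs_le.2) (by linarith) fun h' =>
        hq (by rw [h', mul_zero])
      nlinarith [cc_sq_add_ss_sq r q.1, sq_nonneg (cc r q.1 - 1)]
  refine ⟨z, κ, k0, k1, z1, fun q a b => z2 q (Or.inl ?_)⟩
  have a2 : -1 ≤ (cc r q.1 - 1) / κ := by rw [le_div_iff₀ k0]; linarith
  simp only [b, mul_one]
  exact cl1 (by linarith)

lemma cc_near {r : ℕ} {κ : ℝ} (k0 : 0 < κ) (k1 : κ ≤ 1 / 4) {s : ℝ}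
    (h : |r * s| ≤ κ / 8 ∨ |r * s - 1| ≤ κ / 8) : 1 - κ ≤ cc r s := by
  have key : ∀ y : ℝ, |y| ≤ κ / 8 → 1 - κ ≤ Real.cos (2 * Real.pi * y) := fun y hy => by
    have a1 := Real.one_sub_sq_div_two_le_cos (x := 2 * Real.pi * y)
    have a2 : |2 * Real.pi * y| ≤ κ := by
      rw [abs_mul, abs_of_pos (by positivity : 0 < 2 * Real.pi)]
      nlinarith [Real.pi_le_four, abs_nonneg y, Real.pi_pos]
    have a3 : (2 * Real.pi * y) ^ 2 ≤ κ ^ 2 := sq_le_sq' (abs_le.1 a2).1 (abs_le.1 a2).2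
    nlinarith
  rcases h with h | h
  · simpa only [cc, mul_assoc] using key _ h
  · have := key _ h
    rwa [show 2 * Real.pi * (r * s - 1) = 2 * Real.pi * r * s - 2 * Real.pi by ring,
      Real.cos_sub_two_pi] at this

lemma cc_half (s : ℝ) : cc 1 (s + 1 / 2) = -cc 1 s := by
  rw [cc, cc, ← Real.cos_add_pi]; congr 1; push_cast; ring

lemma ss_half (s : ℝ) : ss 1 (s + 1 / 2) = -ss 1 s := by
  rw [ss, ss, ← Real.sin_add_pi]; congr 1; push_cast; ring

lemma cc_neg (r : ℕ) (s : ℝ) : cc r (-s) = cc r s := by rw [cc, cc, mul_neg, Real.cos_neg]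
lemma ss_neg (r : ℕ) (s : ℝ) : ss r (-s) = -ss r s := by rw [ss, ss, mul_neg, Real.sin_neg]

lemma cc_even (k : ℕ) (s : ℝ) : cc (2 * k) (s + 1 / 2) = cc (2 * k) s := by
  rw [cc, cc, ← Real.cos_add_nat_mul_two_pi (2 * Real.pi * ((2 * k : ℕ) : ℝ) * s) k]
  congr 1; push_cast; ring

lemma ss_even (k : ℕ) (s : ℝ) : ss (2 * k) (s + 1 / 2) = ss (2 * k) s := by
  rw [ss, ss, ← Real.sin_add_nat_mul_two_pi (2 * Real.pi * ((2 * k : ℕ) : ℝ) * s) k]
  congr 1; push_cast; ring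

lemma cc_two (s : ℝ) : cc 2 s = 2 * cc 1 s ^ 2 - 1 := by
  rw [cc, cc, ← Real.cos_two_mul]; congr 1; push_cast; ring

lemma cc_four (s : ℝ) : cc 4 s = 1 - 8 * (ss 1 s * cc 1 s) ^ 2 := by
  have h1 : cc 4 s = 2 * cc 2 s ^ 2 - 1 := by
    rw [cc, cc, ← Real.cos_two_mul]; congr 1; push_cast; ring
  have h2 := cc_sq_add_ss_sq 1 s
  rw [h1, cc_two, mul_pow, show ss 1 s ^ 2 = 1 - cc 1 s ^ 2 by linarith]
  ring

lemma per_swap {g : ℝ → ℝ} (h : Per fun q : Q => g q.1) : Per fun q : Q => g q.2 :=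
  fun q m => h q.swap m.swap

end Cores

open Cores Band Strip in
theorem torusCore (hS : SymStmt) (hG : GlobalStmt) (hO : OStmt) (hC : CommonStmt) :
    TorusCoreStmt := by
  intro c hN S hk hv x hZ
  have mS : S ∈ ({S} : Set (Sym c)) := rfl
  have c1 := cc_smooth 1
  have hK : SymOK {S} {q : Q | 2 / 5 ≤ cc 1 q.1} :=
    (hS c _ (isClosed_le continuous_const (c1.continuous.comp continuous_fst))
      ((cc_per 1).perSet fun y => 2 / 5 ≤ y) S fun q hq hq' => by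
        have h1 : 2 / 5 ≤ cc 1 (S.a q).1 := hq'
        rw [S_a hk hv, cc_half] at h1
        linarith [show 2 / 5 ≤ cc 1 q.1 from hq]).1
  obtain ⟨y, δ, hδ, y1, y2, -⟩ := ostep hG hO x hK (r := 2) (by norm_num) (d := fun _ => 20)
    (w := fun q => 20 * cc 1 q.1 - 10) contDiff_const (per_const _)
    ((contDiff_const.mul (c1.comp contDiff_fst)).sub contDiff_const)
    ((cc_per 1).comp fun y => 20 * y - 10)
    (fun q hq => Or.inr (by have : ¬ 2 / 5 ≤ cc 1 q.1 := hq; linarith [not_le.1 this]))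
    fun q _ h _ => by norm_num at h
  obtain ⟨z, κ, k0, k1, z1, z2⟩ := collar hG y (r := 2) hδ
    (by rintro σ rfl q; rw [S_a hk hv]; exact cc_even 1 _) (v := fun _ => 1) continuous_const
    (per_const _) (fun _ => ⟨zero_le_one, le_rfl⟩) (fun _ _ _ => rfl) fun q a b _ => by
      have key : ∀ q : Q, |ss 2 q.1| ≤ δ → 1 / 2 ≤ cc 2 q.1 → 0 ≤ cc 1 q.1 → Tr y q :=
        fun q a b h => by
          have h3 : 3 / 4 ≤ cc 1 q.1 := by
            rw [cc_two] at b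
            nlinarith
          exact y2 q (show 2 / 5 ≤ cc 1 q.1 by linarith) a (by linarith) (by norm_num) (by linarith)
      rcases le_total 0 (cc 1 q.1) with h | h
      · exact key q a b h
      · refine (hG.orb c _ y _ _ (Orb.a' mS q)).2 (key _ ?_ ?_ ?_) <;> rw [S_a hk hv]
        · exact (congrArg abs (ss_even 1 q.1)).trans_le a
        · exact b.trans_eq (cc_even 1 q.1).symm
        · rw [cc_half]; linarith
  have r1 := hG.trans _ _ _ _ _ y1 z1
  obtain ⟨w, w1, w2⟩ := hC c hN {S} 2 le_rfl (torus hS hk hv) z (hG.zr _ _ _ _ r1 hZ) (κ / 8)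
    (by positivity) fun q hq => z2 q (cc_near k0 k1 hq) rfl
  exact ⟨w, hG.trans _ _ _ _ _ r1 w1, w2⟩

namespace Cores

open Band Strip

variable {c : Ctx} {S T : Sym c}

lemma aa_rho (hk : T.k = -1) (A : G × G) :
    aa (T.ρ A) = T.w * (starRingEnd ℂ) (aa A) := by
  apply Complex.ext <;> simp [aa, Sym.ρ, rho, SymB.EE_apply, al, hk]

/-- A continuous logarithm on the plane. -/
lemma exists_log {b : Q → ℂ} (hc : Continuous b) (hb : ∀ q, b q ≠ 0) :
    ∃ L : Q → ℂ, Continuous L ∧ ∀ q, Complex.exp (L q) = b q := by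
  let f : C(Q, {z : ℂ // z ≠ 0}) := ⟨fun q => ⟨b q, hb q⟩, hc.subtype_mk _⟩
  obtain ⟨F, ⟨-, hF⟩, -⟩ := Complex.isCoveringMap_exp.existsUnique_continuousMap_lifts f 0
    (Complex.log (b 0)) (Subtype.ext (Complex.exp_log (hb 0)))
  exact ⟨F, F.continuous, fun q => congrArg Subtype.val (congrFun hF q)⟩

lemma const_of_exp {g : Q → ℂ} (hc : Continuous g) {z : ℂ} (h : ∀ q, Complex.exp (g q) = z)
    (q q' : Q) : g q = g q' :=
  Complex.isCoveringMap_exp.const_of_comp hc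
    (fun a a' => Subtype.ext ((h a).trans (h a').symm)) q q'

/-- On a Klein bottle the formal direction does not rotate along the second direction. -/
lemma zr_klein {𝒮 : Set (Sym c)} (hT : T ∈ 𝒮) (hk : T.k = -1) (hv : T.v = (0, 1 / 2))
    (x : St c 𝒮) : ZR x := by
  have hb : ∀ q, aa (x.γ (1, q)) ≠ 0 := fun q => aa_ne (x.g1 q).ne'
  obtain ⟨L, cL, eL⟩ := exists_log (b := fun q => aa (x.γ (1, q)))
    (continuous_aa.comp (x.fam.cont.comp (by fun_prop))) hb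
  have e : ∀ q, Complex.exp (L (T.a q) - (starRingEnd ℂ) (L q)) = T.w := fun q => by
    have : (starRingEnd ℂ) (aa (x.γ (1, q))) ≠ 0 := by simpa using hb q
    rw [Complex.exp_sub, Complex.exp_conj, eL, eL, x.eg T hT, aa_rho hk]
    field_simp
  have cg : Continuous fun q => L (T.a q) - (starRingEnd ℂ) (L q) :=
    (cL.comp T.a_cont).sub (Complex.continuous_conj.comp cL)
  have k1 := const_of_exp cg e
  have k2 : ∀ q, (L (T.a q) - (starRingEnd ℂ) (L q)).re = 0 := fun q => by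
    have := congrArg norm (e q)
    rw [Complex.norm_exp, Complex.norm_real] at this
    have h1 : ‖T.w‖ = 1 := by rcases T.hw with h | h <;> simp [h]
    rwa [h1, Real.exp_eq_one_iff] at this
  refine ⟨L, cL, fun q => ?_, eL⟩
  have e1 : T.a (T.a q) = q + (0, 1) := by
    rw [T_a hk hv, T_a hk hv]; ext <;> simp; ring
  have a1 := k1 (T.a q) q
  have a2 := k2 q
  rw [e1] at a1
  have a3 := congrArg Complex.re a1
  have a4 := congrArg Complex.im a1
  simp only [Complex.sub_re, Complex.sub_im, Complex.conj_re, Complex.conj_im] at a2 a3 a4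
  exact Complex.ext (by linarith) (by linarith)

/-- The function selecting the arcs on the circles `s = 0` and `s = 1 / 4`. -/
noncomputable def gg (s : ℝ) : ℝ := cc 1 s + ss 1 s

lemma gg_smooth : ContDiff ℝ ∞ gg := (cc_smooth 1).add (ss_smooth 1)
lemma gg_per : Per fun q : Q => gg q.1 := (cc_per 1).comp₂ (ss_per 1) fun a b => a + b
lemma gg_half (s : ℝ) : gg (s + 1 / 2) = -gg s := by rw [gg, gg, cc_half, ss_half]; ring

lemma gg_big {s : ℝ} (h : 1 / 2 ≤ cc 4 s) (h0 : 0 ≤ gg s) : 1 / 2 ≤ gg s := by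
  rw [cc_four] at h
  have h1 : -(1 / 4) ≤ ss 1 s * cc 1 s := by nlinarith
  have h2 := cc_sq_add_ss_sq 1 s
  unfold gg at *
  nlinarith

/-- Reduction to the chosen arcs. -/
lemma reduce (hk : S.k = 1) (hv : S.v = (1 / 2, 0)) (hk' : T.k = -1) (hv' : T.v = (0, 1 / 2))
    {g : ℝ → ℝ} (hg : ∀ t, g (t + 1 / 2) = -g t) (q : Q) (h : 1 / 2 ≤ cc 4 q.1) :
    ∃ q' : Q, Orb {S, T} q' q ∧ cc 4 q'.1 = cc 4 q.1 ∧ |ss 4 q'.1| = |ss 4 q.1| ∧
      g q'.2 = |g q.2| ∧ 1 / 2 ≤ gg q'.1 := by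
  have mS : S ∈ ({S, T} : Set (Sym c)) := Or.inl rfl
  have mT : T ∈ ({S, T} : Set (Sym c)) := Or.inr rfl
  obtain ⟨q₁, a1, a2, a3, a4⟩ : ∃ q₁ : Q, Orb {S, T} q₁ q ∧ cc 4 q₁.1 = cc 4 q.1 ∧
      |ss 4 q₁.1| = |ss 4 q.1| ∧ g q₁.2 = |g q.2| := by
    rcases le_total 0 (g q.2) with h0 | h0
    · exact ⟨q, Orb.refl q, rfl, rfl, (abs_of_nonneg h0).symm⟩
    · refine ⟨_, Orb.a' mT q, ?_⟩
      rw [T_a hk' hv', cc_neg, ss_neg, abs_neg, hg, abs_of_nonpos h0]
      exact ⟨rfl, rfl, rfl⟩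
  rcases le_total 0 (gg q₁.1) with h0 | h0
  · exact ⟨q₁, a1, a2, a3, a4, gg_big (a2 ▸ h) h0⟩
  · have b1 : cc 4 (q₁.1 + 1 / 2) = cc 4 q₁.1 := cc_even 2 _
    have b2 : ss 4 (q₁.1 + 1 / 2) = ss 4 q₁.1 := ss_even 2 _
    refine ⟨_, (Orb.a' mS q₁).trans a1, ?_⟩
    rw [S_a hk hv]
    exact ⟨b1.trans a2, by rw [b2, a3], a4, gg_big (by rw [b1, a2]; exact h)
      (by rw [gg_half]; linarith)⟩

end Cores

open Cores Band Strip in
theorem kleinCore (hS : SymStmt) (hG : GlobalStmt) (hO : OStmt) (hC : CommonStmt) :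
    KleinCoreStmt := by
  intro c hN S T hk hv hk' hv' hL x
  have mT : T ∈ ({S, T} : Set (Sym c)) := Or.inr rfl
  have c1 := cc_smooth 1
  have s1 := ss_smooth 1
  have c4 := cc_smooth 4
  have sg := gg_smooth
  have sst : ContDiff ℝ ∞ Real.smoothTransition := Real.smoothTransition.contDiff
  have st0 : ∀ {y : ℝ}, y ≤ 0 → Real.smoothTransition y = 0 := Real.smoothTransition.zero_of_nonpos
  have st1 : ∀ {y : ℝ}, 1 ≤ y → Real.smoothTransition y = 1 := Real.smoothTransition.one_of_one_le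
  have icc : ∀ σ ∈ ({S, T} : Set (Sym c)), ∀ q, cc 4 (σ.a q).1 = cc 4 q.1 := by
    rintro σ (rfl | rfl) q
    · rw [S_a hk hv]; exact cc_even 2 _
    · rw [T_a hk' hv']; exact cc_neg _ _
  have isq : ∀ {g : ℝ → ℝ}, (∀ t, g (t + 1 / 2) = -g t) →
      ∀ σ ∈ ({S, T} : Set (Sym c)), ∀ q, |g (σ.a q).2| = |g q.2| := by
    rintro g hg σ (rfl | rfl) q
    · rw [S_a hk hv]
    · rw [T_a hk' hv', hg, abs_neg]
  have ok : ∀ {g : ℝ → ℝ} {a : ℝ}, Continuous g → Per (fun q : Q => g q.1) →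
      (∀ t, g (t + 1 / 2) = -g t) → 0 < a → SymOK {S, T} {q : Q | 1 / 4 ≤ gg q.1 ∧ a ≤ g q.2} :=
    fun {g a} cg pg hg ha => (hS c _
      ((isClosed_le continuous_const (sg.continuous.comp continuous_fst)).inter
        (isClosed_le continuous_const (cg.comp continuous_snd)))
      ((gg_per.perSet fun y => 1 / 4 ≤ y).inter ((per_swap pg).perSet fun y => a ≤ y)) S
      fun q hq hq' => by
        have h1 : 1 / 4 ≤ gg (S.a q).1 := hq'.1
        rw [S_a hk hv, gg_half] at h1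
        linarith [show 1 / 4 ≤ gg q.1 from hq.1]).2 T hk hv hv' hL fun q hq =>
      ⟨fun hq' => by
        have h1 : a ≤ g (T.a q).2 := hq'.2
        rw [T_a hk' hv', hg] at h1
        linarith [show a ≤ g q.2 from hq.2], fun hq' => by
        have h1 : a ≤ g (S.a (T.a q)).2 := hq'.2
        rw [S_a hk hv, T_a hk' hv', hg] at h1
        linarith [show a ≤ g q.2 from hq.2]⟩
  -- first step: discs
  obtain ⟨y, δ, hδ, y1, y2, -⟩ := ostep hG hO x
    (ok c1.continuous (cc_per 1) cc_half (a := 1 / 8) (by norm_num)) (r := 4) (by norm_num)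
    (d := fun _ => 20) (w := fun q => 20 * (Real.smoothTransition (4 * gg q.1 - 1) *
      Real.smoothTransition (8 * cc 1 q.2 - 1)) - 10) contDiff_const (per_const _)
    (by fun_prop) (gg_per.comp₂ (per_swap (cc_per 1)) fun a b =>
      20 * (Real.smoothTransition (4 * a - 1) * Real.smoothTransition (8 * b - 1)) - 10)
    (fun q hq => Or.inr (by
      rcases not_and_or.1 hq with h | h
      · rw [st0 (by linarith [not_le.1 h])]; norm_num
      · rw [st0 (y := 8 * cc 1 q.2 - 1) (by linarith [not_le.1 h])]; norm_num))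
    fun q _ h _ => by norm_num at h
  have cc1 := c1.continuous
  obtain ⟨z, κ, k0, k1, z1, z2⟩ := collar hG y (r := 4) hδ icc
    (v := fun q => cl (16 * |cc 1 q.2| - 4)) (by fun_prop)
    ((per_swap (cc_per 1)).comp fun y => cl (16 * |y| - 4)) (fun _ => ⟨cl_nonneg _, cl_le_one _⟩)
    (fun σ hσ q => by simp only [isq cc_half σ hσ]) fun q a b h => by
      have h1 : 0 < 16 * |cc 1 q.2| - 4 := not_le.1 fun h' => h (cl0 h')
      obtain ⟨q', o, e1, e2, e3, e4⟩ := reduce hk hv hk' hv' cc_half q b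
      refine (hG.orb c _ y _ _ o).2 (y2 q' ⟨by linarith, by linarith⟩ (e2 ▸ a) (by linarith)
        (by norm_num) ?_)
      rw [st1 (by linarith), st1 (by linarith)]; norm_num
  have z3 : ∀ q : Q, 1 - κ ≤ cc 4 q.1 → |ss 1 q.2| ≤ 93 / 100 → Good z q := fun q a b => by
    refine z2 q a (cl1 ?_)
    have h1 := cc_sq_add_ss_sq 1 q.2
    rw [← sq_abs (cc 1 q.2), ← sq_abs (ss 1 q.2)] at h1
    nlinarith [abs_nonneg (cc 1 q.2), abs_nonneg (ss 1 q.2)]
  -- second step: the remaining arcs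
  obtain ⟨y', δ', hδ', y3, y4, y5⟩ := ostep hG hO z
    (ok s1.continuous (ss_per 1) ss_half (a := 12 / 25) (by norm_num)) (r := 4) (by norm_num)
    (d := fun q => 20 * ss 1 q.2 - 48 / 5)
    (w := fun q => 20 * (Real.smoothTransition (4 * gg q.1 - 1) *
      Real.smoothTransition ((cc 4 q.1 - 1) / (κ / 2) + 2)) - 10) (by fun_prop)
    ((per_swap (ss_per 1)).comp fun y => 20 * y - 48 / 5) (by fun_prop)
    (gg_per.comp₂ (cc_per 4) fun a b => 20 * (Real.smoothTransition (4 * a - 1) *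
      Real.smoothTransition ((b - 1) / (κ / 2) + 2)) - 10)
    (fun q hq => by
      rcases not_and_or.1 hq with h | h
      · right; rw [st0 (by linarith [not_le.1 h])]; norm_num
      · left; linarith [not_le.1 h])
    fun q a b h => by
      refine z3 q ?_ (abs_le.2 ⟨by linarith, by linarith⟩)
      by_contra h'
      have h1 : (cc 4 q.1 - 1) / (κ / 2) ≤ -2 := by
        rw [div_le_iff₀ (by positivity)]; linarith [not_le.1 h']
      rw [st0 (y := (cc 4 q.1 - 1) / (κ / 2) + 2) (by linarith)] at h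
      norm_num at h
  obtain ⟨z', κ', k2, k3, z4, z5⟩ := collar hG y' (r := 4) (δ := min δ' (κ / 2))
    (by positivity) icc (v := fun _ => 1) continuous_const (per_const _)
    (fun _ => ⟨zero_le_one, le_rfl⟩) (fun _ _ _ => rfl) fun q a b _ => by
      rw [le_min_iff] at a
      have h1 : 1 - κ / 2 ≤ cc 4 q.1 := by
        have h2 := cc_sq_add_ss_sq 4 q.1
        rw [← sq_abs (ss 4 q.1)] at h2
        nlinarith [abs_nonneg (ss 4 q.1), a.2]
      rcases le_or_gt (12 / 25) |ss 1 q.2| with h | h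
      · obtain ⟨q', o, e1, e2, e3, e4⟩ := reduce hk hv hk' hv' ss_half q b
        refine (hG.orb c _ y' _ _ o).2 (y4 q' ⟨by linarith, by linarith⟩ (e2 ▸ a.1) (by linarith)
          (by linarith) ?_)
        have h2 : -1 ≤ (cc 4 q'.1 - 1) / (κ / 2) := by
          rw [le_div_iff₀ (by positivity)]; linarith
        rw [st1 (by linarith), st1 (by linarith)]; norm_num
      · rcases y5 q with ⟨q', hq', o⟩ | h'
        · have := o.eq (g := fun q : Q => |ss 1 q.2|) ((per_swap (ss_per 1)).comp abs)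
            (isq ss_half)
          linarith [le_abs_self (ss 1 q'.2), show 12 / 25 ≤ ss 1 q'.2 from hq'.2]
        · exact good_tr (h' (z3 q (by linarith) (by linarith)))
  obtain ⟨w, w1, w2⟩ := hC c hN {S, T} 4 (by norm_num) (klein hS hk hv hk' hv' hL) z'
    (zr_klein mT hk' hv' z') (κ' / 8) (by positivity) fun q hq => z5 q (cc_near k2 k3 hq) rfl
  exact ⟨w, hG.trans _ _ _ _ _ (hG.trans _ _ _ _ _ (hG.trans _ _ _ _ _ y1 z1)
    (hG.trans _ _ _ _ _ y3 z4)) w1, w2⟩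

end Pool.Agent.Lib.MP_72f1d0_gt
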