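import Mathlib
import Pool.Agent.Lib.MP_72f1d0_gt.Bump
import Pool.Agent.Lib.MP_72f1d0_gt.Defs3

/-! The helix with a general phase. -/

open scoped ContDiff

namespace Pool.Agent.Lib.MP_72f1d0_gt

namespace GB

noncomputable section

def hel (a θ : Q → ℝ) (q : Q) : Q × (ℂ × ℝ) :=
  (q, ((a q : ℂ) * Complex.exp (θ q * Complex.I), a q))

lemma hel_smooth {X : Type*} [NormedAddCommGroup X] [NormedSpace ℝ X] {a : X → Q → ℝ}
    {q : X → Q} (ha : ContDiff ℝ ∞ fun x => a x (q x)) (hq : ContDiff ℝ ∞ q) {θ : Q → ℝ}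
    (hθ : ContDiff ℝ ∞ θ) : ContDiff ℝ ∞ fun x => hel (a x) θ (q x) :=
  hq.prodMk (((Bump.ofReal_smooth ha).mul
    ((Bump.ofReal_smooth (hθ.comp hq)).mul contDiff_const).cexp).prodMk ha)

lemma hel_der {a θ : Q → ℝ} (ha : ContDiff ℝ ∞ a) (hθ : ContDiff ℝ ∞ θ) (q v : Q) :
    fderiv ℝ (hel a θ) q v =
      (v, ((fderiv ℝ a q v : ℂ) * Complex.exp (θ q * Complex.I), fderiv ℝ a q v)) +
        fderiv ℝ θ q v • (0, (Complex.I * (hel a θ q).2.1, 0)) := by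
  apply Bump.fderiv_eq_of_line
    ((hel_smooth (a := fun _ => a) ha contDiff_id hθ).differentiable (by simp) _)
  have h1 : HasDerivAt (fun s : ℝ => q + s • v) v 0 := by
    simpa using ((hasDerivAt_id (0 : ℝ)).smul_const v).const_add q
  have h2 := Bump.line_der v (ha.differentiable (by simp) q)
  have h3 := Bump.line_der v (hθ.differentiable (by simp) q)
  have h4 := h1.prodMk ((h2.ofReal_comp.fun_mul
    (h3.ofReal_comp.mul_const Complex.I).cexp).prodMk h2)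
  refine Bump.hda_of_eq h4 (fun s => rfl) ?_
  simp [hel]
  ring

lemma norm_hel (a θ : Q → ℝ) (q : Q) (h : 0 ≤ a q) : ‖(hel a θ q).2.1‖ = a q := by
  simp [hel, Complex.norm_exp_ofReal_mul_I, abs_of_nonneg h]

lemma step {c : Ctx} {f : Q → G} {Φ : Q × (ℂ × ℝ) → G} (sΦ : ContDiff ℝ ∞ Φ)
    (L0 : ∀ q v dw da, AA c Φ (q, 0) (v, (dw, da)) = ap (dd c f q) v + (dw, 0)) {κ : ℝ}
    {a θ : Q → ℝ} (sa : ContDiff ℝ ∞ a) (sθ : ContDiff ℝ ∞ θ) (q : Q) (da : ‖fderiv ℝ a q‖ ≤ 1)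
    (hκ : ‖AA c Φ (hel a θ q) - AA c Φ (q, 0)‖ ≤ κ) (v : Q) (hv : ‖v‖ = 1) :
    ∃ S : ℂ, ‖S - (ap (dd c f q) v).2‖ ≤ κ ∧ (AA c (fun q => Φ (hel a θ q)) q v).2 =
      S + fderiv ℝ θ q v • (AA c Φ (hel a θ q) (0, (Complex.I * (hel a θ q).2.1, 0))).2 := by
  rw [Bump.AA_comp c sΦ (hel_smooth (a := fun _ => a) sa contDiff_id sθ), hel_der sa sθ, map_add,
    map_smul]
  refine ⟨_, ?_, rfl⟩
  have h1 : ‖fderiv ℝ a q v‖ ≤ 1 := by
    have := (fderiv ℝ a q).le_of_opNorm_le da v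
    rwa [hv, mul_one] at this
  generalize fderiv ℝ a q v = r at h1
  have h2 : ‖((v, ((r : ℂ) * Complex.exp (θ q * Complex.I), r)) : Q × (ℂ × ℝ))‖ ≤ 1 := by
    refine norm_prod_le_iff.mpr ⟨hv.le, norm_prod_le_iff.mpr ⟨?_, h1⟩⟩
    rw [norm_mul, Complex.norm_exp_ofReal_mul_I, mul_one, Complex.norm_real]
    exact h1
  have h3 := (AA c Φ (hel a θ q) - AA c Φ (q, 0)).le_of_opNorm_le hκ
    (v, ((r : ℂ) * Complex.exp (θ q * Complex.I), r))
  have κ0 : 0 ≤ κ := (norm_nonneg _).trans hκ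
  have h4 := (norm_snd_le _).trans (h3.trans (mul_le_of_le_one_right κ0 h2))
  rw [sub_apply, L0] at h4
  simpa using h4

lemma hel_shift {a θ : Q → ℝ} (pa : Per a)
    (hθ : ∀ m, ∃ k : ℤ, ∀ q, θ (q + lat m) = θ q + k * (2 * Real.pi)) (q : Q) (m : ℤ × ℤ) :
    hel a θ (q + lat m) = (q + lat m, (hel a θ q).2) := by
  obtain ⟨k, hk⟩ := hθ m
  have h : Complex.exp (θ (q + lat m) * Complex.I) = Complex.exp (θ q * Complex.I) := by
    rw [hk, Complex.exp_eq_exp_iff_exists_int]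
    exact ⟨k, by push_cast; ring⟩
  simp only [hel, pa q m, h]

/-- Transversality is kept. -/
lemma alg {δ B L a N x y : ℝ} {μ τ g : ℂ} (hd : 0 < τ.re * μ.im - τ.im * μ.re)
    (hδ : δ ≤ x * τ.re - y * μ.re) (nμ : ‖μ‖ ≤ B) (nτ : ‖τ‖ ≤ B) (hx : |x| ≤ L) (hy : |y| ≤ L)
    (a0 : 0 ≤ a) (haB : 4 * L * B * a ≤ δ) (hre : |g.re| ≤ a ^ 3 / 4) (him : a ^ 2 / 8 ≤ g.im)
    (hN : 0 ≤ N) :
    0 < (τ + (N * y) • g).re * (μ + (N * x) • g).im -
      (τ + (N * y) • g).im * (μ + (N * x) • g).re := by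
  have B0 : 0 ≤ B := (norm_nonneg _).trans nμ
  have L0 : 0 ≤ L := (abs_nonneg _).trans hx
  have m2 : |μ.im| ≤ B := (Complex.abs_im_le_norm μ).trans nμ
  have t2 : |τ.im| ≤ B := (Complex.abs_im_le_norm τ).trans nτ
  have a2 : 0 ≤ a ^ 2 := by positivity
  have δ0 : 0 ≤ δ := le_trans (by positivity) haB
  simp only [Complex.add_re, Complex.add_im, Complex.smul_re, Complex.smul_im, smul_eq_mul]
  have h1 : |y * μ.im| ≤ L * B := by rw [abs_mul]; gcongr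
  have h2 : |x * τ.im| ≤ L * B := by rw [abs_mul]; gcongr
  have h3 : |y * μ.im - x * τ.im| ≤ 2 * (L * B) := (abs_sub _ _).trans (by linarith)
  have h4 : |g.re * (y * μ.im - x * τ.im)| ≤ a ^ 3 / 4 * (2 * (L * B)) := by
    rw [abs_mul]; gcongr
  have h5 : a ^ 2 / 8 * δ ≤ g.im * (x * τ.re - y * μ.re) := by
    gcongr
    linarith
  have h6 : a ^ 3 / 4 * (2 * (L * B)) ≤ a ^ 2 / 8 * δ := by
    nlinarith [mul_le_mul_of_nonneg_left haB a2]
  have h7 : 0 ≤ N * (g.im * (x * τ.re - y * μ.re) + g.re * (y * μ.im - x * τ.im)) :=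
    mul_nonneg hN (by linarith [(abs_le.mp h4).1])
  nlinarith

end

end GB

open GB in
theorem gb (hM : MLStmt) (hP : PsiStmt) : GBStmt := by
  intro c f hf ν sν pν bν sg hsg K hK pK hKν φ sφ pφ hpos ε B₀ hε
  obtain ⟨Φ, sΦ, pΦ, Φ0, L0, a1, a1pos, hfast⟩ := Bump.exists_Phi hP hf hsg
  have cdd := hf.dd_smooth.continuous
  have pdd := hf.dd_per
  have cφ : Continuous (fderiv ℝ φ) := sφ.continuous_fderiv (by simp)
  have pφ' : Per (fderiv ℝ φ) := fun q m => by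
    obtain ⟨k, hk⟩ := pφ m
    exact fderiv_shift hk q
  obtain ⟨δ1, δ1pos, hδ1⟩ := per_pos0 hK pK (g := fun q => dl (dd c f q)) (by fun_prop)
    (pdd.comp dl) fun q hq => (hpos q hq).1
  obtain ⟨δ2, δ2pos, hδ2⟩ := per_pos0 hK pK
    (g := fun q => fderiv ℝ φ q (1, 0) * al (dd c f q).2 - fderiv ℝ φ q (0, 1) * al (dd c f q).1)
    (((cφ.clm_apply continuous_const).mul (continuous_al.comp cdd.snd)).sub
      ((cφ.clm_apply continuous_const).mul (continuous_al.comp cdd.fst)))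
    (fun q m => by simp only [pdd q m, pφ' q m]) fun q hq => (hpos q hq).2
  obtain ⟨B, B1, hB⟩ := Bump.per_bdd cdd pdd
  obtain ⟨L, L1, hL⟩ := Bump.per_bdd (g := fderiv ℝ ν) (sν.continuous_fderiv (by simp)) pν.fderiv
  obtain ⟨P, P1, hP'⟩ := Bump.per_bdd cφ pφ'
  have φ1 : ∀ q, |fderiv ℝ φ q (1, 0)| ≤ P := fun q => by
    simpa using (fderiv ℝ φ q).le_of_opNorm_le (hP' q) (1, 0)
  have φ2 : ∀ q, |fderiv ℝ φ q (0, 1)| ≤ P := fun q => by
    simpa using (fderiv ℝ φ q).le_of_opNorm_le (hP' q) (0, 1)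
  obtain ⟨δ, δpos, δ1', δ2', δ3, δ4⟩ : ∃ δ : ℝ, 0 < δ ∧ δ ≤ δ1 ∧ δ ≤ δ2 ∧ δ ≤ 1 ∧ δ ≤ ε :=
    ⟨min (min δ1 δ2) (min 1 ε), by positivity, by simp, by simp, by simp, by simp⟩
  obtain ⟨κ, κpos, hκ⟩ : ∃ κ : ℝ, 0 < κ ∧ 10 * B ^ 2 * P * κ = δ :=
    ⟨δ / (10 * B ^ 2 * P), by positivity, by field_simp⟩
  have B2 : B ≤ B ^ 2 := by nlinarith
  have κ2 : 10 * B ^ 2 * κ ≤ δ := by
    rw [← hκ]
    nlinarith [mul_nonneg (mul_nonneg (sq_nonneg B) κpos.le) (sub_nonneg.2 P1)]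
  have κ1 : 10 * κ ≤ δ := by nlinarith
  have κ3 : 10 * (P * κ) ≤ δ := by
    rw [← hκ]
    nlinarith [mul_nonneg (mul_nonneg (by linarith : 0 ≤ P) κpos.le) (by nlinarith : 0 ≤ B ^ 2 - 1)]
  obtain ⟨ρ, ρpos, hρ1, hρ2⟩ := hM c f hf (ℂ × ℝ) Φ sΦ pΦ Φ0 κ κpos
  obtain ⟨ρ', ρ'pos, hρ'⟩ := unif (K := Metric.closedBall (0 : ℂ × ℝ) 1) (isCompact_closedBall _ _)
    (g := fun x : Q × (ℂ × ℝ) => Φ x - f x.1)
    (sΦ.continuous.sub (hf.smooth.continuous.comp continuous_fst))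
    (fun y q m => by simp only [pΦ, hf.equi]; abel) hε
  obtain ⟨a0, a0pos, a0ρ, a0a1, a0L, a0B, a01, a0ρ'⟩ : ∃ a0 : ℝ, 0 < a0 ∧ a0 ≤ ρ ∧ a0 ≤ a1 ∧
      a0 ≤ 1 / L ∧ a0 ≤ δ / (8 * P * (B + 1)) ∧ a0 ≤ 1 ∧ a0 ≤ ρ' :=
    ⟨min (min ρ a1) (min (1 / L) (min (δ / (8 * P * (B + 1))) (min 1 ρ'))), by positivity, by simp,
      by simp, by simp, by simp, by simp, by simp⟩
  rw [le_div_iff₀ (by positivity)] at a0L a0B
  obtain ⟨N, hN⟩ := exists_nat_gt (16 * B₀ / (2 * Real.pi * a0 ^ 3))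
  rw [div_lt_iff₀ (by positivity)] at hN
  obtain ⟨θ, hθ⟩ : ∃ θ : Q → ℝ, θ = fun q => N * (2 * Real.pi) * φ q := ⟨_, rfl⟩
  have sθ : ContDiff ℝ ∞ θ := by rw [hθ]; exact contDiff_const.mul sφ
  have dθ : ∀ q v, fderiv ℝ θ q v = N * (2 * Real.pi) * fderiv ℝ φ q v := fun q v => by
    rw [hθ, fderiv_const_mul (sφ.differentiable (by simp) q)]; simp
  have pθ : ∀ m, ∃ k : ℤ, ∀ q, θ (q + lat m) = θ q + k * (2 * Real.pi) := fun m => by
    obtain ⟨k, hk⟩ := pφ m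
    exact ⟨N * k, fun q => by simp only [hθ, hk]; push_cast; ring⟩
  obtain ⟨a, ha⟩ : ∃ a : ℝ → Q → ℝ, ∀ l, a l = fun q => a0 * Real.smoothTransition l * ν q :=
    ⟨_, fun _ => rfl⟩
  have sa : ∀ l, ContDiff ℝ ∞ (a l) := fun l => by rw [ha]; exact contDiff_const.mul sν
  have u0 : ∀ l, 0 ≤ a0 * Real.smoothTransition l := fun l =>
    mul_nonneg a0pos.le (Real.smoothTransition.nonneg l)
  have u1 : ∀ l, a0 * Real.smoothTransition l ≤ a0 := fun l =>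
    mul_le_of_le_one_right a0pos.le (Real.smoothTransition.le_one l)
  have a_nonneg : ∀ l q, 0 ≤ a l q := fun l q => by rw [ha]; exact mul_nonneg (u0 l) (bν q).1
  have a_le : ∀ l q, a l q ≤ a0 := fun l q => by
    rw [ha]; exact (mul_le_of_le_one_right (u0 l) (bν q).2).trans (u1 l)
  have a_per : ∀ l, Per (a l) := fun l q m => by rw [ha]; simp only [pν q m]
  have a_der : ∀ l q, ‖fderiv ℝ (a l) q‖ ≤ 1 := fun l q => by
    rw [ha, fderiv_const_mul (sν.differentiable (by simp) q), norm_smul,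
      Real.norm_of_nonneg (u0 l)]
    exact (mul_le_mul (u1 l) (hL q) (norm_nonneg _) a0pos.le).trans a0L
  have nhel : ∀ l q, ‖(hel (a l) θ q).2‖ ≤ a0 := fun l q =>
    norm_prod_le_iff.mpr ⟨by rw [norm_hel _ _ _ (a_nonneg l q)]; exact a_le l q, by
      change ‖a l q‖ ≤ a0
      rw [Real.norm_of_nonneg (a_nonneg l q)]; exact a_le l q⟩
  have zero : ∀ l q, a l q = 0 → Φ (hel (a l) θ q) = f q := fun l q h => by
    rw [← Φ0]; simp only [hel, h, Complex.ofReal_zero, zero_mul]; rfl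
  have zero' : ∀ l q, ν q = 0 → Φ (hel (a l) θ q) = f q := fun l q h =>
    zero l q (by rw [ha]; simp [h])
  have main : ∀ l, ∀ q ∈ K, ∃ μ τ g : ℂ,
      (dd c (fun q => Φ (hel (a l) θ q)) q).1.2 =
        μ + (N * (2 * Real.pi) * fderiv ℝ φ q (1, 0) : ℝ) • g ∧
      (dd c (fun q => Φ (hel (a l) θ q)) q).2.2 =
        τ + (N * (2 * Real.pi) * fderiv ℝ φ q (0, 1) : ℝ) • g ∧
      ‖μ - (dd c f q).1.2‖ ≤ κ ∧ ‖τ - (dd c f q).2.2‖ ≤ κ ∧
      |g.re + sg * a l q ^ 3 / 8| ≤ a l q ^ 3 / 16 ∧ a l q ^ 2 / 8 ≤ g.im := by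
    intro l q hq
    have hk := hρ1 q _ ((nhel l q).trans a0ρ)
    obtain ⟨μ, m1, m2⟩ := GB.step sΦ L0 (sa l) sθ q (a_der l q) hk (1, 0) (by simp)
    obtain ⟨τ, t1, t2⟩ := GB.step sΦ L0 (sa l) sθ q (a_der l q) hk (0, 1) (by simp)
    rw [dθ] at m2 t2
    rw [ap_one_zero] at m1
    rw [ap_zero_one] at t1
    have := hfast q _ _ (norm_hel _ θ _ (a_nonneg l q)) ((a_le l q).trans a0a1)
    exact ⟨μ, τ, _, m2, t2, m1, t1, this.1, this.2.1⟩
  have N0 : (0 : ℝ) ≤ N * (2 * Real.pi) := by positivity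
  have trans : ∀ l, ∀ q ∈ K, 0 < dl (dd c (fun q => Φ (hel (a l) θ q)) q) := by
    intro l q hq
    obtain ⟨μ, τ, g, e1, e2, m1, t1, k5, k6⟩ := main l q hq
    have n1 : ‖(dd c f q).1.2‖ ≤ B := (norm_snd_le _).trans ((norm_fst_le _).trans (hB q))
    have n2 : ‖(dd c f q).2.2‖ ≤ B := (norm_snd_le _).trans ((norm_snd_le _).trans (hB q))
    unfold dl
    rw [e1, e2]
    have a3 : 0 ≤ a l q ^ 3 := pow_nonneg (a_nonneg l q) 3
    refine alg (δ := δ / 2) (B := B + 1) (L := P)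
      (Bump.dl_pert (δ1'.trans (hδ1 q hq)) n1 n2 m1 t1 (by linarith) (by nlinarith)) ?_ ?_ ?_
      (φ1 q) (φ2 q) (a_nonneg l q) ?_ ?_ k6 N0
    · have h0 := δ2'.trans (hδ2 q hq)
      have h1 := (Complex.abs_re_le_norm _).trans m1
      have h2 := (Complex.abs_re_le_norm _).trans t1
      have h3 : |fderiv ℝ φ q (1, 0) * (τ - (dd c f q).2.2).re| ≤ P * κ := by
        rw [abs_mul]; gcongr; exact φ1 q
      have h4 : |fderiv ℝ φ q (0, 1) * (μ - (dd c f q).1.2).re| ≤ P * κ := by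
        rw [abs_mul]; gcongr; exact φ2 q
      rw [Complex.sub_re, abs_le] at h3 h4
      unfold al at h0
      nlinarith [h3.1, h4.2]
    · linarith [norm_le_insert' μ (dd c f q).1.2]
    · linarith [norm_le_insert' τ (dd c f q).2.2]
    · have := mul_le_mul_of_nonneg_left (a_le l q) (by positivity : 0 ≤ P * (B + 1))
      nlinarith
    · rw [abs_le] at k5 ⊢
      rcases hsg with rfl | rfl <;> constructor <;> linarith [k5.1, k5.2]
  have inj1 : ∀ l, ∀ q ∈ K, ∀ q', Φ (hel (a l) θ q) = Φ (hel (a l) θ q') → q' = q := by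
    intro l q hq q' h
    have h1 := hρ2 q q' _ _ ((nhel l q).trans a0ρ) ((nhel l q').trans a0ρ) h
    have e : (hel (a l) θ q').2 - (hel (a l) θ q).2 =
        ((hel (a l) θ q').2.1 - (hel (a l) θ q).2.1, a l q' - a l q) := rfl
    rw [e, L0] at h1
    refine sub_eq_zero.mp (Bump.inj_aux (δ1'.trans (hδ1 q hq)) δpos (hB q) B1 ?_ ?_ h1)
    · nlinarith
    · rw [← norm_hel _ θ _ (a_nonneg l q), ← norm_hel _ θ _ (a_nonneg l q')]
      exact abs_norm_sub_norm_le _ _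
  have emb : ∀ l, IsEmb c fun q => Φ (hel (a l) θ q) := by
    intro l
    refine ⟨sΦ.comp (hel_smooth (a := fun _ => a l) (sa l) contDiff_id sθ), fun q m => ?_,
      fun q q' h => ?_, fun q => ?_⟩
    · rw [hel_shift (a_per l) pθ, pΦ]; rfl
    · by_cases hq : q ∈ K
      · exact (inj1 l q hq q' h).symm
      by_cases hq' : q' ∈ K
      · exact inj1 l q' hq' q h.symm
      simp only [zero' l q (hKν q hq), zero' l q' (hKν q' hq')] at h
      exact hf.inj h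
    · by_cases hq : q ∈ K
      · exact inj_of_dl (trans l q hq).ne'
      rw [dd_congr_open c hK.isOpen_compl (fun x hx => zero' l x (hKν x hx)) hq]
      exact hf.imm q
  refine ⟨fun q => Φ (hel (a 1) θ q), ⟨fun l q => Φ (hel (a l) θ q), ?_, emb, ?_, rfl⟩,
    zero', fun l q => ?_, fun l q hq => ⟨trans l q hq, ?_⟩⟩
  · refine sΦ.comp (hel_smooth (a := fun x : ℝ × Q => a x.1) ?_ contDiff_snd sθ)
    simp only [ha]
    exact (contDiff_const.mul (Real.smoothTransition.contDiff.comp contDiff_fst)).mul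
      (sν.comp contDiff_snd)
  · funext q
    exact zero 0 q (by rw [ha]; simp)
  · have := hρ' q q (hel (a l) θ q).2 (by simpa using (nhel l q).trans a01) 0 (by simp)
      (by simp [ρ'pos.le]) (by simpa using (nhel l q).trans a0ρ')
    simp only [Φ0, dist_eq_norm, sub_self, sub_zero] at this
    exact this
  · obtain ⟨μ, τ, g, e1, e2, m1, t1, k5, -⟩ := main l q hq
    have a3 : 0 ≤ a l q ^ 3 := pow_nonneg (a_nonneg l q) 3
    have h2 : sg * g.re ≤ -(a l q ^ 3 / 16) := by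
      rw [abs_le] at k5
      rcases hsg with rfl | rfl <;> linarith [k5.1, k5.2]
    have h3 := mul_le_mul_of_nonneg_left h2 N0
    refine ⟨N * (2 * Real.pi) * g.re, by nlinarith, ?_, ?_, fun hl hν => ?_⟩
    · show |(dd c (fun q => Φ (hel (a l) θ q)) q).1.2.re - _ - _| ≤ ε
      have h1 := (Complex.abs_re_le_norm _).trans m1
      rw [e1]
      refine le_trans (le_of_eq ?_) (h1.trans (by linarith))
      congr 1
      simp only [Complex.add_re, Complex.smul_re, smul_eq_mul, Complex.sub_re, al]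
      ring
    · show |(dd c (fun q => Φ (hel (a l) θ q)) q).2.2.re - _ - _| ≤ ε
      have h1 := (Complex.abs_re_le_norm _).trans t1
      rw [e2]
      refine le_trans (le_of_eq ?_) (h1.trans (by linarith))
      congr 1
      simp only [Complex.add_re, Complex.smul_re, smul_eq_mul, Complex.sub_re, al]
      ring
    · have ea : a l q = a0 := by rw [ha, hl]; simp [hν]
      rw [ea] at h3
      have h4 : |sg * (N * (2 * Real.pi) * g.re)| = |N * (2 * Real.pi) * g.re| := by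
        rw [abs_mul, Bump.abs_sg hsg, one_mul]
      rw [← h4]
      refine le_trans ?_ (neg_le_abs _)
      nlinarith

end Pool.Agent.Lib.MP_72f1d0_gt
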