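import Mathlib
import Pool.Agent.Lib.MP_72f1d0_gt.Norm
import Pool.Agent.Lib.MP_72f1d0_gt.Reparam
import Pool.Agent.Lib.MP_72f1d0_gt.Eq.Cores

/-! Reduction of the model theorem to the two core statements: preliminaries. -/

open scoped ContDiff Topology
open Set Filter

namespace Pool.Agent.Lib.MP_72f1d0_gt

namespace GCore

open SymB

/-- The conclusion of the model theorem. -/
def Out (c : Ctx) (κ wS xS wT xT : ℝ) (Γ : UI → Q → G × G) : Prop :=
  ∃ (H : ℝ → Q → G) (K : UI → UI → Q → G × G),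
    ContDiff ℝ ∞ (fun x : ℝ × Q => H x.1 x.2) ∧ (∀ l, IsEmb c (H l)) ∧
    Continuous (fun x : UI × UI × Q => K x.1 x.2.1 x.2.2) ∧ (∀ l s q, Inj (K l s q)) ∧
    (∀ (l : UI) q, K l 0 q = dd c (H l) q) ∧ (∀ l q, dl (K l 1 q) ≠ 0) ∧
    H 0 = i0 ∧ (∀ s q, K 0 s q = Γ s q) ∧ (∀ s q, K 1 s q = dd c (H 1) q) ∧
    (∀ l q, H l (aff 1 (1 / 2, 0) q) = LL 1 xS wS (H l q) + i0 (1 / 2, 0) ∧
      H l (aff κ (0, 1 / 2) q) = LL κ xT wT (H l q) + i0 (0, 1 / 2)) ∧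
    ∀ l s q, K l s (aff 1 (1 / 2, 0) q) = rho 1 wS xS (K l s q) ∧
      K l s (aff κ (0, 1 / 2) q) = rho κ wT xT (K l s q)

/-- The hypotheses of the model theorem. -/
structure Hyp (c : Ctx) (κ wS xS wT xT : ℝ) (Γ : UI → Q → G × G) : Prop where
  hκ : κ = 1 ∨ κ = -1
  hwS : wS = 1 ∨ wS = -1
  hxS : xS = 1 ∨ xS = -1
  hwT : wT = 1 ∨ wT = -1
  hxT : xT = 1 ∨ xT = -1
  hi : ∀ q, c.i q = i0 q
  nrm : c.Nrm
  cS : ∀ p a, c.e (LL 1 xS wS p + i0 (1 / 2, 0)) (EE wS xS a) = LL 1 xS wS (c.e p a)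
  cT : ∀ p a, c.e (LL κ xT wT p + i0 (0, 1 / 2)) (EE wT xT a) = LL κ xT wT (c.e p a)
  cont : Continuous fun x : UI × Q => Γ x.1 x.2
  per : ∀ s, Per (Γ s)
  inj : ∀ s q, Inj (Γ s q)
  g0 : ∀ q, Γ 0 q = dd c i0 q
  g1 : ∀ q, dl (Γ 1 q) ≠ 0
  eS : ∀ s q, Γ s (aff 1 (1 / 2, 0) q) = rho 1 wS xS (Γ s q)
  eT : ∀ s q, Γ s (aff κ (0, 1 / 2) q) = rho κ wT xT (Γ s q)

lemma i0_add (q q' : Q) : i0 (q + q') = i0 q + i0 q' := by
  refine Prod.ext (Complex.ext ?_ ?_) ?_ <;> simp [i0]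

lemma LL_i0 (x w : ℝ) (q : Q) : LL 1 x w (i0 q) = i0 q := by
  rw [LL_apply]
  refine Prod.ext (Complex.ext ?_ ?_) (Complex.ext ?_ ?_) <;> simp [i0]

lemma i0_aff (k x w : ℝ) (v q : Q) : i0 (aff k v q) = LL k x w (i0 q) + i0 v := by
  rw [LL_apply]
  refine Prod.ext (Complex.ext ?_ ?_) (Complex.ext ?_ ?_) <;> simp [i0, aff]

lemma LL_LL (k x w k' x' w' : ℝ) (p : G) :
    LL k x w (LL k' x' w' p) = LL (k * k') (x * x') (w * w') p := by
  simp only [LL_apply, mul_assoc]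

lemma LL_one (p : G) : LL 1 1 1 p = p := by
  rw [LL_apply]
  refine Prod.ext (Complex.ext ?_ ?_) (Complex.ext ?_ ?_) <;> simp

lemma EE_mul (w x w' x' : ℝ) (p : G) : EE w x (EE w' x' p) = EE (w * w') (x * x') p := by
  simp only [EE_apply]
  refine Prod.ext (Complex.ext ?_ ?_) (Complex.ext ?_ ?_) <;> simp <;> ring

lemma EE_one (p : G) : EE 1 1 p = p := by
  rw [EE_apply]
  refine Prod.ext (Complex.ext ?_ ?_) (Complex.ext ?_ ?_) <;> simp

lemma rho_mul (w w' : ℝ) (A : G × G) : rho 1 w 1 (rho 1 w' 1 A) = rho 1 (w * w') 1 A := by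
  simp [rho, EE_mul]

lemma rho_one (A : G × G) : rho 1 1 1 A = A := by simp [rho, EE_one]

lemma sq_one {w : ℝ} (h : w = 1 ∨ w = -1) : w * w = 1 := by rcases h with rfl | rfl <;> norm_num

lemma sign_mul {w w' : ℝ} (h : w = 1 ∨ w = -1) (h' : w' = 1 ∨ w' = -1) :
    w * w' = 1 ∨ w * w' = -1 := by
  rcases h with rfl | rfl <;> rcases h' with rfl | rfl <;> norm_num

lemma norm_sg {a b : ℝ} (ha : a = 1 ∨ a = -1) (hb : b = 1 ∨ b = -1) (z : ℂ) :
    ‖sg2 a b z‖ = ‖z‖ := by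
  rw [Complex.norm_eq_sqrt_sq_add_sq, Complex.norm_eq_sqrt_sq_add_sq, sg2_re, sg2_im, mul_pow,
    mul_pow, sq a, sq b, sq_one ha, sq_one hb, one_mul, one_mul]

/-- A symmetry with the standard linear part. -/
noncomputable def mkSym (c : Ctx) {k w : ℝ} (hk : k = 1 ∨ k = -1) (hw : w = 1 ∨ w = -1) (v : Q)
    (b : G) (compat : ∀ p a, c.e (LL k k w p + b) (EE w k a) = LL k k w (c.e p a))
    (sq : ∃ m, ∀ q, aff k v (aff k v q) = q + lat m) : Sym c where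
  k := k
  w := w
  x := k
  v := v
  L := LL k k w
  b := b
  hk := hk
  hw := hw
  kx := sq_one hk
  invol p := by rw [LL_LL, sq_one hk, sq_one hw, LL_one]
  iso p := by
    rw [Prod.norm_def, Prod.norm_def]
    exact congrArg₂ max (norm_sg hk (Or.inl rfl) _) (norm_sg hk hw _)
  compat := compat
  sq := sq

lemma sqS : ∃ m, ∀ q, aff 1 (1 / 2, 0) (aff 1 (1 / 2, 0) q) = q + lat m :=
  ⟨(1, 0), fun q => by ext <;> simp [aff]; ring⟩

lemma sqT : ∃ m, ∀ q, aff (-1) (0, 1 / 2) (aff (-1) (0, 1 / 2) q) = q + lat m :=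
  ⟨(0, 1), fun q => by ext <;> simp [aff]; ring⟩

variable {c : Ctx} {κ wS xS wT xT : ℝ} {Γ : UI → Q → G × G}

lemma Hyp.emb (h : Hyp c κ wS xS wT xT Γ) : IsEmb c i0 := by
  have e : i0 = c.i := (funext h.hi).symm
  refine ⟨e ▸ c.i.contDiff, fun q m => by rw [i0_add, h.hi], e ▸ c.i_inj, fun q => ?_⟩
  rw [← h.g0]; exact h.inj 0 q

/-- The clamped parameter. -/
noncomputable def pj (s : ℝ) : UI := projIcc 0 1 zero_le_one s

@[fun_prop] lemma continuous_pj : Continuous pj := continuous_projIcc (h := zero_le_one)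
@[simp] lemma pj_coe (s : UI) : pj s = s := projIcc_val zero_le_one s
@[simp] lemma pj_zero : pj 0 = 0 := pj_coe 0
@[simp] lemma pj_one : pj 1 = 1 := pj_coe 1

lemma signs (h : Hyp c κ wS xS wT xT Γ) (hp : ∀ q, 0 < dl (Γ 1 q)) : xS = 1 ∧ xT = κ := by
  have a1 := hp (aff 1 (1 / 2, 0) 0)
  have a2 := hp (aff κ (0, 1 / 2) 0)
  have a3 := hp 0
  rw [h.eS, dl_rho, sq, sq_one h.hwS] at a1
  rw [h.eT, dl_rho, sq, sq_one h.hwT] at a2
  constructor
  · rcases h.hxS with e | e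
    · exact e
    · rw [e] at a1; linarith
  · rcases h.hκ with e | e <;> rcases h.hxT with e' | e' <;> rw [e, e'] at a2 ⊢ <;> linarith

theorem klein (hK : KleinCoreStmt) (h : Hyp c (-1) wS 1 wT (-1) Γ) (hp : ∀ q, 0 < dl (Γ 1 q)) :
    Out c (-1) wS 1 wT (-1) Γ := by
  let S := mkSym c (Or.inl rfl) h.hwS (1 / 2, 0) _ h.cS sqS
  let T := mkSym c (Or.inr rfl) h.hwT (0, 1 / 2) _ h.cT sqT
  have hc := h.cont
  let x : St c {S, T} :=
    { f := i0
      γ := fun y => Γ (pj y.1) y.2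
      emb := h.emb
      fam := ⟨hc.comp (f := fun y : ℝ × Q => (pj y.1, y.2)) (by fun_prop),
        fun s => h.per (pj s), fun s q _ _ => h.inj _ q⟩
      g0 := fun q => by simpa using h.g0 q
      g1 := fun q => by simpa using hp q
      ef := by
        rintro σ (rfl | rfl) q
        · exact i0_aff _ _ _ _ q
        · exact i0_aff _ _ _ _ q
      eg := by
        rintro σ (rfl | rfl) s q
        · exact h.eS _ q
        · exact h.eT _ q }
  obtain ⟨y, ⟨z, z1, z2, z3, z4⟩, hy⟩ := hK c h.nrm S T rfl rfl rfl rfl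
    (fun p => by simp only [S, T, mkSym, LL_LL, mul_comm]) x
  refine ⟨fun l => (z l).f, fun l s q => (z l).γ (s, q), z1, fun l => (z l).emb,
    z2.comp (f := fun y : UI × UI × Q => ((y.1 : ℝ), (y.2.1 : ℝ), y.2.2)) (by fun_prop),
    fun l s q => (z l).fam.inj s q s.2.1 s.2.2, fun l q => (z l).g0 q,
    fun l q => ((z l).g1 q).ne', by simp only [z3, x], fun s q => ?_, fun s q => ?_,
    fun l q => ⟨(z l).ef S (Or.inl rfl) q, (z l).ef T (Or.inr rfl) q⟩,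
    fun l s q => ⟨(z l).eg S (Or.inl rfl) s q, (z l).eg T (Or.inr rfl) s q⟩⟩
  · simp only [Icc.coe_zero, z3, x, pj_coe]
  · simp only [Icc.coe_one, z4]
    exact hy q s s.2.1 s.2.2

/-! ### Reversal of the orientation of the frame -/

lemma brk_fl (c : Ctx) (p A B : G) :
    brk (fun p => (c.e p).comp (EE 1 (-1))) (fun p => (EE 1 (-1)).comp (c.om p)) p A B =
      EE 1 (-1) (c.br p (EE 1 (-1) A) (EE 1 (-1) B)) := by
  have h1 : HasFDerivAt (fun p => (EE 1 (-1)).comp (c.om p))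
      ((ContinuousLinearMap.compL ℝ G G G (EE 1 (-1))).comp (fderiv ℝ c.om p)) p :=
    (ContinuousLinearMap.compL ℝ G G G (EE 1 (-1))).hasFDerivAt.comp p
      (c.om_smooth.differentiable (by simp) p).hasFDerivAt
  simp only [brk, h1.fderiv, Ctx.br_def, map_sub]
  rfl

lemma EE_fl (v : G) : EE 1 (-1) (EE 1 (-1) v) = v := EE_EE (Or.inl rfl) (Or.inr rfl) v

lemma fl_X : EE 1 (-1) vX = -vX := by
  rw [EE_apply]; refine Prod.ext (Complex.ext ?_ ?_) (Complex.ext ?_ ?_) <;> simp [vX]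
lemma fl_W : EE 1 (-1) vW = vW := by
  rw [EE_apply]; refine Prod.ext (Complex.ext ?_ ?_) (Complex.ext ?_ ?_) <;> simp [vW]
lemma fl_Z : EE 1 (-1) vZ = -vZ := by
  rw [EE_apply]; refine Prod.ext (Complex.ext ?_ ?_) (Complex.ext ?_ ?_) <;> simp [vZ]
lemma al_fl (v : G) : al (EE 1 (-1) v) = al v := by simp [al, EE_apply]

/-- The frame `(-X, W, R, -Z)`. -/
noncomputable def fl (c : Ctx) : Ctx where
  i := c.i
  i_inj := c.i_inj
  e p := (c.e p).comp (EE 1 (-1))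
  om p := (EE 1 (-1)).comp (c.om p)
  e_smooth := c.e_smooth.clm_comp contDiff_const
  om_smooth := contDiff_const.clm_comp c.om_smooth
  om_e p v := by simp [c.om_e, EE_fl]
  e_om p v := by simp [c.e_om, EE_fl]
  e_per p m := by rw [c.e_per]
  om_per p m := by rw [c.om_per]
  brXW p := by
    rw [brk_fl, fl_X, fl_W, c.br_neg_left, EE_apply]
    apply Complex.ext <;> simp [c.br_XW]
  brXZ p := by rw [brk_fl, fl_X, fl_Z, c.br_neg_left, c.br_neg_right, neg_neg, al_fl, c.br_XZ]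

lemma fl_nrm (h : c.Nrm) : (fl c).Nrm := fun p => by
  show al (brk _ _ p vW vZ) = 0
  simp only [fl]
  rw [brk_fl, fl_W, fl_Z, c.br_neg_right, al_fl, al_neg, h p, neg_zero]

lemma dd_fl (f : Q → G) (q : Q) : dd (fl c) f q = rho 1 1 (-1) (dd c f q) := by
  simp [dd, fl, rho]

lemma rho_fl (A : G × G) : rho 1 1 (-1) (rho 1 1 (-1) A) = A :=
  rho_rho (Or.inl rfl) (Or.inl rfl) (Or.inr rfl) A

lemma inj_fl {A : G × G} (h : Inj A) : Inj (rho 1 1 (-1) A) :=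
  inj_rho (Or.inl rfl) (Or.inl rfl) (Or.inr rfl) h

lemma Hyp.fl (h : Hyp c κ wS xS wT xT Γ) :
    Hyp (fl c) κ wS xS wT xT fun s q => rho 1 1 (-1) (Γ s q) where
  hκ := h.hκ
  hwS := h.hwS
  hxS := h.hxS
  hwT := h.hwT
  hxT := h.hxT
  hi := h.hi
  nrm := fl_nrm h.nrm
  cS p a := by
    show c.e _ (EE 1 (-1) _) = LL 1 xS wS (c.e p (EE 1 (-1) a))
    rw [EE_comm, h.cS]
  cT p a := by
    show c.e _ (EE 1 (-1) _) = LL κ xT wT (c.e p (EE 1 (-1) a))
    rw [EE_comm, h.cT]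
  cont := (continuous_rho _ _ _).comp h.cont
  per s := (h.per s).comp _
  inj s q := inj_fl (h.inj s q)
  g0 q := by rw [h.g0, dd_fl]
  g1 q := by rw [dl_rho]; simpa using h.g1 q
  eS s q := by rw [h.eS, rho_comm]
  eT s q := by rw [h.eT, rho_comm]

lemma Out.of_fl (h : Out (fl c) κ wS xS wT xT fun s q => rho 1 1 (-1) (Γ s q)) :
    Out c κ wS xS wT xT Γ := by
  obtain ⟨H, K, a1, a2, a3, a4, a5, a6, a7, a8, a9, a10, a11⟩ := h
  have e : ∀ f q, rho 1 1 (-1) (dd (fl c) f q) = dd c f q := fun f q => by rw [dd_fl, rho_fl]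
  refine ⟨H, fun l s q => rho 1 1 (-1) (K l s q), a1, fun l => ⟨(a2 l).smooth, (a2 l).equi,
    (a2 l).inj, fun q => e _ q ▸ inj_fl ((a2 l).imm q)⟩, (continuous_rho _ _ _).comp a3,
    fun l s q => inj_fl (a4 l s q), fun l q => by simp only [a5, e], fun l q => ?_, a7,
    fun s q => by simp only [a8, rho_fl], fun s q => by simp only [a9, e], a10, fun l s q => ?_⟩
  · rw [dl_rho]; simpa using a6 l q
  · simp only [(a11 l s q).1, (a11 l s q).2]
    exact ⟨rho_comm _ _ _ _ _ _ _, rho_comm _ _ _ _ _ _ _⟩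

end GCore

end Pool.Agent.Lib.MP_72f1d0_gt
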