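import Mathlib
import Pool.Agent.Lib.MP_72f1d0_gt.Eq.GCore1

/-! Reduction of the model theorem to the two core statements. -/

open scoped ContDiff Topology
open Set Filter

namespace Pool.Agent.Lib.MP_72f1d0_gt

namespace GCore

open SymB Band

variable {c : Ctx} {wS wT : ℝ} {Γ : UI → Q → G × G}

lemma aff_one (v q : Q) : aff 1 v q = q + v := by ext <;> simp [aff]

lemma aa_rho (w x : ℝ) (A : G × G) : aa (rho 1 w x A) = w * aa A := by
  apply Complex.ext <;> simp [aa, rho, EE_apply, al]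

lemma sign_eq {w w' : ℝ} {A : G × G} (hA : dl A ≠ 0) (h : rho 1 w 1 A = rho 1 w' 1 A) : w = w' := by
  have := congrArg aa h
  rw [aa_rho, aa_rho] at this
  exact_mod_cast mul_right_cancel₀ (aa_ne hA) this

/-- The translation by `v` is a symmetry with the sign `w`. -/
structure Deck (c : Ctx) (Γ : UI → Q → G × G) (v : Q) (w : ℝ) : Prop where
  hw : w = 1 ∨ w = -1
  compat : ∀ p a, c.e (LL 1 1 w p + i0 v) (EE w 1 a) = LL 1 1 w (c.e p a)
  eq : ∀ s q, Γ s (q + v) = rho 1 w 1 (Γ s q)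

lemma Deck.add {v v' : Q} {w w' : ℝ} (h : Deck c Γ v w) (h' : Deck c Γ v' w') :
    Deck c Γ (v + v') (w' * w) where
  hw := sign_mul h'.hw h.hw
  compat p a := by
    have := h'.compat (LL 1 1 w p + i0 v) (EE w 1 a)
    rw [h.compat, map_add, LL_LL, LL_LL, LL_i0, EE_mul, add_assoc, ← i0_add] at this
    simpa only [mul_one] using this
  eq s q := by rw [← add_assoc, h'.eq, h.eq, rho_mul]

lemma Hyp.deck (h : Hyp c 1 wS 1 wT 1 Γ) (m n : ℤ) :
    ∃ w, Deck c Γ ((m : ℝ) / 2, (n : ℝ) / 2) w := by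
  have dS : Deck c Γ (1 / 2, 0) wS := ⟨h.hwS, h.cS, fun s q => by rw [← aff_one, h.eS]⟩
  have dT : Deck c Γ (0, 1 / 2) wT := ⟨h.hwT, h.cT, fun s q => by rw [← aff_one, h.eT]⟩
  have dL : ∀ m, Deck c Γ (lat m) 1 := fun m => ⟨Or.inl rfl, fun p a => by
    rw [LL_one, LL_one, EE_one, ← h.hi, c.e_per], fun s q => by rw [h.per, rho_one]⟩
  obtain ⟨i, rfl | rfl⟩ := Int.even_or_odd' m <;> obtain ⟨j, rfl | rfl⟩ := Int.even_or_odd' n
  · exact ⟨_, by convert dL (i, j) using 1; ext <;> simp⟩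
  · exact ⟨_, by convert (dL (i, j)).add dT using 1; ext <;> simp; ring⟩
  · exact ⟨_, by convert (dL (i, j)).add dS using 1; ext <;> simp; ring⟩
  · exact ⟨_, by convert ((dL (i, j)).add dS).add dT using 1; ext <;> simp <;> ring⟩

/-- The rotation numbers of the formal direction along the half periods. -/
lemma Hyp.log (h : Hyp c 1 wS 1 wT 1 Γ) : ∃ (Λ : Q → ℂ) (k₁ k₂ : ℤ), Continuous Λ ∧
    (∀ q, Complex.exp (Λ q) = aa (Γ 1 q)) ∧ ∀ q (m n : ℤ),
      Λ (q + ((m : ℝ) / 2, (n : ℝ) / 2)) =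
        Λ q + ((k₁ * m + k₂ * n : ℤ) : ℂ) * (Real.pi * Complex.I) := by
  have hb : ∀ q, aa (Γ 1 q) ≠ 0 := fun q => aa_ne (h.g1 q)
  have cb : Continuous fun q => aa (Γ 1 q) :=
    continuous_aa.comp (h.cont.comp (f := fun q : Q => ((1 : UI), q)) (by fun_prop))
  obtain ⟨Λ, cΛ, eΛ⟩ := Cores.exists_log cb hb
  obtain ⟨L, k₁, k₂, cL, eL, pL⟩ := Norm.exists_log
    (b := fun q => aa (Γ 1 ((1 / 2 : ℝ) • q)) ^ 2) ((cb.comp (by fun_prop)).pow 2)
    (fun q m => by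
      obtain ⟨w, hw⟩ := h.deck m.1 m.2
      have e : (1 / 2 : ℝ) • (q + lat m) = (1 / 2 : ℝ) • q + ((m.1 : ℝ) / 2, (m.2 : ℝ) / 2) := by
        ext <;> simp <;> ring
      have e2 : (w : ℂ) ^ 2 = 1 := by rcases hw.hw with rfl | rfl <;> norm_num
      simp only [e, hw.eq, aa_rho, mul_pow, e2, one_mul])
    fun q => pow_ne_zero 2 (hb _)
  have k := Cores.const_of_exp (g := fun q => 2 * Λ q - L ((2 : ℝ) • q)) (z := 1) (by fun_prop)
    fun q => by
      rw [Complex.exp_sub, eL, two_mul, Complex.exp_add, eΛ, smul_smul]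
      norm_num
      rw [← sq, div_self (pow_ne_zero 2 (hb q))]
  refine ⟨Λ, k₁, k₂, cΛ, eΛ, fun q m n => ?_⟩
  have a1 := k (q + ((m : ℝ) / 2, (n : ℝ) / 2)) q
  have e : (2 : ℝ) • (q + ((m : ℝ) / 2, (n : ℝ) / 2)) = (2 : ℝ) • q + lat (m, n) := by
    ext <;> simp <;> ring
  simp only [e, pL] at a1
  linear_combination a1 / 2

/-- The change of basis adapted to the half lattice. -/
noncomputable def bas (m₁ n₁ m₀ n₀ : ℤ) (h : m₁ * n₀ - m₀ * n₁ = 1) : Q ≃L[ℝ] Q :=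
  ContinuousLinearEquiv.equivOfInverse (Norm.mat m₁ (m₀ / 2) n₁ (n₀ / 2))
    (Norm.mat n₀ (-m₀) (-2 * n₁) (2 * m₁))
    (fun v => by
      have h' : (m₁ : ℝ) * n₀ - m₀ * n₁ = 1 := by exact_mod_cast h
      simp only [Norm.mat_apply]
      ext
      · simp only
        linear_combination v.1 * h'
      · simp only
        linear_combination v.2 * h')
    (fun v => by
      have h' : (m₁ : ℝ) * n₀ - m₀ * n₁ = 1 := by exact_mod_cast h
      simp only [Norm.mat_apply]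
      ext
      · simp only
        linear_combination v.1 * h'
      · simp only
        linear_combination v.2 * h')

lemma bas_apply {m₁ n₁ m₀ n₀ : ℤ} (h : m₁ * n₀ - m₀ * n₁ = 1) (v : Q) :
    bas m₁ n₁ m₀ n₀ h v = (m₁ * v.1 + m₀ / 2 * v.2, n₁ * v.1 + n₀ / 2 * v.2) :=
  Norm.mat_apply _ _ _ _ v

lemma bas_symm_apply {m₁ n₁ m₀ n₀ : ℤ} (h : m₁ * n₀ - m₀ * n₁ = 1) (v : Q) :
    (bas m₁ n₁ m₀ n₀ h).symm v = (n₀ * v.1 + -m₀ * v.2, -2 * n₁ * v.1 + 2 * m₁ * v.2) :=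
  Norm.mat_apply _ _ _ _ v

/-- The structure with a new lattice of periods. -/
noncomputable def reb (c : Ctx) (A : Q ≃L[ℝ] Q) (h : ∀ p m, c.e (p + c.i (A (lat m))) = c.e p) :
    Ctx where
  i := c.i.comp (A : Q →L[ℝ] Q)
  i_inj := c.i_inj.comp A.injective
  e := c.e
  om := c.om
  e_smooth := c.e_smooth
  om_smooth := c.om_smooth
  om_e := c.om_e
  e_om := c.e_om
  e_per := h
  om_per p m := ContinuousLinearMap.ext fun v => by
    show c.om (p + c.i (A (lat m))) v = c.om p v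
    rw [← c.e_om p v, c.om_e, ← h p m, c.om_e]
  brXW := c.brXW
  brXZ := c.brXZ

lemma act_rho (A : Q →L[ℝ] Q) (w x : ℝ) (P : G × G) : act A (rho 1 w x P) = rho 1 w x (act A P) := by
  simp [act, rho, ap]

lemma aa_act (A : Q →L[ℝ] Q) {P P' : G × G} (h : aa P = aa P') : aa (act A P) = aa (act A P') := by
  have h1 : al P.2 = al P'.2 := (Complex.ext_iff.1 h).1
  have h2 : al P.1 = al P'.1 := neg_injective (Complex.ext_iff.1 h).2
  simp only [aa, act, ap, al_add, al_smul, h1, h2]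

theorem torus (hT : TorusCoreStmt) (h : Hyp c 1 wS 1 wT 1 Γ) (hp : ∀ q, 0 < dl (Γ 1 q)) :
    Out c 1 wS 1 wT 1 Γ := by
  obtain ⟨Λ, k₁, k₂, cΛ, eΛ, pΛ⟩ := h.log
  obtain ⟨-, x₀, y₀, a₀, b₀, hb, -, hk⟩ := Norm.bezout k₁ k₂
  have hdet : x₀ * a₀ - -b₀ * y₀ = 1 := by linarith
  set A := bas x₀ y₀ (-b₀) a₀ hdet with hA
  have Alat : ∀ m : ℤ × ℤ, A (lat m) = lat (x₀ * m.1, y₀ * m.1) +
      (((-b₀ * m.2 : ℤ) : ℝ) / 2, ((a₀ * m.2 : ℤ) : ℝ) / 2) := fun m => by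
    rw [hA, bas_apply]; ext <;> simp <;> ring
  have pΛ' : ∀ q (j : ℤ), Λ (q + (((-b₀ * j : ℤ) : ℝ) / 2, ((a₀ * j : ℤ) : ℝ) / 2)) = Λ q :=
    fun q j => by
      rw [pΛ, show k₁ * (-b₀ * j) + k₂ * (a₀ * j) = 0 by linear_combination j * hk]; simp
  have d0 : ∀ j : ℤ, Deck c Γ (((-b₀ * j : ℤ) : ℝ) / 2, ((a₀ * j : ℤ) : ℝ) / 2) 1 := fun j => by
    obtain ⟨w, hw⟩ := h.deck (-b₀ * j) (a₀ * j)
    have e := congrArg aa (hw.eq 1 0)
    rw [aa_rho, ← eΛ, pΛ', eΛ] at e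
    have e2 : w = 1 := by
      exact_mod_cast (mul_right_cancel₀ (aa_ne (h.g1 0)) ((one_mul _).trans e)).symm
    exact e2 ▸ hw
  have eper : ∀ p m, c.e (p + c.i (A (lat m))) = c.e p := fun p m =>
    ContinuousLinearMap.ext fun v => by
      have := (d0 m.2).compat (p + c.i (lat (x₀ * m.1, y₀ * m.1))) v
      rw [LL_one, LL_one, EE_one, c.e_per, ← h.hi] at this
      rw [Alat, map_add, ← add_assoc, this]
  have Γper : ∀ s q m, Γ s (q + A (lat m)) = Γ s q := fun s q m => by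
    rw [Alat, ← add_assoc, (d0 m.2).eq, rho_one, h.per]
  obtain ⟨w₁, d1⟩ := h.deck x₀ y₀
  have Ahalf : A (1 / 2, 0) = ((x₀ : ℝ) / 2, (y₀ : ℝ) / 2) := by
    rw [hA, bas_apply]; ext <;> simp <;> ring
  let c' := reb c A eper
  let S : Sym c' := mkSym c' (Or.inl rfl) d1.hw (1 / 2, 0) _ d1.compat sqS
  have hc := h.cont
  have hf := h.emb
  have ddA : ∀ q, dd c' (fun x => i0 (A x)) q = act (A : Q →L[ℝ] Q) (dd c i0 (A q)) :=
    dd_comp (c := c) (c' := c') rfl A hf.smooth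
  have detA : Norm.det (A : Q →L[ℝ] Q) = 1 / 2 := by
    have h' : (x₀ : ℝ) * a₀ + y₀ * b₀ = 1 := by exact_mod_cast hb
    simp only [Norm.det, ContinuousLinearEquiv.coe_coe, hA, bas_apply]
    push_cast
    linear_combination h' / 2
  let x : St c' {S} :=
    { f := fun q => i0 (A q)
      γ := fun y => act (A : Q →L[ℝ] Q) (Γ (pj y.1) (A y.2))
      emb := ⟨hf.smooth.comp A.contDiff, fun q m => by
          rw [map_add, i0_add, ← h.hi (A (lat m))]; rfl, hf.inj.comp A.injective,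
        fun q => by rw [ddA]; exact inj_act A (hf.imm _)⟩
      fam := ⟨(continuous_act _).comp
          (hc.comp (f := fun y : ℝ × Q => (pj y.1, A y.2)) (by fun_prop)),
        fun s q m => by simp only [map_add, Γper], fun s q _ _ => inj_act A (h.inj _ _)⟩
      g0 := fun q => by simp only [pj_zero, h.g0, ddA]
      g1 := fun q => by
        simp only [pj_one, Norm.dl_act, detA]
        linarith [hp (A q)]
      ef := by
        rintro σ rfl q
        show i0 (A (aff 1 (1 / 2, 0) q)) = LL 1 1 w₁ (i0 (A q)) + i0 _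
        rw [aff_one, map_add, i0_add, LL_i0, Ahalf]
      eg := by
        rintro σ rfl s q
        show act _ (Γ _ (A (aff 1 (1 / 2, 0) q))) = rho 1 w₁ 1 (act _ _)
        rw [aff_one, map_add, Ahalf, d1.eq, act_rho] }
  have hZ : ZR x := by
    let P : Q → G × G := fun y => ((0, (-(Complex.exp ⟨y.1, y.2⟩).im : ℝ)),
      (0, ((Complex.exp ⟨y.1, y.2⟩).re : ℝ)))
    have aP : ∀ y, aa (P y) = Complex.exp ⟨y.1, y.2⟩ := fun y => by
      apply Complex.ext <;> simp only [P, aa, al, Complex.ofReal_re, neg_neg]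
    have cE : Continuous fun y : Q => Complex.exp ⟨y.1, y.2⟩ :=
      Complex.continuous_exp.comp (Norm.continuous_mk continuous_fst continuous_snd)
    have cP : Continuous P := by fun_prop
    obtain ⟨ℓ, cℓ, eℓ⟩ := Cores.exists_log (b := fun y => aa (act (A : Q →L[ℝ] Q) (P y)))
      (continuous_aa.comp ((continuous_act _).comp cP)) fun y h0 => by
        have h1 := aa_act (A.symm : Q →L[ℝ] Q) (P' := 0) (h0.trans (by simp [aa, al]; rfl))
        rw [act_act_symm, aP] at h1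
        exact Complex.exp_ne_zero _ (h1.trans (by simp [aa, al, act, ap]; rfl))
    refine ⟨fun q => ℓ ((Λ (A q)).re, (Λ (A q)).im), cℓ.comp (by fun_prop), fun q => ?_,
      fun q => ?_⟩
    · have e : A (q + (0, 1)) = A q + (((-b₀ * 1 : ℤ) : ℝ) / 2, ((a₀ * 1 : ℤ) : ℝ) / 2) := by
        rw [map_add, hA, bas_apply hdet (0, 1)]; ext <;> simp
      simp only [e, pΛ']
    · rw [eℓ]
      simp only [x, pj_one]
      exact aa_act _ (by rw [aP, ← eΛ])
  obtain ⟨y, ⟨z, z1, z2, z3, z4⟩, hy⟩ := hT c' h.nrm S rfl rfl x hZ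
  have latA : Latt A.symm := fun m => ⟨(a₀ * m.1 + b₀ * m.2, -2 * y₀ * m.1 + 2 * x₀ * m.2), by
    rw [hA, bas_symm_apply]; ext <;> simp⟩
  -- equivariance under all half periods
  have key : ∀ j k : ℤ, ∃ w : ℝ, ∀ y : St c' {S},
      (∀ q, y.f (q + ((j : ℝ) / 2, (k : ℝ))) = LL 1 1 w (y.f q) + i0 (A ((j : ℝ) / 2, (k : ℝ)))) ∧
      ∀ s q, y.γ (s, q + ((j : ℝ) / 2, (k : ℝ))) = rho 1 w 1 (y.γ (s, q)) := fun j k => by
    obtain ⟨i, rfl | rfl⟩ := Int.even_or_odd' j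
    · have e : ((((2 * i : ℤ) : ℝ) / 2, (k : ℝ)) : Q) = lat (i, k) := by ext <;> simp
      refine ⟨1, fun y => ⟨fun q => ?_, fun s q => ?_⟩⟩
      · rw [e, y.emb.equi, LL_one, ← h.hi]; rfl
      · rw [e, rho_one]; exact y.fam.per s q _
    · have e : ((((2 * i + 1 : ℤ) : ℝ) / 2, (k : ℝ)) : Q) = (1 / 2, 0) + lat (i, k) := by
        ext <;> simp; ring
      refine ⟨w₁, fun y => ⟨fun q => ?_, fun s q => ?_⟩⟩
      · have : y.f (aff 1 (1 / 2, 0) q) = LL 1 1 w₁ (y.f q) + i0 _ := y.ef S rfl q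
        rw [e, ← add_assoc, y.emb.equi, ← aff_one, this, map_add, i0_add, ← add_assoc, Ahalf,
          ← h.hi (A _)]
        rfl
      · have := y.eg S rfl s q
        rw [e, ← add_assoc, ← aff_one (1 / 2, 0)]
        exact (y.fam.per s _ _).trans this
  have key2 : ∀ (m n : ℤ) (w : ℝ), (∀ q, Γ 1 (q + ((m : ℝ) / 2, (n : ℝ) / 2)) = rho 1 w 1 (Γ 1 q)) →
      ∀ y : St c' {S},
      (∀ q, y.f (A.symm (q + ((m : ℝ) / 2, (n : ℝ) / 2))) =
        LL 1 1 w (y.f (A.symm q)) + i0 ((m : ℝ) / 2, (n : ℝ) / 2)) ∧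
      ∀ s q, y.γ (s, A.symm (q + ((m : ℝ) / 2, (n : ℝ) / 2))) = rho 1 w 1 (y.γ (s, A.symm q)) := by
    intro m n w hw
    obtain ⟨w', hw'⟩ := key (a₀ * m + b₀ * n) (-y₀ * m + x₀ * n)
    have e : A.symm ((m : ℝ) / 2, (n : ℝ) / 2) =
        (((a₀ * m + b₀ * n : ℤ) : ℝ) / 2, ((-y₀ * m + x₀ * n : ℤ) : ℝ)) := by
      rw [hA, bas_symm_apply]; ext <;> simp <;> ring
    rw [← e] at hw'
    have e2 : w' = w := by
      have a1 := (hw' x).2 1 0
      refine sign_eq (x.g1 0).ne' (a1.symm.trans ?_)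
      simp only [x, pj_one, map_add, A.apply_symm_apply, hw, act_rho]
    intro y
    simp only [map_add, ← e2]
    exact ⟨fun q => by rw [(hw' y).1, A.apply_symm_apply], fun s q => (hw' y).2 s _⟩
  have kS := key2 1 0 wS fun q => by simpa [aff_one] using h.eS 1 q
  have kT := key2 0 1 wT fun q => by simpa [aff_one] using h.eT 1 q
  simp only [Int.cast_one, Int.cast_zero, zero_div] at kS kT
  have ddB : ∀ l q, dd c (fun x => (z l).f (A.symm x)) q =
      act (A.symm : Q →L[ℝ] Q) (dd c' (z l).f (A.symm q)) := fun l =>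
    dd_comp (c := c') (c' := c) rfl A.symm (z l).emb.smooth
  refine ⟨fun l q => (z l).f (A.symm q),
    fun l s q => act (A.symm : Q →L[ℝ] Q) ((z l).γ (s, A.symm q)),
    z1.comp (contDiff_fst.prodMk (A.symm.contDiff.comp contDiff_snd)),
    fun l => IsEmb.comp (c := c') (c' := c) rfl A.symm latA (fun q => by simp [c', reb]) (z l).emb,
    (continuous_act _).comp (z2.comp
      (f := fun y : UI × UI × Q => ((y.1 : ℝ), (y.2.1 : ℝ), A.symm y.2.2)) (by fun_prop)),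
    fun l s q => inj_act A.symm ((z l).fam.inj s _ s.2.1 s.2.2), fun l q => ?_,
    fun l q => dl_act_ne A.symm ((z l).g1 _).ne', ?_, fun s q => ?_, fun s q => ?_,
    fun l q => ?_, fun l s q => ?_⟩
  · simp only [Icc.coe_zero, (z l).g0, ddB]
  · funext q; simp only [z3, x, A.apply_symm_apply]
  · simp only [Icc.coe_zero, z3, x, pj_coe, A.apply_symm_apply, act_act_symm]
  · simp only [Icc.coe_one, ddB]
    rw [z4, hy _ s s.2.1 s.2.2]
  · simp only [aff_one]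
    exact ⟨(kS _).1 q, (kT _).1 q⟩
  · simp only [aff_one, (kS _).2, (kT _).2, act_rho, and_self]

end GCore

open GCore in
theorem gcore (hT : TorusCoreStmt) (hK : KleinCoreStmt) : GCoreStmt := by
  have pos : ∀ (c : Ctx) (κ wS xS wT xT : ℝ) (Γ : UI → Q → G × G), Hyp c κ wS xS wT xT Γ →
      (∀ q, 0 < dl (Γ 1 q)) → Out c κ wS xS wT xT Γ := fun c κ wS xS wT xT Γ h hp => by
    obtain ⟨rfl, rfl⟩ := signs h hp
    rcases h.hκ with rfl | rfl
    · exact torus hT h hp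
    · exact klein hK h hp
  intro κ wS xS wT xT a1 a2 a3 a4 a5 c a6 a7 a8 a9 Γ b1 b2 b3 b4 b5 b6 b7
  have h : Hyp c κ wS xS wT xT Γ := ⟨a1, a2, a3, a4, a5, a6, a7, a8, a9, b1, b2, b3, b4, b5, b6, b7⟩
  have cd : Continuous fun q => dl (Γ 1 q) :=
    continuous_dl.comp (b1.comp (f := fun q : Q => ((1 : UI), q)) (by fun_prop))
  by_cases hp : ∀ q, 0 < dl (Γ 1 q)
  · exact pos c _ _ _ _ _ Γ h hp
  · obtain ⟨q₀, h0⟩ := not_forall.1 hp
    refine Out.of_fl (pos _ _ _ _ _ _ _ h.fl fun q => ?_)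
    rw [SymB.dl_rho]
    by_contra h1
    obtain ⟨q₁, h2⟩ := intermediate_value_univ q₀ q cd (show (0 : ℝ) ∈ Icc _ _ from
      ⟨not_lt.1 h0, by linarith [not_lt.1 h1]⟩)
    exact b5 q₁ h2

end Pool.Agent.Lib.MP_72f1d0_gt
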