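import Mathlib
import Pool.Agent.Lib.MP_72f1d0_gt.Eq.Band

/-! Straightening of the foliation near a circle inside a transverse band. -/

open scoped ContDiff Topology
open Set Filter

namespace Pool.Agent.Lib.MP_72f1d0_gt

namespace R0

open Band

/-- An embedding transverse on the band, with a logarithm of the direction of the foliation. -/
structure BS (c : Ctx) (s₀ δ₀ : ℝ) (f : Q → G) (Λ : Q → ℂ) : Prop where
  emb : IsEmb c f
  pos : ∀ q : Q, |Int.fract q.1 - s₀| ≤ δ₀ → 0 < dl (dd c f q)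
  cont : Continuous Λ
  per : ∀ q, Λ (q + (0, 1)) = Λ q
  exp : ∀ q : Q, |q.1 - s₀| ≤ δ₀ → Complex.exp (Λ q) = aa (dd c f q)

/-- A small transverse isotopy supported in the band. -/
def Mv (c : Ctx) (s₀ δ₀ : ℝ) (f : Q → G) (Λ : Q → ℂ) (F : Q → G) (Λ' : Q → ℂ) (ε : ℝ) : Prop :=
  ∃ J : Iso c f F, (∀ l (q : Q), δ₀ ≤ |Int.fract q.1 - s₀| → J.H l q = f q) ∧
    (∀ l q, ‖J.H l q - f q‖ ≤ ε) ∧
    (∀ l (q : Q), |Int.fract q.1 - s₀| ≤ δ₀ → 0 < dl (dd c (J.H l) q)) ∧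
    ∀ q : Q, δ₀ ≤ |q.1 - s₀| → Λ' q = Λ q

variable {c : Ctx} {s₀ δ₀ : ℝ} {f F F' : Q → G} {Λ Λ' Λ'' : Q → ℂ} {ε ε' : ℝ}

lemma Mv.refl (h : BS c s₀ δ₀ f Λ) : Mv c s₀ δ₀ f Λ f Λ 0 :=
  ⟨Iso.refl h.emb, fun _ _ _ => rfl, fun _ _ => by simp [Iso.refl], fun _ q hq => h.pos q hq,
    fun _ _ => rfl⟩

lemma Mv.trans (h : Mv c s₀ δ₀ f Λ F Λ' ε) (h' : Mv c s₀ δ₀ F Λ' F' Λ'' ε') :
    Mv c s₀ δ₀ f Λ F' Λ'' (ε + ε') := by
  obtain ⟨J, a1, a2, a3, a4⟩ := h
  obtain ⟨J', b1, b2, b3, b4⟩ := h'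
  have e' : 0 ≤ ε' := (norm_nonneg _).trans (b2 0 0)
  refine ⟨J.trans J', fun l q hq => ?_, fun l q => ?_, fun l q hq => ?_,
    fun q hq => (b4 q hq).trans (a4 q hq)⟩
  · rw [Iso.trans_H]
    split_ifs
    · exact a1 _ q hq
    · rw [b1 _ q hq, ← a1 1 q hq, J.h1]
  · rw [Iso.trans_H]
    split_ifs
    · linarith [a2 (Real.smoothTransition (2 * l)) q]
    · have h1 := a2 1 q
      rw [J.h1] at h1
      exact (norm_sub_le_norm_sub_add_norm_sub _ (F q) _).trans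
        (by linarith [b2 (Real.smoothTransition (2 * l - 1)) q])
  · rw [Iso.trans_H]
    split_ifs
    · exact a3 _ q hq
    · exact b3 _ q hq

lemma fract_of_band (h1 : δ₀ < s₀) (h2 : s₀ + δ₀ < 1) {s : ℝ} (h : |s - s₀| ≤ δ₀) :
    Int.fract s = s := by
  rw [abs_le] at h
  exact Int.fract_eq_self.2 ⟨by linarith [h.1], by linarith [h.2]⟩

/-- One helix turns the direction by about a right angle. -/
lemma rot (hG : GBStmt) (h0 : 0 < δ₀) (h1 : δ₀ < s₀) (h2 : s₀ + δ₀ < 1) (h : BS c s₀ δ₀ f Λ)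
    {ϑ : ℝ → ℝ} (sϑ : ContDiff ℝ ∞ ϑ) (pϑ : ∀ t, ϑ (t + 1) = ϑ t)
    (hϑ : ∀ t, |(Λ (s₀, t)).im - ϑ t| < Real.pi / 2) {sg : ℝ} (hsg : sg = 1 ∨ sg = -1)
    (hε : 0 < ε) : ∃ F Λ', BS c s₀ δ₀ F Λ' ∧ Mv c s₀ δ₀ f Λ F Λ' ε ∧
      ∀ t y, |y| ≤ Real.pi / 4 →
        |(Λ' (s₀, t)).im - (ϑ t + sg * (Real.pi / 2) + y)| < Real.pi / 2 := by
  obtain ⟨φ, k, hk, sφ, pφ, dφ⟩ := phase sϑ pϑ s₀
  have hf := h.emb
  have cdd := hf.dd_smooth.continuous
  have pdd := hf.dd_per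
  have cφ : Continuous (fderiv ℝ φ) := sφ.continuous_fderiv (by simp)
  have pφ' : Per (fderiv ℝ φ) := fun q m => by
    obtain ⟨n, hn⟩ := pφ m
    exact fderiv_shift hn q
  have fs₀ : Int.fract s₀ = s₀ := fract_of_band h1 h2 (by simpa using h0.le)
  set g : Q → ℝ := fun q =>
    fderiv ℝ φ q (1, 0) * al (dd c f q).2 - fderiv ℝ φ q (0, 1) * al (dd c f q).1 with hg
  have cg : Continuous g := ((cφ.clm_apply continuous_const).mul (continuous_al.comp cdd.snd)).sub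
    ((cφ.clm_apply continuous_const).mul (continuous_al.comp cdd.fst))
  have pg : Per g := fun q m => by simp only [hg, pdd q m, pφ' q m]
  have red : ∀ q : Q, g q = g (Int.fract q.1, q.2) := fun q => by
    rw [← pg (Int.fract q.1, q.2) (⌊q.1⌋, 0)]
    congr 1
    ext <;> simp
  have cK0 : IsClosed {q : Q | s₀ ≤ Int.fract q.1 ∧ Int.fract q.1 ≤ s₀} :=
    isClosed_band (by linarith) (by linarith)
  have pK0 : PerSet {q : Q | s₀ ≤ Int.fract q.1 ∧ Int.fract q.1 ≤ s₀} :=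
    fract_per.perSet fun y => s₀ ≤ y ∧ y ≤ s₀
  obtain ⟨m, hm, Hm⟩ := per_pos0 cK0 pK0 cg pg fun q hq => by
    rw [red, le_antisymm hq.2 hq.1]
    have e := h.exp (s₀, q.2) (by simpa using h0.le)
    have := hp_pos (hϑ q.2)
    rw [e] at this
    simp only [hg, (dφ _).1, (dφ _).2]
    simp only [hp, aa] at this
    nlinarith
  obtain ⟨δ, hδ, Hδ⟩ := unif0 cg pg (half_pos hm)
  set δ' := min δ δ₀ with hδ'
  have δ1 : δ' ≤ δ := min_le_left _ _
  have δ2 : δ' ≤ δ₀ := min_le_right _ _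
  have δ0 : 0 < δ' := lt_min hδ h0
  obtain ⟨ν, K, sν, pν, bν, ν1, cK, pK, -, KO, Kν⟩ := urysohn cK0 pK0
    (isOpen_band (a := s₀ - δ') (b := s₀ + δ') (by linarith))
    (fract_per.perSet fun y => s₀ - δ' < y ∧ y < s₀ + δ')
    fun q hq => ⟨by linarith [hq.1], by linarith [hq.2]⟩
  have Kb : ∀ q ∈ K, |Int.fract q.1 - s₀| < δ' := fun q hq =>
    abs_lt.2 ⟨by linarith [(KO hq).1], by linarith [(KO hq).2]⟩
  have gK : ∀ q ∈ K, m / 2 ≤ g q := fun q hq => by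
    have a1 := Hm (s₀, q.2) ⟨by rw [fs₀], by rw [fs₀]⟩
    have a2 := Hδ (Int.fract q.1, q.2) (s₀, q.2) (by
      rw [Prod.dist_eq, dist_self, Real.dist_eq]
      exact max_le ((Kb q hq).le.trans δ1) hδ.le)
    rw [Real.dist_eq, ← red, abs_le] at a2
    linarith [a2.1]
  obtain ⟨M, hM, HM⟩ := per_bound0 cdd pdd
  obtain ⟨P, hP, HP⟩ := per_bound0 cφ pφ'
  have φ1 : ∀ q, |fderiv ℝ φ q (1, 0)| ≤ P := fun q => by
    simpa using (fderiv ℝ φ q).le_of_opNorm_le (HP q) (1, 0)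
  have φ2 : ∀ q, |fderiv ℝ φ q (0, 1)| ≤ P := fun q => by
    simpa using (fderiv ℝ φ q).le_of_opNorm_le (HP q) (0, 1)
  obtain ⟨e, e0, e1, e2, e3⟩ : ∃ e : ℝ, 0 < e ∧ e ≤ ε ∧ e ≤ 1 ∧ e ≤ m / (8 * P) :=
    ⟨min ε (min 1 (m / (8 * P))), by positivity, by simp, by simp, by simp⟩
  rw [le_div_iff₀ (by positivity)] at e3
  obtain ⟨F, J, j1, j2, j3⟩ := hG c f hf ν sν pν bν sg hsg K cK pK Kν φ sφ pφ
    (fun q hq => ⟨h.pos q ((Kb q hq).le.trans δ2), (half_pos hm).trans_le (gK q hq)⟩)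
    e ((4 * M + 6) / k) e0
  have hF := J.emb1
  have off : ∀ l q, q ∉ K → dd c (J.H l) q = dd c f q := fun l q hq =>
    dd_congr_open c cK.isOpen_compl (fun y hy => j1 l y (Kν y hy)) hq
  have pos : ∀ l (q : Q), |Int.fract q.1 - s₀| ≤ δ₀ → 0 < dl (dd c (J.H l) q) := fun l q hq => by
    by_cases hK : q ∈ K
    · exact (j3 l q hK).1
    · rw [off l q hK]; exact h.pos q hq
  have gF : ∀ q ∈ K, 0 < fderiv ℝ φ q (1, 0) * (aa (dd c F q)).re +
      fderiv ℝ φ q (0, 1) * (aa (dd c F q)).im := fun q hq => by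
    obtain ⟨-, x, -, x1, x2, -⟩ := j3 1 q hq
    rw [J.h1] at x1 x2
    have a1 := gK q hq
    have a2 : |fderiv ℝ φ q (1, 0) *
        (al (dd c F q).2 - al (dd c f q).2 - fderiv ℝ φ q (0, 1) * x)| ≤ P * e := by
      rw [abs_mul]; gcongr; exact φ1 q
    have a3 : |fderiv ℝ φ q (0, 1) *
        (al (dd c F q).1 - al (dd c f q).1 - fderiv ℝ φ q (1, 0) * x)| ≤ P * e := by
      rw [abs_mul]; gcongr; exact φ2 q
    simp only [hg] at a1
    simp only [aa]
    nlinarith [(abs_le.1 a2).1, (abs_le.1 a3).2]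
  -- the new logarithm
  set π : Q → Q := fun q => (max (s₀ - δ₀) (min q.1 (s₀ + δ₀)), q.2) with hπ
  have cπ : Continuous π := by fun_prop
  have π1 : ∀ q, |(π q).1 - s₀| ≤ δ₀ := fun q =>
    abs_le.2 ⟨by linarith [le_max_left (s₀ - δ₀) (min q.1 (s₀ + δ₀))], by
      have : max (s₀ - δ₀) (min q.1 (s₀ + δ₀)) ≤ s₀ + δ₀ :=
        max_le (by linarith) (min_le_right _ _)
      linarith⟩
  have π2 : ∀ q : Q, |q.1 - s₀| ≤ δ₀ → π q = q := fun q hq => by
    rw [abs_le] at hq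
    simp only [hπ]
    rw [min_eq_left (by linarith [hq.2]), max_eq_right (by linarith [hq.1])]
  have π3 : ∀ q : Q, δ₀ ≤ |q.1 - s₀| → π q ∉ K := fun q hq hK => by
    have a1 := Kb _ hK
    rw [fract_of_band h1 h2 (π1 q), abs_lt] at a1
    simp only [hπ] at a1
    rcases le_abs.1 hq with a2 | a2
    · rw [min_eq_right (by linarith), max_eq_right (by linarith)] at a1
      linarith [a1.2]
    · rw [min_eq_left (by linarith), max_eq_left (by linarith)] at a1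
      linarith [a1.1]
  have ne : ∀ q, aa (dd c f (π q)) ≠ 0 := fun q => by
    rw [← h.exp _ (π1 q)]; exact Complex.exp_ne_zero _
  have offF : ∀ q, q ∉ K → dd c F q = dd c f q := fun q hq => by rw [← off 1 q hq, J.h1]
  have sl : ∀ q, aa (dd c F (π q)) / aa (dd c f (π q)) ∈ Complex.slitPlane := fun q => by
    by_cases hK : π q ∈ K
    · refine slit ?_ (gF _ hK)
      have a1 := (half_pos hm).trans_le (gK _ hK)
      simp only [hg] at a1
      simp only [aa]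
      linarith
    · rw [offF _ hK, div_self (ne q)]; exact Complex.one_mem_slitPlane
  have cF := hF.dd_smooth.continuous
  set Λ' : Q → ℂ := fun q => Λ q + Complex.log (aa (dd c F (π q)) / aa (dd c f (π q))) with hΛ'
  have expΛ : ∀ q : Q, |q.1 - s₀| ≤ δ₀ → Complex.exp (Λ' q) = aa (dd c F q) := fun q hq => by
    have a1 := ne q
    simp only [hΛ']
    rw [Complex.exp_add, Complex.exp_log (Complex.slitPlane_ne_zero (sl q)), h.exp q hq]
    rw [π2 q hq] at a1 ⊢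
    field_simp
  refine ⟨F, Λ', ⟨hF, fun q hq => by simpa only [J.h1] using pos 1 q hq,
    h.cont.add (((continuous_aa.comp (cF.comp cπ)).div (continuous_aa.comp (cdd.comp cπ)) ne).clog
      sl), fun q => ?_, expΛ⟩, ⟨J, fun l q hq => j1 l q (Kν q fun hK => ?_),
      fun l q => (j2 l q).trans e1, pos, fun q hq => ?_⟩, fun t y hy => ?_⟩
  · have a1 : π (q + (0, 1)) = π q + lat (0, 1) := by ext <;> simp [hπ]
    simp only [hΛ', h.per, a1, pdd _ _, hF.dd_per _ _]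
  · linarith [Kb q hK]
  · simp only [hΛ']
    rw [offF _ (π3 q hq), div_self (ne q), Complex.log_one, add_zero]
  · have b0 : |((s₀, t) : Q).1 - s₀| ≤ δ₀ := by simpa using h0.le
    have n1 : ν (s₀, t) = 1 := ν1 _ ⟨by rw [fs₀], by rw [fs₀]⟩
    have hK : (s₀, t) ∈ K := by
      by_contra hK
      linarith [Kν _ hK]
    have pi0 := Real.pi_pos
    have b1 : |(Λ' (s₀, t)).im - ϑ t| < Real.pi / 2 := by
      refine of_hp_pos ?_ ?_
      · have a1 := abs_lt.1 (hϑ t)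
        have a2 := abs_le.1 (Complex.abs_arg_le_pi
          (aa (dd c F (π (s₀, t))) / aa (dd c f (π (s₀, t)))))
        simp only [hΛ', Complex.add_im, Complex.log_im]
        exact abs_lt.2 ⟨by linarith [a1.1, a2.1], by linarith [a1.2, a2.2]⟩
      · rw [expΛ _ b0]
        have a1 := gF _ hK
        rw [(dφ t).1, (dφ t).2] at a1
        unfold hp
        by_contra hc
        nlinarith [mul_nonneg hk.le (neg_nonneg.2 (not_lt.1 hc))]
    refine of_hp_pos ?_ ?_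
    · rw [abs_lt] at b1 ⊢
      rw [abs_le] at hy
      rcases hsg with rfl | rfl <;> constructor <;> linarith [b1.1, b1.2, hy.1, hy.2]
    · rw [expΛ _ b0]
      obtain ⟨-, x, x0, x1, x2, x3⟩ := j3 1 _ hK
      rw [J.h1] at x1 x2
      rw [(dφ t).1] at x1
      rw [(dφ t).2] at x2
      have x4 := x3 rfl n1
      rw [div_le_iff₀ hk] at x4
      have m1 : |al (dd c f (s₀, t)).1| ≤ M := (abs_al_le _).trans ((norm_fst_le _).trans (HM _))
      have m2 : |al (dd c f (s₀, t)).2| ≤ M := (abs_al_le _).trans ((norm_snd_le _).trans (HM _))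
      have cy : 1 / 2 ≤ Real.cos y := by
        have a1 := Real.one_sub_sq_div_two_le_cos (x := y)
        have a2 : |y| ≤ 1 := by linarith [Real.pi_le_four]
        have a3 : y ^ 2 ≤ 1 := by rw [← sq_abs]; nlinarith [abs_nonneg y]
        linarith
      set ϑ' := ϑ t + sg * (Real.pi / 2) + y with hϑ'
      have key : Real.sin (ϑ t) * Real.cos ϑ' - Real.cos (ϑ t) * Real.sin ϑ' =
          -(sg * Real.cos y) := by
        rw [← Real.sin_sub, hϑ']
        rcases hsg with rfl | rfl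
        · rw [show ϑ t - (ϑ t + 1 * (Real.pi / 2) + y) = -(y + Real.pi / 2) by ring, Real.sin_neg,
            Real.sin_add_pi_div_two, one_mul]
        · rw [show ϑ t - (ϑ t + -1 * (Real.pi / 2) + y) = Real.pi / 2 - y by ring,
            Real.sin_pi_div_two_sub]
          ring
      have hx : |x| = -(sg * x) := by
        rcases hsg with rfl | rfl
        · rw [abs_of_nonpos (by linarith)]; ring
        · rw [abs_of_nonneg (by linarith)]; ring
      have c1 := Real.abs_cos_le_one ϑ'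
      have c2 := Real.abs_sin_le_one ϑ'
      have t1 : |(al (dd c F (s₀, t)).2 - k * Real.sin (ϑ t) * x) * Real.cos ϑ'| ≤ (M + 1) * 1 := by
        rw [abs_mul]
        gcongr
        rw [abs_le] at x2 m2 ⊢
        constructor <;> linarith [x2.1, x2.2, m2.1, m2.2]
      have t2 : |(al (dd c F (s₀, t)).1 - k * Real.cos (ϑ t) * x) * Real.sin ϑ'| ≤ (M + 1) * 1 := by
        rw [abs_mul]
        gcongr
        rw [abs_le] at x1 m1 ⊢
        constructor <;> linarith [x1.1, x1.2, m1.1, m1.2]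
      have t3 : k * x * (Real.sin (ϑ t) * Real.cos ϑ' - Real.cos (ϑ t) * Real.sin ϑ') =
          |x| * k * Real.cos y := by rw [key, hx]; ring
      have t4 : |x| * k * (1 / 2) ≤ |x| * k * Real.cos y := by gcongr
      simp only [hp, aa]
      linarith [(abs_le.1 t1).1, (abs_le.1 t2).2]

/-- Two helices shift the direction by a prescribed small function. -/
lemma rot2 (hG : GBStmt) (h0 : 0 < δ₀) (h1 : δ₀ < s₀) (h2 : s₀ + δ₀ < 1) (h : BS c s₀ δ₀ f Λ)
    {ϑ d : ℝ → ℝ} (sϑ : ContDiff ℝ ∞ ϑ) (pϑ : ∀ t, ϑ (t + 1) = ϑ t) (sd : ContDiff ℝ ∞ d)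
    (pd : ∀ t, d (t + 1) = d t) (bd : ∀ t, |d t| ≤ Real.pi / 2)
    (hϑ : ∀ t, |(Λ (s₀, t)).im - ϑ t| < Real.pi / 2) (hε : 0 < ε) :
    ∃ F Λ', BS c s₀ δ₀ F Λ' ∧ Mv c s₀ δ₀ f Λ F Λ' ε ∧
      ∀ t, |(Λ' (s₀, t)).im - (ϑ t + d t)| < Real.pi / 2 := by
  have bd' : ∀ t, |d t / 2| ≤ Real.pi / 4 := fun t => by
    rw [abs_div, abs_two]; linarith [bd t]
  obtain ⟨F₁, Λ₁, a1, a2, a3⟩ := rot hG h0 h1 h2 h sϑ pϑ hϑ (Or.inl rfl) (half_pos hε)
  obtain ⟨F₂, Λ₂, b1, b2, b3⟩ := rot hG h0 h1 h2 a1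
    (ϑ := fun t => ϑ t + 1 * (Real.pi / 2) + d t / 2) (by fun_prop) (fun t => by simp only [pϑ, pd])
    (fun t => a3 t _ (bd' t)) (Or.inr rfl) (half_pos hε)
  refine ⟨F₂, Λ₂, b1, by simpa using a2.trans b2, fun t => ?_⟩
  have := b3 t _ (bd' t)
  rwa [show ϑ t + 1 * (Real.pi / 2) + d t / 2 + -1 * (Real.pi / 2) + d t / 2 = ϑ t + d t by ring]
    at this

end R0

open R0 Band in
theorem r0 (hG : GBStmt) : R0Stmt := by
  intro c f hf s₀ δ₀ h0 h1 h2 hpos Λ cΛ pΛ eΛ θ ε hε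
  have h : BS c s₀ δ₀ f Λ := ⟨hf, hpos, cΛ, pΛ, eΛ⟩
  have pi0 := Real.pi_pos
  obtain ⟨g, sg, pg, ng⟩ := smooth_approx (g := fun q : Q => (Λ (s₀, q.2)).im) (by fun_prop)
    (fun q m => by simp only [Prod.snd_add, lat_snd, per_snd pΛ]) (ε := Real.pi / 4) (by positivity)
  obtain ⟨C, hC, HC⟩ := per_bound0 (g := fun q => θ - g q) (continuous_const.sub sg.continuous)
    (pg.comp fun y => θ - y)
  obtain ⟨n, hn⟩ := exists_nat_gt (C / (Real.pi / 2))
  have n0 : (0 : ℝ) < n := lt_trans (by positivity) hn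
  rw [div_lt_iff₀ (by positivity)] at hn
  have sψ : ContDiff ℝ ∞ fun t : ℝ => g (0, t) := sg.comp (contDiff_const.prodMk contDiff_id)
  have pψ : ∀ t : ℝ, g (0, t + 1) = g (0, t) := fun t => by
    rw [← pg (0, t) (0, 1)]; congr 1; ext <;> simp
  have key : ∀ k : ℕ, ∃ F Λ', BS c s₀ δ₀ F Λ' ∧ Mv c s₀ δ₀ f Λ F Λ' (k * (ε / n)) ∧
      ∀ t, |(Λ' (s₀, t)).im - (g (0, t) + k * ((θ - g (0, t)) / n))| < Real.pi / 2 := by
    intro k
    induction k with
    | zero =>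
      refine ⟨f, Λ, h, by simpa using Mv.refl h, fun t => ?_⟩
      have := ng (0, t)
      rw [Real.norm_eq_abs, abs_sub_comm] at this
      simpa using this.trans_lt (by linarith)
    | succ k ih =>
      obtain ⟨F, Λ', a1, a2, a3⟩ := ih
      obtain ⟨F', Λ'', b1, b2, b3⟩ := rot2 hG h0 h1 h2 a1
        (ϑ := fun t => g (0, t) + k * ((θ - g (0, t)) / n)) (d := fun t => (θ - g (0, t)) / n)
        (by fun_prop) (fun t => by simp only [pψ]) (by fun_prop) (fun t => by simp only [pψ])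
        (fun t => by
          rw [abs_div, abs_of_pos n0, div_le_iff₀ n0]
          have := HC (0, t)
          rw [Real.norm_eq_abs] at this
          linarith) a3 (ε := ε / n) (by positivity)
      refine ⟨F', Λ'', b1, ?_, fun t => ?_⟩
      · have := a2.trans b2
        rwa [show k * (ε / n) + ε / n = ((k + 1 : ℕ) : ℝ) * (ε / n) by push_cast; ring] at this
      · have := b3 t
        rwa [show g (0, t) + k * ((θ - g (0, t)) / n) + (θ - g (0, t)) / n =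
          g (0, t) + ((k + 1 : ℕ) : ℝ) * ((θ - g (0, t)) / n) by push_cast; ring] at this
  obtain ⟨F, Λ', a1, ⟨J, j1, j2, j3, j4⟩, a3⟩ := key n
  have e1 : n * (ε / n) = ε := by field_simp
  have e2 : ∀ t, g (0, t) + n * ((θ - g (0, t)) / n) = θ := fun t => by field_simp; ring
  simp only [e1, e2] at j2 a3
  have cΛ' := a1.cont
  obtain ⟨m, hm, Hm⟩ := per_pos0 isClosed_univ perSet_univ
    (g := fun q : Q => Real.pi / 2 - |(Λ' (s₀, q.2)).im - θ|) (by fun_prop)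
    (fun q m => by simp only [Prod.snd_add, lat_snd, per_snd a1.per]) fun q _ => sub_pos.2 (a3 _)
  obtain ⟨δ, hδ, Hδ⟩ := unif (K := Icc (0 : ℝ) 1) isCompact_Icc
    (g := fun x : Q × ℝ => (Λ' (x.2, x.1.2)).im) (by fun_prop)
    (fun y q m => by simp only [Prod.snd_add, lat_snd, per_snd a1.per]) (half_pos hm)
  refine ⟨F, J, min δ δ₀, Λ', lt_min hδ h0, j1, j2, j3, cΛ', a1.per, a1.exp, j4, fun q hq => ?_⟩
  rw [le_min_iff] at hq
  have b1 := abs_le.1 hq.2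
  have b2 := Hδ q q q.1 ⟨by linarith [b1.1], by linarith [b1.2]⟩ s₀ ⟨by linarith, by linarith⟩
    (by simp [hδ.le]) hq.1
  have b3 := Hm q (mem_univ _)
  simp only [Real.dist_eq, Prod.mk.eta] at b2
  linarith [abs_sub_le (Λ' q).im (Λ' (s₀, q.2)).im θ]

end Pool.Agent.Lib.MP_72f1d0_gt
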