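import Mathlib
import Pool.Agent.Lib.MP_72f1d0_gt.ML
import Pool.Agent.Lib.MP_72f1d0_gt.Eq.SymBasic

/-! Symmetrisation of small local deformations. -/

open scoped ContDiff Topology
open Set Filter

namespace Pool.Agent.Lib.MP_72f1d0_gt

namespace SymB

/-- Disjoint closed periodic sets have separated images. -/
lemma separated {c : Ctx} {f : Q → G} (hf : IsEmb c f) {K K' : Set Q} (hK : IsClosed K)
    (pK : PerSet K) (hK' : IsClosed K') (pK' : PerSet K') (hd : ∀ q ∈ K, q ∉ K') :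
    ∃ ε : ℝ, 0 < ε ∧ ∀ q ∈ K, ∀ q' ∈ K', 2 * ε < ‖f q' - f q‖ := by
  rcases K'.eq_empty_or_nonempty with rfl | hne
  · exact ⟨1, one_pos, fun _ _ _ h => h.elim⟩
  obtain ⟨m, hm, H⟩ := per_pos0 hK pK (g := fun q => Metric.infDist q K')
    (Metric.continuous_infDist_pt _) pK'.infDist
    fun q hq => (hK'.notMem_iff_infDist_pos hne).1 (hd q hq)
  obtain ⟨d, hd0, hd'⟩ := MLC.far hf (half_pos hm)
  refine ⟨d / 3, by positivity, fun q hq q' hq' => ?_⟩
  by_contra h
  have h1 := hd' q q' (by linarith [not_lt.1 h])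
  have h2 := (H q hq).trans (Metric.infDist_le_dist_of_mem hq')
  rw [dist_comm, dist_eq_norm] at h2
  linarith

variable {c : Ctx} {f : Q → G} {K : Set Q} {ε : ℝ}

lemma per_disp (hf : IsEmb c f) (D : LS c f K ε) (l : ℝ) : Per fun q => D.H l q - f q :=
  fun q m => by simp only [(D.emb l).equi, hf.equi, add_sub_add_right_eq_sub]

/-- One symmetrisation step. -/
lemma sym1 (hf : IsEmb c f) (hK : IsClosed K) (S : Sym c)
    (hd : ∀ q ∈ K, S.a q ∉ K) (ef : ∀ q, f (S.a q) = S.B (f q))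
    (hε : ∀ q ∈ K, ∀ q' ∈ S.a ⁻¹' K, 2 * ε < ‖f q' - f q‖) (D : LS c f K ε) :
    ∃ D' : LS c f (K ∪ S.a ⁻¹' K) ε,
      (∀ l q, D'.H l q = D.H l q + S.L (D.H l (S.a q) - f (S.a q))) ∧
      (∀ l s q, D'.Kf (l, s, q) =
        D.Kf (l, s, q) + S.ρ (D.Kf (l, s, S.a q) - dd c f (S.a q))) ∧
      ∀ q, D'.u q = D.u q + D.u (S.a q) := by
  have hd' : ∀ q, q ∉ K ∨ S.a q ∉ K := fun q => by
    by_cases h : q ∈ K
    · exact Or.inr (hd q h)
    · exact Or.inl h
  have edd := S.dd_equi hf.smooth ef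
  set H : ℝ → Q → G := fun l q => D.H l q + S.L (D.H l (S.a q) - f (S.a q)) with hH
  have c1 : ∀ l q, S.a q ∉ K → H l q = D.H l q := fun l q h => by
    simp only [hH, (D.out l 0 _ h).1, sub_self, map_zero, add_zero]
  have c2 : ∀ l q, q ∉ K → D.H l (S.a q) = S.B (H l q) := fun l q h => by
    simp only [hH, (D.out l 0 _ h).1, Sym.B, map_add, S.invol, ef]
    abel
  have sH : ContDiff ℝ ∞ fun x : ℝ × Q => H x.1 x.2 :=
    D.smooth.add (S.L.contDiff.comp ((D.smooth.comp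
      (contDiff_fst.prodMk (S.a_smooth.comp contDiff_snd))).sub
      (hf.smooth.comp (S.a_smooth.comp contDiff_snd))))
  have sH' : ∀ l, ContDiff ℝ ∞ (H l) := fun l =>
    sH.comp (contDiff_const (c := l).prodMk contDiff_id)
  have o1 : IsOpen {q | S.a q ∉ K} := hK.isOpen_compl.preimage S.a_cont
  have d1 : ∀ l q, S.a q ∉ K → dd c (H l) q = dd c (D.H l) q := fun l q h =>
    dd_congr_open c o1 (fun y hy => c1 l y hy) h
  have d2 : ∀ l q, q ∉ K → dd c (H l) q = S.ρ (dd c (D.H l) (S.a q)) := fun l q h => by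
    rw [S.dd_nat ((D.emb l).smooth.differentiable (by simp) _) ((sH' l).differentiable (by simp) _)
      (eventually_of_mem (hK.isOpen_compl.mem_nhds h) fun y hy => c2 l y hy), S.ρ_ρ]
  have near : ∀ l q, ‖H l q - f q‖ ≤ ε := fun l q => by
    rcases hd' q with h | h
    · simp only [hH, (D.out l 0 _ h).1, add_sub_cancel_left, S.iso]
      exact D.near l _
    · rw [c1 l q h]; exact D.near l q
  have far : ∀ l, ∀ q ∈ K, ∀ q', S.a q' ∈ K → H l q ≠ H l q' := fun l q hq q' hq' h => by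
    have h1 := hε q hq q' hq'
    have e : f q' - f q = (H l q - f q) - (H l q' - f q') := by rw [h]; abel
    rw [e] at h1
    linarith [norm_sub_le (H l q - f q) (H l q' - f q'), near l q, near l q']
  have emb : ∀ l, IsEmb c (H l) := fun l => by
    refine ⟨sH' l, fun q m => ?_, fun q q' h => ?_, fun q => ?_⟩
    · have := S.per_a (per_disp hf D l) q m
      simp only [hH] at this ⊢
      rw [this, (D.emb l).equi]
      abel
    · have inj1 : S.a q ∉ K → S.a q' ∉ K → q = q' := fun a b =>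
        (D.emb l).inj (by rw [← c1 l q a, ← c1 l q' b, h])
      have inj2 : q ∉ K → q' ∉ K → q = q' := fun a b =>
        S.a_inj ((D.emb l).inj (by rw [c2 l q a, c2 l q' b, h]))
      by_cases hq : q ∈ K
      · exact inj1 (hd q hq) fun hq' => far l q hq q' hq' h
      by_cases hq' : q' ∈ K
      · exact inj1 (fun h' => far l q' hq' q h' h.symm) (hd q' hq')
      exact inj2 hq hq'
    · rcases hd' q with h | h
      · rw [d2 l q h]; exact S.ρ_inj ((D.emb l).imm _)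
      · rw [d1 l q h]; exact (D.emb l).imm q
  have cK := D.cont
  have cdd := hf.dd_smooth.continuous
  have cu := D.ucont
  refine ⟨{ H := H
            Kf := fun x => D.Kf x + S.ρ (D.Kf (x.1, x.2.1, S.a x.2.2) - dd c f (S.a x.2.2))
            u := fun q => D.u q + D.u (S.a q)
            smooth := sH
            emb := emb
            h0 := ?_
            near := near
            cont := cK.add (S.ρ_cont.comp ((cK.comp (by fun_prop)).sub (cdd.comp (by fun_prop))))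
            per := fun l s q m => ?_
            inj := fun x => ?_
            k0 := fun l q => ?_
            ucont := by fun_prop
            uper := fun q m => ?_
            out := fun l s q hq => ?_ }, fun _ _ => rfl, fun _ _ _ => rfl, fun _ => rfl⟩
  · funext q; simp [hH, D.h0]
  · have h1 := D.per l s q m
    have h2 := S.per_a (D.per l s) q m
    have h3 := S.per_a hf.dd_per q m
    simp only at h1 h2 h3 ⊢
    rw [h1, h2, h3]
  · obtain ⟨l, s, q⟩ := x
    rcases hd' q with h | h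
    · simp only [(D.out l s _ h).2.1, S.ρ_sub, edd, S.ρ_ρ, add_sub_cancel]
      exact S.ρ_inj (D.inj _)
    · simp only [(D.out l s _ h).2.1, sub_self, S.ρ_zero, add_zero]
      exact D.inj _
  · rcases hd' q with h | h
    · simp only [(D.out l 0 _ h).2.1, S.ρ_sub, edd, S.ρ_ρ, add_sub_cancel, d2 l q h, D.k0]
    · simp only [(D.out l 0 _ h).2.1, sub_self, S.ρ_zero, add_zero, d1 l q h, D.k0]
  · have h2 := S.per_a D.uper q m
    simp only at h2 ⊢
    rw [h2, D.uper]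
  · have h1 : q ∉ K := fun h => hq (Or.inl h)
    have h2 : S.a q ∉ K := fun h => hq (Or.inr h)
    refine ⟨(c1 l q h2).trans (D.out l s q h1).1, ?_, ?_⟩
    · simp only [(D.out l s _ h2).2.1, sub_self, S.ρ_zero, add_zero, (D.out l s _ h1).2.1]
    · simp only [(D.out l s _ h2).2.2, (D.out l s _ h1).2.2, add_zero]

/-- Equivariance of a local deformation. -/
def EqD (σ : Sym c) (D : LS c f K ε) : Prop :=
  ∀ l s q, D.H l (σ.a q) = σ.B (D.H l q) ∧ D.Kf (l, s, σ.a q) = σ.ρ (D.Kf (l, s, q)) ∧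
    D.u (σ.a q) = D.u q

/-- The symmetrised deformation with its properties. -/
lemma sym2 (hf : IsEmb c f) (hK : IsClosed K) (S : Sym c)
    (hd : ∀ q ∈ K, S.a q ∉ K) (ef : ∀ q, f (S.a q) = S.B (f q))
    (hε : ∀ q ∈ K, ∀ q' ∈ S.a ⁻¹' K, 2 * ε < ‖f q' - f q‖) (D : LS c f K ε) :
    ∃ D' : LS c f (K ∪ S.a ⁻¹' K) ε, EqD S D' ∧
      (∀ q, S.a q ∉ K → ∀ l s,
        D'.H l q = D.H l q ∧ D'.Kf (l, s, q) = D.Kf (l, s, q) ∧ D'.u q = D.u q) ∧
      ∀ T : Sym c, (∀ q, f (T.a q) = T.B (f q)) → (∀ p, S.L (T.L p) = T.L (S.L p)) →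
        (∀ q, ∃ m, S.a (T.a q) = T.a (S.a q) + lat m) → EqD T D → EqD T D' := by
  obtain ⟨D', h1, h2, h3⟩ := sym1 hf hK S hd ef hε D
  have edd := S.dd_equi hf.smooth ef
  refine ⟨D', fun l s q => ⟨?_, ?_, ?_⟩, fun q hq l s => ⟨?_, ?_, ?_⟩,
    fun T efT hL hm hT l s q => ?_⟩
  · have := S.per_aa (per_disp hf D l) q
    rw [h1, h1, this]
    simp only [Sym.B, map_add, map_sub, S.invol, ef]
    abel
  · have e1 := S.per_aa (D.per l s) q
    have e2 := S.per_aa hf.dd_per q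
    rw [h2, h2, e1, e2, S.ρ_add, S.ρ_ρ, S.ρ_sub, edd]
    abel
  · rw [h3, h3, S.per_aa D.uper, add_comm]
  · rw [h1, (D.out l s _ hq).1]; simp
  · rw [h2, (D.out l s _ hq).2.1, sub_self, S.ρ_zero, add_zero]
  · rw [h3, (D.out l s _ hq).2.2, add_zero]
  · obtain ⟨m, hm⟩ := hm q
    have eT := T.dd_equi hf.smooth efT
    have e1 := per_disp hf D l (T.a (S.a q)) m
    have e2 := D.per l s (T.a (S.a q)) m
    simp only at e1 e2
    refine ⟨?_, ?_, ?_⟩
    · rw [h1, h1, hm, e1, (hT l s q).1, (hT l s _).1, efT]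
      simp only [Sym.B, map_add, map_sub, hL, add_sub_add_right_eq_sub]
      abel
    · rw [h2, h2, hm, e2, hf.dd_per, (hT l s q).2.1, (hT l s _).2.1, eT, ← T.ρ_sub, S.ρ_comm,
        T.ρ_add]
    · rw [h3, h3, hm, D.uper, (hT l s q).2.2, (hT l s _).2.2]

/-- Forgetting the support. -/
def toUniv (D : LS c f K ε) : LS c f univ ε :=
  { D with out := fun _ _ _ h => (h (mem_univ _)).elim }

end SymB

open SymB in
theorem sym : SymStmt := by
  intro c K hK pK S hd
  have hK1 : IsClosed (K ∪ S.a ⁻¹' K) := hK.union (hK.preimage S.a_cont)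
  have pK1 : PerSet (K ∪ S.a ⁻¹' K) := pK.union (S.perSet_a pK)
  refine ⟨⟨hK, pK, fun f hf ef => ?_⟩, fun T hSk hSv hTv hL hdT => ⟨hK, pK, fun f hf ef => ?_⟩⟩
  · obtain ⟨ε, hε, H⟩ := separated hf hK pK (hK.preimage S.a_cont) (S.perSet_a pK) hd
    refine ⟨ε, hε, fun D => ?_⟩
    obtain ⟨D', e1, e2, -⟩ := sym2 hf hK S hd (ef S rfl) H D
    refine ⟨toUniv D', fun σ hσ => ?_, fun q hq => e2 q (hd q hq), fun q => ?_⟩
    · rw [mem_singleton_iff.1 hσ]; exact e1
    · by_cases hq : q ∈ K ∪ S.a ⁻¹' K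
      · rcases hq with hq | hq
        · exact Or.inl ⟨q, hq, Orb.refl q⟩
        · exact Or.inl ⟨_, hq, Orb.a' (mem_singleton S) q⟩
      · exact Or.inr fun l s => D'.out l s q hq
  · have efS := ef S (Or.inl rfl)
    have efT := ef T (Or.inr rfl)
    have hST : ∀ q, ∃ m, T.a (S.a q) = S.a (T.a q) + lat m := fun q => by
      rcases T.hk with h | h
      · exact ⟨0, by ext <;> simp [Sym.a, aff, hSk, hSv, hTv, h]⟩
      · exact ⟨(-1, 0), by ext <;> simp [Sym.a, aff, hSk, hSv, hTv, h]; ring⟩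
    have hd1 : ∀ q ∈ K ∪ S.a ⁻¹' K, T.a q ∉ K ∪ S.a ⁻¹' K := by
      rintro q (hq | hq) (h | h)
      · exact (hdT q hq).1 h
      · exact (hdT q hq).2 h
      · obtain ⟨m, hm⟩ := hST q
        obtain ⟨m', hm'⟩ := S.a_lat m
        refine (hdT _ hq).2 ?_
        rw [hm, hm', pK.iff, S.mem_aa pK]
        exact h
      · obtain ⟨m, hm⟩ := hST q
        refine (hdT _ hq).1 ?_
        rw [hm, pK.iff]
        exact h
    obtain ⟨ε₁, hε₁, H₁⟩ := separated hf hK pK (hK.preimage S.a_cont) (S.perSet_a pK) hd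
    obtain ⟨ε₂, hε₂, H₂⟩ := separated hf hK1 pK1 (hK1.preimage T.a_cont) (T.perSet_a pK1) hd1
    refine ⟨min ε₁ ε₂, lt_min hε₁ hε₂, fun D => ?_⟩
    obtain ⟨D₁, e1, e2, -⟩ := sym2 hf hK S hd efS
      (fun q hq q' hq' => lt_of_le_of_lt (by linarith [min_le_left ε₁ ε₂]) (H₁ q hq q' hq')) D
    obtain ⟨D₂, e3, e4, e5⟩ := sym2 hf hK1 T hd1 efT
      (fun q hq q' hq' => lt_of_le_of_lt (by linarith [min_le_right ε₁ ε₂]) (H₂ q hq q' hq')) D₁
    refine ⟨toUniv D₂, fun σ hσ => ?_, fun q hq l s => ?_, fun q => ?_⟩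
    · rcases hσ with rfl | rfl
      · exact e5 _ efS hL hST e1
      · exact e3
    · obtain ⟨a1, a2, a3⟩ := e4 q (hd1 q (Or.inl hq)) l s
      obtain ⟨b1, b2, b3⟩ := e2 q (hd q hq) l s
      exact ⟨a1.trans b1, a2.trans b2, a3.trans b3⟩
    · have mS : S ∈ ({S, T} : Set (Sym c)) := Or.inl rfl
      have mT : T ∈ ({S, T} : Set (Sym c)) := Or.inr rfl
      by_cases hq : q ∈ (K ∪ S.a ⁻¹' K) ∪ T.a ⁻¹' (K ∪ S.a ⁻¹' K)
      · rcases hq with (hq | hq) | hq | hq
        · exact Or.inl ⟨q, hq, Orb.refl q⟩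
        · exact Or.inl ⟨_, hq, Orb.a' mS q⟩
        · exact Or.inl ⟨_, hq, Orb.a' mT q⟩
        · exact Or.inl ⟨_, hq, (Orb.a' mS _).trans (Orb.a' mT q)⟩
      · exact Or.inr fun l s => D₂.out l s q hq

end Pool.Agent.Lib.MP_72f1d0_gt
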