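import Mathlib
import Pool.Agent.Lib.MP_72f1d0_gt.ML
import Pool.Agent.Lib.MP_72f1d0_gt.Psi
import Pool.Agent.Lib.MP_72f1d0_gt.Frames
import Pool.Agent.Lib.MP_72f1d0_gt.Corr2
import Pool.Agent.Lib.MP_72f1d0_gt.SnakeC
import Pool.Agent.Lib.MP_72f1d0_gt.LT
import Pool.Agent.Lib.MP_72f1d0_gt.RelProfile
import Pool.Agent.Lib.MP_72f1d0_gt.RelBead
import Pool.Agent.Lib.MP_72f1d0_gt.Global
import Pool.Agent.Lib.MP_72f1d0_gt.Common
import Pool.Agent.Lib.MP_72f1d0_gt.Pass2
import Pool.Agent.Lib.MP_72f1d0_gt.TauMove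
import Pool.Agent.Lib.MP_72f1d0_gt.Move2
import Pool.Agent.Lib.MP_72f1d0_gt.OStage
import Pool.Agent.Lib.MP_72f1d0_gt.RStage
import Pool.Agent.Lib.MP_72f1d0_gt.Eq.GB
import Pool.Agent.Lib.MP_72f1d0_gt.Eq.R0
import Pool.Agent.Lib.MP_72f1d0_gt.Eq.Sym
import Pool.Agent.Lib.MP_72f1d0_gt.Eq.GCore

/-! Assembly of the equivariant theorem in the Euclidean model. -/

namespace Pool.Agent.Lib.MP_72f1d0_gt

theorem common_final : CommonStmt := by
  obtain ⟨η, e0, e1, hB⟩ := relProfile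
  exact common (global frames) (r0 (gb ml psi)) e0 e1
    (r_of (pass2 corr2 frames (snake2 ml psi)) (move2 corr2 frames) e0 e1
      (relBead ml psi e0 e1 hB))

theorem o_final : OStmt := o_of (tauMove corr2 frames) (move2 corr2 frames) (lt ml)

theorem gcore_final : GCoreStmt :=
  gcore (torusCore sym (global frames) o_final common_final)
    (kleinCore sym (global frames) o_final common_final)

end Pool.Agent.Lib.MP_72f1d0_gt
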