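import Mathlib
import Pool.Agent.Lib.MP_72f1d0_gt.Defs

/-!
Extra symmetries of the Euclidean model, and the equivariant form of the core statement.

A symmetry acts on the plane by `(s, t) ↦ (x s + c₁, t + c₂)`, on the ambient space by the
affine map `p ↦ A p + a`, and on frame coordinates by the signs
`X ↦ x X`, `W ↦ w W`, `R ↦ w R`, `Z ↦ x w Z`.
-/

open scoped ContDiff

namespace Pool.Agent.Lib.MP_72f1d0_gt.Eq

/-- The data of a symmetry. -/
structure Sym where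
  x : ℝ
  w : ℝ
  hx : x = 1 ∨ x = -1
  hw : w = 1 ∨ w = -1
  c : Q
  A : G →L[ℝ] G
  a : G

/-- The action on the plane. -/
def Sym.R (g : Sym) (q : Q) : Q := (g.x * q.1 + g.c.1, q.2 + g.c.2)

/-- The action on the ambient space. -/
noncomputable def Sym.rho (g : Sym) (p : G) : G := g.A p + g.a

/-- The action on frame coordinates. -/
def Sym.S (g : Sym) (v : G) : G :=
  (⟨g.x * v.1.re, g.w * v.1.im⟩, ⟨g.w * v.2.re, g.x * g.w * v.2.im⟩)

/-- The symmetry preserves the frame up to the signs. -/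
def Sym.Pres (g : Sym) (c : Ctx) : Prop := ∀ p v, c.e (g.rho p) (g.S v) = g.A (c.e p v)

/-- Equivariant maps to the ambient space. -/
def Sym.EqE (g : Sym) (f : Q → G) : Prop := ∀ q, f (g.R q) = g.rho (f q)

/-- Equivariant formal differentials `(μ, τ)`. -/
def Sym.EqP (g : Sym) (N : Q → G × G) : Prop :=
  ∀ q, N (g.R q) = (g.x • g.S (N q).1, g.S (N q).2)

/-- The two admissible shapes of a set of symmetries: translations by half periods (a torus),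
or the glide `(s, t) ↦ (-s, t + 1/2)` and the translation `(s, t) ↦ (s + 1/2, t)`
(a Klein bottle). -/
def Shape (Γ : Set Sym) : Prop :=
  (∀ g ∈ Γ, g.x = 1 ∧ ∃ m : ℤ × ℤ, g.c = (1 / 2 : ℝ) • lat m) ∨
  ((∃ g ∈ Γ, g.x = -1) ∧
    ∀ g ∈ Γ, (g.x = -1 ∧ g.c = (0, 1 / 2)) ∨ (g.x = 1 ∧ g.c = (1 / 2, 0)))

/-- The equivariant core statement for one structure and one set of symmetries. -/
def EqCore (c : Ctx) (Γ : Set Sym) : Prop :=
  ∀ f : Q → G, IsEmb c f → (∀ g ∈ Γ, g.EqE f) → ∀ F : UI → Q → G × G,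
  Continuous (fun x : UI × Q => F x.1 x.2) → (∀ s, Per (F s)) → (∀ g ∈ Γ, ∀ s, g.EqP (F s)) →
  (∀ s q, Inj (F s q)) → (∀ q, F 0 q = dd c f q) → (∀ q, dl (F 1 q) ≠ 0) →
  ∃ (H : ℝ → Q → G) (K : UI → UI → Q → G × G),
    ContDiff ℝ ∞ (fun x : ℝ × Q => H x.1 x.2) ∧ (∀ l, IsEmb c (H l)) ∧
    Continuous (fun x : UI × UI × Q => K x.1 x.2.1 x.2.2) ∧
    (∀ l s, Per (K l s)) ∧ (∀ l s q, Inj (K l s q)) ∧
    (∀ (l : UI) q, K l 0 q = dd c (H l) q) ∧ (∀ l q, dl (K l 1 q) ≠ 0) ∧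
    H 0 = f ∧ (∀ s q, K 0 s q = F s q) ∧ (∀ s q, K 1 s q = dd c (H 1) q) ∧
    (∀ g ∈ Γ, ∀ l, g.EqE (H l)) ∧ ∀ g ∈ Γ, ∀ l s, g.EqP (K l s)

/-- The equivariant existence h-principle in the Euclidean model. -/
def EqCoreStmt : Prop :=
  ∀ (c : Ctx) (Γ : Set Sym), Shape Γ → (∀ g ∈ Γ, g.Pres c) → EqCore c Γ

end Pool.Agent.Lib.MP_72f1d0_gt.Eq
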