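import Mathlib

/-!
Linear algebra in families: left inverses, unit sections of line fields over vector spaces,
and their behaviour under symmetries.
-/

open scoped ContDiff Manifold Topology RealInnerProductSpace
open Set Filter

namespace Pool.Agent.Lib.MP_72f1d0_gt.Eq.Man

noncomputable section

section LeftInv

variable {F E : Type*} [NormedAddCommGroup F] [NormedSpace ℝ F] [FiniteDimensional ℝ F]
  [NormedAddCommGroup E] [NormedSpace ℝ E] [FiniteDimensional ℝ E]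

lemma left_inv_nhds {L₀ : F →L[ℝ] E} (h : Function.Injective L₀) :
    ∃ Λ : (F →L[ℝ] E) → (E →L[ℝ] F), ContDiffAt ℝ ∞ Λ L₀ ∧
      ∀ᶠ L in 𝓝 L₀, ∀ w, Λ L (L w) = w := by
  have : CompleteSpace F := FiniteDimensional.complete ℝ F
  obtain ⟨B, hB⟩ := LinearMap.exists_leftInverse_of_injective (L₀ : F →ₗ[ℝ] E)
    (LinearMap.ker_eq_bot.mpr h)
  let B' : E →L[ℝ] F := LinearMap.toContinuousLinearMap B
  have e0 : B'.comp L₀ = ContinuousLinearMap.id ℝ F :=
    ContinuousLinearMap.ext fun w => congrArg (fun A : F →ₗ[ℝ] F => A w) hB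
  have hc : ContDiff ℝ ∞ fun L : F →L[ℝ] E => B'.comp L := contDiff_const.clm_comp contDiff_id
  have hi : (B'.comp L₀).IsInvertible := by
    rw [e0]; exact ⟨ContinuousLinearEquiv.refl ℝ F, rfl⟩
  refine ⟨fun L => ((B'.comp L).inverse).comp B',
    (hi.contDiffAt_map_inverse.comp L₀ hc.contDiffAt).clm_comp contDiffAt_const, ?_⟩
  have ho : range ((↑) : (F ≃L[ℝ] F) → F →L[ℝ] F) ∈ 𝓝 (B'.comp L₀) := by
    rw [e0]; exact (ContinuousLinearEquiv.refl ℝ F).nhds
  filter_upwards [hc.continuous.continuousAt.preimage_mem_nhds ho] with L hL w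
  obtain ⟨e, he⟩ := hL
  exact (show (B'.comp L).IsInvertible from ⟨e, he⟩).inverse_apply_self w

lemma solve_cont {X : Type*} [TopologicalSpace X] {A : X → (F →L[ℝ] E)} {c : X → F} {y : X → E}
    {x₀ : X} (hA : ContinuousAt A x₀) (hi : Function.Injective (A x₀)) (hy : ContinuousAt y x₀)
    (h : ∀ᶠ x in 𝓝 x₀, A x (c x) = y x) : ContinuousAt c x₀ := by
  obtain ⟨Λ, hΛ, hl⟩ := left_inv_nhds hi
  refine ((hΛ.continuousAt.comp hA).clm_apply hy).congr ?_
  filter_upwards [h, hA.eventually hl] with x h1 h2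
  rw [← h1]
  exact h2 _

lemma solve_smooth {E' H M : Type*} [NormedAddCommGroup E'] [NormedSpace ℝ E']
    [TopologicalSpace H] {I : ModelWithCorners ℝ E' H} [TopologicalSpace M] [ChartedSpace H M]
    {A : M → (F →L[ℝ] E)} {c : M → F} {y : M → E} {x₀ : M}
    (hA : ContMDiffAt I 𝓘(ℝ, F →L[ℝ] E) ∞ A x₀) (hi : Function.Injective (A x₀))
    (hy : ContMDiffAt I 𝓘(ℝ, E) ∞ y x₀) (h : ∀ᶠ x in 𝓝 x₀, A x (c x) = y x) :
    ContMDiffAt I 𝓘(ℝ, F) ∞ c x₀ := by
  obtain ⟨Λ, hΛ, hl⟩ := left_inv_nhds hi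
  refine ((hΛ.contMDiffAt.comp x₀ hA).clm_apply hy).congr_of_eventuallyEq ?_
  filter_upwards [h, hA.continuousAt.eventually hl] with x h1 h2
  rw [← h1]
  exact (h2 _).symm

lemma inj_eventually {X : Type*} [TopologicalSpace X] {A : X → (F →L[ℝ] E)} {x₀ : X}
    (hA : ContinuousAt A x₀) (hi : Function.Injective (A x₀)) :
    ∀ᶠ x in 𝓝 x₀, Function.Injective (A x) := by
  obtain ⟨Λ, -, hl⟩ := left_inv_nhds hi
  filter_upwards [hA.eventually hl] with x h v w e
  rw [← h v, e, h w]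

end LeftInv

section Lines

variable {X V : Type*} [NormedAddCommGroup V] [InnerProductSpace ℝ V]

lemma unit_eq {u v : V} (hu : ‖u‖ = 1) (hv : ‖v‖ = 1) (h : v ∈ Submodule.span ℝ {u}) :
    v = u ∨ v = -u := by
  obtain ⟨a, rfl⟩ := Submodule.mem_span_singleton.mp h
  rw [norm_smul, hu, mul_one, Real.norm_eq_abs] at hv
  rcases abs_eq (zero_le_one' ℝ) |>.mp hv with h | h <;> simp [h]

lemma ne_neg_unit {u : V} (hu : ‖u‖ = 1) : u ≠ -u := fun h => by
  have : (2 : ℝ) • u = 0 := by rw [two_smul]; nth_rewrite 2 [h]; abel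
  rw [smul_eq_zero] at this
  rcases this with h | h
  · norm_num at h
  · rw [h, norm_zero] at hu; norm_num at hu

/-- Two continuous unit vector fields that agree up to sign at each point agree up to a
global sign. -/
lemma sign_const [TopologicalSpace X] [PreconnectedSpace X] {u v : X → V} (hu : Continuous u)
    (hv : Continuous v) (nu : ∀ x, ‖u x‖ = 1) (nv : ∀ x, ‖v x‖ = 1)
    (h : ∀ x, v x ∈ Submodule.span ℝ {u x}) : ∃ ε : ℝ, (ε = 1 ∨ ε = -1) ∧ ∀ x, v x = ε • u x := by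
  have h1 : IsClosed {x | v x = u x} := isClosed_eq hv hu
  have h2 : IsClosed {x | v x = -u x} := isClosed_eq hv hu.neg
  have h3 : {x | v x = u x}ᶜ = {x | v x = -u x} := by
    ext x
    simp only [mem_compl_iff, mem_ofPred_eq]
    constructor
    · exact fun hx => (unit_eq (nu x) (nv x) (h x)).resolve_left hx
    · intro hx hx'
      exact ne_neg_unit (nu x) (hx'.symm.trans hx)
  have hc : IsClopen {x | v x = u x} := ⟨h1, by rw [← isClosed_compl_iff, h3]; exact h2⟩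
  rcases isClopen_iff.mp hc with h0 | h0
  · refine ⟨-1, Or.inr rfl, fun x => ?_⟩
    have : x ∈ {x | v x = -u x} := by rw [← h3, h0]; simp
    simpa using this
  · refine ⟨1, Or.inl rfl, fun x => ?_⟩
    have : x ∈ {x | v x = u x} := by rw [h0]; trivial
    simpa using this

/-- A line field on a simply connected space has a continuous unit section. -/
lemma lift_cont [TopologicalSpace X] [SimplyConnectedSpace X] [LocallyPathConnectedSpace X]
    (L : X → Submodule ℝ V)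
    (h : ∀ x₀, ∃ (U : Set X) (σ : X → V), IsOpen U ∧ x₀ ∈ U ∧ ContinuousOn σ U ∧
      ∀ x ∈ U, ‖σ x‖ = 1 ∧ L x = Submodule.span ℝ {σ x}) :
    ∃ W : X → V, Continuous W ∧ ∀ x, ‖W x‖ = 1 ∧ W x ∈ L x := by
  let T : Type _ := {z : X × V // z.2 ∈ L z.1 ∧ ‖z.2‖ = 1}
  let p : T → X := fun z => z.1.1
  have hp : Continuous p := continuous_fst.comp continuous_subtype_val
  let B : Type := {r : ℝ // r = 1 ∨ r = -1}
  have : Finite B := Set.Finite.to_subtype (s := {r : ℝ | r = 1 ∨ r = -1})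
    ((Set.finite_singleton (1 : ℝ)).union (Set.finite_singleton (-1 : ℝ)))
  have cov : IsCoveringMap p := fun x₀ => by
    obtain ⟨U, σ, hU, hx, hσ, hL⟩ := h x₀
    refine IsEvenlyCovered.to_isEvenlyCovered_preimage (I := B)
      ⟨inferInstance, U, hx, hU, hU.preimage hp, ?_⟩
    have key : ∀ z : p ⁻¹' U, z.1.1.2 = σ z.1.1.1 ∨ z.1.1.2 = -σ z.1.1.1 := fun z =>
      unit_eq (hL _ z.2).1 z.1.2.2 (by rw [← (hL _ z.2).2]; exact z.1.2.1)
    have hin : ∀ x ∈ U, ⟪σ x, σ x⟫ = 1 := fun x hx => by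
      rw [real_inner_self_eq_norm_sq, (hL x hx).1]; norm_num
    have hσ' : Continuous fun x : U => σ x := continuousOn_iff_continuous_domRestrict.mp hσ
    refine ⟨{ toFun := fun z => (⟨p z.1, z.2⟩, ⟨⟪z.1.1.2, σ z.1.1.1⟫, ?_⟩)
              invFun := fun y => ⟨⟨(y.1.1, y.2.1 • σ y.1.1), ?_, ?_⟩, y.1.2⟩
              left_inv := fun z => ?_
              right_inv := fun y => ?_
              continuous_toFun := ?_
              continuous_invFun := ?_ }, fun _ => rfl⟩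
    · rcases key z with e | e
      · left; rw [e]; exact hin _ z.2
      · right; rw [e, inner_neg_left, hin _ z.2]
    · rw [(hL _ y.1.2).2]
      exact Submodule.smul_mem _ _ (Submodule.mem_span_singleton_self _)
    · rw [norm_smul, (hL _ y.1.2).1]
      rcases y.2.2 with e | e <;> simp [e]
    · refine Subtype.ext (Subtype.ext (Prod.ext rfl ?_))
      change ⟪z.1.1.2, σ z.1.1.1⟫ • σ z.1.1.1 = z.1.1.2
      rcases key z with e | e
      · rw [e, hin _ z.2, one_smul]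
      · rw [e, inner_neg_left, hin _ z.2, neg_smul, one_smul]
    · refine Prod.ext rfl (Subtype.ext ?_)
      change ⟪y.2.1 • σ y.1.1, σ y.1.1⟫ = y.2.1
      rw [real_inner_smul_left, hin _ y.1.2, mul_one]
    · have c1 : Continuous fun z : p ⁻¹' U => (⟨p z.1, z.2⟩ : U) :=
        (hp.comp continuous_subtype_val).subtype_mk _
      refine c1.prodMk (Continuous.subtype_mk ?_ _)
      exact (continuous_snd.comp (continuous_subtype_val.comp continuous_subtype_val)).inner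
        (hσ'.comp c1)
    · refine Continuous.subtype_mk (Continuous.subtype_mk ?_ _) _
      exact (continuous_subtype_val.comp continuous_fst).prodMk
        ((continuous_subtype_val.comp continuous_snd).smul (hσ'.comp continuous_fst))
  obtain ⟨x₀⟩ : Nonempty X := inferInstance
  obtain ⟨U, σ, -, hx, -, hL⟩ := h x₀
  obtain ⟨F, ⟨-, hF⟩, -⟩ := cov.existsUnique_continuousMap_lifts (ContinuousMap.id X) x₀
    ⟨(x₀, σ x₀), by rw [(hL _ hx).2]; exact Submodule.mem_span_singleton_self _, (hL _ hx).1⟩ rfl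
  refine ⟨fun x => (F x).1.2, continuous_snd.comp (continuous_subtype_val.comp F.continuous),
    fun x => ⟨(F x).2.2, ?_⟩⟩
  have := (F x).2.1
  rwa [show (F x).1.1 = x from congrFun hF x] at this

variable [NormedAddCommGroup X] [NormedSpace ℝ X]

/-- A smooth line field on a vector space has a smooth unit section. -/
lemma lift_smooth (L : X → Submodule ℝ V)
    (h : ∀ x₀, ∃ (U : Set X) (w : X → V), IsOpen U ∧ x₀ ∈ U ∧ ContDiffOn ℝ ∞ w U ∧
      ∀ x ∈ U, w x ≠ 0 ∧ L x = Submodule.span ℝ {w x}) :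
    ∃ W : X → V, ContDiff ℝ ∞ W ∧ ∀ x, ‖W x‖ = 1 ∧ L x = Submodule.span ℝ {W x} := by
  have h' : ∀ x₀, ∃ (U : Set X) (σ : X → V), IsOpen U ∧ x₀ ∈ U ∧ ContDiffOn ℝ ∞ σ U ∧
      ∀ x ∈ U, ‖σ x‖ = 1 ∧ L x = Submodule.span ℝ {σ x} := fun x₀ => by
    obtain ⟨U, w, hU, hx, hw, hL⟩ := h x₀
    refine ⟨U, fun x => ‖w x‖⁻¹ • w x, hU, hx,
      ((hw.norm ℝ fun x hx => (hL x hx).1).inv fun x hx => norm_ne_zero_iff.mpr (hL x hx).1).smul
        hw, fun x hx => ⟨norm_smul_inv_norm (hL x hx).1, ?_⟩⟩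
    rw [(hL x hx).2, Submodule.span_singleton_smul_eq]
    exact IsUnit.mk0 _ (inv_ne_zero (norm_ne_zero_iff.mpr (hL x hx).1))
  obtain ⟨W, hW, hWL⟩ := lift_cont L fun x₀ => by
    obtain ⟨U, σ, hU, hx, hσ, hL⟩ := h' x₀
    exact ⟨U, σ, hU, hx, hσ.continuousOn, hL⟩
  have key : ∀ x₀, ContDiffAt ℝ ∞ W x₀ ∧ L x₀ = Submodule.span ℝ {W x₀} := fun x₀ => by
    obtain ⟨U, σ, hU, hx, hσ, hL⟩ := h' x₀
    have hs : ContDiffAt ℝ ∞ σ x₀ := hσ.contDiffAt (hU.mem_nhds hx)
    have e : ∀ x ∈ U, W x = σ x ∨ W x = -σ x := fun x hx =>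
      unit_eq (hL x hx).1 (hWL x).1 (by rw [← (hL x hx).2]; exact (hWL x).2)
    rcases e x₀ hx with e0 | e0
    · refine ⟨hs.congr_of_eventuallyEq ?_, by rw [e0]; exact (hL _ hx).2⟩
      have : W x₀ ≠ -σ x₀ := by rw [e0]; exact ne_neg_unit (hL _ hx).1
      filter_upwards [hU.mem_nhds hx,
        (hW.continuousAt.ne_iff_eventually_ne hs.continuousAt.neg).mp this] with x h1 h2
      exact (e x h1).resolve_right h2
    · refine ⟨hs.neg.congr_of_eventuallyEq ?_, by
        rw [e0, ← neg_one_smul ℝ, Submodule.span_singleton_smul_eq (IsUnit.mk0 _ (by norm_num))]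
        exact (hL _ hx).2⟩
      have : W x₀ ≠ σ x₀ := by rw [e0]; exact (ne_neg_unit (hL _ hx).1).symm
      filter_upwards [hU.mem_nhds hx,
        (hW.continuousAt.ne_iff_eventually_ne hs.continuousAt).mp this] with x h1 h2
      exact (e x h1).resolve_left h2
  exact ⟨W, contDiff_iff_contDiffAt.mpr fun x => (key x).1, fun x => ⟨(hWL x).1, (key x).2⟩⟩

lemma perp_span {W y : V} (hW : ‖W‖ = 1) :
    Submodule.span ℝ {W, y} ⊓ (Submodule.span ℝ {W})ᗮ =
      Submodule.span ℝ {y - ⟪W, y⟫ • W} := by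
  have hin : ⟪W, W⟫ = 1 := by rw [real_inner_self_eq_norm_sq, hW]; norm_num
  apply le_antisymm
  · rintro u ⟨h1, h2⟩
    obtain ⟨a, b, rfl⟩ := Submodule.mem_span_pair.mp h1
    have h3 : ⟪W, a • W + b • y⟫ = 0 := Submodule.mem_orthogonal_singleton_iff_inner_right.mp h2
    rw [inner_add_right, real_inner_smul_right, real_inner_smul_right, hin] at h3
    refine Submodule.mem_span_singleton.mpr ⟨b, ?_⟩
    rw [show a = -(b * ⟪W, y⟫) by linarith, smul_sub, smul_smul, neg_smul]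
    abel
  · rw [Submodule.span_singleton_le_iff_mem]
    refine ⟨Submodule.mem_span_pair.mpr ⟨-⟪W, y⟫, 1, by rw [one_smul, neg_smul]; abel⟩,
      Submodule.mem_orthogonal_singleton_iff_inner_right.mpr ?_⟩
    rw [inner_sub_right, real_inner_smul_right, hin, mul_one, sub_self]

/-- A smooth flag (line inside plane) on a vector space has a smooth orthonormal frame. -/
lemma lift_flag (L P : X → Submodule ℝ V)
    (h : ∀ x₀, ∃ (U : Set X) (w y : X → V), IsOpen U ∧ x₀ ∈ U ∧ ContDiffOn ℝ ∞ w U ∧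
      ContDiffOn ℝ ∞ y U ∧ ∀ x ∈ U, LinearIndependent ℝ ![w x, y x] ∧
        L x = Submodule.span ℝ {w x} ∧ P x = Submodule.span ℝ {w x, y x}) :
    ∃ W Y : X → V, ContDiff ℝ ∞ W ∧ ContDiff ℝ ∞ Y ∧ ∀ x, ‖W x‖ = 1 ∧ ‖Y x‖ = 1 ∧
      L x = Submodule.span ℝ {W x} ∧ P x ⊓ (L x)ᗮ = Submodule.span ℝ {Y x} ∧
      P x = Submodule.span ℝ {W x, Y x} := by
  obtain ⟨W, hW, hWL⟩ := lift_smooth L fun x₀ => by
    obtain ⟨U, w, y, hU, hx, hw, -, hL⟩ := h x₀
    exact ⟨U, w, hU, hx, hw, fun x hx => ⟨(hL x hx).1.ne_zero 0, (hL x hx).2.1⟩⟩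
  have hP : ∀ {x w y}, L x = Submodule.span ℝ {w} → P x = Submodule.span ℝ {w, y} →
      P x = Submodule.span ℝ {W x, y} := fun {x w y} h1 h2 => by
    rw [h2, Submodule.span_insert, Submodule.span_insert, ← h1, ← (hWL x).2]
  obtain ⟨Y, hY, hYL⟩ := lift_smooth (fun x => P x ⊓ (L x)ᗮ) fun x₀ => by
    obtain ⟨U, w, y, hU, hx, -, hy, hL⟩ := h x₀
    refine ⟨U, fun x => y x - ⟪W x, y x⟫ • W x, hU, hx,
      hy.sub ((hW.contDiffOn.inner ℝ hy).smul hW.contDiffOn), fun x hx => ⟨fun e => ?_, ?_⟩⟩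
    · have h1 : y x ∈ Submodule.span ℝ {w x} := by
        rw [← (hL x hx).2.1, (hWL x).2, sub_eq_zero.mp e]
        exact Submodule.smul_mem _ _ (Submodule.mem_span_singleton_self _)
      obtain ⟨a, ha⟩ := Submodule.mem_span_singleton.mp h1
      have := (LinearIndependent.pair_iff.mp (hL x hx).1 a (-1) (by rw [ha]; simp)).2
      norm_num at this
    · rw [hP (hL x hx).2.1 (hL x hx).2.2, (hWL x).2, perp_span (hWL x).1]
  refine ⟨W, Y, hW, hY, fun x => ⟨(hWL x).1, (hYL x).1, (hWL x).2, (hYL x).2, ?_⟩⟩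
  obtain ⟨U, w, y, -, hx, -, -, hL⟩ := h x
  have h1 := hP (hL x hx).2.1 (hL x hx).2.2
  have h2 : Submodule.span ℝ {y x - ⟪W x, y x⟫ • W x} = Submodule.span ℝ {Y x} := by
    rw [← perp_span (hWL x).1, ← h1, ← (hWL x).2]; exact (hYL x).2
  rw [Submodule.span_insert, ← h2, ← Submodule.span_insert, h1]
  apply le_antisymm
  · refine Submodule.span_le.mpr (insert_subset_iff.mpr ⟨Submodule.subset_span (by simp), ?_⟩)
    rw [singleton_subset_iff]
    exact Submodule.mem_span_pair.mpr ⟨⟪W x, y x⟫, 1, by rw [one_smul]; abel⟩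
  · refine Submodule.span_le.mpr (insert_subset_iff.mpr ⟨Submodule.subset_span (by simp), ?_⟩)
    rw [singleton_subset_iff]
    exact Submodule.mem_span_pair.mpr ⟨-⟪W x, y x⟫, 1, by rw [one_smul, neg_smul]; abel⟩

/-- The orthonormal frame of an invariant flag is invariant up to two signs. -/
lemma flag_signs {L P : X → Submodule ℝ V} {W Y : X → V} (hW : Continuous W) (hY : Continuous Y)
    (h : ∀ x, ‖W x‖ = 1 ∧ ‖Y x‖ = 1 ∧ L x = Submodule.span ℝ {W x} ∧
      P x ⊓ (L x)ᗮ = Submodule.span ℝ {Y x} ∧ P x = Submodule.span ℝ {W x, Y x})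
    {γ : X → X} (hγ : Continuous γ) (A : V →ₗᵢ[ℝ] V)
    (hL : ∀ x, ∀ v ∈ L x, A v ∈ L (γ x)) (hP : ∀ x, ∀ v ∈ P x, A v ∈ P (γ x)) :
    ∃ a b : ℝ, (a = 1 ∨ a = -1) ∧ (b = 1 ∨ b = -1) ∧
      (∀ x, A (W x) = a • W (γ x)) ∧ ∀ x, A (Y x) = b • Y (γ x) := by
  have mW : ∀ x, W x ∈ L x := fun x => by
    rw [(h x).2.2.1]; exact Submodule.mem_span_singleton_self _
  have mY : ∀ x, Y x ∈ P x ⊓ (L x)ᗮ := fun x => by
    rw [(h x).2.2.2.1]; exact Submodule.mem_span_singleton_self _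
  obtain ⟨a, ha, ea⟩ := sign_const (u := fun x => W (γ x)) (v := fun x => A (W x)) (hW.comp hγ)
    (A.continuous.comp hW) (fun x => (h _).1) (fun x => by rw [A.norm_map]; exact (h x).1)
    fun x => by rw [← (h _).2.2.1]; exact hL x _ (mW x)
  obtain ⟨b, hb, eb⟩ := sign_const (u := fun x => Y (γ x)) (v := fun x => A (Y x)) (hY.comp hγ)
    (A.continuous.comp hY) (fun x => (h _).2.1) (fun x => by rw [A.norm_map]; exact (h x).2.1)
    fun x => by
      rw [← (h _).2.2.2.1]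
      refine ⟨hP x _ (mY x).1, ?_⟩
      rw [(h _).2.2.1]
      refine Submodule.mem_orthogonal_singleton_iff_inner_right.mpr ?_
      have h1 : ⟪W x, Y x⟫ = 0 := (mY x).2 _ (mW x)
      have h2 : ⟪A (W x), A (Y x)⟫ = 0 := by rw [A.inner_map_map, h1]
      rw [ea, real_inner_smul_left] at h2
      rcases ha with e | e <;> simpa [e] using h2
  exact ⟨a, b, ha, hb, ea, eb⟩

end Lines

end

end Pool.Agent.Lib.MP_72f1d0_gt.Eq.Man
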