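import Pool.Agent.Lib.MP_72f1d0_gt.Eq.ManAlg

/-!
The tangent bundle over a compact set as a summand of a trivial bundle, and an exponential map.
-/

set_option linter.unusedSectionVars false

open scoped ContDiff Manifold Topology
open Set Filter

namespace Pool.Agent.Lib.MP_72f1d0_gt.Eq.Man

noncomputable section

variable {E : Type*} [NormedAddCommGroup E] [NormedSpace ℝ E]
  {M : Type*} [TopologicalSpace M] [ChartedSpace E M]

section Calc

variable {X X' : Type*} [NormedAddCommGroup X] [NormedSpace ℝ X] [NormedAddCommGroup X']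
  [NormedSpace ℝ X']

variable (E) in
/-- the differential of a map from a vector space, with values in the model space -/
def md (g : X → M) (x : X) : X →L[ℝ] E := mfderiv 𝓘(ℝ, X) 𝓘(ℝ, E) g x

variable (E) in
/-- the differential of a chart -/
def mc (p y : M) : E →L[ℝ] E := mfderiv 𝓘(ℝ, E) 𝓘(ℝ, E) (chartAt E p) y

/-- the differential of the inverse of a chart -/
def mcs (p : M) (y : E) : E →L[ℝ] E := mfderiv 𝓘(ℝ, E) 𝓘(ℝ, E) (chartAt E p).symm y

theorem md_comp {g : X → M} {k : X' → X} {k' : X' →L[ℝ] X} {x : X'} (hk : HasFDerivAt k k' x)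
    (hg : MDifferentiableAt 𝓘(ℝ, X) 𝓘(ℝ, E) g (k x)) :
    md E (g ∘ k) x = (md E g (k x)).comp k' :=
  (HasMFDerivAt.comp x hg.hasMFDerivAt hk.hasMFDerivAt).mfderiv

variable [IsManifold 𝓘(ℝ, E) ∞ M]

theorem md_chart {g : X → M} {x : X} {p : M} (hg : MDifferentiableAt 𝓘(ℝ, X) 𝓘(ℝ, E) g x)
    (hx : g x ∈ (chartAt E p).source) :
    HasFDerivAt (chartAt E p ∘ g) ((mc E p (g x)).comp (md E g x)) x :=
  (HasMFDerivAt.comp x
    ((mdifferentiable_chart (I := 𝓘(ℝ, E)) p).mdifferentiableAt hx).hasMFDerivAt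
    hg.hasMFDerivAt).hasFDerivAt

theorem md_symm {h : X → E} {h' : X →L[ℝ] E} {x : X} {p : M} (hh : HasFDerivAt h h' x)
    (hx : h x ∈ (chartAt E p).target) :
    md E ((chartAt E p).symm ∘ h) x = (mcs p (h x)).comp h' :=
  (HasMFDerivAt.comp x
    ((mdifferentiable_chart (I := 𝓘(ℝ, E)) p).mdifferentiableAt_symm hx).hasMFDerivAt
    hh.hasMFDerivAt).mfderiv

theorem mcs_mc {p y : M} (hy : y ∈ (chartAt E p).source) (v : E) :
    mcs p (chartAt E p y) (mc E p y v) = v :=
  congrArg (fun A : E →L[ℝ] E => A v)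
    ((mdifferentiable_chart (I := 𝓘(ℝ, E)) p).symm_comp_deriv hy)

theorem chart_smooth {p y : M} (hy : y ∈ (chartAt E p).source) :
    ContMDiffAt 𝓘(ℝ, E) 𝓘(ℝ, E) ∞ (chartAt E p) y :=
  (contMDiffOn_chart y hy).contMDiffAt ((chartAt E p).open_source.mem_nhds hy)

theorem symm_smooth {p : M} {y : E} (hy : y ∈ (chartAt E p).target) :
    ContMDiffAt 𝓘(ℝ, E) 𝓘(ℝ, E) ∞ (chartAt E p).symm y :=
  (contMDiffOn_chart_symm y hy).contMDiffAt ((chartAt E p).open_target.mem_nhds hy)

variable (E) in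
/-- the trivialization of the tangent bundle at `p`, read at `y` -/
def tr (p y : M) : E →L[ℝ] E :=
  (trivializationAt E (TangentSpace 𝓘(ℝ, E)) p).continuousLinearMapAt ℝ y

variable (E) in
/-- its inverse -/
def trs (p y : M) : E →L[ℝ] E := (trivializationAt E (TangentSpace 𝓘(ℝ, E)) p).symmL ℝ y

theorem trs_tr {p y : M} (hy : y ∈ (chartAt E p).source) (v : E) : trs E p y (tr E p y v) = v :=
  (trivializationAt E (TangentSpace 𝓘(ℝ, E)) p).symmL_continuousLinearMapAt (R := ℝ)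
    (by simpa using hy) v

theorem tr_trs {p y : M} (hy : y ∈ (chartAt E p).source) (v : E) : tr E p y (trs E p y v) = v :=
  (trivializationAt E (TangentSpace 𝓘(ℝ, E)) p).continuousLinearMapAt_symmL (R := ℝ)
    (by simpa using hy) v

theorem mcs_eq {p y : M} (hy : y ∈ (chartAt E p).source) (v : E) :
    mcs p (chartAt E p y) v = trs E p y v := by
  have h3 : tr E p y = mc E p y :=
    TangentBundle.continuousLinearMapAt_trivializationAt (I := 𝓘(ℝ, E)) (𝕜 := ℝ) hy
  rw [← mcs_mc hy (trs E p y v), ← h3, tr_trs hy]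

theorem tr_smooth {p : M} {z : TangentBundle 𝓘(ℝ, E) M} (hz : z.1 ∈ (chartAt E p).source) :
    ContMDiffAt 𝓘(ℝ, E).tangent 𝓘(ℝ, E) ∞
      (fun z : TangentBundle 𝓘(ℝ, E) M => tr E p z.1 z.2) z := by
  set e := trivializationAt E (TangentSpace 𝓘(ℝ, E)) p
  have hs : z ∈ e.source := by simpa [e] using hz
  have h1 := ((e.contMDiffAt_iff (IB := 𝓘(ℝ, E)) (IM := 𝓘(ℝ, E).tangent) (n := ∞) (f := id)
    (x₀ := z) hs).1 contMDiffAt_id).2
  refine h1.congr_of_eventuallyEq ?_
  filter_upwards [e.open_source.mem_nhds hs] with x hx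
  exact Bundle.Trivialization.continuousLinearMapAt_apply_of_mem ℝ e (e.mem_source.mp hx) _

theorem trs_smooth {p y : M} (hy : y ∈ (chartAt E p).source) (v : E) :
    ContMDiffAt 𝓘(ℝ, E) 𝓘(ℝ, E).tangent ∞
      (fun y => (⟨y, trs E p y v⟩ : TangentBundle 𝓘(ℝ, E) M)) y := by
  set e := trivializationAt E (TangentSpace 𝓘(ℝ, E)) p
  have hb : y ∈ e.baseSet := by simpa [e] using hy
  refine (e.contMDiffAt_section_iff (IB := 𝓘(ℝ, E)) (n := ∞)
    (s := fun y => (show TangentSpace 𝓘(ℝ, E) y from trs E p y v)) hb).2 ((contMDiffAt_const (c := v)).congr_of_eventuallyEq ?_)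
  filter_upwards [e.open_baseSet.mem_nhds hb] with x hx
  rw [← Bundle.Trivialization.continuousLinearMapAt_apply_of_mem ℝ e hx]
  exact e.continuousLinearMapAt_symmL hx v

end Calc

section Exp

variable {X ι : Type*} [NormedAddCommGroup X] [NormedSpace ℝ X] [Fintype ι]

/-- A map that is smooth near the zero section, extends `f`, and has fibre derivative `P`. -/
structure Good (f : X → M) (Ex : X × (ι → E) → M) (P : X → (ι → E) → E) : Prop where
  inv : ∀ q q' y, f q = f q' → Ex (q, y) = Ex (q', y)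
  zero : ∀ q, Ex (q, 0) = f q
  smooth : ∀ q, ∀ᶠ x in 𝓝 ((q, 0) : X × (ι → E)), ContMDiffAt 𝓘(ℝ, X × (ι → E)) 𝓘(ℝ, E) ∞ Ex x
  fib : ∀ q y, md E Ex (q, 0) (0, y) = P q y

theorem good_zero {f : X → M} (hf : ContMDiff 𝓘(ℝ, X) 𝓘(ℝ, E) ∞ f) :
    Good (ι := ι) (E := E) f (fun x => f x.1) fun _ _ => 0 where
  inv _ _ _ h := h
  zero _ := rfl
  smooth _ := Eventually.of_forall fun x =>
    (hf x.1).comp x (contDiff_fst.contMDiff (𝕜 := ℝ) (n := ∞) x)
  fib q z := by
    have h := md_comp (E := E) (g := f) (k := Prod.fst) (x := ((q, 0) : X × (ι → E)))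
      hasFDerivAt_fst ((hf q).mdifferentiableAt (by simp))
    have h' : md E (fun x : X × (ι → E) => f x.1) (q, 0) = _ := h
    rw [h']
    simp

variable [IsManifold 𝓘(ℝ, E) ∞ M]

theorem good_step {f : X → M} (hf : ContMDiff 𝓘(ℝ, X) 𝓘(ℝ, E) ∞ f)
    {Ex : X × (ι → E) → M} {P : X → (ι → E) → E} (hT : Good f Ex P) (i : ι) (p : M) {ρ : M → ℝ}
    (hρ : ContMDiff 𝓘(ℝ, E) 𝓘(ℝ, ℝ) ∞ ρ) (hs : tsupport ρ ⊆ (chartAt E p).source) :
    ∃ Ex' : X × (ι → E) → M, Good f Ex' fun q y => P q y + ρ (f q) • trs E p (f q) (y i) := by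
  classical
  let w : X × (ι → E) → E := fun x => chartAt E p (Ex x) + ρ (f x.1) • x.2 i
  let Ex' : X × (ι → E) → M := fun x => if ρ (f x.1) = 0 then Ex x else (chartAt E p).symm (w x)
  have hs' : ∀ q, f q ∉ (chartAt E p).source → ∀ᶠ x in 𝓝 q, ρ (f x) = 0 := fun q hq =>
    (hf q).continuousAt.eventually (notMem_tsupport_iff_eventuallyEq.mp fun h => hq (hs h))
  have hw0 : ∀ q, w (q, 0) = chartAt E p (f q) := by
    intro q
    simp [w, hT.zero]
  have hcont : ∀ q, ContinuousAt Ex (q, 0) := fun q => (hT.smooth q).self_of_nhds.continuousAt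
  have hin : ∀ q, f q ∈ (chartAt E p).source →
      (∀ᶠ x in 𝓝 ((q, 0) : X × (ι → E)), Ex' x = ((chartAt E p).symm ∘ w) x) ∧
      ∀ᶠ x in 𝓝 ((q, 0) : X × (ι → E)), ContDiffAt ℝ ∞ w x := by
    intro q hq
    have e1 : ∀ᶠ x in 𝓝 ((q, 0) : X × (ι → E)), Ex x ∈ (chartAt E p).source :=
      (hcont q).preimage_mem_nhds ((chartAt E p).open_source.mem_nhds (by rwa [hT.zero]))
    constructor
    · filter_upwards [e1] with x hx
      simp only [Ex', Function.comp]
      split_ifs with h0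
      · simp [w, h0, (chartAt E p).left_inv hx]
      · rfl
    · filter_upwards [e1, hT.smooth q] with x hx hsm
      have a1 : ContDiffAt ℝ ∞ (fun x => chartAt E p (Ex x)) x :=
        ((chart_smooth hx).comp x hsm).contDiffAt
      have a6 : ContDiffAt ℝ ∞ (fun x : X × (ι → E) => ρ (f x.1)) x :=
        ((hρ.comp hf).contDiff.comp contDiff_fst).contDiffAt
      exact a1.add (a6.smul (((contDiff_apply ℝ E i).comp contDiff_snd).contDiffAt))
  have hout : ∀ q, f q ∉ (chartAt E p).source → Ex' =ᶠ[𝓝 ((q, 0) : X × (ι → E))] Ex := by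
    intro q hq
    have c : Tendsto Prod.fst (𝓝 ((q, 0) : X × (ι → E))) (𝓝 q) := continuous_fst.continuousAt
    filter_upwards [c.eventually (hs' q hq)] with x hx
    simp only [Ex', if_pos hx]
  refine ⟨Ex', ?_, ?_, ?_, ?_⟩
  · intro q q' y h
    simp only [Ex', w, h, hT.inv q q' y h]
  · intro q
    simp only [Ex']
    split_ifs with h0
    · exact hT.zero q
    · have hq : f q ∈ (chartAt E p).source := by
        by_contra hq
        exact h0 (hs' q hq).self_of_nhds
      rw [hw0, (chartAt E p).left_inv hq]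
  · intro q
    by_cases hq : f q ∈ (chartAt E p).source
    · obtain ⟨e1, e2⟩ := hin q hq
      have e3 : ∀ᶠ x in 𝓝 ((q, 0) : X × (ι → E)), w x ∈ (chartAt E p).target :=
        e2.self_of_nhds.continuousAt.preimage_mem_nhds
          ((chartAt E p).open_target.mem_nhds (by rw [hw0]; exact (chartAt E p).map_source hq))
      filter_upwards [e1.eventually_nhds, e2, e3] with x a1 a2 a3
      exact ((symm_smooth a3).comp x a2.contMDiffAt).congr_of_eventuallyEq a1
    · filter_upwards [(hout q hq).eventually_nhds, hT.smooth q] with x a1 a2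
      exact a2.congr_of_eventuallyEq a1
  · intro q z
    by_cases hq : f q ∈ (chartAt E p).source
    · obtain ⟨e1, e2⟩ := hin q hq
      have b1 : md E Ex' (q, 0) = md E ((chartAt E p).symm ∘ w) (q, 0) :=
        Filter.EventuallyEq.mfderiv_eq e1
      have b2 := (e2.self_of_nhds.differentiableAt (by simp)).hasFDerivAt
      have b3 := md_symm (p := p) b2 (by rw [hw0]; exact (chartAt E p).map_source hq)
      have b4 := md_chart (p := p) ((hT.smooth q).self_of_nhds.mdifferentiableAt (by simp))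
        (by rwa [hT.zero])
      have hk : HasFDerivAt (fun z : ι → E => ((q, z) : X × (ι → E)))
          (ContinuousLinearMap.inr ℝ X (ι → E)) 0 := hasFDerivAt_prodMk_right q 0
      have b5 := (b4.comp (0 : ι → E) hk).add
        ((ContinuousLinearMap.proj (R := ℝ) (φ := fun _ : ι => E) i).hasFDerivAt.const_smul
          (ρ (f q)))
      have b6 := (b2.comp (0 : ι → E) hk).unique b5
      have b7 := congrArg (fun A : (ι → E) →L[ℝ] E => A z) b6
      simp only [ContinuousLinearMap.comp_apply, ContinuousLinearMap.inr_apply,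
        add_apply, smul_apply, hT.zero, hT.fib, ContinuousLinearMap.proj_apply] at b7
      rw [b1, b3, ContinuousLinearMap.comp_apply, b7, hw0, map_add, mcs_mc hq, map_smul,
        mcs_eq hq]
    · have b1 : md E Ex' (q, 0) = md E Ex (q, 0) := Filter.EventuallyEq.mfderiv_eq (hout q hq)
      rw [b1, hT.fib, (hs' q hq).self_of_nhds, zero_smul, add_zero]

theorem exists_good {f : X → M} (hf : ContMDiff 𝓘(ℝ, X) 𝓘(ℝ, E) ∞ f) (p : ι → M)
    {ρ : ι → M → ℝ} (hρ : ∀ i, ContMDiff 𝓘(ℝ, E) 𝓘(ℝ, ℝ) ∞ (ρ i))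
    (hs : ∀ i, tsupport (ρ i) ⊆ (chartAt E (p i)).source) (t : Finset ι) :
    ∃ Ex : X × (ι → E) → M, Good f Ex fun q y => ∑ i ∈ t, ρ i (f q) • trs E (p i) (f q) (y i) := by
  classical
  induction t using Finset.induction_on with
  | empty => exact ⟨_, by simpa using good_zero hf⟩
  | insert i t hi ih =>
    obtain ⟨Ex, hT⟩ := ih
    obtain ⟨Ex', hT'⟩ := good_step hf hT i (p i) (hρ i) (hs i)
    refine ⟨Ex', ?_⟩
    simpa only [Finset.sum_insert hi, add_comm] using hT'

end Exp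

variable [IsManifold 𝓘(ℝ, E) ∞ M] [FiniteDimensional ℝ E] [T2Space M]

/-- Over a compact set the tangent bundle is a summand of a trivial Euclidean bundle. -/
theorem exists_emb {K : Set M} (hK : IsCompact K) :
    ∃ (N : ℕ) (J : M → (E →L[ℝ] EuclideanSpace ℝ (Fin N)))
      (P : M → (EuclideanSpace ℝ (Fin N) →L[ℝ] E)) (r : M → ℝ),
      ContMDiff 𝓘(ℝ, E).tangent 𝓘(ℝ, EuclideanSpace ℝ (Fin N)) ∞
        (fun z : TangentBundle 𝓘(ℝ, E) M => J z.1 z.2) ∧
      (Continuous fun p => (J p).comp (P p)) ∧ Continuous r ∧ (∀ p u, P p (J p u) = r p • u) ∧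
      (∀ p ∈ K, 0 < r p) ∧
      ∀ (X : Type) [NormedAddCommGroup X] [NormedSpace ℝ X] (f : X → M),
        ContMDiff 𝓘(ℝ, X) 𝓘(ℝ, E) ∞ f → ∃ Ex : X × EuclideanSpace ℝ (Fin N) → M,
          (∀ q q' y, f q = f q' → Ex (q, y) = Ex (q', y)) ∧ (∀ q, Ex (q, 0) = f q) ∧
          (∀ q, ∀ᶠ x in 𝓝 ((q, 0) : X × EuclideanSpace ℝ (Fin N)),
            ContMDiffAt 𝓘(ℝ, X × EuclideanSpace ℝ (Fin N)) 𝓘(ℝ, E) ∞ Ex x) ∧
          ∀ q y, md E Ex (q, 0) (0, y) = P (f q) y := by
  classical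
  let b : (c : M) → SmoothBumpFunction 𝓘(ℝ, E) c := fun c => Classical.arbitrary _
  obtain ⟨t, -, ht⟩ := hK.elim_nhds_subcover (fun c => Function.support (b c))
    fun c _ => (b c).support_mem_nhds
  let ρ : t → M → ℝ := fun i => b i
  have hρ : ∀ i, ContMDiff 𝓘(ℝ, E) 𝓘(ℝ, ℝ) ∞ (ρ i) := fun i => (b i).contMDiff
  have hs : ∀ i : t, tsupport (ρ i) ⊆ (chartAt E (i : M)).source := fun i =>
    (b i).tsupport_subset_chartAt_source
  have hsrc : ∀ (i : t) p, ρ i p ≠ 0 → p ∈ (chartAt E (i : M)).source := fun i p h =>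
    hs i (subset_tsupport _ h)
  let φ : (t → E) ≃L[ℝ] EuclideanSpace ℝ (Fin (Module.finrank ℝ (t → E))) := toEuclidean
  let J₀ : M → (E →L[ℝ] (t → E)) := fun p =>
    ContinuousLinearMap.pi fun i => ρ i p • tr E (i : M) p
  let P₀ : M → ((t → E) →L[ℝ] E) := fun p =>
    ∑ i, ρ i p • (trs E (i : M) p).comp (ContinuousLinearMap.proj i)
  have eP : ∀ p y, P₀ p y = ∑ i, ρ i p • trs E (i : M) p (y i) := fun p y => by
    simp [P₀]
  have hJ : ContMDiff 𝓘(ℝ, E).tangent 𝓘(ℝ, t → E) ∞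
      (fun z : TangentBundle 𝓘(ℝ, E) M => J₀ z.1 z.2) := by
    refine contMDiff_pi_space.mpr fun i z => ?_
    have hp : ContMDiff 𝓘(ℝ, E).tangent 𝓘(ℝ, E) ∞ fun z : TangentBundle 𝓘(ℝ, E) M => z.1 :=
      Bundle.contMDiff_proj _
    change ContMDiffAt _ _ _ (fun z : TangentBundle 𝓘(ℝ, E) M => ρ i z.1 • tr E (i : M) z.1 z.2) z
    by_cases hz : z.1 ∈ tsupport (ρ i)
    · exact ((hρ i).comp hp z).smul (tr_smooth (hs i hz))
    · refine (contMDiffAt_const (c := 0)).congr_of_eventuallyEq ?_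
      filter_upwards [hp.continuous.continuousAt.eventually
        (notMem_tsupport_iff_eventuallyEq.mp hz)] with x hx
      rw [show ρ i x.1 = 0 from hx, zero_smul]
  have hP : ∀ y, ContMDiff 𝓘(ℝ, E) 𝓘(ℝ, E).tangent ∞
      (fun p => (⟨p, P₀ p y⟩ : TangentBundle 𝓘(ℝ, E) M)) := fun y => by
    simp only [eP]
    refine ContMDiff.sum_section (V := TangentSpace 𝓘(ℝ, E))
      (t := fun i p => ρ i p • trs E (i : M) p (y i)) fun i _ => ?_
    exact ContMDiffOn.smul_section_of_tsupport (V := TangentSpace 𝓘(ℝ, E))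
      (s := fun p => trs E (i : M) p (y i)) (hρ i).contMDiffOn (chartAt E (i : M)).open_source (hs i)
      fun p hp => (trs_smooth hp (y i)).contMDiffWithinAt
  refine ⟨Module.finrank ℝ (t → E), fun p => φ.toContinuousLinearMap.comp (J₀ p),
    fun p => (P₀ p).comp φ.symm.toContinuousLinearMap, fun p => ∑ i, ρ i p ^ 2,
    φ.contDiff.contMDiff.comp hJ, continuous_clm_apply.mpr fun y =>
      φ.continuous.comp (hJ.continuous.comp (hP (φ.symm y)).continuous),
    continuous_finsetSum _ fun i _ => (hρ i).continuous.pow 2, fun p u => ?_, fun p hp => ?_,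
    fun X _ _ f hf => ?_⟩
  · change P₀ p (φ.symm (φ (J₀ p u))) = _
    rw [φ.symm_apply_apply, eP, Finset.sum_smul]
    refine Finset.sum_congr rfl fun i _ => ?_
    change ρ i p • trs E (i : M) p (ρ i p • tr E (i : M) p u) = _
    by_cases h : ρ i p = 0
    · simp [h]
    · rw [map_smul, trs_tr (hsrc i p h), smul_smul, pow_two]
  · obtain ⟨i, hi, hp'⟩ := mem_iUnion₂.mp (ht hp)
    exact Finset.sum_pos' (fun j _ => sq_nonneg _)
      ⟨⟨i, hi⟩, Finset.mem_univ _, pow_pos (lt_of_le_of_ne (b i).nonneg (Ne.symm hp')) 2⟩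
  · obtain ⟨Ex, hT⟩ := exists_good hf (fun i : t => (i : M)) hρ hs Finset.univ
    let ψ : (X × EuclideanSpace ℝ (Fin (Module.finrank ℝ (t → E)))) →L[ℝ] X × (t → E) :=
      (ContinuousLinearMap.id ℝ X).prodMap (φ.symm : _ →L[ℝ] (t → E))
    have h0 : ∀ q, ψ (q, 0) = (q, 0) := fun q => by simp [ψ]
    refine ⟨Ex ∘ ψ, fun q q' y h => hT.inv q q' _ h, fun q => by
      rw [Function.comp_apply, h0, hT.zero], fun q => ?_, fun q y => ?_⟩
    · have : Tendsto ψ (𝓝 (q, 0)) (𝓝 (q, 0)) := by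
        have := ψ.continuous.tendsto (q, 0)
        rwa [h0] at this
      filter_upwards [this.eventually (hT.smooth q)] with x hx
      exact hx.comp x ψ.contDiff.contMDiff.contMDiffAt
    · rw [md_comp ψ.hasFDerivAt (by
        rw [h0]; exact (hT.smooth q).self_of_nhds.mdifferentiableAt (by simp)), h0]
      exact (hT.fib q _).trans (eP _ _).symm

end

end Pool.Agent.Lib.MP_72f1d0_gt.Eq.Man
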