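import Pool.Agent.Lib.MP_72f1d0_gt.Eq.ManStmt
import Pool.Agent.Lib.MP_72f1d0_gt.Eq.ManAlg

/-!
Local frames of an Engel structure adapted to its characteristic line field.
-/

set_option linter.unusedSectionVars false

open scoped ContDiff Manifold Topology
open Set Filter VectorField

namespace Pool.Agent.Lib.MP_72f1d0_gt.Eq.Man

open Stmt

noncomputable section

variable {E : Type*} [NormedAddCommGroup E] [NormedSpace ℝ E] [FiniteDimensional ℝ E]
  {M : Type*} [TopologicalSpace M] [ChartedSpace E M] [IsManifold 𝓘(ℝ, E) ∞ M]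

/-- The Lie bracket. -/
abbrev br (V W : VField E M) : VField E M := mlieBracket 𝓘(ℝ, E) V W

/-- Smoothness of a vector field at a point. -/
abbrev SmAt (V : VField E M) (x : M) : Prop :=
  ContMDiffAt 𝓘(ℝ, E) 𝓘(ℝ, E).tangent ∞ (fun p => (⟨p, V p⟩ : TangentBundle 𝓘(ℝ, E) M)) x

/-- Smoothness of a function at a point. -/
abbrev FnAt (a : M → ℝ) (x : M) : Prop := ContMDiffAt 𝓘(ℝ, E) 𝓘(ℝ, ℝ) ∞ a x

lemma smoothOn_iff {V : VField E M} {U : Set M} (hU : IsOpen U) :
    SmoothOn V U ↔ ∀ x ∈ U, SmAt V x :=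
  ⟨fun h x hx => (h x hx).contMDiffAt (hU.mem_nhds hx), fun h x hx => (h x hx).contMDiffWithinAt⟩

lemma SmAt.br {V W : VField E M} {x : M} (hV : SmAt V x) (hW : SmAt W x) : SmAt (br V W) x := by
  have : CompleteSpace E := FiniteDimensional.complete ℝ E
  have : IsManifold 𝓘(ℝ, E) ((⊤ : ℕ∞) + 1) M := inferInstanceAs (IsManifold 𝓘(ℝ, E) ∞ M)
  have : IsManifold 𝓘(ℝ, E) (minSmoothness ℝ 2) M := by
    rw [minSmoothness_of_isRCLikeNormedField]; infer_instance
  exact ContMDiffAt.mlieBracket_vectorField (m := ⊤) (n := ⊤) hV hW (by simp)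

/-- The linear map with the given columns. -/
def cols {ι F : Type*} [Fintype ι] [NormedAddCommGroup F] [NormedSpace ℝ F] (a : ι → F) :
    (ι → ℝ) →L[ℝ] F :=
  ∑ i, (ContinuousLinearMap.proj i : (ι → ℝ) →L[ℝ] ℝ).smulRight (a i)

lemma cols_apply {ι F : Type*} [Fintype ι] [NormedAddCommGroup F] [NormedSpace ℝ F] (a : ι → F)
    (c : ι → ℝ) : cols a c = ∑ i, c i • a i := by
  simp [cols]

lemma cols_inj {ι F : Type*} [Fintype ι] [NormedAddCommGroup F] [NormedSpace ℝ F] {a : ι → F} :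
    Function.Injective (cols a) ↔ LinearIndependent ℝ a := by
  rw [injective_iff_map_eq_zero, Fintype.linearIndependent_iff]
  simp only [cols_apply]
  exact ⟨fun h g hg i => congrFun (h g hg) i, fun h g hg => funext (h g hg)⟩

lemma cols_smooth {ι F : Type*} [Fintype ι] [NormedAddCommGroup F] [NormedSpace ℝ F] :
    ContDiff ℝ ∞ (cols : (ι → F) → (ι → ℝ) →L[ℝ] F) :=
  ContDiff.sum fun i _ => contDiff_const.smulRight (contDiff_apply ℝ F i)

/-- Local expression of a family of vector fields. -/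
lemma loc_cols {ι : Type*} [Fintype ι] {v : ι → VField E M} {x₀ : M} (hv : ∀ i, SmAt (v i) x₀) :
    ∃ (T : Π x : M, TangentSpace 𝓘(ℝ, E) x →L[ℝ] E),
      ContMDiffAt 𝓘(ℝ, E) 𝓘(ℝ, (ι → ℝ) →L[ℝ] E) ∞ (fun x => cols fun i => T x (v i x)) x₀ ∧
      (∀ u : VField E M, SmAt u x₀ → ContMDiffAt 𝓘(ℝ, E) 𝓘(ℝ, E) ∞ (fun x => T x (u x)) x₀) ∧
      ∀ᶠ x in 𝓝 x₀, Function.Injective (T x) := by
  set e := trivializationAt E (TangentSpace 𝓘(ℝ, E)) x₀
  have hb : e.baseSet ∈ 𝓝 x₀ :=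
    e.open_baseSet.mem_nhds (FiberBundle.mem_baseSet_trivializationAt' x₀)
  have key : ∀ u : VField E M, SmAt u x₀ →
      ContMDiffAt 𝓘(ℝ, E) 𝓘(ℝ, E) ∞ (fun x => e.continuousLinearMapAt ℝ x (u x)) x₀ := by
    intro u hu
    refine (Bundle.contMDiffAt_totalSpace.mp hu).2.congr_of_eventuallyEq ?_
    filter_upwards [hb] with x hx
    exact Bundle.Trivialization.continuousLinearMapAt_apply_of_mem ℝ e hx _
  refine ⟨fun x => e.continuousLinearMapAt ℝ x,
    (cols_smooth (ι := ι) (F := E)).contMDiff.contMDiffAt.comp x₀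
      (contMDiffAt_pi_space.mpr fun i => key _ (hv i)),
    key, ?_⟩
  filter_upwards [hb] with x hx a b hab
  rw [← e.symmL_continuousLinearMapAt (R := ℝ) hx a, hab, e.symmL_continuousLinearMapAt hx]

lemma ind_eventually {ι : Type*} [Fintype ι] {v : ι → VField E M} {x₀ : M}
    (hv : ∀ i, SmAt (v i) x₀) (hi : LinearIndependent ℝ fun i => v i x₀) :
    ∀ᶠ x in 𝓝 x₀, LinearIndependent ℝ fun i => v i x := by
  obtain ⟨T, h1, -, h3⟩ := loc_cols hv
  have h4 : Function.Injective (cols fun i => T x₀ (v i x₀)) :=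
    cols_inj.mpr (hi.map' (T x₀).toLinearMap (LinearMap.ker_eq_bot.mpr h3.self_of_nhds))
  filter_upwards [inj_eventually h1.continuousAt h4] with x hx
  exact LinearIndependent.of_comp (T x).toLinearMap (cols_inj.mp hx)

/-- The coefficients of a smooth field in an independent smooth family are smooth. -/
lemma coef {ι : Type*} [Fintype ι] {v : ι → VField E M} {u : VField E M} {U : Set M}
    (hU : IsOpen U) (hv : ∀ i, ∀ x ∈ U, SmAt (v i) x)
    (hi : ∀ x ∈ U, LinearIndependent ℝ fun i => v i x) (hu : ∀ x ∈ U, SmAt u x)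
    (hs : ∀ x ∈ U, u x ∈ Submodule.span ℝ (range fun i => v i x)) :
    ∃ c : ι → M → ℝ, (∀ i, ∀ x ∈ U, FnAt (E := E) (c i) x) ∧
      ∀ x ∈ U, u x = ∑ i, c i x • v i x := by
  have : ∀ x, ∃ c : ι → ℝ, x ∈ U → u x = ∑ i, c i • v i x := fun x => by
    by_cases hx : x ∈ U
    · obtain ⟨c, hc⟩ := (Submodule.mem_span_range_iff_exists_fun ℝ).mp (hs x hx)
      exact ⟨c, fun _ => hc.symm⟩
    · exact ⟨0, fun h => absurd h hx⟩
  choose c hc using this
  refine ⟨fun i x => c x i, fun i x₀ hx => ?_, hc⟩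
  obtain ⟨T, h1, h2, h3⟩ := loc_cols fun i => hv i x₀ hx
  have h4 : Function.Injective (cols fun i => T x₀ (v i x₀)) :=
    cols_inj.mpr ((hi x₀ hx).map' (T x₀).toLinearMap (LinearMap.ker_eq_bot.mpr h3.self_of_nhds))
  have h5 := solve_smooth (c := c) h1 h4 (h2 u (hu x₀ hx)) (by
    filter_upwards [hU.mem_nhds hx] with x hx
    rw [cols_apply, hc x hx, map_sum]
    simp only [map_smul])
  exact contMDiffAt_pi_space.mp h5 i

lemma br_sum_right {κ : Type*} (t : Finset κ) (V : VField E M) {y : κ → VField E M}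
    {b : κ → M → ℝ} {x : M} (hy : ∀ j, SmAt (y j) x) (hb : ∀ j, FnAt (E := E) (b j) x)
    {S : Submodule ℝ (TangentSpace 𝓘(ℝ, E) x)} (hS : ∀ j, y j x ∈ S) :
    br V (fun p => ∑ j ∈ t, b j p • y j p) x - ∑ j ∈ t, b j x • br V (y j) x ∈ S := by
  classical
  have : CompleteSpace E := FiniteDimensional.complete ℝ E
  have hd : ∀ j, MDifferentiableAt 𝓘(ℝ, E) 𝓘(ℝ, E).tangent
      (fun p => (⟨p, (b j • y j) p⟩ : TangentBundle 𝓘(ℝ, E) M)) x := fun j =>
    ((hb j).smul_section (hy j)).mdifferentiableAt (by simp)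
  induction t using Finset.induction_on with
  | empty =>
    have : br V (fun p => ∑ j ∈ (∅ : Finset κ), b j p • y j p) = 0 := by
      simp only [Finset.sum_empty]
      exact mlieBracket_zero_right
    rw [this]
    simp
  | insert j t hj ih =>
    have e : (fun p => ∑ i ∈ insert j t, b i p • y i p) =
        b j • y j + fun p => ∑ i ∈ t, b i p • y i p := by
      funext p
      rw [Finset.sum_insert hj]
      rfl
    have h1 := mlieBracket_add_right (V := V) (hd j)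
      (MDifferentiableAt.sum_section (s := t) fun i _ => hd i)
    have h2 := mlieBracket_smul_right (V := V) ((hb j).mdifferentiableAt (by simp))
      ((hy j).mdifferentiableAt (by simp))
    rw [e, Finset.sum_insert hj]
    have h3 : br V (b j • y j + fun p => ∑ i ∈ t, b i p • y i p) x =
        br V (b j • y j) x + br V (fun p => ∑ i ∈ t, b i p • y i p) x := h1
    rw [h3, show br V (b j • y j) x = _ from h2]
    have := S.add_mem ih (S.smul_mem (mvfderiv 𝓘(ℝ, E) (b j) x (V x)) (hS j))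
    convert this using 1
    abel

/-- The bracket of two combinations, modulo the span of the fields. -/
lemma br_comb {ι κ : Type*} [Fintype ι] [Fintype κ] {v : ι → VField E M} {y : κ → VField E M}
    {a : ι → M → ℝ} {b : κ → M → ℝ} {V Y : VField E M} {x : M}
    (hv : ∀ i, SmAt (v i) x) (ha : ∀ i, FnAt (E := E) (a i) x)
    (hy : ∀ j, SmAt (y j) x) (hb : ∀ j, FnAt (E := E) (b j) x)
    (hV : ∀ᶠ p in 𝓝 x, V p = ∑ i, a i p • v i p) (hY : ∀ᶠ p in 𝓝 x, Y p = ∑ j, b j p • y j p)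
    {S : Submodule ℝ (TangentSpace 𝓘(ℝ, E) x)} (hSv : ∀ i, v i x ∈ S) (hSy : ∀ j, y j x ∈ S) :
    br V Y x - ∑ j, b j x • ∑ i, a i x • br (v i) (y j) x ∈ S := by
  have e : br V Y x = br (fun p => ∑ i, a i p • v i p) (fun p => ∑ j, b j p • y j p) x :=
    Filter.EventuallyEq.mlieBracket_vectorField_eq hV hY
  have h1 := br_sum_right Finset.univ (fun p => ∑ i, a i p • v i p) hy hb hSy
  have h2 : ∀ j, br (fun p => ∑ i, a i p • v i p) (y j) x - ∑ i, a i x • br (v i) (y j) x ∈ S :=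
    fun j => by
      have := S.neg_mem (br_sum_right Finset.univ (y j) hv ha hSv)
      convert this using 1
      simp only [br, mlieBracket_swap_apply (V := y j), smul_neg, Finset.sum_neg_distrib]
      abel
  have h3 := S.add_mem h1 (S.sum_mem (t := Finset.univ) fun j _ => S.smul_mem (b j x) (h2 j))
  rw [e]
  convert h3 using 1
  simp only [smul_sub, Finset.sum_sub_distrib]
  abel

lemma br_self (V : VField E M) (x : M) : br V V x = 0 := congrFun mlieBracket_self x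

lemma br_swap (V W : VField E M) (x : M) : br V W x = -br W V x := mlieBracket_swap_apply

lemma range2 (W X : VField E M) (x : M) : (range fun i => ![W, X] i x) = {W x, X x} := by
  ext u; simp [Fin.exists_fin_two, eq_comm]

lemma range3 (W X Z : VField E M) (x : M) :
    (range fun i => ![W, X, Z] i x) = {W x, X x, Z x} := by
  ext u; simp [Fin.exists_fin_succ, eq_comm]

lemma fam2 (W X : VField E M) (x : M) : (fun i => ![W, X] i x) = ![W x, X x] := by
  funext i; fin_cases i <;> rfl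

lemma fam3 (W X Z : VField E M) (x : M) : (fun i => ![W, X, Z] i x) = ![W x, X x, Z x] := by
  funext i; fin_cases i <;> rfl

lemma fam4 (W X Z R : VField E M) (x : M) :
    (fun i => ![W, X, Z, R] i x) = ![W x, X x, Z x, R x] := by
  funext i; fin_cases i <;> rfl

lemma coef2 {W X u : VField E M} {U : Set M} (hU : IsOpen U) (hW : ∀ x ∈ U, SmAt W x)
    (hX : ∀ x ∈ U, SmAt X x) (hi : ∀ x ∈ U, LinearIndependent ℝ ![W x, X x])
    (hu : ∀ x ∈ U, SmAt u x) (hs : ∀ x ∈ U, u x ∈ Submodule.span ℝ {W x, X x}) :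
    ∃ c : Fin 2 → M → ℝ, (∀ i, ∀ x ∈ U, FnAt (E := E) (c i) x) ∧
      ∀ x ∈ U, u x = ∑ i, c i x • ![W, X] i x :=
  coef hU (fun i => by fin_cases i; exacts [hW, hX]) (fun x hx => by rw [fam2]; exact hi x hx) hu
    fun x hx => by rw [range2]; exact hs x hx

lemma coef3 {W X Z u : VField E M} {U : Set M} (hU : IsOpen U) (hW : ∀ x ∈ U, SmAt W x)
    (hX : ∀ x ∈ U, SmAt X x) (hZ : ∀ x ∈ U, SmAt Z x)
    (hi : ∀ x ∈ U, LinearIndependent ℝ ![W x, X x, Z x])
    (hu : ∀ x ∈ U, SmAt u x) (hs : ∀ x ∈ U, u x ∈ Submodule.span ℝ {W x, X x, Z x}) :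
    ∃ c : Fin 3 → M → ℝ, (∀ i, ∀ x ∈ U, FnAt (E := E) (c i) x) ∧
      ∀ x ∈ U, u x = ∑ i, c i x • ![W, X, Z] i x :=
  coef hU (fun i => by fin_cases i; exacts [hW, hX, hZ])
    (fun x hx => by rw [fam3]; exact hi x hx) hu fun x hx => by rw [range3]; exact hs x hx

/-- `[a W + b X, c W + d X] = (a d - b c) [W, X]` modulo `W, X`. -/
lemma br22 {W X V Y : VField E M} {U : Set M} (hU : IsOpen U) (hW : ∀ x ∈ U, SmAt W x)
    (hX : ∀ x ∈ U, SmAt X x) (hi : ∀ x ∈ U, LinearIndependent ℝ ![W x, X x])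
    (hV : ∀ x ∈ U, SmAt V x) (sV : ∀ x ∈ U, V x ∈ Submodule.span ℝ {W x, X x})
    (hY : ∀ x ∈ U, SmAt Y x) (sY : ∀ x ∈ U, Y x ∈ Submodule.span ℝ {W x, X x})
    {x : M} (hx : x ∈ U) : ∃ a b c d : ℝ, V x = a • W x + b • X x ∧ Y x = c • W x + d • X x ∧
      br V Y x - (a * d - b * c) • br W X x ∈ Submodule.span ℝ {W x, X x} := by
  obtain ⟨a, ha, ea⟩ := coef2 hU hW hX hi hV sV
  obtain ⟨b, hb, eb⟩ := coef2 hU hW hX hi hY sY
  have hv : ∀ i, SmAt (![W, X] i) x := fun i => by fin_cases i; exacts [hW x hx, hX x hx]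
  have hS : ∀ i, ![W, X] i x ∈ Submodule.span ℝ {W x, X x} := fun i => by
    rw [← range2]; exact Submodule.subset_span ⟨i, rfl⟩
  have := br_comb hv (fun i => ha i x hx) hv (fun i => hb i x hx)
    (eventually_of_mem (hU.mem_nhds hx) ea) (eventually_of_mem (hU.mem_nhds hx) eb) hS hS
  refine ⟨a 0 x, a 1 x, b 0 x, b 1 x, by simpa using ea x hx, by simpa using eb x hx, ?_⟩
  convert this using 2
  simp only [Fin.sum_univ_two, Matrix.cons_val_zero, Matrix.cons_val_one, br_self,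
    br_swap X W x]
  module

/-- The bracket of a section of `span (W, X)` with a section of `span (W, X, [W, X])`. -/
lemma br23 {W X V Y : VField E M} {U : Set M} (hU : IsOpen U) (hW : ∀ x ∈ U, SmAt W x)
    (hX : ∀ x ∈ U, SmAt X x) (hi : ∀ x ∈ U, LinearIndependent ℝ ![W x, X x, br W X x])
    (hV : ∀ x ∈ U, SmAt V x) (sV : ∀ x ∈ U, V x ∈ Submodule.span ℝ {W x, X x})
    (hY : ∀ x ∈ U, SmAt Y x) (sY : ∀ x ∈ U, Y x ∈ Submodule.span ℝ {W x, X x, br W X x})
    {x : M} (hx : x ∈ U) : ∃ a b c d k : ℝ, V x = a • W x + b • X x ∧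
      Y x = c • W x + d • X x + k • br W X x ∧
      br V Y x - k • (a • br W (br W X) x + b • br X (br W X) x) ∈
        Submodule.span ℝ {W x, X x, br W X x} := by
  have hZ : ∀ x ∈ U, SmAt (br W X) x := fun x hx => (hW x hx).br (hX x hx)
  have hi2 : ∀ x ∈ U, LinearIndependent ℝ ![W x, X x] := fun x hx => by
    have := (hi x hx).comp (![0, 1] : Fin 2 → Fin 3) (by decide)
    convert this using 1
    funext i; fin_cases i <;> rfl
  obtain ⟨a, ha, ea⟩ := coef2 hU hW hX hi2 hV sV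
  obtain ⟨b, hb, eb⟩ := coef3 hU hW hX hZ hi hY sY
  have hv : ∀ i, SmAt (![W, X] i) x := fun i => by fin_cases i; exacts [hW x hx, hX x hx]
  have hy : ∀ i, SmAt (![W, X, br W X] i) x := fun i => by
    fin_cases i; exacts [hW x hx, hX x hx, hZ x hx]
  have hSy : ∀ i, ![W, X, br W X] i x ∈ Submodule.span ℝ {W x, X x, br W X x} := fun i => by
    rw [← range3]; exact Submodule.subset_span ⟨i, rfl⟩
  have hSv : ∀ i, ![W, X] i x ∈ Submodule.span ℝ {W x, X x, br W X x} := fun i => by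
    fin_cases i; exacts [hSy 0, hSy 1]
  have := br_comb hv (fun i => ha i x hx) hy (fun i => hb i x hx)
    (eventually_of_mem (hU.mem_nhds hx) ea) (eventually_of_mem (hU.mem_nhds hx) eb) hSv hSy
  refine ⟨a 0 x, a 1 x, b 0 x, b 1 x, b 2 x, by simpa using ea x hx,
    by simpa [Fin.sum_univ_three] using eb x hx, ?_⟩
  have h2 := Submodule.add_mem _ this
    (Submodule.smul_mem _ (b 1 x * a 0 x - b 0 x * a 1 x) (hSy 2))
  convert h2 using 1
  simp only [Fin.sum_univ_two, Fin.sum_univ_three, Matrix.cons_val_zero, Matrix.cons_val_one,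
    Matrix.cons_val, br_self, br_swap X W x]
  module

section LinAlg

variable {T : Type*} [AddCommGroup T] [Module ℝ T]

lemma ind3_iff {a b c : T} : LinearIndependent ℝ ![a, b, c] ↔
    ∀ r s t : ℝ, r • a + s • b + t • c = 0 → r = 0 ∧ s = 0 ∧ t = 0 := by
  rw [Fintype.linearIndependent_iff]
  constructor
  · intro h r s t e
    have := h ![r, s, t] (by simpa [Fin.sum_univ_three] using e)
    exact ⟨this 0, this 1, this 2⟩
  · intro h g hg i
    have := h (g 0) (g 1) (g 2) (by simpa [Fin.sum_univ_three] using hg)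
    fin_cases i
    exacts [this.1, this.2.1, this.2.2]

lemma ind4_iff' {a b c d : T} : LinearIndependent ℝ ![a, b, c, d] ↔
    ∀ r s t u : ℝ, r • a + s • b + t • c + u • d = 0 → r = 0 ∧ s = 0 ∧ t = 0 ∧ u = 0 := by
  rw [Fintype.linearIndependent_iff]
  constructor
  · intro h r s t u e
    have := h ![r, s, t, u] (by simpa [Fin.sum_univ_four] using e)
    exact ⟨this 0, this 1, this 2, this 3⟩
  · intro h g hg i
    have := h (g 0) (g 1) (g 2) (g 3) (by simpa [Fin.sum_univ_four] using hg)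
    fin_cases i
    exacts [this.1, this.2.1, this.2.2.1, this.2.2.2]

lemma ind2_of3 {a b c : T} (h : LinearIndependent ℝ ![a, b, c]) : LinearIndependent ℝ ![a, b] :=
  LinearIndependent.pair_iff.mpr fun r s e => by
    have := ind3_iff.mp h r s 0 (by rw [e]; simp)
    exact ⟨this.1, this.2.1⟩

lemma ind3_of4 {a b c d : T} (h : LinearIndependent ℝ ![a, b, c, d]) :
    LinearIndependent ℝ ![a, b, c] :=
  ind3_iff.mpr fun r s t e => by
    have := ind4_iff'.mp h r s t 0 (by rw [e]; simp)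
    exact ⟨this.1, this.2.1, this.2.2.1⟩

lemma zero_of4 {a b c d : T} (h : LinearIndependent ℝ ![a, b, c, d]) {k : ℝ}
    (hk : k • d ∈ Submodule.span ℝ {a, b, c}) : k = 0 := by
  obtain ⟨r, s, t, e⟩ := Submodule.mem_span_triple.mp hk
  have := ind4_iff'.mp h r s t (-k) (by rw [e]; simp)
  linarith [this.2.2.2]

lemma zero_of3 {a b c : T} (h : LinearIndependent ℝ ![a, b, c]) {k : ℝ}
    (hk : k • c ∈ Submodule.span ℝ {a, b}) : k = 0 := by
  obtain ⟨r, s, e⟩ := Submodule.mem_span_pair.mp hk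
  have := ind3_iff.mp h r s (-k) (by rw [e]; simp)
  linarith [this.2.2]

lemma ind4_of3 {a b c d : T} (h : LinearIndependent ℝ ![a, b, c])
    (hd : d ∉ Submodule.span ℝ {a, b, c}) : LinearIndependent ℝ ![a, b, c, d] :=
  ind4_iff'.mpr fun r s t u e => by
    have hu : u = 0 := by
      by_contra hu
      refine hd (Submodule.mem_span_triple.mpr ⟨-(r / u), -(s / u), -(t / u), ?_⟩)
      have : d = u⁻¹ • (u • d) := by rw [smul_smul, inv_mul_cancel₀ hu, one_smul]
      rw [this, show u • d = -(r • a + s • b + t • c) from eq_neg_of_add_eq_zero_right e]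
      simp only [div_eq_mul_inv]
      module
    have := ind3_iff.mp h r s t (by rw [← e, hu]; simp)
    exact ⟨this.1, this.2.1, this.2.2, hu⟩

lemma ind3_of2 {a b c : T} (h : LinearIndependent ℝ ![a, b])
    (hc : c ∉ Submodule.span ℝ {a, b}) : LinearIndependent ℝ ![a, b, c] :=
  ind3_iff.mpr fun r s u e => by
    have hu : u = 0 := by
      by_contra hu
      refine hc (Submodule.mem_span_pair.mpr ⟨-(r / u), -(s / u), ?_⟩)
      have : c = u⁻¹ • (u • c) := by rw [smul_smul, inv_mul_cancel₀ hu, one_smul]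
      rw [this, show u • c = -(r • a + s • b) from eq_neg_of_add_eq_zero_right e]
      simp only [div_eq_mul_inv]
      module
    have := LinearIndependent.pair_iff.mp h r s (by rw [← e, hu]; simp)
    exact ⟨this.1, this.2, hu⟩

lemma span2_le3 (a b c : T) : Submodule.span ℝ {a, b} ≤ Submodule.span ℝ {a, b, c} :=
  Submodule.span_mono (by intro u; simp; tauto)

lemma mem3_1 (a b c : T) : a ∈ Submodule.span ℝ {a, b, c} := Submodule.subset_span (by simp)
lemma mem3_2 (a b c : T) : b ∈ Submodule.span ℝ {a, b, c} := Submodule.subset_span (by simp)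
lemma mem3_3 (a b c : T) : c ∈ Submodule.span ℝ {a, b, c} := Submodule.subset_span (by simp)
lemma mem2_1 (a b : T) : a ∈ Submodule.span ℝ {a, b} := Submodule.subset_span (by simp)
lemma mem2_2 (a b : T) : b ∈ Submodule.span ℝ {a, b} := Submodule.subset_span (by simp)

lemma span3_le {a b c : T} {S : Submodule ℝ T} (ha : a ∈ S) (hb : b ∈ S) (hc : c ∈ S) :
    Submodule.span ℝ {a, b, c} ≤ S :=
  Submodule.span_le.mpr (by rintro u (rfl | rfl | rfl); exacts [ha, hb, hc])

lemma span2_le {a b : T} {S : Submodule ℝ T} (ha : a ∈ S) (hb : b ∈ S) :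
    Submodule.span ℝ {a, b} ≤ S :=
  Submodule.span_le.mpr (by rintro u (rfl | rfl); exacts [ha, hb])

end LinAlg

/-- A frame `W, X` of an Engel plane field on `U` with `W` characteristic. -/
structure Ad (W X : VField E M) (U : Set M) : Prop where
  hW : ∀ x ∈ U, SmAt W x
  hX : ∀ x ∈ U, SmAt X x
  ind : ∀ x ∈ U, LinearIndependent ℝ ![W x, X x, br W X x, br X (br W X) x]
  chr : ∀ x ∈ U, br W (br W X) x ∈ Submodule.span ℝ {W x, X x, br W X x}

/-- Another frame of the same flag is adapted as well. -/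
lemma Ad.change {W X W' X' : VField E M} {U : Set M} (h : Ad W X U) (hU : IsOpen U)
    (hW' : ∀ x ∈ U, SmAt W' x) (hX' : ∀ x ∈ U, SmAt X' x)
    (e1 : ∀ x ∈ U, Submodule.span ℝ {W' x} = Submodule.span ℝ {W x})
    (e2 : ∀ x ∈ U, Submodule.span ℝ {W' x, X' x} = Submodule.span ℝ {W x, X x}) :
    Ad W' X' U := by
  have i3 : ∀ x ∈ U, LinearIndependent ℝ ![W x, X x, br W X x] := fun x hx =>
    ind3_of4 (h.ind x hx)
  have i2 : ∀ x ∈ U, LinearIndependent ℝ ![W x, X x] := fun x hx => ind2_of3 (i3 x hx)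
  have sW : ∀ x ∈ U, W' x ∈ Submodule.span ℝ {W x, X x} := fun x hx => e2 x hx ▸ mem2_1 _ _
  have sX : ∀ x ∈ U, X' x ∈ Submodule.span ℝ {W x, X x} := fun x hx => e2 x hx ▸ mem2_2 _ _
  have hZ' : ∀ x ∈ U, SmAt (br W' X') x := fun x hx => (hW' x hx).br (hX' x hx)
  -- triangular change of frame
  have tri : ∀ x ∈ U, ∀ a b : ℝ, W' x = a • W x + b • X x → a ≠ 0 ∧ b = 0 := by
    intro x hx a b e
    obtain ⟨k, hk⟩ := Submodule.mem_span_singleton.mp
      (e1 x hx ▸ Submodule.mem_span_singleton_self (W' x) : W' x ∈ Submodule.span ℝ {W x})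
    obtain ⟨k', hk'⟩ := Submodule.mem_span_singleton.mp
      ((e1 x hx).symm ▸ Submodule.mem_span_singleton_self (W x) : W x ∈ Submodule.span ℝ {W' x})
    have h1 := LinearIndependent.pair_iff.mp (i2 x hx) (a - k) b (by
      rw [sub_smul, hk, e]; abel)
    refine ⟨fun ha => ?_, h1.2⟩
    rw [ha, h1.2, zero_smul, zero_smul, add_zero] at e
    rw [e, smul_zero] at hk'
    exact (i2 x hx).ne_zero 0 hk'.symm
  have tri2 : ∀ x ∈ U, ∀ c d : ℝ, X' x = c • W x + d • X x → d ≠ 0 := by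
    intro x hx c d e hd
    have h1 : X x ∈ Submodule.span ℝ {W x} := by
      have : Submodule.span ℝ {W' x, X' x} ≤ Submodule.span ℝ {W x} :=
        span2_le (e1 x hx ▸ Submodule.mem_span_singleton_self (W' x)) (by
          rw [e, hd, zero_smul, add_zero]
          exact Submodule.smul_mem _ _ (Submodule.mem_span_singleton_self _))
      exact this (e2 x hx ▸ mem2_2 _ _)
    obtain ⟨k, hk⟩ := Submodule.mem_span_singleton.mp h1
    have := (LinearIndependent.pair_iff.mp (i2 x hx) k (-1) (by rw [hk]; simp)).2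
    norm_num at this
  have key : ∀ x ∈ U, ∃ k : ℝ, k ≠ 0 ∧ br W' X' x - k • br W X x ∈ Submodule.span ℝ {W x, X x} ∧
      LinearIndependent ℝ ![W' x, X' x] := by
    intro x hx
    obtain ⟨a, b, c, d, f1, f2, f3⟩ := br22 hU h.hW h.hX i2 hW' sW hX' sX hx
    obtain ⟨ha, rfl⟩ := tri x hx a b f1
    have hd := tri2 x hx c d f2
    refine ⟨a * d - 0 * c, by simpa using ⟨ha, hd⟩, f3,
      LinearIndependent.pair_iff.mpr fun r s e => ?_⟩
    have h1 := LinearIndependent.pair_iff.mp (i2 x hx) (r * a + s * c) (s * d) (by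
      rw [← e, f1, f2]; module)
    have hs : s = 0 := (mul_eq_zero.mp h1.2).resolve_right hd
    have h2 := h1.1
    rw [hs, zero_mul, add_zero] at h2
    exact ⟨(mul_eq_zero.mp h2).resolve_right ha, hs⟩
  have sZ : ∀ x ∈ U, br W' X' x ∈ Submodule.span ℝ {W x, X x, br W X x} := fun x hx => by
    obtain ⟨k, -, h1, -⟩ := key x hx
    simpa using Submodule.add_mem _ (span2_le3 _ _ (br W X x) h1)
      (Submodule.smul_mem _ k (mem3_3 _ _ _))
  have e3 : ∀ x ∈ U, Submodule.span ℝ {W' x, X' x, br W' X' x} =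
      Submodule.span ℝ {W x, X x, br W X x} := fun x hx => by
    obtain ⟨k, hk, h1, -⟩ := key x hx
    have le2 : Submodule.span ℝ {W x, X x} ≤ Submodule.span ℝ {W' x, X' x, br W' X' x} :=
      e2 x hx ▸ span2_le3 _ _ _
    refine le_antisymm (span3_le (span2_le3 _ _ _ (sW x hx)) (span2_le3 _ _ _ (sX x hx)) (sZ x hx))
      (span3_le (le2 (mem2_1 _ _)) (le2 (mem2_2 _ _)) ?_)
    have := Submodule.smul_mem _ k⁻¹ (Submodule.sub_mem _ (mem3_3 _ _ _) (le2 h1))
    rwa [sub_sub_cancel, smul_smul, inv_mul_cancel₀ hk, one_smul] at this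
  refine ⟨hW', hX', fun x hx => ?_, fun x hx => ?_⟩
  · obtain ⟨k, hk, h1, h2⟩ := key x hx
    refine ind4_of3 (ind3_of2 h2 fun hm => hk (zero_of3 (i3 x hx) ?_)) fun hm => ?_
    · rw [e2 x hx] at hm
      simpa using Submodule.sub_mem _ hm h1
    · obtain ⟨c, d, r, s, t, f1, f2, f3⟩ := br23 hU h.hW h.hX i3 hX' sX hZ' sZ hx
      have ht : t ≠ 0 := fun ht => hk (zero_of3 (i3 x hx) (by
        have h3 : br W' X' x ∈ Submodule.span ℝ {W x, X x} :=
          Submodule.mem_span_pair.mpr ⟨r, s, by rw [f2, ht]; simp⟩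
        simpa using Submodule.sub_mem _ h3 h1))
      rw [e3 x hx] at hm
      have h4 := Submodule.sub_mem _ (Submodule.sub_mem _ hm f3)
        (Submodule.smul_mem _ (t * c) (h.chr x hx))
      refine mul_ne_zero ht (tri2 x hx c d f1) (zero_of4 (h.ind x hx) ?_)
      convert h4 using 1
      module
  · obtain ⟨a, b, r, s, t, f1, -, f3⟩ := br23 hU h.hW h.hX i3 hW' sW hZ' sZ hx
    obtain ⟨-, rfl⟩ := tri x hx a b f1
    rw [e3 x hx]
    have h4 := Submodule.add_mem _ f3 (Submodule.smul_mem _ (t * a) (h.chr x hx))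
    convert h4 using 1
    module

lemma section_of {D : Distr E M} {V : VField E M} {U : Set M} (hU : IsOpen U) {x : M} (hx : x ∈ U)
    (hV : ∀ x ∈ U, SmAt V x) (hD : ∀ x ∈ U, V x ∈ D x) : LocalSection D x V :=
  ⟨U, hU, hx, (smoothOn_iff hU).mpr hV, hD⟩

lemma derived_eq {D : Distr E M} {W X : VField E M} {U : Set M} (hU : IsOpen U)
    (hW : ∀ x ∈ U, SmAt W x) (hX : ∀ x ∈ U, SmAt X x)
    (hi : ∀ x ∈ U, LinearIndependent ℝ ![W x, X x])
    (hD : ∀ x ∈ U, D x = Submodule.span ℝ {W x, X x}) {x : M} (hx : x ∈ U) :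
    derived D x = Submodule.span ℝ {W x, X x, br W X x} := by
  have mW : ∀ x ∈ U, W x ∈ D x := fun x hx => hD x hx ▸ mem2_1 _ _
  have mX : ∀ x ∈ U, X x ∈ D x := fun x hx => hD x hx ▸ mem2_2 _ _
  refine le_antisymm (sup_le (hD x hx ▸ span2_le3 _ _ _) (Submodule.span_le.mpr ?_))
    (span3_le (Submodule.mem_sup_left (mW x hx)) (Submodule.mem_sup_left (mX x hx))
      (Submodule.mem_sup_right (Submodule.subset_span
        ⟨W, X, section_of hU hx hW mW, section_of hU hx hX mX, rfl⟩)))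
  rintro _ ⟨V, Y, ⟨U₁, o₁, x₁, s₁, m₁⟩, ⟨U₂, o₂, x₂, s₂, m₂⟩, rfl⟩
  obtain ⟨a, b, c, d, -, -, h⟩ := br22 (U := U ∩ U₁ ∩ U₂) (V := V) (Y := Y)
    ((hU.inter o₁).inter o₂) (fun y hy => hW y hy.1.1) (fun y hy => hX y hy.1.1)
    (fun y hy => hi y hy.1.1) (fun y hy => (smoothOn_iff o₁).mp s₁ y hy.1.2)
    (fun y hy => hD y hy.1.1 ▸ m₁ y hy.1.2) (fun y hy => (smoothOn_iff o₂).mp s₂ y hy.2)
    (fun y hy => hD y hy.1.1 ▸ m₂ y hy.2) ⟨⟨hx, x₁⟩, x₂⟩
  simpa using Submodule.add_mem _ (span2_le3 _ _ (br W X x) h)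
    (Submodule.smul_mem _ (a * d - b * c) (mem3_3 _ _ _))

lemma derived2_le {D : Distr E M} {W X : VField E M} {U : Set M} (hU : IsOpen U)
    (hW : ∀ x ∈ U, SmAt W x) (hX : ∀ x ∈ U, SmAt X x)
    (hi : ∀ x ∈ U, LinearIndependent ℝ ![W x, X x, br W X x])
    (hD : ∀ x ∈ U, D x = Submodule.span ℝ {W x, X x, br W X x}) {x : M} (hx : x ∈ U)
    {S : Submodule ℝ (TangentSpace 𝓘(ℝ, E) x)} (h0 : D x ≤ S) (h1 : br W (br W X) x ∈ S)
    (h2 : br X (br W X) x ∈ S) : derived D x ≤ S := by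
  refine sup_le h0 (Submodule.span_le.mpr ?_)
  rintro _ ⟨V, Y, ⟨U₁, o₁, x₁, s₁, m₁⟩, ⟨U₂, o₂, x₂, s₂, m₂⟩, rfl⟩
  have hO : IsOpen (U ∩ U₁ ∩ U₂) := (hU.inter o₁).inter o₂
  have hxO : x ∈ U ∩ U₁ ∩ U₂ := ⟨⟨hx, x₁⟩, x₂⟩
  have hZ : ∀ x ∈ U, SmAt (br W X) x := fun x hx => (hW x hx).br (hX x hx)
  obtain ⟨a, ha, ea⟩ := coef3 (u := V) hO (fun y hy => hW y hy.1.1) (fun y hy => hX y hy.1.1)
    (fun y hy => hZ y hy.1.1) (fun y hy => hi y hy.1.1)
    (fun y hy => (smoothOn_iff o₁).mp s₁ y hy.1.2) (fun y hy => hD y hy.1.1 ▸ m₁ y hy.1.2)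
  obtain ⟨b, hb, eb⟩ := coef3 (u := Y) hO (fun y hy => hW y hy.1.1) (fun y hy => hX y hy.1.1)
    (fun y hy => hZ y hy.1.1) (fun y hy => hi y hy.1.1)
    (fun y hy => (smoothOn_iff o₂).mp s₂ y hy.2) (fun y hy => hD y hy.1.1 ▸ m₂ y hy.2)
  have hy : ∀ i, SmAt (![W, X, br W X] i) x := fun i => by
    fin_cases i; exacts [hW x hx, hX x hx, hZ x hx]
  have hS : ∀ i, ![W, X, br W X] i x ∈ S := fun i => h0 (by
    rw [hD x hx, ← range3]; exact Submodule.subset_span ⟨i, rfl⟩)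
  have h3 := br_comb hy (fun i => ha i x hxO) hy (fun i => hb i x hxO)
    (eventually_of_mem (hO.mem_nhds hxO) ea) (eventually_of_mem (hO.mem_nhds hxO) eb) hS hS
  have h4 : ∀ i j, br (![W, X, br W X] i) (![W, X, br W X] j) x ∈ S := fun i j => by
    fin_cases i <;> fin_cases j
    · exact br_self W x ▸ S.zero_mem
    · exact hS 2
    · exact h1
    · exact br_swap X W x ▸ S.neg_mem (hS 2)
    · exact br_self X x ▸ S.zero_mem
    · exact h2
    · exact br_swap (br W X) W x ▸ S.neg_mem h1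
    · exact br_swap (br W X) X x ▸ S.neg_mem h2
    · exact br_self (br W X) x ▸ S.zero_mem
  have h5 := S.add_mem h3 (S.sum_mem (t := Finset.univ) fun j _ => S.smul_mem (b j x)
    (S.sum_mem (t := Finset.univ) fun i _ => S.smul_mem (a i x) (h4 i j)))
  rwa [sub_add_cancel] at h5

/-- The characteristic line field. -/
def chl (D : Distr E M) : Distr E M := fun x =>
  Submodule.span ℝ {w | w ∈ D x ∧ ∀ V Y : VField E M, LocalSection D x V →
    LocalSection (derived D) x Y → V x = w → br V Y x ∈ derived D x}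

lemma chl_eq {D : Distr E M} {W X : VField E M} {U : Set M} (hU : IsOpen U) (h : Ad W X U)
    (hD : ∀ x ∈ U, D x = Submodule.span ℝ {W x, X x}) {x : M} (hx : x ∈ U) :
    chl D x = Submodule.span ℝ {W x} := by
  have i3 : ∀ x ∈ U, LinearIndependent ℝ ![W x, X x, br W X x] := fun x hx =>
    ind3_of4 (h.ind x hx)
  have i2 : ∀ x ∈ U, LinearIndependent ℝ ![W x, X x] := fun x hx => ind2_of3 (i3 x hx)
  have hE : ∀ x ∈ U, derived D x = Submodule.span ℝ {W x, X x, br W X x} := fun x hx =>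
    derived_eq hU h.hW h.hX i2 hD hx
  have hZ : ∀ x ∈ U, SmAt (br W X) x := fun x hx => (h.hW x hx).br (h.hX x hx)
  refine le_antisymm (Submodule.span_le.mpr ?_) (Submodule.span_mono ?_)
  · rintro w ⟨h1, h2⟩
    rw [hD x hx] at h1
    obtain ⟨a, b, rfl⟩ := Submodule.mem_span_pair.mp h1
    have hV : ∀ y ∈ U, SmAt (a • W + b • X) y := fun y hy =>
      (h.hW y hy).const_smul_section.add_section (h.hX y hy).const_smul_section
    have sV : ∀ y ∈ U, (a • W + b • X) y ∈ Submodule.span ℝ {W y, X y} := fun y _ =>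
      Submodule.mem_span_pair.mpr ⟨a, b, rfl⟩
    have h3 := h2 (a • W + b • X) (br W X) (section_of hU hx hV fun y hy => hD y hy ▸ sV y hy)
      (section_of hU hx hZ fun y hy => hE y hy ▸ mem3_3 _ _ _) rfl
    obtain ⟨a', b', r, s, t, f1, f2, f3⟩ := br23 hU h.hW h.hX i3 hV sV hZ
      (fun y _ => mem3_3 _ _ _) hx
    have ht : t = 1 := by
      have := ind3_iff.mp (i3 x hx) r s (t - 1) (by
        rw [sub_smul, one_smul, ← add_sub_assoc, ← f2, sub_self])
      linarith [this.2.2]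
    have hb : b' = b := by
      have := LinearIndependent.pair_iff.mp (i2 x hx) (a' - a) (b' - b) (by
        have : a • W x + b • X x = a' • W x + b' • X x := f1
        rw [sub_smul, sub_smul, sub_add_sub_comm, this, sub_self])
      linarith [this.2]
    rw [hE x hx] at h3
    have h4 := Submodule.sub_mem _ (Submodule.sub_mem _ h3 f3)
      (Submodule.smul_mem _ a' (h.chr x hx))
    have h5 : b = 0 := zero_of4 (h.ind x hx) (by
      convert h4 using 1
      rw [ht, hb]; module)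
    rw [h5, zero_smul, add_zero]
    exact Submodule.smul_mem _ _ (Submodule.mem_span_singleton_self _)
  · rintro _ rfl
    refine ⟨hD x hx ▸ mem2_1 _ _, ?_⟩
    rintro V Y ⟨U₁, o₁, x₁, s₁, m₁⟩ ⟨U₂, o₂, x₂, s₂, m₂⟩ e
    obtain ⟨a, b, r, s, t, f1, -, f3⟩ := br23 (U := U ∩ U₁ ∩ U₂) (V := V) (Y := Y)
      ((hU.inter o₁).inter o₂) (fun y hy => h.hW y hy.1.1) (fun y hy => h.hX y hy.1.1)
      (fun y hy => i3 y hy.1.1) (fun y hy => (smoothOn_iff o₁).mp s₁ y hy.1.2)
      (fun y hy => hD y hy.1.1 ▸ m₁ y hy.1.2) (fun y hy => (smoothOn_iff o₂).mp s₂ y hy.2)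
      (fun y hy => hE y hy.1.1 ▸ m₂ y hy.2) ⟨⟨hx, x₁⟩, x₂⟩
    have hb : b = 0 := (LinearIndependent.pair_iff.mp (i2 x hx) (a - 1) b (by
      rw [sub_smul, one_smul, sub_add_eq_add_sub, ← f1, e, sub_self])).2
    rw [hE x hx]
    have h4 := Submodule.add_mem _ f3 (Submodule.smul_mem _ (t * a) (h.chr x hx))
    convert h4 using 1
    rw [hb]; module

lemma exists_ad_aux (hE : Module.finrank ℝ E = 4) {D : Distr E M} (h3 : SmoothRank (derived D) 3)
    (ht : ∀ p, derived (derived D) p = ⊤) {W X : VField E M} {U : Set M} (hU : IsOpen U)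
    (hW : ∀ x ∈ U, SmAt W x) (hX : ∀ x ∈ U, SmAt X x)
    (hi : ∀ x ∈ U, LinearIndependent ℝ ![W x, X x])
    (hD : ∀ x ∈ U, D x = Submodule.span ℝ {W x, X x}) :
    (∀ x ∈ U, LinearIndependent ℝ ![W x, X x, br W X x]) ∧
    ∀ x ∈ U, br W (br W X) x ∉ derived D x ∨ br X (br W X) x ∉ derived D x := by
  have hr : ∀ x, Module.finrank ℝ (derived D x) = 3 := fun x => by
    obtain ⟨U', -, hx, V, -, hV⟩ := h3 x
    rw [← (hV x hx).2, finrank_span_eq_card (hV x hx).1]
    simp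
  have hE' : ∀ x ∈ U, derived D x = Submodule.span ℝ {W x, X x, br W X x} := fun x hx =>
    derived_eq hU hW hX hi hD hx
  have i3 : ∀ x ∈ U, LinearIndependent ℝ ![W x, X x, br W X x] := fun x hx => by
    rw [linearIndependent_iff_card_eq_finrank_span, Set.finrank, ← fam3, range3, ← hE' x hx, hr]
    simp
  refine ⟨i3, fun x hx => ?_⟩
  by_contra hn
  push Not at hn
  have := derived2_le hU hW hX i3 hE' hx le_rfl hn.1 hn.2
  rw [ht, top_le_iff] at this
  have h4 := hr x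
  rw [this, finrank_top] at h4
  have h5 : Module.finrank ℝ (TangentSpace 𝓘(ℝ, E) x) = 4 := hE
  omega

lemma exists_ad_of (hE : Module.finrank ℝ E = 4) {D : Distr E M} (h3 : SmoothRank (derived D) 3)
    (ht : ∀ p, derived (derived D) p = ⊤) {W X : VField E M} {U : Set M} (hU : IsOpen U)
    (hW : ∀ x ∈ U, SmAt W x) (hX : ∀ x ∈ U, SmAt X x)
    (hi : ∀ x ∈ U, LinearIndependent ℝ ![W x, X x])
    (hD : ∀ x ∈ U, D x = Submodule.span ℝ {W x, X x}) {p : M} (hp : p ∈ U)
    (hR : br X (br W X) p ∉ derived D p) :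
    ∃ (U' : Set M) (W' X' : VField E M), IsOpen U' ∧ p ∈ U' ∧ Ad W' X' U' ∧
      ∀ x ∈ U', D x = Submodule.span ℝ {W' x, X' x} := by
  obtain ⟨i3, -⟩ := exists_ad_aux hE h3 ht hU hW hX hi hD
  have hZ : ∀ x ∈ U, SmAt (br W X) x := fun x hx => (hW x hx).br (hX x hx)
  have hRs : ∀ x ∈ U, SmAt (br X (br W X)) x := fun x hx => (hX x hx).br (hZ x hx)
  have hv : ∀ i, ∀ x ∈ U, SmAt (![W, X, br W X, br X (br W X)] i) x := fun i => by
    fin_cases i; exacts [hW, hX, hZ, hRs]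
  have i4 : ∀ᶠ x in 𝓝 p, LinearIndependent ℝ fun i => ![W, X, br W X, br X (br W X)] i x :=
    ind_eventually (fun i => hv i p hp) (by
      rw [fam4]
      exact ind4_of3 (i3 p hp) (derived_eq hU hW hX hi hD hp ▸ hR))
  obtain ⟨O, hO1, hO, hpO⟩ := eventually_nhds_iff.mp (i4.and (hU.mem_nhds hp))
  have hOU : ∀ x ∈ O, x ∈ U := fun x hx => (hO1 x hx).2
  obtain ⟨c, hc, ec⟩ := coef (u := br W (br W X)) hO (fun i x hx => hv i x (hOU x hx))
    (fun x hx => (hO1 x hx).1) (fun x hx => (hW x (hOU x hx)).br (hZ x (hOU x hx)))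
    fun x hx => by
      have : Module.finrank ℝ (TangentSpace 𝓘(ℝ, E) x) = 4 := hE
      rw [(hO1 x hx).1.span_eq_top_of_card_eq_finrank (by rw [this]; simp)]
      trivial
  have hW' : ∀ x ∈ O, SmAt (W - c 3 • X) x := fun x hx =>
    (hW x (hOU x hx)).sub_section ((hc 3 x hx).smul_section (hX x (hOU x hx)))
  have hX' : ∀ x ∈ O, SmAt X x := fun x hx => hX x (hOU x hx)
  have e2 : ∀ x, Submodule.span ℝ {(W - c 3 • X) x, X x} = Submodule.span ℝ {W x, X x} :=
    fun x => le_antisymm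
      (span2_le (Submodule.mem_span_pair.mpr ⟨1, -c 3 x, by simp [sub_eq_add_neg]⟩) (mem2_2 _ _))
      (span2_le (Submodule.mem_span_pair.mpr ⟨1, c 3 x, by simp⟩) (mem2_2 _ _))
  have hD' : ∀ x ∈ O, D x = Submodule.span ℝ {(W - c 3 • X) x, X x} := fun x hx => by
    rw [e2, hD x (hOU x hx)]
  have hi' : ∀ x ∈ O, LinearIndependent ℝ ![(W - c 3 • X) x, X x] := fun x hx =>
    LinearIndependent.pair_iff.mpr fun r s e => by
      have := LinearIndependent.pair_iff.mp (hi x (hOU x hx)) r (s - r * c 3 x) (by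
        rw [← e]; simp only [Pi.sub_apply, Pi.smul_apply']; module)
      refine ⟨this.1, ?_⟩
      have h2 := this.2
      rwa [this.1, zero_mul, sub_zero] at h2
  obtain ⟨i3', hor⟩ := exists_ad_aux hE h3 ht hO hW' hX' hi' hD'
  have hE1 : ∀ x ∈ O, derived D x = Submodule.span ℝ {W x, X x, br W X x} := fun x hx =>
    derived_eq hU hW hX hi hD (hOU x hx)
  have hE2 : ∀ x ∈ O, derived D x =
      Submodule.span ℝ {(W - c 3 • X) x, X x, br (W - c 3 • X) X x} := fun x hx =>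
    derived_eq hO hW' hX' hi' hD' hx
  have hchr : ∀ x ∈ O, br (W - c 3 • X) (br (W - c 3 • X) X) x ∈ derived D x := fun x hx => by
    obtain ⟨a, b, r, s, t, f1, -, f3⟩ := br23 hO (fun y hy => hW y (hOU y hy)) hX'
      (fun y hy => i3 y (hOU y hy)) hW' (fun y _ => e2 y ▸ mem2_1 _ _)
      (fun y hy => (hW' y hy).br (hX' y hy)) (fun y hy => hE1 y hy ▸ hE2 y hy ▸ mem3_3 _ _ _) hx
    have h1 := LinearIndependent.pair_iff.mp (hi x (hOU x hx)) (a - 1) (b + c 3 x) (by
      have : W x - c 3 x • X x = a • W x + b • X x := f1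
      rw [sub_smul, add_smul, one_smul, sub_add_eq_add_sub, ← add_assoc, ← this]; abel)
    have h2 : a • br W (br W X) x + b • br X (br W X) x ∈
        Submodule.span ℝ {W x, X x, br W X x} := by
      refine Submodule.mem_span_triple.mpr ⟨c 0 x, c 1 x, c 2 x, ?_⟩
      rw [ec x hx, show a = 1 by linarith [h1.1], show b = -c 3 x by linarith [h1.2]]
      simp [Fin.sum_univ_four]
    rw [hE1 x hx]
    simpa using Submodule.add_mem _ f3 (Submodule.smul_mem _ t h2)
  exact ⟨O, W - c 3 • X, X, hO, hpO, ⟨hW', hX', fun x hx => ind4_of3 (i3' x hx)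
    (hE2 x hx ▸ (hor x hx).resolve_left (not_not.mpr (hchr x hx))),
    fun x hx => hE2 x hx ▸ hchr x hx⟩, hD'⟩

/-- An Engel structure has adapted local frames. -/
theorem exists_ad (hE : Module.finrank ℝ E = 4) {D : Distr E M} (hD : Engel D) (p : M) :
    ∃ (U : Set M) (W X : VField E M), IsOpen U ∧ p ∈ U ∧ Ad W X U ∧
      ∀ x ∈ U, D x = Submodule.span ℝ {W x, X x} ∧ chl D x = Submodule.span ℝ {W x} := by
  suffices h : ∃ (U : Set M) (W X : VField E M), IsOpen U ∧ p ∈ U ∧ Ad W X U ∧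
      ∀ x ∈ U, D x = Submodule.span ℝ {W x, X x} by
    obtain ⟨U, W, X, h1, h2, h3, h4⟩ := h
    exact ⟨U, W, X, h1, h2, h3, fun x hx => ⟨h4 x hx, chl_eq h1 h3 h4 hx⟩⟩
  obtain ⟨U, hU, hp, V, hV, hs⟩ := hD.1 p
  have h0 := (smoothOn_iff hU).mp (hV 0)
  have h1 := (smoothOn_iff hU).mp (hV 1)
  have e : ∀ x, (fun i => V i x) = ![V 0 x, V 1 x] := fun x => by
    funext i; fin_cases i <;> rfl
  have hi : ∀ x ∈ U, LinearIndependent ℝ ![V 0 x, V 1 x] := fun x hx => e x ▸ (hs x hx).1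
  have hS : ∀ x ∈ U, D x = Submodule.span ℝ {V 0 x, V 1 x} := fun x hx => by
    rw [← (hs x hx).2, e, ← fam2, range2]
  have hi' : ∀ x ∈ U, LinearIndependent ℝ ![V 1 x, V 0 x] := fun x hx =>
    LinearIndependent.pair_symm_iff.mp (hi x hx)
  have hS' : ∀ x ∈ U, D x = Submodule.span ℝ {V 1 x, V 0 x} := fun x hx => by
    rw [hS x hx, pair_comm]
  rcases (exists_ad_aux hE hD.2.1 hD.2.2 hU h0 h1 hi hS).2 p hp with h | h
  · refine exists_ad_of hE hD.2.1 hD.2.2 hU h1 h0 hi' hS' hp fun hm => h ?_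
    have e1 : br (V 1) (V 0) = (-1 : ℝ) • br (V 0) (V 1) := by
      funext x; rw [br_swap]; simp
    have : CompleteSpace E := FiniteDimensional.complete ℝ E
    rw [e1, br, mlieBracket_const_smul_right
      (((h0 p hp).br (h1 p hp)).mdifferentiableAt (by simp))] at hm
    simpa using (derived D p).neg_mem hm
  · exact exists_ad_of hE hD.2.1 hD.2.2 hU h0 h1 hi hS hp h

end

end Pool.Agent.Lib.MP_72f1d0_gt.Eq.Man
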