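import Pool.Agent.Lib.MP_72f1d0_gt.Manifold1
import Pool.Agent.Lib.MP_72f1d0_gt.Eq.ManAlg

/-!
Transport of normal vectors along a path of injective pairs, and equivariant smoothing.
-/

set_option linter.unusedSectionVars false

open scoped ContDiff Topology RealInnerProductSpace
open Set Filter Metric

namespace Pool.Agent.Lib.MP_72f1d0_gt.Eq.Man

noncomputable section

/-- The translation by half a period. -/
def Ra (q : Q) : Q := (q.1 + 1 / 2, q.2)

/-- The second generator: a translation or a glide reflection. -/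
def Rb (x : ℝ) (q : Q) : Q := (x * q.1, q.2 + 1 / 2)

lemma Ra_smooth : ContDiff ℝ ∞ Ra := by unfold Ra; fun_prop

lemma Rb_smooth (x : ℝ) : ContDiff ℝ ∞ (Rb x) := by unfold Rb; fun_prop

lemma Ra_Ra (q : Q) : Ra (Ra q) = q + (1, 0) := by
  ext <;> simp [Ra]; ring

lemma Rb_Rb {x : ℝ} (hx : x = 1 ∨ x = -1) (q : Q) : Rb x (Rb x q) = q + (0, 1) := by
  rcases hx with rfl | rfl <;> ext <;> simp [Rb] <;> ring

lemma per_of_gen {Y : Type*} {g : Q → Y} (h1 : ∀ q, g (q + (1, 0)) = g q)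
    (h2 : ∀ q, g (q + (0, 1)) = g q) : Per g := fun q m => by
  have p1 : Function.Periodic g (m.1 • ((1, 0) : Q)) := Function.Periodic.zsmul h1 m.1
  have p2 : Function.Periodic g (m.2 • ((0, 1) : Q)) := Function.Periodic.zsmul h2 m.2
  have : q + lat m = q + m.1 • ((1, 0) : Q) + m.2 • ((0, 1) : Q) := by
    ext <;> simp [lat]
  rw [this, p2, p1]

lemma sq_sign {a : ℝ} (ha : a = 1 ∨ a = -1) : a * a = 1 := by
  rcases ha with rfl | rfl <;> norm_num

section Smooth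

variable {V : Type*} [NormedAddCommGroup V] [NormedSpace ℝ V]

lemma per_of_signs {x a b : ℝ} (hx : x = 1 ∨ x = -1) (ha : a = 1 ∨ a = -1) (hb : b = 1 ∨ b = -1)
    {g : Q → V} (h1 : ∀ q, g (Ra q) = a • g q) (h2 : ∀ q, g (Rb x q) = b • g q) : Per g :=
  per_of_gen (fun q => by rw [← Ra_Ra, h1, h1, smul_smul, sq_sign ha, one_smul])
    fun q => by rw [← Rb_Rb hx, h2, h2, smul_smul, sq_sign hb, one_smul]

lemma unif' {g : Q → V} (hg : Continuous g) (hp : Per g) {δ : ℝ} (hδ : 0 < δ) :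
    ∃ ε > 0, ∀ a, ∀ x ∈ ball a ε, dist (g x) (g a) ≤ δ := by
  have hc : IsCompact (cthickening 1 (Icc ((0, 0) : Q) (1, 1))) := isCompact_Icc.cthickening
  obtain ⟨ε, hε, h⟩ := Metric.uniformContinuousOn_iff.mp
    (hc.uniformContinuousOn_of_continuous hg.continuousOn) δ hδ
  refine ⟨min ε 1, by positivity, fun a x hx => ?_⟩
  obtain ⟨a0, h0, m, rfl⟩ := Manifold.exists_fund a
  rw [mem_ball, lt_min_iff] at hx
  have e : dist (x - lat m) a0 = dist x (a0 + lat m) := by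
    rw [dist_eq_norm, dist_eq_norm]; congr 1; abel
  have h1 := h (x - lat m) (mem_cthickening_of_dist_le _ a0 _ _ h0 (by rw [e]; exact hx.2.le)) a0
    (self_subset_cthickening _ h0) (by rw [e]; exact hx.1)
  rw [hp a0 m, ← hp (x - lat m) m, sub_add_cancel] at *
  exact h1.le

open MeasureTheory Convolution in
lemma smooth_approx' [CompleteSpace V] {g : Q → V} (hg : Continuous g) (hp : Per g) {δ : ℝ}
    (hδ : 0 < δ) : ∃ n : Q → V, ContDiff ℝ ∞ n ∧ Per n ∧ ∀ q, dist (n q) (g q) ≤ δ := by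
  obtain ⟨ε, hε, h⟩ := unif' hg hp hδ
  let φ : ContDiffBump (0 : Q) := ⟨ε / 2, ε, half_pos hε, half_lt_self hε⟩
  refine ⟨φ.normed volume ⋆[ContinuousLinearMap.lsmul ℝ ℝ, volume] g,
    φ.hasCompactSupport_normed.contDiff_convolution_left _ φ.contDiff_normed
      hg.locallyIntegrable, fun q m => ?_,
    fun q => φ.dist_normed_convolution_le hg.aestronglyMeasurable (h q)⟩
  simp only [convolution_def]
  congr 1
  funext t
  rw [show q + lat m - t = q - t + lat m by abel, hp]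

lemma dist_avg {a δ : ℝ} (ha : a = 1 ∨ a = -1) {u v y z : V} (h : z = a • y)
    (h1 : dist u y ≤ δ) (h2 : dist v z ≤ δ) : dist ((1 / 2 : ℝ) • (u + a • v)) y ≤ δ := by
  have e : (1 / 2 : ℝ) • (u + a • v) - y = (1 / 2 : ℝ) • (u - y) + ((1 / 2 : ℝ) * a) • (v - z) := by
    rw [h]
    rcases ha with rfl | rfl <;> module
  rw [dist_eq_norm] at *
  rw [e]
  refine (norm_add_le _ _).trans ?_
  rw [norm_smul, norm_smul, norm_mul]
  have : ‖a‖ = 1 := by rcases ha with rfl | rfl <;> simp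
  rw [this]
  norm_num
  linarith

/-- Smooth approximation that keeps the signs. -/
lemma smooth_signs [CompleteSpace V] {x a b : ℝ} (hx : x = 1 ∨ x = -1) (ha : a = 1 ∨ a = -1)
    (hb : b = 1 ∨ b = -1) {g : Q → V} (hg : Continuous g) (h1 : ∀ q, g (Ra q) = a • g q)
    (h2 : ∀ q, g (Rb x q) = b • g q) {δ : ℝ} (hδ : 0 < δ) :
    ∃ n : Q → V, ContDiff ℝ ∞ n ∧ (∀ q, n (Ra q) = a • n q) ∧ (∀ q, n (Rb x q) = b • n q) ∧
      ∀ q, dist (n q) (g q) ≤ δ := by
  obtain ⟨n₀, s₀, p₀, d₀⟩ := smooth_approx' hg (per_of_signs hx ha hb h1 h2) hδ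
  let n₁ : Q → V := fun q => (1 / 2 : ℝ) • (n₀ q + a • n₀ (Ra q))
  have s₁ : ContDiff ℝ ∞ n₁ := (s₀.add ((s₀.comp Ra_smooth).const_smul a)).const_smul _
  have a₁ : ∀ q, n₁ (Ra q) = a • n₁ q := fun q => by
    have : n₀ (q + (1, 0)) = n₀ q := by simpa [lat] using p₀ q (1, 0)
    simp only [n₁, Ra_Ra, this]
    rcases ha with rfl | rfl <;> module
  have p₁ : ∀ q, n₁ (q + (0, 1)) = n₁ q := fun q => by
    have e1 : n₀ (q + (0, 1)) = n₀ q := by simpa [lat] using p₀ q (0, 1)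
    have e2 : n₀ (Ra (q + (0, 1))) = n₀ (Ra q) := by simpa [lat, Ra] using p₀ (Ra q) (0, 1)
    simp only [n₁, e1, e2]
  have d₁ : ∀ q, dist (n₁ q) (g q) ≤ δ := fun q => dist_avg ha (h1 q) (d₀ q) (d₀ _)
  refine ⟨fun q => (1 / 2 : ℝ) • (n₁ q + b • n₁ (Rb x q)),
    (s₁.add ((s₁.comp (Rb_smooth x)).const_smul b)).const_smul _, fun q => ?_, fun q => ?_,
    fun q => dist_avg hb (h2 q) (d₁ q) (d₁ _)⟩
  · have : n₁ (Rb x (Ra q)) = a • n₁ (Rb x q) := by
      rcases hx with rfl | rfl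
      · rw [← a₁]; congr 1; ext <;> simp [Ra, Rb]
      · have e : Rb (-1) q = Ra (Rb (-1) (Ra q)) := by ext <;> simp [Ra, Rb]
        rw [e, a₁, smul_smul, sq_sign ha, one_smul]
    simp only [this, a₁]
    module
  · simp only [Rb_Rb hx, p₁]
    rcases hb with rfl | rfl <;> module

end Smooth

section Transport

variable {V : Type*} [NormedAddCommGroup V] [InnerProductSpace ℝ V]

/-- The Gram determinant. -/
def gram (A : V × V) : ℝ := ⟪A.1, A.1⟫ * ⟪A.2, A.2⟫ - ⟪A.1, A.2⟫ ^ 2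

lemma gram_ne {A : V × V} (h : LinearIndependent ℝ ![A.1, A.2]) : gram A ≠ 0 := fun h0 => by
  have h1 : ⟪⟪A.2, A.2⟫ • A.1 + (-⟪A.1, A.2⟫) • A.2, ⟪A.2, A.2⟫ • A.1 + (-⟪A.1, A.2⟫) • A.2⟫ =
      ⟪A.2, A.2⟫ * gram A := by
    simp only [inner_add_left, inner_add_right, real_inner_smul_left, real_inner_smul_right, gram,
      real_inner_comm A.1 A.2]
    ring
  rw [h0, mul_zero, inner_self_eq_zero] at h1
  have := (LinearIndependent.pair_iff.mp h _ _ h1).1
  exact h.ne_zero 1 (inner_self_eq_zero.mp this)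

/-- The orthogonal projection along the span of a pair. -/
def pr (A : V × V) : V →L[ℝ] V :=
  ContinuousLinearMap.id ℝ V - (gram A)⁻¹ •
    ((innerSL ℝ (⟪A.2, A.2⟫ • A.1 - ⟪A.1, A.2⟫ • A.2)).smulRight A.1 +
      (innerSL ℝ (⟪A.1, A.1⟫ • A.2 - ⟪A.1, A.2⟫ • A.1)).smulRight A.2)

lemma pr_apply (A : V × V) (u : V) : pr A u = u - (gram A)⁻¹ •
    ((⟪A.2, A.2⟫ * ⟪A.1, u⟫ - ⟪A.1, A.2⟫ * ⟪A.2, u⟫) • A.1 +
      (⟪A.1, A.1⟫ * ⟪A.2, u⟫ - ⟪A.1, A.2⟫ * ⟪A.1, u⟫) • A.2) := by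
  simp only [pr, sub_apply, smul_apply, add_apply, ContinuousLinearMap.id_apply,
    ContinuousLinearMap.smulRight_apply, innerSL_apply_apply, inner_sub_left, real_inner_smul_left]

lemma sub_pr_mem (A : V × V) (u : V) : u - pr A u ∈ Submodule.span ℝ {A.1, A.2} := by
  rw [pr_apply, sub_sub_cancel]
  exact Submodule.smul_mem _ _ (Submodule.mem_span_pair.mpr ⟨_, _, rfl⟩)

lemma pr_perp {A : V × V} (h : gram A ≠ 0) (u : V) {v : V} (hv : v ∈ Submodule.span ℝ {A.1, A.2}) :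
    ⟪v, pr A u⟫ = 0 := by
  obtain ⟨a, b, rfl⟩ := Submodule.mem_span_pair.mp hv
  have h1 : ⟪A.1, pr A u⟫ = 0 := by
    rw [pr_apply]
    simp only [inner_sub_right, inner_add_right, real_inner_smul_right]
    field_simp
    rw [gram]; ring
  have h2 : ⟪A.2, pr A u⟫ = 0 := by
    rw [pr_apply]
    simp only [inner_sub_right, inner_add_right, real_inner_smul_right, real_inner_comm A.1 A.2]
    field_simp
    rw [gram]; ring
  rw [inner_add_left, real_inner_smul_left, real_inner_smul_left, h1, h2]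
  ring

lemma pr_zero {A : V × V} (h : gram A ≠ 0) {v : V} (hv : v ∈ Submodule.span ℝ {A.1, A.2}) :
    pr A v = 0 := by
  have : pr A v ∈ Submodule.span ℝ {A.1, A.2} := by
    simpa using Submodule.sub_mem _ hv (sub_pr_mem A v)
  exact inner_self_eq_zero.mp (pr_perp h v this)

lemma pr_pr {A : V × V} (h : gram A ≠ 0) (u : V) : pr A (pr A u) = pr A u := by
  have := pr_zero h (sub_pr_mem A u)
  rw [map_sub, sub_eq_zero] at this
  exact this.symm

lemma pr_congr {A B : V × V} (hA : gram A ≠ 0) (hB : gram B ≠ 0)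
    (h : Submodule.span ℝ {A.1, A.2} = Submodule.span ℝ {B.1, B.2}) : pr A = pr B := by
  ext u
  have h1 : pr A u - pr B u ∈ Submodule.span ℝ {A.1, A.2} := by
    have := Submodule.sub_mem _ (h ▸ sub_pr_mem B u) (sub_pr_mem A u)
    rwa [sub_sub_sub_cancel_left] at this
  rw [← sub_eq_zero, ← inner_self_eq_zero (𝕜 := ℝ), inner_sub_right, pr_perp hA u h1,
    pr_perp hB u (h ▸ h1), sub_zero]

variable [FiniteDimensional ℝ V]

lemma pr_cont {X : Type*} [TopologicalSpace X] {A : X → V × V} (hA : Continuous A)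
    (h : ∀ x, gram (A x) ≠ 0) : Continuous fun x => pr (A x) := by
  refine continuous_clm_apply.mpr fun u => ?_
  simp only [pr_apply]
  have h1 := hA.fst
  have h2 := hA.snd
  have hg : Continuous fun x => gram (A x) := by
    simp only [gram]
    exact ((h1.inner h1).mul (h2.inner h2)).sub ((h1.inner h2).pow 2)
  exact continuous_const.sub ((hg.inv₀ h).smul
    (((((h2.inner h2).mul (h1.inner continuous_const)).sub
      ((h1.inner h2).mul (h2.inner continuous_const))).smul h1).add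
    ((((h1.inner h1).mul (h2.inner continuous_const)).sub
      ((h1.inner h2).mul (h1.inner continuous_const))).smul h2)))

/-- Transport of normal vectors from the end of the path to its start. -/
lemma transport {A : UI → Q → V × V} (hA : Continuous fun x : UI × Q => A x.1 x.2)
    (hp : ∀ s, Per (A s)) (hi : ∀ s q, LinearIndependent ℝ ![(A s q).1, (A s q).2]) :
    ∃ T : Q → (V →L[ℝ] V), Continuous T ∧
      (∀ q q', (∀ s, Submodule.span ℝ {(A s q').1, (A s q').2} =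
        Submodule.span ℝ {(A s q).1, (A s q).2}) → T q' = T q) ∧
      (∀ q (S : Submodule ℝ V), (∀ s, (A s q).1 ∈ S ∧ (A s q).2 ∈ S) → ∀ u ∈ S, T q u ∈ S) ∧
      ∀ q u, T q u ∈ Submodule.span ℝ {(A 0 q).1, (A 0 q).2} →
        T q u = 0 ∧ u ∈ Submodule.span ℝ {(A 1 q).1, (A 1 q).2} := by
  have hg : ∀ s q, gram (A s q) ≠ 0 := fun s q => gram_ne (hi s q)
  have hc : Continuous fun x : UI × Q => pr (A x.1 x.2) := pr_cont hA fun x => hg _ _
  have hK : IsCompact ((univ : Set UI) ×ˢ Icc ((0, 0) : Q) (1, 1)) :=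
    isCompact_univ.prod isCompact_Icc
  obtain ⟨δ, hδ, hu⟩ := Metric.uniformContinuousOn_iff.mp
    (hK.uniformContinuousOn_of_continuous hc.continuousOn) (1 / 2) (by norm_num)
  obtain ⟨N, hN⟩ := exists_nat_one_div_lt hδ
  let σ : ℕ → UI := fun k => projIcc 0 1 zero_le_one (1 - k / ((N : ℝ) + 1))
  have hN0 : (0 : ℝ) < N + 1 := by positivity
  have σ0 : σ 0 = 1 := by simp [σ]
  have σN : σ (N + 1) = 0 := by
    simp only [σ, Nat.cast_add, Nat.cast_one, div_self hN0.ne', sub_self, projIcc_left]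
    rfl
  have close : ∀ k q, ‖pr (A (σ k) q) - pr (A (σ (k + 1)) q)‖ < 1 / 2 := fun k q => by
    obtain ⟨q0, h0, m, rfl⟩ := Manifold.exists_fund q
    rw [hp, hp, ← dist_eq_norm]
    refine hu (σ k, q0) ⟨trivial, h0⟩ (σ (k + 1), q0) ⟨trivial, h0⟩ ?_
    rw [Prod.dist_eq, dist_self, max_eq_left dist_nonneg]
    refine lt_of_le_of_lt ?_ hN
    refine ((LipschitzWith.projIcc zero_le_one).dist_le_mul _ _).trans (le_of_eq ?_)
    rw [Real.dist_eq, NNReal.coe_one, one_mul, Nat.cast_add, Nat.cast_one,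
      show 1 - (k : ℝ) / (N + 1) - (1 - (k + 1) / (N + 1)) = 1 / (N + 1) by ring,
      abs_of_pos (by positivity)]
  let T : ℕ → Q → (V →L[ℝ] V) := fun k => Nat.rec (fun q => pr (A (σ 0) q))
    (fun k T q => (pr (A (σ (k + 1)) q)).comp (T q)) k
  have T0 : ∀ q, T 0 q = pr (A (σ 0) q) := fun _ => rfl
  have TS : ∀ k q, T (k + 1) q = (pr (A (σ (k + 1)) q)).comp (T k q) := fun _ _ => rfl
  have idem : ∀ k q u, pr (A (σ k) q) (T k q u) = T k q u := fun k q u => by
    cases k with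
    | zero => exact pr_pr (hg _ _) u
    | succ k => exact pr_pr (hg _ _) _
  have cs : ∀ s, Continuous fun q => pr (A s q) := fun s =>
    hc.comp (continuous_const.prodMk continuous_id)
  refine ⟨T (N + 1), ?_, fun q q' h => ?_, fun q S hS u hu => ?_, fun q u h => ?_⟩
  · induction (N + 1) with
    | zero => exact cs _
    | succ k ih => exact (cs _).clm_comp ih
  · induction (N + 1) with
    | zero => exact pr_congr (hg _ _) (hg _ _) (h _)
    | succ k ih => rw [TS, TS, ih, pr_congr (hg _ _) (hg _ _) (h _)]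
  · have key : ∀ s, ∀ u ∈ S, pr (A s q) u ∈ S := fun s u hu => by
      have : Submodule.span ℝ {(A s q).1, (A s q).2} ≤ S :=
        Submodule.span_le.mpr (by rintro _ (rfl | rfl); exacts [(hS s).1, (hS s).2])
      simpa using S.sub_mem hu (this (sub_pr_mem _ u))
    induction (N + 1) with
    | zero => exact key _ u hu
    | succ k ih => exact key _ _ ih
  · have h0 : T (N + 1) q u = 0 := by
      rw [← idem (N + 1) q u, σN]
      exact pr_zero (hg _ _) h
    refine ⟨h0, ?_⟩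
    have key : ∀ k, T k q u = 0 → T 0 q u = 0 := fun k => by
      induction k with
      | zero => exact id
      | succ k ih =>
        intro hk
        refine ih ?_
        have h1 : (pr (A (σ k) q) - pr (A (σ (k + 1)) q)) (T k q u) = T k q u := by
          rw [sub_apply, idem, show pr (A (σ (k + 1)) q) (T k q u) = 0 from hk, sub_zero]
        have h2 := (pr (A (σ k) q) - pr (A (σ (k + 1)) q)).le_opNorm (T k q u)
        rw [h1] at h2
        have h3 := close k q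
        have h4 := norm_nonneg (T k q u)
        exact norm_eq_zero.mp (by nlinarith)
    have h1 := key (N + 1) h0
    rw [T0, σ0] at h1
    simpa [h1] using sub_pr_mem (A 1 q) u

/-- A smooth normal frame with prescribed signs. -/
lemma normal_signs {x a₁ b₁ a₂ b₂ : ℝ} (hx : x = 1 ∨ x = -1) (ha₁ : a₁ = 1 ∨ a₁ = -1)
    (hb₁ : b₁ = 1 ∨ b₁ = -1) (ha₂ : a₂ = 1 ∨ a₂ = -1) (hb₂ : b₂ = 1 ∨ b₂ = -1)
    {A : UI → Q → V × V} (hA : Continuous fun x : UI × Q => A x.1 x.2)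
    (hi : ∀ s q, LinearIndependent ℝ ![(A s q).1, (A s q).2])
    (Aa : ∀ s q, A s (Ra q) = A s q) (Ab : ∀ s q, A s (Rb x q) = (x • (A s q).1, (A s q).2))
    {W Y : Q → V} (hW : Continuous W) (hY : Continuous Y)
    (Wa : ∀ q, W (Ra q) = a₁ • W q) (Wb : ∀ q, W (Rb x q) = b₁ • W q)
    (Ya : ∀ q, Y (Ra q) = a₂ • Y q) (Yb : ∀ q, Y (Rb x q) = b₂ • Y q)
    (h1 : ∀ q (c d : ℝ), c • W q + d • Y q ∈ Submodule.span ℝ {(A 1 q).1, (A 1 q).2} →
      c = 0 ∧ d = 0)
    {S : Q → Submodule ℝ V} (SA : ∀ q s, (A s q).1 ∈ S q ∧ (A s q).2 ∈ S q)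
    (SW : ∀ q, W q ∈ S q) (SY : ∀ q, Y q ∈ S q)
    {P : Q → (V →L[ℝ] V)} (hP : Continuous P) (pP : Per P) {r : Q → ℝ} (hr : ∀ q, r q ≠ 0)
    (hPr : ∀ q, ∀ u ∈ S q, P q u = r q • u) :
    ∃ n₁ n₂ : Q → V, ContDiff ℝ ∞ n₁ ∧ ContDiff ℝ ∞ n₂ ∧
      (∀ q, n₁ (Ra q) = a₁ • n₁ q) ∧ (∀ q, n₁ (Rb x q) = b₁ • n₁ q) ∧
      (∀ q, n₂ (Ra q) = a₂ • n₂ q) ∧ (∀ q, n₂ (Rb x q) = b₂ • n₂ q) ∧
      ∀ q, LinearIndependent ℝ ![(A 0 q).1, (A 0 q).2, P q (n₁ q), P q (n₂ q)] := by
  have : CompleteSpace V := FiniteDimensional.complete ℝ V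
  have pA : ∀ s, Per (A s) := fun s => per_of_gen (fun q => by rw [← Ra_Ra, Aa, Aa])
    fun q => by rw [← Rb_Rb hx, Ab, Ab, smul_smul, sq_sign hx, one_smul]
  obtain ⟨T, hT, Ti, TS, Tz⟩ := transport hA pA hi
  have Ta : ∀ q, T (Ra q) = T q := fun q => Ti _ _ fun s => by rw [Aa]
  have Tb : ∀ q, T (Rb x q) = T q := fun q => Ti _ _ fun s => by
    rw [Ab, Submodule.span_insert, Submodule.span_insert, Submodule.span_singleton_smul_eq]
    rcases hx with rfl | rfl <;> simp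
  have c1 : Continuous fun q => T q (W q) := hT.clm_apply hW
  have c2 : Continuous fun q => T q (Y q) := hT.clm_apply hY
  have e1a : ∀ q, T (Ra q) (W (Ra q)) = a₁ • T q (W q) := fun q => by rw [Ta, Wa, map_smul]
  have e1b : ∀ q, T (Rb x q) (W (Rb x q)) = b₁ • T q (W q) := fun q => by rw [Tb, Wb, map_smul]
  have e2a : ∀ q, T (Ra q) (Y (Ra q)) = a₂ • T q (Y q) := fun q => by rw [Ta, Ya, map_smul]
  have e2b : ∀ q, T (Rb x q) (Y (Rb x q)) = b₂ • T q (Y q) := fun q => by rw [Tb, Yb, map_smul]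
  have c0 : Continuous (A 0) := hA.comp (continuous_const.prodMk continuous_id)
  let Φ : Q × V × V → (Fin 4 → V) := fun z => ![(A 0 z.1).1, (A 0 z.1).2, P z.1 z.2.1, P z.1 z.2.2]
  have hΦ : Continuous Φ := continuous_pi fun i => by
    fin_cases i
    exacts [(c0.comp continuous_fst).fst, (c0.comp continuous_fst).snd,
      (hP.comp continuous_fst).clm_apply continuous_snd.fst,
      (hP.comp continuous_fst).clm_apply continuous_snd.snd]
  have hC : IsCompact ((fun q => (q, T q (W q), T q (Y q))) '' Icc ((0, 0) : Q) (1, 1)) :=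
    isCompact_Icc.image (continuous_id.prodMk (c1.prodMk c2))
  obtain ⟨δ, hδ, hs⟩ := hC.exists_cthickening_subset_open
    ((isOpen_setOfPred_linearIndependent (𝕜 := ℝ)).preimage hΦ) (by
      rintro _ ⟨q, -, rfl⟩
      change LinearIndependent ℝ ![(A 0 q).1, (A 0 q).2, P q (T q (W q)), P q (T q (Y q))]
      rw [hPr q _ (TS q _ (SA q) _ (SW q)), hPr q _ (TS q _ (SA q) _ (SY q)),
        Fintype.linearIndependent_iff]
      intro g hg
      simp only [Fin.sum_univ_four, Matrix.cons_val_zero, Matrix.cons_val_one, Matrix.cons_val,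
        smul_smul] at hg
      obtain ⟨z1, z2⟩ := Tz q ((g 2 * r q) • W q + (g 3 * r q) • Y q)
        (Submodule.mem_span_pair.mpr ⟨-g 0, -g 1, by
          rw [map_add, map_smul, map_smul]
          linear_combination (norm := module) -hg⟩)
      obtain ⟨z3, z4⟩ := h1 q _ _ z2
      rw [z3, z4, zero_smul, zero_smul, add_zero, add_zero] at hg
      obtain ⟨z5, z6⟩ := LinearIndependent.pair_iff.mp (hi 0 q) _ _ hg
      intro i
      fin_cases i
      exacts [z5, z6, (mul_eq_zero.mp z3).resolve_right (hr q),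
        (mul_eq_zero.mp z4).resolve_right (hr q)])
  obtain ⟨n₁, s₁, f1, f2, d₁⟩ := smooth_signs hx ha₁ hb₁ c1 e1a e1b hδ
  obtain ⟨n₂, s₂, f3, f4, d₂⟩ := smooth_signs hx ha₂ hb₂ c2 e2a e2b hδ
  refine ⟨n₁, n₂, s₁, s₂, f1, f2, f3, f4, fun q => ?_⟩
  obtain ⟨q0, h0, m, rfl⟩ := Manifold.exists_fund q
  rw [pA, pP, per_of_signs hx ha₁ hb₁ f1 f2, per_of_signs hx ha₂ hb₂ f3 f4]
  refine hs (a := (q0, n₁ q0, n₂ q0)) (mem_cthickening_of_dist_le _ _ _ _ ⟨q0, h0, rfl⟩ ?_)
  simp only [Prod.dist_eq, dist_self, max_le_iff]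
  exact ⟨hδ.le, d₁ q0, d₂ q0⟩

end Transport

end

end Pool.Agent.Lib.MP_72f1d0_gt.Eq.Man
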