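import Pool.Agent.Lib.MP_72f1d0_gt.Manifold
import Pool.Agent.Lib.MP_72f1d0_gt.Eq.SymBasic
import Pool.Agent.Lib.MP_72f1d0_gt.Eq.ManEngel
import Pool.Agent.Lib.MP_72f1d0_gt.Eq.ManEmb
import Pool.Agent.Lib.MP_72f1d0_gt.Eq.ManTrans

/-!
The Euclidean model attached to a local diffeomorphism into an Engel manifold.
-/

set_option linter.unusedSectionVars false

open scoped ContDiff Manifold Topology
open Set Filter VectorField

namespace Pool.Agent.Lib.MP_72f1d0_gt.Eq.Man

open Stmt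

noncomputable section

variable {E : Type*} [NormedAddCommGroup E] [NormedSpace ℝ E] [FiniteDimensional ℝ E]
  {M : Type*} [TopologicalSpace M] [ChartedSpace E M] [IsManifold 𝓘(ℝ, E) ∞ M]

section Tangent

variable {X : Type*} [NormedAddCommGroup X] [NormedSpace ℝ X]

lemma tm_cont {g : X → M} (hg : ContMDiff 𝓘(ℝ, X) 𝓘(ℝ, E) ∞ g) {Y : Type*} [TopologicalSpace Y]
    {v a : Y → X} (hv : Continuous v) (ha : Continuous a) :
    Continuous fun y => (⟨g (v y), md E g (v y) (a y)⟩ : TangentBundle 𝓘(ℝ, E) M) :=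
  (hg.continuous_tangentMap (by simp)).comp
    ((tangentBundleModelSpaceHomeomorph 𝓘(ℝ, X)).symm.continuous.comp (hv.prodMk ha))

lemma tm_smooth {g : X → M} (hg : ContMDiff 𝓘(ℝ, X) 𝓘(ℝ, E) ∞ g) (a : X) :
    ContMDiff 𝓘(ℝ, X) 𝓘(ℝ, E).tangent ∞
      fun x => (⟨g x, md E g x a⟩ : TangentBundle 𝓘(ℝ, E) M) :=
  (hg.contMDiff_tangentMap (m := ∞) (by simp)).comp
    (contMDiff_vectorSpace_iff_contDiff (V := fun _ => a).mpr contDiff_const)

lemma md_equi {g : X → M} (hg : ContMDiff 𝓘(ℝ, X) 𝓘(ℝ, E) ∞ g) (L : X →L[ℝ] X) (b : X)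
    (h : ∀ p, g (L p + b) = g p) (p v : X) : md E g (L p + b) (L v) = md E g p v := by
  have := md_comp (E := E) (g := g) (k := fun p => L p + b) (L.hasFDerivAt.add_const b) (x := p)
    (hg.mdifferentiableAt (by simp))
  rw [show (g ∘ fun p => L p + b) = g from funext h] at this
  rw [this]
  rfl

lemma br_eq (V W : VField X X) : br V W = lieBracket ℝ V W := by
  rw [br, ← mlieBracketWithin_univ, mlieBracketWithin_eq_lieBracketWithin]
  exact lieBracketWithin_univ

lemma lie_equi {V W : X → X} (hV : ContDiff ℝ ∞ V) (hW : ContDiff ℝ ∞ W) (L : X →L[ℝ] X) (b : X)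
    {r s : ℝ} (eV : ∀ p, L (V p) = r • V (L p + b)) (eW : ∀ p, L (W p) = s • W (L p + b)) (p : X) :
    L (lieBracket ℝ V W p) = (r * s) • lieBracket ℝ V W (L p + b) := by
  have key : ∀ {U : X → X} {r : ℝ}, ContDiff ℝ ∞ U → (∀ p, L (U p) = r • U (L p + b)) →
      ∀ v, L (fderiv ℝ U p v) = r • fderiv ℝ U (L p + b) (L v) := fun {U r} hU e v => by
    have h1 := L.hasFDerivAt.comp p (hU.differentiable (by simp) p).hasFDerivAt
    have h2 := ((hU.differentiable (by simp) (L p + b)).hasFDerivAt.comp p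
      (L.hasFDerivAt.add_const b)).const_smul r
    have h3 := h1.unique (h2.congr_of_eventuallyEq (Eventually.of_forall e))
    exact congrArg (fun A : X →L[ℝ] X => A v) h3
  rw [lieBracket, lieBracket, map_sub, key hV eV, key hW eW, eV, eW, map_smul, map_smul]
  module

end Tangent

lemma span1_inj {T T' : Type*} [AddCommGroup T] [Module ℝ T] [AddCommGroup T'] [Module ℝ T']
    (A : T →ₗ[ℝ] T') (hA : Function.Injective A) {a b : T}
    (h : Submodule.span ℝ {A a} = Submodule.span ℝ {A b}) :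
    Submodule.span ℝ {a} = Submodule.span ℝ {b} :=
  Submodule.map_injective_of_injective hA (by
    simp only [Submodule.map_span, image_singleton, h])

lemma span2_inj {T T' : Type*} [AddCommGroup T] [Module ℝ T] [AddCommGroup T'] [Module ℝ T']
    (A : T →ₗ[ℝ] T') (hA : Function.Injective A) {a b c d : T}
    (h : Submodule.span ℝ {A a, A b} = Submodule.span ℝ {A c, A d}) :
    Submodule.span ℝ {a, b} = Submodule.span ℝ {c, d} :=
  Submodule.map_injective_of_injective hA (by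
    simp only [Submodule.map_span, image_pair, h])

lemma ad_pull {Θ : G → M} (hΘ : ContMDiff 𝓘(ℝ, G) 𝓘(ℝ, E) ∞ Θ)
    (hi : ∀ p, (md E Θ p).IsInvertible) {W X : VField E M} {U : Set M} (hU : IsOpen U)
    (h : Ad W X U) :
    Ad (mpullback 𝓘(ℝ, G) 𝓘(ℝ, E) Θ W) (mpullback 𝓘(ℝ, G) 𝓘(ℝ, E) Θ X) (Θ ⁻¹' U) := by
  have : CompleteSpace E := FiniteDimensional.complete ℝ E
  have : IsManifold 𝓘(ℝ, E) (minSmoothness ℝ 2) M := by
    rw [minSmoothness_of_isRCLikeNormedField]; infer_instance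
  have sm : ∀ {V : VField E M} {p : G}, SmAt V (Θ p) →
      SmAt (mpullback 𝓘(ℝ, G) 𝓘(ℝ, E) Θ V) p := fun {V p} hV =>
    ContMDiffAt.mpullback_vectorField_preimage hV (hΘ p) (hi p) (by simp)
  have hb : ∀ {V V' : VField E M} {p : G}, SmAt V (Θ p) → SmAt V' (Θ p) →
      br (mpullback 𝓘(ℝ, G) 𝓘(ℝ, E) Θ V) (mpullback 𝓘(ℝ, G) 𝓘(ℝ, E) Θ V') p =
        mpullback 𝓘(ℝ, G) 𝓘(ℝ, E) Θ (br V V') p := fun {V V' p} hV hV' =>
    (mpullback_mlieBracket (hV.mdifferentiableAt (by simp)) (hV'.mdifferentiableAt (by simp))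
      (hΘ p) (by rw [minSmoothness_of_isRCLikeNormedField]; exact ENat.LEInfty.out)).symm
  have hb2 : ∀ {V : VField E M} {p : G}, Θ p ∈ U → SmAt V (Θ p) →
      br (mpullback 𝓘(ℝ, G) 𝓘(ℝ, E) Θ V)
        (br (mpullback 𝓘(ℝ, G) 𝓘(ℝ, E) Θ W) (mpullback 𝓘(ℝ, G) 𝓘(ℝ, E) Θ X)) p =
        mpullback 𝓘(ℝ, G) 𝓘(ℝ, E) Θ (br V (br W X)) p := fun {V p} hp hV => by
    rw [← hb hV ((h.hW _ hp).br (h.hX _ hp))]
    refine Filter.EventuallyEq.mlieBracket_vectorField_eq (Eventually.of_forall fun _ => rfl) ?_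
    filter_upwards [(hΘ p).continuousAt.preimage_mem_nhds (hU.mem_nhds hp)] with y hy
    exact hb (h.hW _ hy) (h.hX _ hy)
  refine ⟨fun p hp => sm (h.hW _ hp), fun p hp => sm (h.hX _ hp), fun p hp => ?_, fun p hp => ?_⟩
  · rw [hb2 hp (h.hX _ hp), hb (h.hW _ hp) (h.hX _ hp)]
    have := (h.ind _ hp).map' (md E Θ p).inverse.toLinearMap
      (LinearMap.ker_eq_bot.mpr (hi p).inverse.injective)
    convert! this using 1
    funext i; fin_cases i <;> rfl
  · rw [hb2 hp (h.hW _ hp), hb (h.hW _ hp) (h.hX _ hp)]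
    obtain ⟨a, b, c, e⟩ := Submodule.mem_span_triple.mp (h.chr _ hp)
    refine Submodule.mem_span_triple.mpr ⟨a, b, c, ?_⟩
    have : ∀ u v w : E, (md E Θ p).inverse (a • u + b • v + c • w) = a • (md E Θ p).inverse u +
        b • (md E Θ p).inverse v + c • (md E Θ p).inverse w := fun u v w => by
      simp only [map_add, map_smul]
    exact (this _ _ _).symm.trans (congrArg (md E Θ p).inverse e)

/-- The frame with columns `X, W, R, Z`. -/
def fr (W X : G → G) (p : G) : G →L[ℝ] G :=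
  (cols ![W p, X p, lieBracket ℝ W X p, lieBracket ℝ X (lieBracket ℝ W X) p]).comp
    (Manifold.co : G →L[ℝ] (Fin 4 → ℝ))

lemma fr_apply (W X : G → G) (p a : G) : fr W X p a = a.1.im • W p + a.1.re • X p +
    a.2.im • lieBracket ℝ W X p + a.2.re • lieBracket ℝ X (lieBracket ℝ W X) p := by
  simp [fr, cols_apply, Manifold.co_apply, Fin.sum_univ_four]

lemma fr_W (W X : G → G) (p : G) : fr W X p vW = W p := by simp [fr_apply, vW]
lemma fr_X (W X : G → G) (p : G) : fr W X p vX = X p := by simp [fr_apply, vX]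
lemma fr_Z (W X : G → G) (p : G) : fr W X p vZ = lieBracket ℝ W X p := by simp [fr_apply, vZ]
lemma fr_R (W X : G → G) (p : G) : fr W X p vR = lieBracket ℝ X (lieBracket ℝ W X) p := by
  simp [fr_apply, vR]

lemma fr_equi {W X : G → G} (hW : ContDiff ℝ ∞ W) (hX : ContDiff ℝ ∞ X) (L : G →L[ℝ] G) (b : G)
    {w x : ℝ} (hx : x = 1 ∨ x = -1)
    (eW : ∀ p, L (W p) = w • W (L p + b)) (eX : ∀ p, L (X p) = x • X (L p + b)) (p a : G) :
    fr W X (L p + b) (EE w x a) = L (fr W X p a) := by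
  have hZ : ContDiff ℝ ∞ (lieBracket ℝ W X) := hW.lieBracket_vectorField hX (by simp)
  have eZ := lie_equi hW hX L b eW eX
  have eR := lie_equi hX hZ L b eX eZ
  rw [fr_apply, fr_apply, SymB.EE_apply]
  simp only [map_add, map_smul, eW, eX, eZ, eR, smul_smul]
  rcases hx with rfl | rfl <;> module

lemma LL_LL {k x w : ℝ} (hk : k = 1 ∨ k = -1) (hx : x = 1 ∨ x = -1) (hw : w = 1 ∨ w = -1) (p : G) :
    LL k x w (LL k x w p) = p := by
  simp only [SymB.LL_apply, ← mul_assoc, sq_sign hk, sq_sign hx, sq_sign hw, one_mul]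

lemma i0_add (q q' : Q) : i0 (q + q') = i0 q + i0 q' := by
  simp only [← Manifold.iL_apply, map_add]

theorem exists_ctx (hE : Module.finrank ℝ E = 4) {D : Distr E M} (hD : Engel D) {Θ : G → M}
    (hΘ : ContMDiff 𝓘(ℝ, G) 𝓘(ℝ, E) ∞ Θ) (hi : ∀ p, (md E Θ p).IsInvertible) {W X : G → G}
    (hW : ContDiff ℝ ∞ W) (hX : ContDiff ℝ ∞ X)
    (sW : ∀ p, chl D (Θ p) = Submodule.span ℝ {(md E Θ p (W p) : TangentSpace 𝓘(ℝ, E) (Θ p))})
    (sX : ∀ p, D (Θ p) = Submodule.span ℝ {(md E Θ p (W p) : TangentSpace 𝓘(ℝ, E) (Θ p)),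
      (md E Θ p (X p) : TangentSpace 𝓘(ℝ, E) (Θ p))})
    {κ wS xS wT xT : ℝ} (hκ : κ = 1 ∨ κ = -1) (hwS : wS = 1 ∨ wS = -1) (hxS : xS = 1 ∨ xS = -1)
    (hwT : wT = 1 ∨ wT = -1) (hxT : xT = 1 ∨ xT = -1)
    (WS : ∀ p, LL 1 xS wS (W p) = wS • W (LL 1 xS wS p + i0 (1 / 2, 0)))
    (XS : ∀ p, LL 1 xS wS (X p) = xS • X (LL 1 xS wS p + i0 (1 / 2, 0)))
    (WT : ∀ p, LL κ xT wT (W p) = wT • W (LL κ xT wT p + i0 (0, 1 / 2)))
    (XT : ∀ p, LL κ xT wT (X p) = xT • X (LL κ xT wT p + i0 (0, 1 / 2))) :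
    ∃ c : Ctx, (∀ q, c.i q = i0 q) ∧ c.Nrm ∧
      (∀ p a, c.e (LL 1 xS wS p + i0 (1 / 2, 0)) (EE wS xS a) = LL 1 xS wS (c.e p a)) ∧
      (∀ p a, c.e (LL κ xT wT p + i0 (0, 1 / 2)) (EE wT xT a) = LL κ xT wT (c.e p a)) ∧
      ∀ p, c.e p vW = W p ∧ c.e p vX = X p := by
  have hA : ∀ p, LinearIndependent ℝ
      ![W p, X p, lieBracket ℝ W X p, lieBracket ℝ X (lieBracket ℝ W X) p] ∧
      lieBracket ℝ W (lieBracket ℝ W X) p ∈ Submodule.span ℝ {W p, X p, lieBracket ℝ W X p} := by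
    intro p
    obtain ⟨U, W₀, X₀, hU, hp, hA, hs⟩ := exists_ad hE hD (Θ p)
    have e : ∀ (V : VField E M) y, md E Θ y (mpullback 𝓘(ℝ, G) 𝓘(ℝ, E) Θ V y) = V (Θ y) :=
      fun V y => (hi y).self_apply_inverse _
    have := (ad_pull hΘ hi hU hA).change (W' := W) (X' := X) (hU.preimage hΘ.continuous)
      (fun y _ => contMDiff_vectorSpace_iff_contDiff.mpr hW y)
      (fun y _ => contMDiff_vectorSpace_iff_contDiff.mpr hX y)
      (fun y hy => span1_inj (md E Θ y).toLinearMap (hi y).injective (by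
        simp only [ContinuousLinearMap.coe_coe, e]
        exact (sW y).symm.trans (hs _ hy).2))
      (fun y hy => span2_inj (md E Θ y).toLinearMap (hi y).injective (by
        simp only [ContinuousLinearMap.coe_coe, e]
        exact (sX y).symm.trans (hs _ hy).1))
    have h1 := this.ind p hp
    have h2 := this.chr p hp
    rw [br_eq (X := G) W X] at h1 h2
    rw [br_eq (X := G) X (lieBracket ℝ W X)] at h1
    rw [br_eq (X := G) W (lieBracket ℝ W X)] at h2
    exact ⟨h1, h2⟩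
  have hZ : ContDiff ℝ ∞ (lieBracket ℝ W X) := hW.lieBracket_vectorField hX (by simp)
  have hR : ContDiff ℝ ∞ (lieBracket ℝ X (lieBracket ℝ W X)) :=
    hX.lieBracket_vectorField hZ (by simp)
  have he : ContDiff ℝ ∞ (fr W X) := contDiff_clm_apply_iff.mpr fun a => by
    simp only [fr_apply]
    exact (((hW.const_smul _).add (hX.const_smul _)).add (hZ.const_smul _)).add (hR.const_smul _)
  have hinv : ∀ p, (fr W X p).IsInvertible := fun p =>
    ⟨(LinearMap.linearEquivOfInjective (fr W X p).toLinearMap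
      ((cols_inj.mpr (hA p).1).comp Manifold.co.injective) rfl).toContinuousLinearEquiv,
      ContinuousLinearMap.ext fun _ => rfl⟩
  have ho : ContDiff ℝ ∞ fun p => (fr W X p).inverse := contDiff_iff_contDiffAt.mpr fun p =>
    (hinv p).contDiffAt_map_inverse.comp p he.contDiffAt
  have h1 : ∀ p v, (fr W X p).inverse (fr W X p v) = v := fun p v => (hinv p).inverse_apply_self v
  have cS := fr_equi hW hX _ _ hxS WS XS
  have cT := fr_equi hW hX _ _ hxT WT XT
  have two : ∀ {k x w : ℝ} {b : G}, k = 1 ∨ k = -1 → x = 1 ∨ x = -1 → w = 1 ∨ w = -1 →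
      LL k x w b = b → (∀ p a, fr W X (LL k x w p + b) (EE w x a) = LL k x w (fr W X p a)) →
      ∀ p, fr W X (p + (b + b)) = fr W X p := fun {k x w b} hk hx hw hb h p => by
    refine ContinuousLinearMap.ext fun a => ?_
    have h2 := h (LL k x w p + b) (EE w x a)
    rw [h p a, LL_LL hk hx hw, SymB.EE_EE hw hx, map_add, LL_LL hk hx hw, hb, add_assoc] at h2
    exact h2
  have hper : ∀ p m, fr W X (p + Manifold.iL (lat m)) = fr W X p := fun p m => by
    have := per_of_gen (g := fun q => fr W X (p + i0 q)) (fun q => by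
      rw [← two (Or.inl rfl) hxS hwS (by simp [SymB.LL_apply, i0, Complex.ext_iff]) cS (p + i0 q), ← i0_add,
        add_assoc, ← i0_add]
      norm_num) (fun q => by
      rw [← two hκ hxT hwT (by simp [SymB.LL_apply, i0, Complex.ext_iff]) cT (p + i0 q), ← i0_add,
        add_assoc, ← i0_add]
      norm_num) 0 m
    simpa [← Manifold.iL_apply] using this
  refine ⟨{ i := Manifold.iL
            i_inj := fun q q' h => Manifold.i0_inj (by rwa [Manifold.iL_apply, Manifold.iL_apply] at h)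
            e := fr W X
            om := fun p => (fr W X p).inverse
            e_smooth := he
            om_smooth := ho
            om_e := h1
            e_om := fun p v => (hinv p).self_apply_inverse v
            e_per := hper
            om_per := fun p m => by rw [hper]
            brXW := fun p => ?_
            brXZ := fun p => ?_ }, Manifold.iL_apply, fun p => ?_, cS, cT,
    fun p => ⟨fr_W W X p, fr_X W X p⟩⟩
  · rw [Manifold.brk_eq he ho h1, lieBracket_swap, map_neg, neg_neg]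
    simp only [fr_W, fr_X]
    rw [← fr_Z, h1]
    rfl
  · rw [Manifold.brk_eq he ho h1]
    simp only [fr_Z, fr_X]
    rw [← fr_R, h1]
    simp [al, vR]
  · change al (brk _ _ p vW vZ) = 0
    rw [Manifold.brk_eq he ho h1]
    simp only [fr_Z, fr_W]
    obtain ⟨a, b, c, e⟩ := Submodule.mem_span_triple.mp (hA p).2
    rw [← e, ← fr_W W X p, ← fr_X W X p, ← fr_Z W X p, ← map_smul, ← map_smul, ← map_smul,
      ← map_add, ← map_add, h1]
    simp [al, vW, vX, vZ]

end

end Pool.Agent.Lib.MP_72f1d0_gt.Eq.Man
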