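import Pool.Agent.Lib.MP_72f1d0_gt.Eq.ManPlane

/-!
Descent from the plane to a finite union of tori and Klein bottles.
-/

set_option linter.unusedSectionVars false

open scoped ContDiff Manifold Topology
open Set Filter

namespace Pool.Agent.Lib.MP_72f1d0_gt.Eq.Man

open Stmt

noncomputable section

variable {E : Type*} [NormedAddCommGroup E] [NormedSpace ℝ E] [FiniteDimensional ℝ E]
  {M : Type*} [TopologicalSpace M] [ChartedSpace E M] [IsManifold 𝓘(ℝ, E) ∞ M]
  {E₂ H₂ : Type*} [NormedAddCommGroup E₂] [NormedSpace ℝ E₂] [TopologicalSpace H₂]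
  {J : ModelWithCorners ℝ E₂ H₂} {S : Type*} [TopologicalSpace S] [ChartedSpace H₂ S]
  [IsManifold J ∞ S]

variable (J) in
/-- The differential of a map from the plane to the surface. -/
def dp (π : Q → S) (q : Q) : Q →L[ℝ] E₂ := mfderiv 𝓘(ℝ, Q) J π q

/-- The bundle maps with values in the model spaces. -/
def Fv (A : Data J E S M) (s : UI) (x : S) : E₂ →L[ℝ] E := A.F s x

variable (E J) in
/-- The differential with values in the model spaces. -/
def dv (f : S → M) (x : S) : E₂ →L[ℝ] E := diff J E f x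

lemma dv_comp {f : S → M} (hf : ContMDiff J 𝓘(ℝ, E) ∞ f) {π : Q → S}
    (hπ : ContMDiff 𝓘(ℝ, Q) J ∞ π) (q : Q) :
    md E (fun q => f (π q)) q = (dv E J f (π q)).comp (dp J π q) :=
  mfderiv_comp q (hf.mdifferentiableAt (by simp)) (hπ.mdifferentiableAt (by simp))

lemma dp_inv {π : Q → S} (hπ : IsLocalDiffeomorph 𝓘(ℝ, Q) J ∞ π) (q : Q) :
    (dp J π q).IsInvertible := ⟨hπ.mfderivToContinuousLinearEquiv (by simp) q, rfl⟩

lemma deck_lin (κ : ℝ) (m n : ℤ) (q : Q) :
    deck κ m n q = SymB.linA (κ ^ n) q + ((m : ℝ) / 2, (n : ℝ) / 2) := by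
  rw [SymB.linA_apply]; rfl

lemma dp_deck {π : Q → S} (hπ : ContMDiff 𝓘(ℝ, Q) J ∞ π) {κ : ℝ} {m n : ℤ}
    (h : ∀ q, π (deck κ m n q) = π q) (q v : Q) :
    dp J π (deck κ m n q) (SymB.linA (κ ^ n) v) = dp J π q v := by
  have hk : HasFDerivAt (deck κ m n) (SymB.linA (κ ^ n)) q := by
    rw [funext (deck_lin κ m n)]
    exact (SymB.linA _).hasFDerivAt.add_const _
  have := (HasMFDerivAt.comp q (hπ.mdifferentiableAt (by simp)).hasMFDerivAt
    hk.hasMFDerivAt).mfderiv
  rw [show π ∘ deck κ m n = π from funext h] at this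
  exact (congrArg (fun T : Q →L[ℝ] E₂ => T v) this).symm

lemma range_comp_inv {A : E₂ →L[ℝ] E} {B : Q →L[ℝ] E₂} (hB : B.IsInvertible) :
    LinearMap.range (A.comp B).toLinearMap = LinearMap.range A.toLinearMap :=
  LinearMap.range_comp_of_range_eq_top A.toLinearMap (LinearMap.range_eq_top.mpr hB.surjective)

lemma pf_of_formal {D : Distr E M} {A : Data J E S M} (hA : A.Formal D) {κ : ℝ} {π : Q → S}
    (hπ : IsLocalDiffeomorph 𝓘(ℝ, Q) J ∞ π)
    (hf : ∀ q q', π q = π q' ↔ ∃ m n : ℤ, q' = deck κ m n q) :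
    PF κ D (fun q => A.f (π q)) fun s q => (Fv A s (π q)).comp (dp J π q) where
  smooth := hA.1.1.comp hπ.contMDiff
  fib q q' := hA.1.2.1.eq_iff.trans (hf q q')
  cont := hA.2.1.comp (continuous_fst.prodMk ((hπ.contMDiff.continuous_tangentMap (by simp)).comp
    ((tangentBundleModelSpaceHomeomorph 𝓘(ℝ, Q)).symm.continuous.comp continuous_snd)))
  inv s m n q v := by
    have h : ∀ q, π (deck κ m n q) = π q := fun q => ((hf q _).mpr ⟨m, n, rfl⟩).symm
    rw [ContinuousLinearMap.comp_apply, dp_deck hπ.contMDiff h, h]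
    rfl
  inj s q := (hA.2.2.1 s _).comp (dp_inv hπ q).injective
  start q := by
    rw [dv_comp hA.1.1 hπ.contMDiff]
    exact congrArg (fun T : E₂ →L[ℝ] E => T.comp (dp J π q)) (hA.2.2.2.1 (π q))
  tr q := by
    rw [range_comp_inv (dp_inv hπ q)]
    exact hA.2.2.2.2 (π q)

/-- Local sections of a local diffeomorphism, with their tangent maps. -/
lemma exists_section {π : Q → S} (hπ : IsLocalDiffeomorph 𝓘(ℝ, Q) J ∞ π) (q : Q) :
    ∃ (σ : S → Q) (τ : TangentBundle J S → Q), ContMDiffAt J 𝓘(ℝ, Q) ∞ σ (π q) ∧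
      (∀ᶠ y in 𝓝 (π q), π (σ y) = y) ∧ ∀ z : TangentBundle J S, z.1 = π q →
        ContinuousAt τ z ∧ ∀ᶠ w in 𝓝 z, π (σ w.1) = w.1 ∧ dp J π (σ w.1) (τ w) = w.2 := by
  have h := hπ q
  have ho := h.localInverse_open_source
  have hp : Continuous fun z : TangentBundle J S => z.1 := FiberBundle.continuous_proj _ _
  refine ⟨h.localInverse, fun z => mfderiv J 𝓘(ℝ, Q) h.localInverse z.1 z.2,
    h.localInverse_contMDiffAt, h.localInverse_eventuallyEq_right, fun z hz => ?_⟩
  have hn : (fun z : TangentBundle J S => z.1) ⁻¹' h.localInverse.source ∈ 𝓝 z :=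
    hp.continuousAt.preimage_mem_nhds (ho.mem_nhds (hz ▸ h.localInverse_mem_source))
  constructor
  · have h1 := (h.localInverse_contMDiffOn.continuousOn_tangentMapWithin (by simp)
      ho.uniqueMDiffOn).continuousAt hn
    have h2 := (continuous_snd.comp
      (tangentBundleModelSpaceHomeomorph 𝓘(ℝ, Q)).continuous).continuousAt.comp h1
    refine h2.congr ?_
    filter_upwards [hn] with w hw
    exact congrArg (fun T : E₂ →L[ℝ] Q => T w.2) (mfderivWithin_of_mem_nhds (ho.mem_nhds hw))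
  · filter_upwards [hn] with w hw
    refine ⟨h.localInverse_right_inv hw, ?_⟩
    have e : π ∘ h.localInverse =ᶠ[𝓝 w.1] id :=
      eventuallyEq_of_mem (ho.mem_nhds hw) h.localInverse_eqOn_right
    have h1 := mfderiv_comp w.1 (hπ.contMDiff.mdifferentiableAt (by simp))
      ((h.localInverse_contMDiffOn.contMDiffAt (ho.mem_nhds hw)).mdifferentiableAt (by simp))
    rw [e.mfderiv_eq, mfderiv_id] at h1
    exact (congrArg (fun T : E₂ →L[ℝ] E₂ => T w.2) h1).symm

lemma data_ext {A B : Data J E S M} (h1 : A.f = B.f) (h2 : ∀ s x, Fv A s x = Fv B s x) : A = B := by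
  obtain ⟨f, F⟩ := A
  obtain ⟨g, G⟩ := B
  obtain rfl : f = g := h1
  congr
  funext s x
  exact h2 s x

theorem main (hG : GCoreStmt) [T2Space M] (hE : Module.finrank ℝ E = 4) {D : Distr E M}
    (hD : Engel D) (hS : ToriKlein J S) {A : Data J E S M} (hA : A.Formal D) :
    ∃ γ : UI → Data J E S M, IsPath γ ∧ (∀ l, (γ l).Formal D) ∧ γ 0 = A ∧ (γ 1).Genuine := by
  obtain ⟨k, e, π, he, hπ, hc, hf⟩ := hS
  have hf' : ∀ i q q', π i q = π i q' ↔ ∃ m n : ℤ, q' = deck (e i) m n q := fun i q q' => by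
    simp [hf]
  have hP := fun i => pf_of_formal hA (hπ i) (hf' i)
  have hK : ∀ i, IsCompact (range fun q => A.f (π i q)) := fun i => by
    have fd : ∀ m n q, π i (deck (e i) m n q) = π i q := fun m n q =>
      ((hf' i q _).mpr ⟨m, n, rfl⟩).symm
    refine Manifold.range_compact (hP i).smooth.continuous (per_of_gen (fun q => ?_) fun q => ?_)
    · rw [← Ra_Ra, ← deck_Ra (e i), fd, ← deck_Ra (e i), fd]
    · rw [← Rb_Rb (he i), ← deck_Rb, fd, ← deck_Rb, fd]
  obtain ⟨U, hU, hd⟩ := Pairwise.exists_mem_filter_basis_of_disjoint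
    (l := fun i => 𝓝ˢ (range fun q => A.f (π i q)))
    (fun i j hij => (SeparatedNhds.of_isCompact_isCompact (hK i) (hK j) (by
      rw [Set.disjoint_left]
      rintro _ ⟨q, rfl⟩ ⟨q', e⟩
      exact hij ((hf ..).mp (hA.1.2.1 e)).1.symm)).disjoint_nhdsSet)
    fun i => hasBasis_nhdsSet _
  choose H K hH cK hPF Hd H0 K0 K1 HU using fun i =>
    plane hG hE hD (he i) (hP i) (hU i).1 fun q => (hU i).2 ⟨q, rfl⟩
  choose ι κ hι using hc
  let h : ℝ × S → M := fun z => H (ι z.2) (z.1, κ z.2)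
  let F : UI → UI → S → (E₂ →L[ℝ] E) := fun l s x =>
    (K (ι x) l s (κ x)).comp (dp J (π (ι x)) (κ x)).inverse
  have eh : ∀ i l q, h (l, π i q) = H i (l, q) := fun i l q => by
    obtain ⟨e1, m, n, e2⟩ := (hf ..).mp (hι (π i q))
    simp only [h]
    generalize ι (π i q) = j at e1 e2
    subst e1
    conv_rhs => rw [e2, Hd]
  have eF : ∀ i l s q, (F l s (π i q)).comp (dp J (π i) q) = K i l s q := fun i l s q => by
    obtain ⟨e1, m, n, e2⟩ := (hf ..).mp (hι (π i q))
    simp only [F]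
    generalize ι (π i q) = j at e1 e2
    generalize κ (π i q) = q' at e2
    subst e1 e2
    refine ContinuousLinearMap.ext fun v => ?_
    obtain ⟨u, rfl⟩ : ∃ u, SymB.linA (e j ^ n) u = v := ⟨SymB.linA (e j ^ n) v, by
      simp [SymB.linA_apply, ← mul_assoc, sq_sign (sign_zpow (he j) n)]⟩
    rw [ContinuousLinearMap.comp_apply, ContinuousLinearMap.comp_apply,
      dp_deck (hπ j).contMDiff fun q => ((hf' j q _).mpr ⟨m, n, rfl⟩).symm,
      (dp_inv (hπ j) q').inverse_apply_self, (hPF j l).inv]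
  have hh : ContMDiff (𝓘(ℝ, ℝ).prod J) 𝓘(ℝ, E) ∞ h := fun z => by
    obtain ⟨σ, -, h1, h2, -⟩ := exists_section (hπ (ι z.2)) (κ z.2)
    rw [hι] at h1 h2
    refine ((hH (ι z.2) _).comp z (contMDiffAt_fst.prodMk_space
      (h1.comp z contMDiffAt_snd))).congr_of_eventuallyEq ?_
    filter_upwards [continuous_snd.continuousAt.eventually h2] with y hy
    rw [Function.comp_apply, ← eh, Function.comp_apply, hy]
  have hc : Continuous fun z : UI × UI × TangentBundle J S =>
      (⟨h (z.1, z.2.2.1), F z.1 z.2.1 z.2.2.1 z.2.2.2⟩ : TangentBundle 𝓘(ℝ, E) M) :=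
    continuous_iff_continuousAt.mpr fun z => by
      obtain ⟨σ, τ, h1, -, h2⟩ := exists_section (hπ (ι z.2.2.1)) (κ z.2.2.1)
      obtain ⟨h3, h4⟩ := h2 z.2.2 (hι _).symm
      rw [hι] at h1
      have hp : Continuous fun z : TangentBundle J S => z.1 := FiberBundle.continuous_proj _ _
      have c : ContinuousAt (fun z : UI × UI × TangentBundle J S => z.2.2) z :=
        continuous_snd.snd.continuousAt
      refine ((cK (ι z.2.2.1)).continuousAt.comp (continuousAt_fst.prodMk
        (continuousAt_snd.fst.prodMk (((h1.continuousAt.comp hp.continuousAt).comp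
          (f := fun z : UI × UI × TangentBundle J S => z.2.2) c).prodMk
          (h3.comp (f := fun z : UI × UI × TangentBundle J S => z.2.2) c))))).congr ?_
      filter_upwards [c.eventually h4] with y hy
      simp only [Function.comp_apply]
      rw [← eh, ← eF, ContinuousLinearMap.comp_apply, hy.2, hy.1]
  have sm : ∀ l : ℝ, ContMDiff J 𝓘(ℝ, E) ∞ fun x => h (l, x) := fun l =>
    hh.comp (contMDiff_const.prodMk contMDiff_id)
  have cancel : ∀ {B B' : E₂ →L[ℝ] E} x, B.comp (dp J (π (ι x)) (κ x)) =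
      B'.comp (dp J (π (ι x)) (κ x)) → B = B' := fun x hb => ContinuousLinearMap.ext fun v => by
    obtain ⟨u, rfl⟩ := (dp_inv (hπ (ι x)) (κ x)).surjective v
    exact congrArg (fun T : Q →L[ℝ] E => T u) hb
  have eF' : ∀ l s x, (F l s x).comp (dp J (π (ι x)) (κ x)) = K (ι x) l s (κ x) := fun l s x => by
    rw [← eF, hι]
  have Fi : ∀ l s x, Function.Injective (F l s x) := fun l s x =>
    ((hPF _ l).inj s _).comp (dp_inv (hπ _) _).inverse.injective
  have F0 : ∀ (l : UI) x, F l 0 x = dv E J (fun x => h (l, x)) x := fun l x => cancel x (by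
    rw [eF', (hPF _ l).start, ← funext (eh (ι x) l), dv_comp (sm l) (hπ _).contMDiff, hι])
  refine ⟨fun l => ⟨fun x => h (l, x), F l⟩, ⟨⟨h, hh, fun _ _ => rfl⟩, hc⟩,
    fun l => ⟨⟨sm l, fun x y hxy => ?_, fun x => ?_⟩,
      hc.comp (continuous_const.prodMk continuous_id), Fi l, F0 l, fun x => ?_⟩,
    data_ext (funext fun x => ?_) fun s x => cancel x ?_, fun s x => ?_⟩
  · have e1 : ι x = ι y := by
      by_contra hn
      exact Set.disjoint_left.mp (hd hn) (HU _ (l, κ x)) (by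
        rw [show H (ι x) (l, κ x) = H (ι y) (l, κ y) from hxy]; exact HU _ _)
    rw [← hι x, ← hι y, ← e1, hf']
    refine ((hPF _ l).fib _ _).mp ?_
    rw [← eh, ← eh, hι, e1, hι]
    exact hxy
  · exact (F0 l x ▸ Fi l 0 x : Function.Injective (dv E J (fun x => h (l, x)) x))
  · have := (hPF (ι x) l).tr (κ x)
    rw [← eF', range_comp_inv (dp_inv (hπ _) _)] at this
    exact this
  · exact (H0 _ _).trans (congrArg A.f (hι x))
  · rw [show Fv _ s x = F 0 s x from rfl, eF', K0]
    simp only [hι]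
  · rw [show diff J E _ x = dv E J (fun x => h ((1 : UI), x)) x from rfl, ← F0]
    exact congrArg (fun T : Q →L[ℝ] E => T.comp (dp J (π (ι x)) (κ x)).inverse)
      (congrFun (K1 (ι x) s) (κ x))

end

end Pool.Agent.Lib.MP_72f1d0_gt.Eq.Man
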