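import Pool.Agent.Lib.MP_72f1d0_gt.Eq.ManStage

/-!
The theorem for one torus or Klein bottle, lifted to the plane.
-/

set_option linter.unusedSectionVars false

open scoped ContDiff Manifold Topology RealInnerProductSpace
open Set Filter VectorField

namespace Pool.Agent.Lib.MP_72f1d0_gt.Eq.Man

open Stmt

noncomputable section

variable {E : Type*} [NormedAddCommGroup E] [NormedSpace ℝ E] [FiniteDimensional ℝ E]
  {M : Type*} [TopologicalSpace M] [ChartedSpace E M] [IsManifold 𝓘(ℝ, E) ∞ M]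

section Frame

variable {V : Type*} [NormedAddCommGroup V] [InnerProductSpace ℝ V] [FiniteDimensional ℝ V]

lemma jmd_smooth {J : M → (E →L[ℝ] V)}
    (hJ : ContMDiff 𝓘(ℝ, E).tangent 𝓘(ℝ, V) ∞ fun z : TangentBundle 𝓘(ℝ, E) M => J z.1 z.2)
    {Θ : G → M} (hΘ : ContMDiff 𝓘(ℝ, G) 𝓘(ℝ, E) ∞ Θ) :
    ContDiff ℝ ∞ fun p => (J (Θ p)).comp (md E Θ p) :=
  contDiff_clm_apply_iff.mpr fun a => (hJ.comp (tm_smooth hΘ a)).contDiff

theorem stage_ctx (hE : Module.finrank ℝ E = 4) {D : Distr E M} (hD : Engel D)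
    {κ wS xS wT xT : ℝ} (hκ : κ = 1 ∨ κ = -1) (hwS : wS = 1 ∨ wS = -1) (hxS : xS = 1 ∨ xS = -1)
    (hwT : wT = 1 ∨ wT = -1) (hxT : xT = 1 ∨ xT = -1) {J : M → (E →L[ℝ] V)}
    (hJ : ContMDiff 𝓘(ℝ, E).tangent 𝓘(ℝ, V) ∞ fun z : TangentBundle 𝓘(ℝ, E) M => J z.1 z.2)
    {Θ : G → M} (Ji : ∀ p, Function.Injective (J (Θ p))) (hΘ : ContMDiff 𝓘(ℝ, G) 𝓘(ℝ, E) ∞ Θ)
    (hi : ∀ p, (md E Θ p).IsInvertible)
    (tS : ∀ p, Θ (LL 1 xS wS p + i0 (1 / 2, 0)) = Θ p)
    (tT : ∀ p, Θ (LL κ xT wT p + i0 (0, 1 / 2)) = Θ p) {W Y : Q → V} (hW : Continuous W)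
    (hY : Continuous Y) (hF : Fl J D (fun q => Θ (i0 q)) W Y)
    (Wa : ∀ q, W (Ra q) = wS • W q) (Ya : ∀ q, Y (Ra q) = xS • Y q)
    (Wb : ∀ q, W (Rb κ q) = wT • W q) (Yb : ∀ q, Y (Rb κ q) = xT • Y q) :
    ∃ c : Ctx, (∀ q, c.i q = i0 q) ∧ c.Nrm ∧
      (∀ p a, c.e (LL 1 xS wS p + i0 (1 / 2, 0)) (EE wS xS a) = LL 1 xS wS (c.e p a)) ∧
      (∀ p a, c.e (LL κ xT wT p + i0 (0, 1 / 2)) (EE wT xT a) = LL κ xT wT (c.e p a)) ∧
      ∀ p, (D (Θ p) : Submodule ℝ E) =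
        Submodule.span ℝ {md E Θ p (c.e p vW), md E Θ p (c.e p vX)} := by
  obtain ⟨W₁, Y₁, hW₁, hY₁, hF₁⟩ := flag_along hE hD hJ hΘ Ji
  have ci : Continuous i0 := by
    rw [show i0 = Manifold.iL from (funext Manifold.iL_apply).symm]
    exact Manifold.iL.continuous
  have inj : ∀ p, Function.Injective ((J (Θ p)).comp (md E Θ p)) := fun p =>
    (Ji p).comp (hi p).injective
  have sol : ∀ {u : G → V}, ContDiff ℝ ∞ u → (∀ p, u p ∈ jm J D (Θ p)) →
      ∃ u' : G → G, ContDiff ℝ ∞ u' ∧ ∀ p, J (Θ p) (md E Θ p (u' p)) = u p := fun {u} hu hm => by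
    have : ∀ p, ∃ a, J (Θ p) (md E Θ p a) = u p := fun p => by
      obtain ⟨v, -, e⟩ := hm p
      exact ⟨(md E Θ p).inverse v, by rw [(hi p).self_apply_inverse]; exact e⟩
    choose u' h using this
    exact ⟨u', ContMDiff.contDiff fun p => solve_smooth ((jmd_smooth hJ hΘ).contMDiff p) (inj p)
      (hu.contMDiff p) (Eventually.of_forall h), h⟩
  obtain ⟨W', sW, eW⟩ := sol hW₁ fun p => by rw [(hF₁ p).2.2.2.2]; exact mem2_1 _ _
  obtain ⟨X', sX, eX⟩ := sol hY₁ fun p => by rw [(hF₁ p).2.2.2.2]; exact mem2_2 _ _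
  obtain ⟨a, ha, ea⟩ := sign_const (v := fun q => W₁ (i0 q)) hW (hW₁.continuous.comp ci)
    (fun q => (hF q).1) (fun q => (hF₁ _).1) fun q => by
      rw [← (hF q).2.2.1, (hF₁ _).2.2.1]; exact Submodule.mem_span_singleton_self _
  obtain ⟨b, hb, eb⟩ := sign_const (v := fun q => Y₁ (i0 q)) hY (hY₁.continuous.comp ci)
    (fun q => (hF q).2.1) (fun q => (hF₁ _).2.1) fun q => by
      rw [← (hF q).2.2.2.1, (hF₁ _).2.2.2.1]; exact Submodule.mem_span_singleton_self _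
  have key : ∀ {k x w : ℝ} {v : Q}, x = 1 ∨ x = -1 → w = 1 ∨ w = -1 →
      (∀ p, Θ (LL k x w p + i0 v) = Θ p) → (∀ q, W (aff k v q) = w • W q) →
      (∀ q, Y (aff k v q) = x • Y q) → (∀ p, LL k x w (W' p) = w • W' (LL k x w p + i0 v)) ∧
        ∀ p, LL k x w (X' p) = x • X' (LL k x w p + i0 v) := fun {k x w v} hx hw t h1 h2 => by
    obtain ⟨w', x', -, -, e1, e2⟩ := hF₁.signs hW₁.continuous hY₁.continuous
      (γ := fun p => LL k x w p + i0 v) (by fun_prop) t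
    have f1 : w' = w := by
      have := e1 (i0 0)
      rw [LL_i0, ea, ea, h1, smul_comm] at this
      exact (smul_left_injective ℝ (by rw [← ea, ← norm_ne_zero_iff, (hF₁ _).1]; simp) this).symm
    have f2 : x' = x := by
      have := e2 (i0 0)
      rw [LL_i0, eb, eb, h2, smul_comm] at this
      exact (smul_left_injective ℝ (by rw [← eb, ← norm_ne_zero_iff, (hF₁ _).2.1]; simp) this).symm
    subst f1 f2
    constructor <;> intro p <;> refine inj (LL k x' w' p + i0 v) ?_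
    · simp only [ContinuousLinearMap.comp_apply, map_smul]
      rw [md_equi hΘ _ _ t, eW, e1, smul_smul, sq_sign hw, one_smul, t, eW]
    · simp only [ContinuousLinearMap.comp_apply, map_smul]
      rw [md_equi hΘ _ _ t, eX, e2, smul_smul, sq_sign hx, one_smul, t, eX]
  have kS := key hxS hwS tS (fun q => by rw [aff_Ra, Wa]) fun q => by rw [aff_Ra, Ya]
  have kT := key hxT hwT tT (fun q => by rw [aff_Rb, Wb]) fun q => by rw [aff_Rb, Yb]
  have sD : ∀ p, (D (Θ p) : Submodule ℝ E) =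
      Submodule.span ℝ {md E Θ p (W' p), md E Θ p (X' p)} := fun p =>
    Submodule.map_injective_of_injective (f := (J (Θ p)).toLinearMap) (Ji p)
      ((hF₁ p).2.2.2.2.trans (by
        rw [Submodule.map_span, image_pair, ← eW, ← eX]; rfl))
  obtain ⟨c, h1, h2, h3, h4, h5⟩ := exists_ctx hE hD hΘ hi sW sX
    (fun p => Submodule.map_injective_of_injective (f := (J (Θ p)).toLinearMap) (Ji p)
      ((hF₁ p).2.2.1.trans (by
        rw [Submodule.map_span, image_singleton, ← eW]; rfl))) sD hκ hwS hxS hwT hxT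
    kS.1 kS.2 kT.1 kT.2
  exact ⟨c, h1, h2, h3, h4, fun p => by rw [(h5 p).1, (h5 p).2]; exact sD p⟩

end Frame

/-- The frame of the model, pushed to the manifold. -/
def vv (E : Type*) [NormedAddCommGroup E] [NormedSpace ℝ E] {M : Type*} [TopologicalSpace M]
    [ChartedSpace E M] (c : Ctx) (Θ : G → M) (p : G) : G →L[ℝ] E := (md E Θ p).comp (c.e p)

lemma vv_dd (c : Ctx) {Θ : G → M} (hΘ : ContMDiff 𝓘(ℝ, G) 𝓘(ℝ, E) ∞ Θ) {H : Q → G}
    (hH : ContDiff ℝ ∞ H) (q : Q) :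
    (vv E c Θ (H q)).comp (Manifold.apL (dd c H q)) = md E (fun q => Θ (H q)) q := by
  have := md_comp (E := E) (g := Θ) (hH.differentiable (by simp) q).hasFDerivAt
    (hΘ.mdifferentiableAt (by simp))
  refine ContinuousLinearMap.ext fun v => ?_
  have e1 : ap (dd c H q) v = c.om (H q) (fderiv ℝ H q v) :=
    Manifold.ap_of ((c.om (H q)).comp (fderiv ℝ H q)) v
  rw [show md E (fun q => Θ (H q)) q = _ from this]
  simp only [vv, ContinuousLinearMap.comp_apply, Manifold.apL_apply, e1, c.e_om]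

lemma ap_rho (k w x : ℝ) (A : G × G) (v : Q) : ap (rho k w x A) v = EE w x (ap A (k * v.1, v.2)) := by
  simp only [ap, rho, map_add, map_smul, smul_smul, mul_comm]

lemma inv_deck {κ : ℝ} (hκ : κ = 1 ∨ κ = -1) {F : Q → (Q →L[ℝ] E)}
    (h1 : ∀ q v, F (Ra q) v = F q v) (h2 : ∀ q v, F (Rb κ q) v = F q (κ * v.1, v.2)) (m n : ℤ)
    (q v : Q) : F (deck κ m n q) (SymB.linA (κ ^ n) v) = F q v := by
  have ll : ∀ {k : ℝ}, k = 1 ∨ k = -1 → ∀ v, SymB.linA k (SymB.linA k v) = v := fun hk v => by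
    simp [SymB.linA_apply, ← mul_assoc, sq_sign hk]
  rw [deck_equi hκ (φ := id) (ψ := fun A : Q →L[ℝ] E => A.comp (SymB.linA κ)) Function.injective_id
    (fun A B e => ContinuousLinearMap.ext fun u => by
      rw [← ll hκ u]; exact congrArg (fun T : Q →L[ℝ] E => T (SymB.linA κ u)) e)
    (fun q => ContinuousLinearMap.ext (h1 q))
    (fun q => ContinuousLinearMap.ext fun u => by rw [h2]; simp [SymB.linA_apply])
    (B := fun _ n => (F q).comp (SymB.linA (κ ^ n)))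
    (ContinuousLinearMap.ext fun u => by simp [SymB.linA_apply]) (fun _ _ => rfl)
    (fun n => ContinuousLinearMap.ext fun u => by
      simp [SymB.linA_apply, zpow_add_one₀ (sign_ne hκ), mul_assoc]) m n,
    ContinuousLinearMap.comp_apply, ll (sign_zpow hκ n)]

theorem plane (hG : GCoreStmt) [T2Space M] (hE : Module.finrank ℝ E = 4) {D : Distr E M}
    (hD : Engel D) {κ : ℝ} (hκ : κ = 1 ∨ κ = -1) {f : Q → M} {F : UI → Q → (Q →L[ℝ] E)}
    (h : PF κ D f F) {U : Set M} (hU : IsOpen U) (hfU : ∀ q, f q ∈ U) :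
    ∃ (H : ℝ × Q → M) (K : UI → UI → Q → (Q →L[ℝ] E)),
      ContMDiff 𝓘(ℝ, ℝ × Q) 𝓘(ℝ, E) ∞ H ∧
      (Continuous fun z : UI × UI × Q × Q =>
        (⟨H (z.1, z.2.2.1), K z.1 z.2.1 z.2.2.1 z.2.2.2⟩ : TangentBundle 𝓘(ℝ, E) M)) ∧
      (∀ l : UI, PF κ D (fun q => H (l, q)) (K l)) ∧
      (∀ l m n q, H (l, deck κ m n q) = H (l, q)) ∧ (∀ q, H (0, q) = f q) ∧ K 0 = F ∧
      (∀ s, K 1 s = K 1 0) ∧ ∀ z, H z ∈ U := by
  obtain ⟨N, J, Θ, wS, xS, wT, xT, W, Y, hwS, hxS, hwT, hxT, hJ, Ji, hΘ, hi, hfib, h0, hΘU, hW, hY,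
    hF, Wa, Ya, Wb, Yb⟩ := stage_tube hE hD hκ h hU hfU
  have tB : ∀ m n p, Θ (BB κ wS xS wT xT m n p) = Θ p := fun m n p =>
    ((hfib p _).mpr ⟨m, n, rfl⟩).symm
  have tS : ∀ p, Θ (LL 1 xS wS p + i0 (1 / 2, 0)) = Θ p := fun p => by rw [← BB_S κ wS xS wT xT, tB]
  have tT : ∀ p, Θ (LL κ xT wT p + i0 (0, 1 / 2)) = Θ p := fun p => by rw [← BB_T κ wS xS wT xT, tB]
  obtain ⟨c, ci, cN, cS, cT, cD⟩ := stage_ctx hE hD hκ hwS hxS hwT hxT hJ Ji hΘ hi tS tT hW hY
    (by rw [funext h0]; exact hF) Wa Ya Wb Yb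
  have vi : ∀ p, (vv E c Θ p).IsInvertible := fun p => (hi p).comp
    ⟨ContinuousLinearEquiv.equivOfInverse (c.e p) (c.om p) (c.om_e p) (c.e_om p), rfl⟩
  have vS : ∀ p a, vv E c Θ (LL 1 xS wS p + i0 (1 / 2, 0)) (EE wS xS a) = vv E c Θ p a :=
    fun p a => by simp only [vv, ContinuousLinearMap.comp_apply, cS, md_equi hΘ _ _ tS]
  have vT : ∀ p a, vv E c Θ (LL κ xT wT p + i0 (0, 1 / 2)) (EE wT xT a) = vv E c Θ p a :=
    fun p a => by simp only [vv, ContinuousLinearMap.comp_apply, cT, md_equi hΘ _ _ tT]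
  have vtr : ∀ p A, IsCompl (LinearMap.range ((vv E c Θ p).comp (Manifold.apL A)).toLinearMap)
      (D (Θ p) : Submodule ℝ E) ↔ dl A ≠ 0 := fun p A => by
    obtain ⟨φ, hφ⟩ := vi p
    have e : ∀ a, φ.toLinearEquiv a = vv E c Θ p a := fun a => by rw [← hφ]; rfl
    rw [← Manifold.isCompl_map φ.toLinearEquiv A, cD]
    simp only [e]
    rw [show range (fun v => vv E c Θ p (ap A v)) =
      (LinearMap.range ((vv E c Θ p).comp (Manifold.apL A)).toLinearMap : Set E) from rfl,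
      Submodule.span_eq]
    rfl
  have si : ContDiff ℝ ∞ i0 := by
    rw [show i0 = Manifold.iL from (funext Manifold.iL_apply).symm]
    exact Manifold.iL.contDiff
  let Γ : UI → Q → G × G := fun s q =>
    ((vv E c Θ (i0 q)).inverse (F s q (1, 0)), (vv E c Θ (i0 q)).inverse (F s q (0, 1)))
  have eΓ : ∀ s q, (vv E c Θ (i0 q)).comp (Manifold.apL (Γ s q)) = F s q := fun s q =>
    ContinuousLinearMap.ext fun v => by
      have : ap (Γ s q) v = (vv E c Θ (i0 q)).inverse (F s q v) :=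
        Manifold.ap_of ((vv E c Θ (i0 q)).inverse.comp (F s q)) v
      rw [ContinuousLinearMap.comp_apply, Manifold.apL_apply, this, (vi _).self_apply_inverse]
  have eΓ' : ∀ s q v, vv E c Θ (i0 q) (ap (Γ s q) v) = F s q v := fun s q v =>
    congrArg (fun T : Q →L[ℝ] E => T v) (eΓ s q)
  have ext : ∀ p A B, (∀ v, vv E c Θ p (ap A v) = vv E c Θ p (ap B v)) → A = B := fun p A B e => by
    have k1 := (vi p).injective (e (1, 0))
    have k2 := (vi p).injective (e (0, 1))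
    simp only [ap, one_smul, zero_smul, add_zero, zero_add] at k1 k2
    exact Prod.ext k1 k2
  have cΓ : ∀ v, Continuous fun z : UI × Q => (vv E c Θ (i0 z.2)).inverse (F z.1 z.2 v) :=
    fun v => continuous_iff_continuousAt.mpr fun z => solve_cont
      (A := fun z : UI × Q => ((J (Θ (i0 z.2))).comp (md E Θ (i0 z.2))).comp (c.e (i0 z.2)))
      (y := fun z : UI × Q => J (f z.2) (F z.1 z.2 v))
      ((((jmd_smooth hJ hΘ).continuous.clm_comp c.e_smooth.continuous).comp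
        (si.continuous.comp continuous_snd)).continuousAt) ((Ji _).comp (vi _).injective)
      (hJ.continuous.comp (h.cont.comp
        (continuous_fst.prodMk (continuous_snd.prodMk continuous_const)))).continuousAt
      (Eventually.of_forall fun z => by
        rw [← h0]
        exact congrArg (J (Θ (i0 z.2))) ((vi _).self_apply_inverse _))
  have Γa : ∀ s q, Γ s (aff 1 (1 / 2, 0) q) = rho 1 wS xS (Γ s q) := fun s q =>
    ext _ _ _ fun v => by
      rw [eΓ', ap_rho, ← LL_i0 1 xS wS, vS, eΓ', aff_Ra, ← h.inv s 1 0 q, deck_Ra]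
      simp [SymB.linA_apply]
  have Γb : ∀ s q, Γ s (aff κ (0, 1 / 2) q) = rho κ wT xT (Γ s q) := fun s q =>
    ext _ _ _ fun v => by
      rw [eΓ', ap_rho, ← LL_i0 κ xT wT, vT, eΓ', aff_Rb, ← h.inv s 0 1 q, deck_Rb]
      simp [SymB.linA_apply, ← mul_assoc, sq_sign hκ]
  obtain ⟨H, K, hH, hemb, Kc, Ki, K0, K1, H0, KΓ, Kd, He, Ke⟩ :=
    hG κ wS xS wT xT hκ hwS hxS hwT hxT c ci cN cS cT Γ ((cΓ _).prodMk (cΓ _))
      (fun s => per_of_gen
        (fun q => by rw [← Ra_Ra, ← aff_Ra, ← aff_Ra, Γa, Γa, SymB.rho_rho (Or.inl rfl) hwS hxS])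
        fun q => by rw [← Rb_Rb hκ, ← aff_Rb, ← aff_Rb, Γb, Γb, SymB.rho_rho hκ hwT hxT])
      (fun s q => (Manifold.inj_iff _).mpr fun v w e => h.inj s q (by rw [← eΓ', ← eΓ', e]))
      (fun q => ext (i0 q) _ _ fun v => by
        rw [eΓ', h.start, ← funext h0, ← vv_dd c hΘ si]
        rfl)
      (fun q => (vtr _ _).mp (by rw [eΓ, h0]; exact h.tr q)) Γa Γb
  have HB : ∀ l m n q, H l (deck κ m n q) = BB κ wS xS wT xT m n (H l q) := fun l =>
    deck_BB hκ hwS hxS hwT hxT (fun q => by rw [← aff_Ra, (He l q).1])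
      fun q => by rw [← aff_Rb, (He l q).2]
  have cH : Continuous fun z : UI × UI × Q × Q => H z.1 z.2.2.1 :=
    hH.continuous.comp ((continuous_subtype_val.comp continuous_fst).prodMk
      continuous_snd.snd.fst)
  have cK : Continuous fun z : UI × UI × Q × Q => K z.1 z.2.1 z.2.2.1 :=
    Kc.comp (continuous_fst.prodMk (continuous_snd.fst.prodMk continuous_snd.snd.fst))
  have cT : Continuous fun z : UI × UI × Q × Q => (⟨Θ (H z.1 z.2.2.1),
      vv E c Θ (H z.1 z.2.2.1) (ap (K z.1 z.2.1 z.2.2.1) z.2.2.2)⟩ : TangentBundle 𝓘(ℝ, E) M) :=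
    tm_cont hΘ cH ((c.e_smooth.continuous.comp cH).clm_apply
      ((continuous_snd.snd.snd.fst.smul cK.fst).add (continuous_snd.snd.snd.snd.smul cK.snd)))
  refine ⟨fun z => Θ (H z.1 z.2), fun l s q => (vv E c Θ (H l q)).comp (Manifold.apL (K l s q)),
    hΘ.comp hH.contMDiff, cT, fun l => ⟨hΘ.comp (hemb l).smooth.contMDiff, fun q q' => ?_,
      cT.comp (continuous_const.prodMk continuous_id), fun s => inv_deck hκ
        (F := fun q => (vv E c Θ (H l q)).comp (Manifold.apL (K l s q))) (fun q v => ?_)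
        fun q v => ?_, fun s q => (vi _).injective.comp ((Manifold.inj_iff _).mp (Ki l s q)),
      fun q => by simp only [K0]; exact vv_dd c hΘ (hemb l).smooth q, fun q => (vtr _ _).mpr (K1 l q)⟩,
    fun l m n q => by simp only [HB, tB], fun q => by simp only [H0, h0], ?_, fun s => ?_,
    fun z => hΘU _⟩
  · rw [hfib]
    exact ⟨fun ⟨m, n, e⟩ => ⟨m, n, (hemb l).inj (e.trans (HB l m n q).symm)⟩,
      fun ⟨m, n, e⟩ => ⟨m, n, e ▸ HB l m n q⟩⟩
  · simp only [ContinuousLinearMap.comp_apply, Manifold.apL_apply]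
    rw [← aff_Ra, (He l q).1, (Ke l s q).1, ap_rho, vS, one_mul]
  · simp only [ContinuousLinearMap.comp_apply, Manifold.apL_apply]
    rw [← aff_Rb, (He l q).2, (Ke l s q).2, ap_rho, vT]
  · funext s q
    simp only [KΓ, Set.Icc.coe_zero, H0, eΓ]
  · funext q
    simp only [Kd]

end

end Pool.Agent.Lib.MP_72f1d0_gt.Eq.Man
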