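import Pool.Agent.Lib.MP_72f1d0_gt.Manifold1
import Pool.Agent.Lib.MP_72f1d0_gt.Eq.ManEmb

/-!
An invariant tubular neighbourhood.
-/

set_option linter.unusedSectionVars false

open scoped ContDiff Manifold Topology
open Set Filter

namespace Pool.Agent.Lib.MP_72f1d0_gt.Eq.Man

noncomputable section

variable {E : Type*} [NormedAddCommGroup E] [NormedSpace ℝ E] [FiniteDimensional ℝ E]
  {M : Type*} [TopologicalSpace M] [ChartedSpace E M] [IsManifold 𝓘(ℝ, E) ∞ M]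
  {V : Type*} [NormedAddCommGroup V] [NormedSpace ℝ V]

/-- the normal frame as a linear map on the fibre -/
def nf (n₁ n₂ : Q → V) (q : Q) : ℂ →L[ℝ] V :=
  Complex.reCLM.smulRight (n₁ q) + Complex.imCLM.smulRight (n₂ q)

theorem nf_apply (n₁ n₂ : Q → V) (q : Q) (z : ℂ) :
    nf n₁ n₂ q z = z.re • n₁ q + z.im • n₂ q := by
  simp [nf]

/-- the projection to the plane -/
def pq (p : G) : Q := (p.1.re, p.1.im)

theorem inv_of_inj {X : Type*} [NormedAddCommGroup X] [NormedSpace ℝ X] [FiniteDimensional ℝ X]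
    (hX : Module.finrank ℝ X = Module.finrank ℝ E) (A : X →L[ℝ] E) (hA : Function.Injective A) :
    A.IsInvertible :=
  ⟨(LinearMap.linearEquivOfInjective (A : X →ₗ[ℝ] E) hA hX).toContinuousLinearEquiv,
    by ext v; simp⟩

/-- local structure near a point of the zero section -/
theorem loc {X : Type*} [NormedAddCommGroup X] [NormedSpace ℝ X] [FiniteDimensional ℝ X]
    (hX : Module.finrank ℝ X = Module.finrank ℝ E) {Th : X → M} {x₀ : X}
    (hs : ∀ᶠ x in 𝓝 x₀, ContMDiffAt 𝓘(ℝ, X) 𝓘(ℝ, E) ∞ Th x)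
    (hi : Function.Injective (md E Th x₀)) :
    (∀ᶠ x in 𝓝 x₀, Function.Injective (md E Th x)) ∧ ∃ U ∈ 𝓝 x₀, Set.InjOn Th U := by
  have : CompleteSpace X := FiniteDimensional.complete ℝ X
  have h0 := hs.self_of_nhds
  have hsrc := mem_chart_source E (Th x₀)
  have hg : ContDiffAt ℝ ∞ (chartAt E (Th x₀) ∘ Th) x₀ :=
    ((chart_smooth hsrc).comp x₀ h0).contDiffAt
  have hd := md_chart (h0.mdifferentiableAt (by simp)) hsrc
  have hinj : Function.Injective ((mc E (Th x₀) (Th x₀)).comp (md E Th x₀)) := by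
    intro v v' h
    apply hi
    have := congrArg (mcs (Th x₀) (chartAt E (Th x₀) (Th x₀))) h
    simpa only [ContinuousLinearMap.comp_apply, mcs_mc hsrc] using this
  constructor
  · have e1 := inj_eventually (hg.continuousAt_fderiv (by simp)) (by rwa [hd.fderiv])
    have e2 : ∀ᶠ x in 𝓝 x₀, Th x ∈ (chartAt E (Th x₀)).source :=
      h0.continuousAt.preimage_mem_nhds ((chartAt E (Th x₀)).open_source.mem_nhds hsrc)
    filter_upwards [e1, e2, hs] with x hB a2 a3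
    rw [(md_chart (a3.mdifferentiableAt (by simp)) a2).fderiv] at hB
    exact Function.Injective.of_comp (f := mc E (Th x₀) (Th x)) hB
  · obtain ⟨A, hA⟩ := inv_of_inj hX _ hinj
    have hst : HasStrictFDerivAt (chartAt E (Th x₀) ∘ Th) (A : X →L[ℝ] E) x₀ :=
      hg.hasStrictFDerivAt' (hA ▸ hd) (by simp)
    refine ⟨_, hst.eventually_left_inverse, fun x hx y hy h => ?_⟩
    simp only [Set.mem_ofPred_eq, Function.comp] at hx hy
    rw [← hx, ← hy, h]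

theorem transfer {X : Type*} [NormedAddCommGroup X] [NormedSpace ℝ X] {Th : X → M} {x t : X}
    (hp : ∀ y, Th (y + -t) = Th y)
    (hs : ContMDiffAt 𝓘(ℝ, X) 𝓘(ℝ, E) ∞ Th x) (hi : Function.Injective (md E Th x)) :
    ContMDiffAt 𝓘(ℝ, X) 𝓘(ℝ, E) ∞ Th (x + t) ∧ Function.Injective (md E Th (x + t)) := by
  have h2 : (Th ∘ fun y => y + -t) = Th := funext hp
  have e : x + t + -t = x := by simp
  constructor
  · rw [← h2]
    refine ContMDiffAt.comp (x + t) (by rwa [e]) ?_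
    exact (contDiff_id.add contDiff_const).contMDiff.contMDiffAt
  · have hk : HasFDerivAt (fun y : X => y + -t) (ContinuousLinearMap.id ℝ _) (x + t) :=
      (hasFDerivAt_id _).add_const _
    have h1 := md_comp (E := E) (g := Th) hk (by rw [e]; exact hs.mdifferentiableAt (by simp))
    rw [h2, e] at h1
    rw [h1]
    exact hi

theorem lat_neg (m : ℤ × ℤ) : lat (-m) = -lat m := by
  simp [lat]

theorem exists_radius [T2Space M] (hE : Module.finrank ℝ E = 4) {Th : Q × ℂ → M}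
    (per : ∀ q m z, Th (q + lat m, z) = Th (q, z))
    (smooth : ∀ q, ∀ᶠ x in 𝓝 ((q, 0) : Q × ℂ), ContMDiffAt 𝓘(ℝ, Q × ℂ) 𝓘(ℝ, E) ∞ Th x)
    (hi : ∀ q, Function.Injective (md E Th (q, 0))) {R : Q × ℂ → Q × ℂ → Prop}
    (Rp : ∀ q q' z z' m m', R (q, z) (q', z') → R (q + lat m, z) (q' + lat m', z'))
    (hf : ∀ q q', Th (q, 0) = Th (q', 0) → ∃ γ : Q × ℂ → Q × ℂ, Continuous γ ∧
      γ (q', 0) = (q, 0) ∧ ∀ y, Th (γ y) = Th y ∧ R (γ y) y)
    {U : Set M} (hU : IsOpen U) (hfU : ∀ q, Th (q, 0) ∈ U) :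
    ∃ d : ℝ, 0 < d ∧ (∀ q, ∀ z ∈ Metric.ball (0 : ℂ) d,
      (ContMDiffAt 𝓘(ℝ, Q × ℂ) 𝓘(ℝ, E) ∞ Th (q, z) ∧ Function.Injective (md E Th (q, z))) ∧
        Th (q, z) ∈ U) ∧
      ∀ q q', ∀ z ∈ Metric.ball (0 : ℂ) d, ∀ z' ∈ Metric.ball (0 : ℂ) d, Th (q, z) = Th (q', z') →
        R (q, z) (q', z') := by
  have hX : Module.finrank ℝ (Q × ℂ) = Module.finrank ℝ E := by simp [hE]
  have hc : IsCompact (Icc ((0, 0) : Q) (1, 1)) := isCompact_Icc
  have hcont : ∀ q, ContinuousAt Th (q, 0) := fun q => (smooth q).self_of_nhds.continuousAt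
  have e1 : ∀ᶠ z in 𝓝 (0 : ℂ), ∀ q ∈ Icc ((0, 0) : Q) (1, 1),
      (ContMDiffAt 𝓘(ℝ, Q × ℂ) 𝓘(ℝ, E) ∞ Th (q, z) ∧ Function.Injective (md E Th (q, z))) ∧
        Th (q, z) ∈ U := by
    refine hc.eventually_forall_of_forall_eventually fun q _ => ?_
    exact (continuous_swap.continuousAt (x := ((0, q) : ℂ × Q))).eventually
      (((smooth q).and (loc hX (smooth q) (hi q)).1).and
        ((hcont q).preimage_mem_nhds (hU.mem_nhds (hfU q))))
  have e2 : ∀ᶠ z in 𝓝 ((0, 0) : ℂ × ℂ), ∀ k ∈ Icc ((0, 0) : Q) (1, 1) ×ˢ Icc ((0, 0) : Q) (1, 1),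
      Th (k.1, z.1) = Th (k.2, z.2) → R (k.1, z.1) (k.2, z.2) := by
    refine (hc.prod hc).eventually_forall_of_forall_eventually fun k _ => ?_
    have c1 : ContinuousAt (fun y : (ℂ × ℂ) × Q × Q => ((y.2.1, y.1.1) : Q × ℂ)) ((0, 0), k) := by
      fun_prop
    have c2 : ContinuousAt (fun y : (ℂ × ℂ) × Q × Q => ((y.2.2, y.1.2) : Q × ℂ)) ((0, 0), k) := by
      fun_prop
    by_cases he : Th (k.1, 0) = Th (k.2, 0)
    · obtain ⟨γ, hγ, h0, hm⟩ := hf _ _ he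
      obtain ⟨O, hO, hinj⟩ := (loc hX (smooth k.1) (hi k.1)).2
      have c3 := hγ.continuousAt.comp c2
      have hO' : O ∈ 𝓝 (γ (k.2, 0)) := by rwa [h0]
      filter_upwards [c1.preimage_mem_nhds hO, c3.preimage_mem_nhds hO'] with y a1 a2 h
      have e : (y.2.1, y.1.1) = γ (y.2.2, y.1.2) := hinj a1 a2 (h.trans (hm _).1.symm)
      rw [e]
      exact (hm _).2
    · have d1 : ContinuousAt (fun y : (ℂ × ℂ) × Q × Q => Th (y.2.1, y.1.1)) ((0, 0), k) :=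
        ContinuousAt.comp_of_eq (hcont k.1) c1 rfl
      have d2 : ContinuousAt (fun y : (ℂ × ℂ) × Q × Q => Th (y.2.2, y.1.2)) ((0, 0), k) :=
        ContinuousAt.comp_of_eq (hcont k.2) c2 rfl
      filter_upwards [(d1.ne_iff_eventually_ne d2).1 he] with y a1 h
      exact absurd h a1
  obtain ⟨d₁, hd₁, b₁⟩ := Metric.eventually_nhds_iff_ball.1 e1
  obtain ⟨d₂, hd₂, b₂⟩ := Metric.eventually_nhds_iff_ball.1 e2
  refine ⟨min d₁ d₂, lt_min hd₁ hd₂, fun q z hz => ?_, fun q q' z hz z' hz' h => ?_⟩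
  · obtain ⟨k, hk, m, rfl⟩ := Manifold.exists_fund q
    obtain ⟨⟨a1, a2⟩, a3⟩ := b₁ z (Metric.ball_subset_ball (min_le_left _ _) hz) k hk
    have := transfer (t := (lat m, 0)) (fun y => by
      have := per y.1 (-m) y.2
      rw [lat_neg] at this
      rw [← this]
      congr 1
      ext <;> simp) a1 a2
    exact ⟨by simpa using this, by rwa [per]⟩
  · obtain ⟨k, hk, m, rfl⟩ := Manifold.exists_fund q
    obtain ⟨k', hk', m', rfl⟩ := Manifold.exists_fund q'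
    rw [per, per] at h
    exact Rp _ _ _ _ _ _ (b₂ (z, z') (by
      rw [← ball_prod_same]
      exact ⟨Metric.ball_subset_ball (min_le_right _ _) hz,
        Metric.ball_subset_ball (min_le_right _ _) hz'⟩) (k, k') ⟨hk, hk'⟩ h)

theorem exists_shrink {d : ℝ} (hd : 0 < d) : ∃ (σ : ℂ → ℂ) (c : ℝ → ℝ), ContDiff ℝ ∞ σ ∧
    Function.Injective σ ∧ (∀ z, σ z ∈ Metric.ball (0 : ℂ) d) ∧
    (∀ z, Function.Injective (fderiv ℝ σ z)) ∧ (∀ t, 0 < c t) ∧ ∀ z, σ z = c ‖z‖ • z := by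
  let e : OpenPartialHomeomorph ℂ ℂ := OpenPartialHomeomorph.univBall (0 : ℂ) d
  have hs : ∀ z, z ∈ e.source := fun z => by simp [e]
  have ht : ∀ z, e z ∈ Metric.ball (0 : ℂ) d := fun z => by
    rw [← OpenPartialHomeomorph.univBall_target (E := ℂ) (0 : ℂ) hd]
    exact e.map_source (hs z)
  have hc : ContDiff ℝ ∞ e := OpenPartialHomeomorph.contDiff_univBall
  refine ⟨e, fun t => d * (√(1 + t ^ 2))⁻¹, hc, fun z z' h => e.injOn (hs z) (hs z') h, ht,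
    fun z => ?_, fun t => by positivity, fun z => ?_⟩
  · have h1 : DifferentiableAt ℝ e.symm (e z) :=
      ((OpenPartialHomeomorph.contDiffOn_univBall_symm (n := ⊤) (c := (0 : ℂ)) (r := d)).contDiffAt
        (Metric.isOpen_ball.mem_nhds (ht z))).differentiableAt (by simp)
    have h2 := fderiv_comp z h1 (hc.differentiable (by simp) z)
    have h3 : (e.symm ∘ e : ℂ → ℂ) = id := funext fun z => e.left_inv (hs z)
    rw [h3, fderiv_id] at h2
    intro v v' h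
    have c : ∀ u, u = fderiv ℝ e.symm (e z) (fderiv ℝ e z u) := fun u =>
      congrArg (fun A : ℂ →L[ℝ] ℂ => A u) h2
    rw [c v, c v', h]
  · simp only [e, OpenPartialHomeomorph.univBall, dif_pos hd]
    change d • (√(1 + ‖z‖ ^ 2))⁻¹ • z + 0 = _
    rw [add_zero, smul_smul]

/-- The invariant tube. -/
theorem tube [T2Space M] (hE : Module.finrank ℝ E = 4) {f : Q → M} (pf : Per f)
    {Ex : Q × V → M} {P : M → (V →L[ℝ] E)}
    (inv : ∀ q q' y, f q = f q' → Ex (q, y) = Ex (q', y)) (zero : ∀ q, Ex (q, 0) = f q)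
    (smooth : ∀ q, ∀ᶠ x in 𝓝 ((q, 0) : Q × V), ContMDiffAt 𝓘(ℝ, Q × V) 𝓘(ℝ, E) ∞ Ex x)
    (fib : ∀ q y, md E Ex (q, 0) (0, y) = P (f q) y)
    {n₁ n₂ : Q → V} (s₁ : ContDiff ℝ ∞ n₁) (s₂ : ContDiff ℝ ∞ n₂) (p₁ : Per n₁) (p₂ : Per n₂)
    (hn : ∀ (q v : Q) (a b : ℝ), md E f q v + a • P (f q) (n₁ q) + b • P (f q) (n₂ q) = 0 →
      v = 0 ∧ a = 0 ∧ b = 0)
    (hf : ∀ q q', f q = f q' → ∃ (δ : Q → Q) (r : ℂ → ℂ), Continuous δ ∧ Continuous r ∧
      δ q' = q ∧ ∀ y z, f (δ y) = f y ∧ nf n₁ n₂ (δ y) (r z) = nf n₁ n₂ y z ∧ ‖r z‖ = ‖z‖)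
    {U : Set M} (hU : IsOpen U) (hfU : ∀ q, f q ∈ U) :
    ∃ Θ : G → M, ContMDiff 𝓘(ℝ, G) 𝓘(ℝ, E) ∞ Θ ∧ (∀ p, (md E Θ p).IsInvertible) ∧
      (∀ p p', Θ p = Θ p' ↔ f (pq p) = f (pq p') ∧
        nf n₁ n₂ (pq p) p.2 = nf n₁ n₂ (pq p') p'.2 ∧ ‖p.2‖ = ‖p'.2‖) ∧
      (∀ q, Θ (i0 q) = f q) ∧ ∀ p, Θ p ∈ U := by
  let Φ : Q × ℂ → Q × V := fun x => (x.1, nf n₁ n₂ x.1 x.2)
  have hΦ : ContDiff ℝ ∞ Φ := by
    simp only [Φ, nf_apply]
    exact contDiff_fst.prodMk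
      (((Complex.reCLM.contDiff.comp contDiff_snd).smul (s₁.comp contDiff_fst)).add
        ((Complex.imCLM.contDiff.comp contDiff_snd).smul (s₂.comp contDiff_fst)))
  have Φ0 : ∀ q, Φ (q, 0) = (q, 0) := fun q => by simp [Φ]
  have pn : ∀ q m z, nf n₁ n₂ (q + lat m) z = nf n₁ n₂ q z := fun q m z => by
    rw [nf_apply, nf_apply, p₁, p₂]
  have T0 : ∀ q, (Ex ∘ Φ) (q, 0) = f q := fun q => by rw [Function.comp_apply, Φ0, zero]
  have Ti : ∀ x y : Q × ℂ, f x.1 = f y.1 → nf n₁ n₂ x.1 x.2 = nf n₁ n₂ y.1 y.2 →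
      (Ex ∘ Φ) x = (Ex ∘ Φ) y := fun x y h1 h2 => by
    simp only [Function.comp_apply, Φ, h2]
    exact inv _ _ _ h1
  have Ts : ∀ q, ∀ᶠ x in 𝓝 ((q, 0) : Q × ℂ), ContMDiffAt 𝓘(ℝ, Q × ℂ) 𝓘(ℝ, E) ∞ (Ex ∘ Φ) x :=
    fun q => by
      have : Tendsto Φ (𝓝 (q, 0)) (𝓝 (q, 0)) := by
        have := hΦ.continuous.tendsto (q, 0)
        rwa [Φ0] at this
      filter_upwards [this.eventually (smooth q)] with x hx
      exact hx.comp x hΦ.contMDiff.contMDiffAt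
  have Tinj : ∀ q, Function.Injective (md E (Ex ∘ Φ) (q, 0)) := fun q => by
    have hd := (Ts q).self_of_nhds.mdifferentiableAt (by simp)
    have h1 := md_comp (E := E) (hasFDerivAt_prodMk_left (𝕜 := ℝ) q (0 : ℂ)) hd
    rw [show ((Ex ∘ Φ) ∘ fun v : Q => ((v, 0) : Q × ℂ)) = f from funext T0] at h1
    have h2 := md_comp (E := E) (hasFDerivAt_prodMk_right (𝕜 := ℝ) q (0 : ℂ)) hd
    have hk : HasFDerivAt (fun z : ℂ => ((q, nf n₁ n₂ q z) : Q × V))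
        ((0 : ℂ →L[ℝ] Q).prod (nf n₁ n₂ q)) 0 :=
      (hasFDerivAt_const q 0).prodMk (nf n₁ n₂ q).hasFDerivAt
    have h3 := md_comp (E := E) (g := Ex) hk (by
      rw [map_zero]; exact (smooth q).self_of_nhds.mdifferentiableAt (by simp))
    rw [map_zero] at h3
    rw [injective_iff_map_eq_zero]
    rintro ⟨v, z⟩ h
    have h4 : md E (Ex ∘ Φ) (q, 0) (v, z) =
        md E (Ex ∘ Φ) (q, 0) (v, 0) + md E (Ex ∘ Φ) (q, 0) (0, z) := by
      rw [← map_add]; simp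
    have h5 : md E (Ex ∘ Φ) (q, 0) (v, 0) = md E f q v := by rw [h1]; rfl
    have h6 : md E (Ex ∘ Φ) (q, 0) (0, z) = P (f q) (nf n₁ n₂ q z) := by
      rw [← fib]
      exact (congrArg (fun A : ℂ →L[ℝ] E => A z) h2).symm.trans
        (congrArg (fun A : ℂ →L[ℝ] E => A z) h3)
    rw [h4, h5, h6, nf_apply, map_add, map_smul, map_smul, ← add_assoc] at h
    obtain ⟨a1, a2, a3⟩ := hn _ _ _ _ h
    exact Prod.ext a1 (Complex.ext a2 a3)
  obtain ⟨d, hd, hs, hi⟩ := exists_radius hE (Th := Ex ∘ Φ)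
    (fun q m z => Ti _ _ (pf q m) (pn q m z)) Ts Tinj
    (R := fun x y => f x.1 = f y.1 ∧ nf n₁ n₂ x.1 x.2 = nf n₁ n₂ y.1 y.2 ∧ ‖x.2‖ = ‖y.2‖)
    (fun q q' z z' m m' h => by simpa only [pf q m, pf q' m', pn] using h)
    (fun q q' h => by
      rw [T0, T0] at h
      obtain ⟨δ, r, c1, c2, h0, hr⟩ := hf q q' h
      refine ⟨Prod.map δ r, c1.prodMap c2, Prod.ext h0 ?_,
        fun y => ⟨Ti _ _ (hr y.1 y.2).1 (hr y.1 y.2).2.1, hr y.1 y.2⟩⟩
      simpa using (hr q 0).2.2) hU (fun q => by rw [T0]; exact hfU q)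
  obtain ⟨σ, c, hσ, σi, σb, σd, hc, σe⟩ := exists_shrink hd
  let Ψ : G → Q × ℂ := Prod.map Complex.equivRealProdCLM σ
  have hΨ : ContDiff ℝ ∞ Ψ := Complex.equivRealProdCLM.contDiff.prodMap hσ
  refine ⟨(Ex ∘ Φ) ∘ Ψ, fun p => (hs _ _ (σb p.2)).1.1.comp p hΨ.contMDiff.contMDiffAt, fun p => ?_,
    fun p p' => ⟨fun h => ?_, fun h => ?_⟩, fun q => ?_, fun p => (hs _ _ (σb p.2)).2⟩
  · have hk : HasFDerivAt Ψ ((Complex.equivRealProdCLM : ℂ →L[ℝ] Q).prodMap (fderiv ℝ σ p.2)) p :=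
      HasFDerivAt.prodMap p Complex.equivRealProdCLM.hasFDerivAt
        (hσ.differentiable (by simp) p.2).hasFDerivAt
    have h1 := md_comp (E := E) (g := Ex ∘ Φ) hk
      ((hs _ _ (σb p.2)).1.1.mdifferentiableAt (by simp))
    refine inv_of_inj (by simp [hE]) (md E ((Ex ∘ Φ) ∘ Ψ) p) ?_
    rw [h1]
    exact (hs _ _ (σb p.2)).1.2.comp
      (Function.Injective.prodMap Complex.equivRealProdCLM.injective (σd p.2))
  · obtain ⟨a1, a2, a3⟩ := hi _ _ _ (σb p.2) _ (σb p'.2) h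
    have hn : ‖p.2‖ = ‖p'.2‖ := by
      have e : ∀ z : ℂ, σ (‖z‖ : ℂ) = (‖σ z‖ : ℂ) := fun z => by
        rw [σe, σe z, norm_smul, Complex.norm_real, norm_norm, Real.norm_eq_abs, abs_of_pos (hc _)]
        simp
      have := σi ((e p.2).trans ((congrArg _ a3).trans (e p'.2).symm))
      exact_mod_cast this
    refine ⟨a1, ?_, hn⟩
    simp only [σe, map_smul, hn] at a2
    exact smul_right_injective V (hc _).ne' a2
  · refine Ti _ _ h.1 ?_
    change nf n₁ n₂ (pq p) (σ p.2) = nf n₁ n₂ (pq p') (σ p'.2)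
    rw [σe, σe, map_smul, map_smul, h.2.1, h.2.2]
  · have : Ψ (i0 q) = (q, 0) := by
      ext <;> simp [Ψ, i0, σe]
    rw [Function.comp_apply, this, T0]

end

end Pool.Agent.Lib.MP_72f1d0_gt.Eq.Man
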