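import Pool.Agent.Lib.MP_72f1d0_gt.Eq.ManCtx
import Pool.Agent.Lib.MP_72f1d0_gt.Eq.ManTube

/-!
The equivariant tube around a formal transverse torus or Klein bottle.
-/

set_option linter.unusedSectionVars false

open scoped ContDiff Manifold Topology RealInnerProductSpace
open Set Filter VectorField

namespace Pool.Agent.Lib.MP_72f1d0_gt.Eq.Man

open Stmt

noncomputable section

section Deck

lemma int_equi {Y : Type*} {a b : ℤ → Y} {φ : Y → Y} (hφ : Function.Injective φ)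
    (ha : ∀ m, a (m + 1) = φ (a m)) (hb : ∀ m, b (m + 1) = φ (b m)) (h0 : a 0 = b 0) (m : ℤ) :
    a m = b m := by
  induction m using Int.induction_on with
  | zero => exact h0
  | succ k ih => rw [ha, hb, ih]
  | pred k ih => exact hφ (by rw [← ha, ← hb, sub_add_cancel, ih])

lemma sign_ne {a : ℝ} (ha : a = 1 ∨ a = -1) : a ≠ 0 := by
  rcases ha with rfl | rfl <;> norm_num

lemma sign_zpow {a : ℝ} (ha : a = 1 ∨ a = -1) (n : ℤ) : a ^ n = 1 ∨ a ^ n = -1 := by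
  rcases ha with rfl | rfl
  · simp
  · rcases Int.even_or_odd n with h | h
    · exact Or.inl h.neg_one_zpow
    · exact Or.inr h.neg_one_zpow

lemma sign_mul {a b : ℝ} (ha : a = 1 ∨ a = -1) (hb : b = 1 ∨ b = -1) : a * b = 1 ∨ a * b = -1 := by
  rcases ha with rfl | rfl <;> rcases hb with rfl | rfl <;> simp

lemma deck_Ra (κ : ℝ) (q : Q) : deck κ 1 0 q = Ra q := by ext <;> simp [deck, Ra]

lemma deck_Rb (κ : ℝ) (q : Q) : deck κ 0 1 q = Rb κ q := by ext <;> simp [deck, Rb]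

lemma aff_Ra (q : Q) : aff 1 (1 / 2, 0) q = Ra q := by ext <;> simp [aff, Ra]

lemma aff_Rb (κ : ℝ) (q : Q) : aff κ (0, 1 / 2) q = Rb κ q := by ext <;> simp [aff, Rb]

lemma deck_equi {Y : Type*} {κ : ℝ} (hκ : κ = 1 ∨ κ = -1) {g : Q → Y} {φ ψ : Y → Y}
    (hφ : Function.Injective φ) (hψ : Function.Injective ψ) (h1 : ∀ q, g (Ra q) = φ (g q))
    (h2 : ∀ q, g (Rb κ q) = ψ (g q)) {q : Q} {B : ℤ → ℤ → Y} (b0 : B 0 0 = g q)
    (b1 : ∀ m n, B (m + 1) n = φ (B m n)) (b2 : ∀ n, B 0 (n + 1) = ψ (B 0 n)) (m n : ℤ) :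
    g (deck κ m n q) = B m n := by
  refine int_equi (a := fun m => g (deck κ m n q)) (b := fun m => B m n) hφ (fun m => ?_)
    (fun m => b1 m n) (int_equi (a := fun n => g (deck κ 0 n q)) (b := fun n => B 0 n) hψ
      (fun n => ?_) b2 ?_ n) m
  · rw [← h1]; congr 1; ext <;> simp [deck, Ra]; ring
  · rw [← h2]; congr 1; ext <;> simp [deck, Rb, zpow_add_one₀ (sign_ne hκ)] <;> ring
  · rw [b0]; congr 1; ext <;> simp [deck]

lemma deck_signs {V : Type*} [AddCommGroup V] [Module ℝ V] {κ a b : ℝ} (hκ : κ = 1 ∨ κ = -1)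
    (ha : a = 1 ∨ a = -1) (hb : b = 1 ∨ b = -1) {g : Q → V} (h1 : ∀ q, g (Ra q) = a • g q)
    (h2 : ∀ q, g (Rb κ q) = b • g q) (m n : ℤ) (q : Q) :
    g (deck κ m n q) = (a ^ m * b ^ n) • g q :=
  deck_equi hκ (smul_right_injective V (sign_ne ha)) (smul_right_injective V (sign_ne hb)) h1 h2
    (B := fun m n => (a ^ m * b ^ n) • g q) (by simp)
    (fun m n => by rw [smul_smul, zpow_add_one₀ (sign_ne ha)]; congr 1; ring)
    (fun n => by rw [smul_smul, zpow_add_one₀ (sign_ne hb)]; congr 1; ring) m n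

/-- The deck transformations of the tube. -/
def BB (κ wS xS wT xT : ℝ) (m n : ℤ) (p : G) : G :=
  LL (κ ^ n) (xS ^ m * xT ^ n) (wS ^ m * wT ^ n) p + i0 (m / 2, n / 2)

lemma BB_S (κ wS xS wT xT : ℝ) (p : G) :
    BB κ wS xS wT xT 1 0 p = LL 1 xS wS p + i0 (1 / 2, 0) := by simp [BB]

lemma BB_T (κ wS xS wT xT : ℝ) (p : G) :
    BB κ wS xS wT xT 0 1 p = LL κ xT wT p + i0 (0, 1 / 2) := by simp [BB]

lemma LL_i0 (k x w : ℝ) (v q : Q) : LL k x w (i0 q) + i0 v = i0 (aff k v q) := by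
  simp [SymB.LL_apply, i0, aff, Complex.ext_iff]

lemma deck_BB {κ wS xS wT xT : ℝ} (hκ : κ = 1 ∨ κ = -1) (hwS : wS = 1 ∨ wS = -1)
    (hxS : xS = 1 ∨ xS = -1) (hwT : wT = 1 ∨ wT = -1) (hxT : xT = 1 ∨ xT = -1) {H : Q → G}
    (h1 : ∀ q, H (Ra q) = LL 1 xS wS (H q) + i0 (1 / 2, 0))
    (h2 : ∀ q, H (Rb κ q) = LL κ xT wT (H q) + i0 (0, 1 / 2)) (m n : ℤ) (q : Q) :
    H (deck κ m n q) = BB κ wS xS wT xT m n (H q) := by
  have inj : ∀ {k x w : ℝ} (b : G), k = 1 ∨ k = -1 → x = 1 ∨ x = -1 → w = 1 ∨ w = -1 →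
      Function.Injective fun p => LL k x w p + b := fun b hk hx hw p p' h => by
    rw [← LL_LL hk hx hw p, add_right_cancel h, LL_LL hk hx hw]
  refine deck_equi hκ (inj _ (Or.inl rfl) hxS hwS) (inj _ hκ hxT hwT) h1 h2
    (B := fun m n => BB κ wS xS wT xT m n (H q)) ?_ (fun m n => ?_) (fun n => ?_) m n
  · simp [BB, SymB.LL_apply, i0, Complex.ext_iff]
  · simp [BB, SymB.LL_apply, i0, Complex.ext_iff, zpow_add_one₀ (sign_ne hxS),
      zpow_add_one₀ (sign_ne hwS)]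
    refine ⟨by ring, by ring, by ring⟩
  · simp [BB, SymB.LL_apply, i0, Complex.ext_iff, zpow_add_one₀ (sign_ne hxT),
      zpow_add_one₀ (sign_ne hwT), zpow_add_one₀ (sign_ne hκ)]
    refine ⟨⟨by ring, by ring⟩, by ring, by ring⟩

end Deck

variable {E : Type*} [NormedAddCommGroup E] [NormedSpace ℝ E] [FiniteDimensional ℝ E]
  {M : Type*} [TopologicalSpace M] [ChartedSpace E M] [IsManifold 𝓘(ℝ, E) ∞ M]

/-- A formal transverse embedding, lifted to the plane. -/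
structure PF (κ : ℝ) (D : M → Submodule ℝ E) (f : Q → M) (F : UI → Q → (Q →L[ℝ] E)) : Prop where
  smooth : ContMDiff 𝓘(ℝ, Q) 𝓘(ℝ, E) ∞ f
  fib : ∀ q q', f q = f q' ↔ ∃ m n : ℤ, q' = deck κ m n q
  cont : Continuous fun z : UI × Q × Q =>
    (⟨f z.2.1, F z.1 z.2.1 z.2.2⟩ : TangentBundle 𝓘(ℝ, E) M)
  inv : ∀ s m n q v, F s (deck κ m n q) (SymB.linA (κ ^ n) v) = F s q v
  inj : ∀ s q, Function.Injective (F s q)
  start : ∀ q, F 0 q = md E f q
  tr : ∀ q, IsCompl (LinearMap.range (F 1 q).toLinearMap) (D (f q))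

section Flag

variable {V : Type*} [NormedAddCommGroup V] [InnerProductSpace ℝ V]

/-- The image of a field of subspaces. -/
def jm (J : M → (E →L[ℝ] V)) (D : M → Submodule ℝ E) (p : M) : Submodule ℝ V :=
  Submodule.map (J p).toLinearMap (D p)

lemma jm_span1 {J : M → (E →L[ℝ] V)} {D : M → Submodule ℝ E} {p : M} {a : E}
    (h : D p = Submodule.span ℝ {a}) : jm J D p = Submodule.span ℝ {J p a} := by
  rw [jm, h, Submodule.map_span, image_singleton]
  rfl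

lemma jm_span2 {J : M → (E →L[ℝ] V)} {D : M → Submodule ℝ E} {p : M} {a b : E}
    (h : D p = Submodule.span ℝ {a, b}) : jm J D p = Submodule.span ℝ {J p a, J p b} := by
  rw [jm, h, Submodule.map_span, image_pair]
  rfl

/-- An orthonormal frame of the flag along `g`. -/
def Fl {X : Type*} (J : M → (E →L[ℝ] V)) (D : Distr E M) (g : X → M) (W Y : X → V) : Prop :=
  ∀ x, ‖W x‖ = 1 ∧ ‖Y x‖ = 1 ∧ jm J (chl D) (g x) = Submodule.span ℝ {W x} ∧
    jm J D (g x) ⊓ (jm J (chl D) (g x))ᗮ = Submodule.span ℝ {Y x} ∧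
    jm J D (g x) = Submodule.span ℝ {W x, Y x}

lemma flag_along (hE : Module.finrank ℝ E = 4) {D : Distr E M} (hD : Engel D)
    {J : M → (E →L[ℝ] V)}
    (hJ : ContMDiff 𝓘(ℝ, E).tangent 𝓘(ℝ, V) ∞ fun z : TangentBundle 𝓘(ℝ, E) M => J z.1 z.2)
    {X : Type*} [NormedAddCommGroup X] [NormedSpace ℝ X] {g : X → M}
    (hg : ContMDiff 𝓘(ℝ, X) 𝓘(ℝ, E) ∞ g) (hi : ∀ x, Function.Injective (J (g x))) :
    ∃ W Y : X → V, ContDiff ℝ ∞ W ∧ ContDiff ℝ ∞ Y ∧ Fl J D g W Y := by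
  refine lift_flag (fun x => jm J (chl D) (g x)) (fun x => jm J D (g x)) fun x₀ => ?_
  obtain ⟨U, W, Y, hU, hp, hA, hs⟩ := exists_ad hE hD (g x₀)
  have sm : ∀ {u : VField E M}, (∀ p ∈ U, SmAt u p) →
      ContDiffOn ℝ ∞ (fun x => J (g x) (u (g x))) (g ⁻¹' U) := fun {u} hu x hx =>
    ((hJ _).comp x ((hu _ hx).comp x (hg x))).contDiffAt.contDiffWithinAt
  refine ⟨g ⁻¹' U, _, _, hU.preimage hg.continuous, hp, sm hA.hW, sm hA.hX, fun x hx => ⟨?_, ?_, ?_⟩⟩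
  · have := (ind2_of3 (ind3_of4 (hA.ind _ hx))).map' (J (g x)).toLinearMap
      (LinearMap.ker_eq_bot.mpr (hi x))
    convert! this using 1
    funext i; fin_cases i <;> rfl
  · exact jm_span1 (hs _ hx).2
  · exact jm_span2 (hs _ hx).1

lemma Fl.signs {J : M → (E →L[ℝ] V)} {D : Distr E M} {X : Type*} [NormedAddCommGroup X]
    [NormedSpace ℝ X] {g : X → M} {W Y : X → V} (h : Fl J D g W Y) (hW : Continuous W)
    (hY : Continuous Y) {γ : X → X} (hγ : Continuous γ) (e : ∀ x, g (γ x) = g x) :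
    ∃ a b : ℝ, (a = 1 ∨ a = -1) ∧ (b = 1 ∨ b = -1) ∧
      (∀ x, W (γ x) = a • W x) ∧ ∀ x, Y (γ x) = b • Y x := by
  obtain ⟨a, b, ha, hb, ea, eb⟩ := flag_signs hW hY h hγ LinearIsometry.id
    (fun x v hv => by rw [e]; exact hv) (fun x v hv => by rw [e]; exact hv)
  refine ⟨a, b, ha, hb, fun x => ?_, fun x => ?_⟩
  · rw [show W x = _ from ea x, smul_smul, sq_sign ha, one_smul]
  · rw [show Y x = _ from eb x, smul_smul, sq_sign hb, one_smul]

end Flag

theorem stage_tube [T2Space M] (hE : Module.finrank ℝ E = 4) {D : Distr E M} (hD : Engel D)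
    {κ : ℝ} (hκ : κ = 1 ∨ κ = -1) {f : Q → M} {F : UI → Q → (Q →L[ℝ] E)} (h : PF κ D f F)
    {U : Set M} (hU : IsOpen U) (hfU : ∀ q, f q ∈ U) :
    ∃ (N : ℕ) (J : M → (E →L[ℝ] EuclideanSpace ℝ (Fin N))) (Θ : G → M) (wS xS wT xT : ℝ)
      (W Y : Q → EuclideanSpace ℝ (Fin N)),
      (wS = 1 ∨ wS = -1) ∧ (xS = 1 ∨ xS = -1) ∧ (wT = 1 ∨ wT = -1) ∧ (xT = 1 ∨ xT = -1) ∧
      ContMDiff 𝓘(ℝ, E).tangent 𝓘(ℝ, EuclideanSpace ℝ (Fin N)) ∞
        (fun z : TangentBundle 𝓘(ℝ, E) M => J z.1 z.2) ∧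
      (∀ p, Function.Injective (J (Θ p))) ∧ ContMDiff 𝓘(ℝ, G) 𝓘(ℝ, E) ∞ Θ ∧
      (∀ p, (md E Θ p).IsInvertible) ∧
      (∀ p p', Θ p = Θ p' ↔ ∃ m n, p' = BB κ wS xS wT xT m n p) ∧ (∀ q, Θ (i0 q) = f q) ∧
      (∀ p, Θ p ∈ U) ∧ Continuous W ∧ Continuous Y ∧ Fl J D f W Y ∧
      (∀ q, W (Ra q) = wS • W q) ∧ (∀ q, Y (Ra q) = xS • Y q) ∧
      (∀ q, W (Rb κ q) = wT • W q) ∧ ∀ q, Y (Rb κ q) = xT • Y q := by
  have fd : ∀ m n q, f (deck κ m n q) = f q := fun m n q => ((h.fib q _).mpr ⟨m, n, rfl⟩).symm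
  have fa : ∀ q, f (Ra q) = f q := fun q => by rw [← deck_Ra κ, fd]
  have fb : ∀ q, f (Rb κ q) = f q := fun q => by rw [← deck_Rb κ, fd]
  have pf : Per f := per_of_gen (fun q => by rw [← Ra_Ra, fa, fa])
    fun q => by rw [← Rb_Rb hκ, fb, fb]
  obtain ⟨N, J, P, r, hJ, hJP, hr, hPJ, r0, hEx⟩ :=
    exists_emb (E := E) (Manifold.range_compact h.smooth.continuous pf)
  have Ji : ∀ p, 0 < r p → Function.Injective (J p) := fun p hp u v e =>
    smul_right_injective E hp.ne' (by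
      change r p • u = r p • v
      rw [← hPJ, ← hPJ, e])
  have rf : ∀ q, 0 < r (f q) := fun q => r0 _ ⟨q, rfl⟩
  obtain ⟨W, Y, hW, hY, hF⟩ := flag_along hE hD hJ h.smooth fun q => Ji _ (rf q)
  obtain ⟨wS, xS, hwS, hxS, Wa, Ya⟩ := hF.signs hW.continuous hY.continuous Ra_smooth.continuous fa
  obtain ⟨wT, xT, hwT, hxT, Wb, Yb⟩ :=
    hF.signs hW.continuous hY.continuous (Rb_smooth κ).continuous fb
  have Fa : ∀ s q v, F s (Ra q) v = F s q v := fun s q v => by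
    simpa [deck_Ra, SymB.linA_apply] using h.inv s 1 0 q v
  have Fb : ∀ s q v, F s (Rb κ q) (κ * v.1, v.2) = F s q v := fun s q v => by
    simpa [deck_Rb, SymB.linA_apply] using h.inv s 0 1 q v
  let A : UI → Q → EuclideanSpace ℝ (Fin N) × EuclideanSpace ℝ (Fin N) := fun s q =>
    (J (f q) (F s q (1, 0)), J (f q) (F s q (0, 1)))
  have eA : ∀ s q (v : Q), v.1 • (A s q).1 + v.2 • (A s q).2 = J (f q) (F s q v) := fun s q v =>
    Manifold.ap_cols ((J (f q)).comp (F s q)) v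
  have cA : ∀ v, Continuous fun z : UI × Q => J (f z.2) (F z.1 z.2 v) := fun v =>
    hJ.continuous.comp (h.cont.comp (continuous_fst.prodMk (continuous_snd.prodMk continuous_const)))
  have mem : ∀ q, ∀ u ∈ jm J D (f q), u ∈ LinearMap.range (J (f q)).toLinearMap :=
    fun q u hu => LinearMap.map_le_range hu
  obtain ⟨n₁, n₂, s₁, s₂, a1, b1, a2, b2, hn⟩ := normal_signs hκ hxS hxT hwS hwT (A := A)
    ((cA _).prodMk (cA _))
    (fun s q => LinearIndependent.pair_iff.mpr fun a b e => by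
      have := h.inj s q (Ji _ (rf q) (((eA s q (a, b)).symm.trans e).trans (by simp)) :
        F s q (a, b) = F s q 0)
      exact ⟨congrArg Prod.fst this, congrArg Prod.snd this⟩)
    (fun s q => by simp only [A, fa, Fa])
    (fun s q => by
      simp only [A, fb]
      rw [← Fb s q (0, 1), ← Fb s q (1, 0), ← map_smul, ← map_smul]
      simp [sq_sign hκ])
    hY.continuous hW.continuous Ya Yb Wa Wb
    (fun q c d hm => by
      obtain ⟨a, b, e⟩ := Submodule.mem_span_pair.mp hm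
      have h1 : c • Y q + d • W q ∈ jm J D (f q) := by
        rw [(hF q).2.2.2.2]
        exact Submodule.mem_span_pair.mpr ⟨d, c, add_comm _ _⟩
      obtain ⟨u, hu, eu⟩ := h1
      have h2 : F 1 q (a, b) = u := Ji _ (rf q) (((eA 1 q (a, b)).symm.trans e).trans eu.symm)
      have h3 : u = 0 := Submodule.disjoint_def.mp (h.tr q).disjoint u ⟨(a, b), h2⟩ hu
      have h4 : c • Y q + d • W q = 0 := by rw [← eu, h3, map_zero]
      have h5 : ⟪W q, Y q⟫ = 0 := by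
        have : Y q ∈ jm J D (f q) ⊓ (jm J (chl D) (f q))ᗮ := by
          rw [(hF q).2.2.2.1]; exact Submodule.mem_span_singleton_self _
        exact this.2 _ (by rw [(hF q).2.2.1]; exact Submodule.mem_span_singleton_self _)
      have h6 := congrArg (fun u => ⟪W q, u⟫) h4
      simp only [inner_add_right, real_inner_smul_right, h5, real_inner_self_eq_norm_sq,
        (hF q).1, inner_zero_right] at h6
      have hd : d = 0 := by linarith
      rw [hd, zero_smul, add_zero, smul_eq_zero] at h4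
      refine ⟨h4.resolve_right fun h0 => ?_, hd⟩
      simpa [h0] using (hF q).2.1)
    (S := fun q => LinearMap.range (J (f q)).toLinearMap) (fun q s => ⟨⟨_, rfl⟩, ⟨_, rfl⟩⟩)
    (fun q => mem q _ (by rw [(hF q).2.2.2.2]; exact mem2_2 _ _))
    (fun q => mem q _ (by rw [(hF q).2.2.2.2]; exact mem2_1 _ _))
    (P := fun q => (J (f q)).comp (P (f q))) (hJP.comp h.smooth.continuous)
    (fun q m => by simp only [pf q m]) (fun q => (rf q).ne')
    (by rintro q _ ⟨u, rfl⟩; simp [hPJ])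
  obtain ⟨Ex, inv, zero, smooth, fib⟩ := hEx Q f h.smooth
  have nd : ∀ m n q z, nf n₁ n₂ (deck κ m n q) z =
      nf n₁ n₂ q (sg2 (xS ^ m * xT ^ n) (wS ^ m * wT ^ n) z) := fun m n q z => by
    rw [nf_apply, nf_apply, deck_signs hκ hxS hxT a1 b1, deck_signs hκ hwS hwT a2 b2, sg2_re,
      sg2_im]
    module
  have sx := fun m n : ℤ => sign_mul (sign_zpow hxS m) (sign_zpow hxT n)
  have sw := fun m n : ℤ => sign_mul (sign_zpow hwS m) (sign_zpow hwT n)
  have ss : ∀ {a b : ℝ}, a = 1 ∨ a = -1 → b = 1 ∨ b = -1 → ∀ z, sg2 a b (sg2 a b z) = z :=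
    fun ha hb z => Complex.ext (by simp [← mul_assoc, sq_sign ha]) (by simp [← mul_assoc, sq_sign hb])
  have sn : ∀ {a b : ℝ}, a = 1 ∨ a = -1 → b = 1 ∨ b = -1 → ∀ z, ‖sg2 a b z‖ = ‖z‖ :=
    fun ha hb z => by
      rw [Complex.norm_def, Complex.norm_def, Complex.normSq_apply, Complex.normSq_apply, sg2_re,
        sg2_im, mul_mul_mul_comm, sq_sign ha, mul_mul_mul_comm _ z.im, sq_sign hb, one_mul, one_mul]
  have hn' : ∀ (q v : Q) (a b : ℝ), md E f q v + a • P (f q) (n₁ q) + b • P (f q) (n₂ q) = 0 →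
      v = 0 ∧ a = 0 ∧ b = 0 := fun q v a b e => by
    have := ind4_iff'.mp (hn q) v.1 v.2 a b (by
      have := congrArg (J (f q)) e
      rw [map_add, map_add, map_smul, map_smul, map_zero, ← h.start, ← eA] at this
      exact this)
    exact ⟨Prod.ext this.1 this.2.1, this.2.2⟩
  obtain ⟨Θ, hΘ, hi, hfib, h0, hΘU⟩ := tube hE pf inv zero smooth fib s₁ s₂
    (per_of_signs hκ hxS hxT a1 b1) (per_of_signs hκ hwS hwT a2 b2) hn'
    (fun q q' e => by
      obtain ⟨m, n, rfl⟩ := (h.fib _ _).mp e.symm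
      exact ⟨deck κ m n, sg2 (xS ^ m * xT ^ n) (wS ^ m * wT ^ n), by unfold deck; fun_prop,
        (sg2 _ _).continuous, rfl, fun y z => ⟨fd m n y, by rw [nd, ss (sx m n) (sw m n)],
          sn (sx m n) (sw m n) z⟩⟩)
    (hU.inter (isOpen_lt continuous_const hr)) fun q => ⟨hfU q, rf q⟩
  refine ⟨N, J, Θ, wS, xS, wT, xT, W, Y, hwS, hxS, hwT, hxT, hJ, fun p => Ji _ (hΘU p).2, hΘ, hi,
    fun p p' => (hfib p p').trans ⟨fun e => ?_, ?_⟩, h0, fun p => (hΘU p).1, hW.continuous,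
    hY.continuous, hF, Wa, Ya, Wb, Yb⟩
  · obtain ⟨m, n, e1⟩ := (h.fib _ _).mp e.1
    have e2 := e.2.1
    rw [e1, nd, ← sub_eq_zero, ← map_sub, nf_apply] at e2
    have e3 := (hn' (pq p) 0 _ _ (by
      have := congrArg (P (f (pq p))) e2
      rw [map_add, map_smul, map_smul, map_zero] at this
      rw [map_zero, zero_add, this])).2
    have e4 : p.2 = sg2 (xS ^ m * xT ^ n) (wS ^ m * wT ^ n) p'.2 :=
      sub_eq_zero.mp (Complex.ext e3.1 e3.2)
    refine ⟨m, n, Prod.ext (Complex.ext ?_ ?_) ?_⟩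
    · simpa [BB, SymB.LL_apply, i0, pq, deck] using congrArg Prod.fst e1
    · simpa [BB, SymB.LL_apply, i0, pq, deck] using congrArg Prod.snd e1
    · rw [← ss (sx m n) (sw m n) p'.2, ← e4]
      simp [BB, LL, i0]
  · rintro ⟨m, n, rfl⟩
    have e1 : pq (BB κ wS xS wT xT m n p) = deck κ m n (pq p) := by
      simp [BB, SymB.LL_apply, i0, pq, deck]
    have e2 : (BB κ wS xS wT xT m n p).2 = sg2 (xS ^ m * xT ^ n) (wS ^ m * wT ^ n) p.2 := by
      simp [BB, LL, i0]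
    rw [e1, e2, fd, nd, ss (sx m n) (sw m n), sn (sx m n) (sw m n)]
    exact ⟨rfl, rfl, rfl⟩

end

end Pool.Agent.Lib.MP_72f1d0_gt.Eq.Man
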