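import Mathlib

/-!
Definitions used in the statement on surfaces transverse to an Engel structure.
`M` is a manifold modelled on a normed space `E` (the theorem takes `E = ℝ⁴`), and the surface
`S` is a manifold for a model with corners `J`.
-/

open scoped Manifold ContDiff unitInterval

namespace Pool.Agent.Lib.MP_72f1d0_gt.Eq.Stmt

section Distributions

variable (E : Type*) [NormedAddCommGroup E] [NormedSpace ℝ E]

/-- Vector fields on `M`. -/
abbrev VField (M : Type*) [TopologicalSpace M] [ChartedSpace E M] : Type _ :=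
  Π p : M, TangentSpace 𝓘(ℝ, E) p

/-- Fields of tangent subspaces on `M`. -/
abbrev Distr (M : Type*) [TopologicalSpace M] [ChartedSpace E M] : Type _ :=
  Π p : M, Submodule ℝ (TangentSpace 𝓘(ℝ, E) p)

variable {E} {M : Type*} [TopologicalSpace M] [ChartedSpace E M] [IsManifold 𝓘(ℝ, E) 1 M]

/-- `V` is a smooth vector field on the set `U`. -/
def SmoothOn (V : VField E M) (U : Set M) : Prop :=
  ContMDiffOn 𝓘(ℝ, E) 𝓘(ℝ, E).tangent ∞ (fun p => (⟨p, V p⟩ : TangentBundle 𝓘(ℝ, E) M)) U

/-- `D` is a smooth distribution of rank `k`: near each point it is spanned by `k` smooth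
vector fields that are linearly independent at each point. -/
def SmoothRank (D : Distr E M) (k : ℕ) : Prop :=
  ∀ p, ∃ U : Set M, IsOpen U ∧ p ∈ U ∧ ∃ V : Fin k → VField E M, (∀ i, SmoothOn (V i) U) ∧
    ∀ x ∈ U, LinearIndependent ℝ (fun i => V i x) ∧
      Submodule.span ℝ (Set.range fun i => V i x) = D x

/-- `V` is a smooth section of `D` near `p`. -/
def LocalSection (D : Distr E M) (p : M) (V : VField E M) : Prop :=
  ∃ U : Set M, IsOpen U ∧ p ∈ U ∧ SmoothOn V U ∧ ∀ x ∈ U, V x ∈ D x

/-- The derived distribution `[D, D]`, spanned at `p` by `D p` and the values at `p` of the Lie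
brackets of smooth sections of `D` near `p`. -/
noncomputable def derived (D : Distr E M) : Distr E M := fun p =>
  D p ⊔ Submodule.span ℝ {w | ∃ V V' : VField E M, LocalSection D p V ∧ LocalSection D p V' ∧
    w = VectorField.mlieBracket 𝓘(ℝ, E) V V' p}

/-- `D` is an Engel structure: a smooth distribution of rank 2 such that `[D, D]` is a smooth
distribution of rank 3 whose derived distribution is the whole tangent bundle. -/
def Engel (D : Distr E M) : Prop :=
  SmoothRank D 2 ∧ SmoothRank (derived D) 3 ∧ ∀ p, derived (derived D) p = ⊤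

end Distributions

section Surfaces

variable {E₂ H : Type*} [NormedAddCommGroup E₂] [NormedSpace ℝ E₂] [TopologicalSpace H]
  (J : ModelWithCorners ℝ E₂ H) (E : Type*) [NormedAddCommGroup E] [NormedSpace ℝ E]
  {S : Type*} [TopologicalSpace S] [ChartedSpace H S]
  {M : Type*} [TopologicalSpace M] [ChartedSpace E M]

/-- The differential of `f` at `x`. -/
noncomputable def diff (f : S → M) (x : S) :
    TangentSpace J x →L[ℝ] TangentSpace 𝓘(ℝ, E) (f x) :=
  mfderiv J 𝓘(ℝ, E) f x

/-- `f` is a smooth injective immersion (an embedding, for compact `S`). -/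
def IsEmb (f : S → M) : Prop :=
  ContMDiff J 𝓘(ℝ, E) ∞ f ∧ Function.Injective f ∧ ∀ x, Function.Injective (diff J E f x)

/-- A map `f : S → M` with a family `F s`, `s ∈ [0, 1]`, of fibrewise linear maps
`TS → f^* TM`. -/
structure Data (S : Type*) [TopologicalSpace S] [ChartedSpace H S]
    (M : Type*) [TopologicalSpace M] [ChartedSpace E M] where
  f : S → M
  F : I → (x : S) → TangentSpace J x →L[ℝ] TangentSpace 𝓘(ℝ, E) (f x)

variable {J E}

/-- The map `TS → TM` given by `F s`. -/
noncomputable def Data.total (A : Data J E S M) (s : I) (v : TangentBundle J S) : TangentBundle 𝓘(ℝ, E) M :=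
  ⟨A.f v.1, A.F s v.1 v.2⟩

/-- `F s = df` for all `s`. -/
def Data.Genuine (A : Data J E S M) : Prop := ∀ s x, A.F s x = diff J E A.f x

variable [IsManifold J 1 S] [IsManifold 𝓘(ℝ, E) 1 M]

/-- `(f, F)` is a formal transverse embedding: `f` is an embedding, `F s` is a continuous family
of fibrewise injective bundle maps, `F 0 = df`, and the image of `F 1` is complementary
to `D`. -/
def Data.Formal (A : Data J E S M) (D : Distr E M) : Prop :=
  IsEmb J E A.f ∧
  (Continuous fun z : I × TangentBundle J S => A.total z.1 z.2) ∧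
  (∀ s x, Function.Injective (A.F s x)) ∧
  (∀ x, A.F 0 x = diff J E A.f x) ∧
  ∀ x, IsCompl (LinearMap.range (A.F 1 x).toLinearMap) (D (A.f x))

/-- `γ` is a path of data: the maps form a smooth isotopy and the bundle maps are jointly
continuous. -/
def IsPath (γ : I → Data J E S M) : Prop :=
  (∃ h : ℝ × S → M, ContMDiff (𝓘(ℝ, ℝ).prod J) 𝓘(ℝ, E) ∞ h ∧
    ∀ (l : I) (x : S), (γ l).f x = h (l, x)) ∧
  Continuous fun z : I × I × TangentBundle J S => (γ z.1).total z.2.1 z.2.2

/-- The deck transformations `(s, t) ↦ (e ^ n s + m / 2, t + n / 2)` of the plane; the quotient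
is the torus for `e = 1` and the Klein bottle for `e = -1`. -/
noncomputable def deck (e : ℝ) (m n : ℤ) (q : ℝ × ℝ) : ℝ × ℝ :=
  (e ^ n * q.1 + m / 2, q.2 + n / 2)

variable (J) in
/-- `S` is a finite disjoint union of tori and Klein bottles: finitely many local
diffeomorphisms from the plane cover `S`, their images are disjoint, and the fibres of each are
the orbits of the deck group of the torus or of the Klein bottle. -/
def ToriKlein (S : Type*) [TopologicalSpace S] [ChartedSpace H S] : Prop :=
  ∃ (k : ℕ) (e : Fin k → ℝ) (π : Fin k → ℝ × ℝ → S), (∀ i, e i = 1 ∨ e i = -1) ∧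
    (∀ i, IsLocalDiffeomorph 𝓘(ℝ, ℝ × ℝ) J ∞ (π i)) ∧ (∀ x, ∃ i q, π i q = x) ∧
    ∀ i j q q', π i q = π j q' ↔ i = j ∧ ∃ m n : ℤ, q' = deck (e i) m n q

end Surfaces

end Pool.Agent.Lib.MP_72f1d0_gt.Eq.Stmt
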